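/-
MP_59bda2_co, project UT (uniform Turan density of the tetrahedron). Common definitions.
Pairs of the 4 vertices are 12,13,14,23,24,34; faces A = 123, B = 124, C = 134, D = 234,
a face function takes the colours of its pairs in lexicographic order:
A a12 a13 a23, B a12 a14 a24, C a13 a14 a34, D a23 a24 a34.
-/
import Mathlib

set_option autoImplicit false

namespace Pool.UT

open Finset

noncomputable section

/-- A palette `T` (ternary relation on colours) is K4-free if no four faces are all in `T`;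
colours may coincide. -/
def K4FreePal {κ : Type*} (T : κ → κ → κ → Prop) : Prop :=
  ¬ ∃ a b c d e f : κ, T a b c ∧ T a d e ∧ T b d f ∧ T c e f

open Classical in
/-- number of triples of a palette on `Fin k` -/
def palCount (k : ℕ) (T : Fin k → Fin k → Fin k → Prop) : ℕ :=
  ((univ : Finset (Fin k × Fin k × Fin k)).filter (fun p => T p.1 p.2.1 p.2.2)).card

/-- the palette bound with constant `c` -/
def PL (c : ℝ) : Prop :=
  ∀ (k : ℕ) (T : Fin k → Fin k → Fin k → Prop), K4FreePal T → (palCount k T : ℝ) ≤ c * (k : ℝ) ^ 3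

/-- probability weights on a finite type -/
def IsProb {α : Type*} [Fintype α] (w : α → ℝ) : Prop := (∀ a, 0 ≤ w a) ∧ ∑ a, w a = 1

open Classical in
/-- cell average (conditional expectation) of `g` on the cells of the colouring `c`,
with respect to the weights `w`; it is 0 on null cells -/
def cE {α κ : Type*} [Fintype α] (w : α → ℝ) (c : α → κ) (g : α → ℝ) (a : α) : ℝ :=
  (∑ b, if c b = c a then w b * g b else 0) / (∑ b, if c b = c a then w b else 0)

/-- weighted count of a tetrahedron pattern -/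
def K4gen {Γ : Type*} [Fintype Γ] (p12 p13 p14 p23 p24 p34 : Γ → ℝ)
    (A B C D : Γ → Γ → Γ → ℝ) : ℝ :=
  ∑ a12, ∑ a13, ∑ a14, ∑ a23, ∑ a24, ∑ a34,
    p12 a12 * p13 a13 * p14 a14 * p23 a23 * p24 a24 * p34 a34 *
      (A a12 a13 a23 * B a12 a14 a24 * C a13 a14 a34 * D a23 a24 a34)

/-- weighted density of one face -/
def D3gen {Γ : Type*} [Fintype Γ] (p12 p13 p23 : Γ → ℝ) (A : Γ → Γ → Γ → ℝ) : ℝ :=
  ∑ a12, ∑ a13, ∑ a23, p12 a12 * p13 a13 * p23 a23 * A a12 a13 a23

/-- the quantity that controls the replacement of a face by its cell average along one pair: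
`g'` are the restrictions of one face to this pair, `g` those of the other face containing it -/
def beta {Γ X Y κ : Type*} [Fintype Γ] [Fintype X] [Fintype Y] (w : Γ → ℝ) (c : Γ → κ)
    (q' : Y → ℝ) (g' : Y → Γ → ℝ) (q : X → ℝ) (g : X → Γ → ℝ) : ℝ :=
  ∑ y, q' y * ∑ x, q x * (∑ a, w a * (g' y a * (g x a - cE w c (g x) a))) ^ 2

/-- an ordered reduced system on the indices `0,…,n-1`: weights `μ i j` on the colours of the
pair `i < j`, face functions `W i j l` for `i < j < l`, all densities `≥ d`, all tetrahedron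
counts `≤ ε` -/
structure IsRS (n : ℕ) {Γ : Type} [Fintype Γ] (μ : ℕ → ℕ → Γ → ℝ)
    (W : ℕ → ℕ → ℕ → Γ → Γ → Γ → ℝ) (d ε : ℝ) : Prop where
  prob : ∀ i j, i < j → j < n → IsProb (μ i j)
  nonneg : ∀ i j l a b c, 0 ≤ W i j l a b c
  le_one : ∀ i j l a b c, W i j l a b c ≤ 1
  dens : ∀ i j l, i < j → j < l → l < n → d ≤ D3gen (μ i j) (μ i l) (μ j l) (W i j l)
  k4 : ∀ i j l m, i < j → j < l → l < m → m < n →
    K4gen (μ i j) (μ i l) (μ i m) (μ j l) (μ j m) (μ l m)
      (W i j l) (W i j m) (W i l m) (W j l m) ≤ ε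

open Classical in
/-- push-forward weights -/
def pw {Γ κ : Type*} [Fintype Γ] (p : Γ → ℝ) (c : Γ → κ) (γ : κ) : ℝ :=
  ∑ a, if c a = γ then p a else 0

/-- cell average of a face in all three variables -/
def av3 {Γ κ : Type*} [Fintype Γ] (p q s : Γ → ℝ) (c c' c'' : Γ → κ)
    (A : Γ → Γ → Γ → ℝ) (a b d : Γ) : ℝ :=
  cE p c (fun a' => cE q c' (fun b' => cE s c'' (fun d' => A a' b' d') d) b) a

open Classical in
/-- value of the cell average on the cells -/
def cv {Γ κ : Type*} [Fintype Γ] (p q s : Γ → ℝ) (c c' c'' : Γ → κ)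
    (A : Γ → Γ → Γ → ℝ) (x y z : κ) : ℝ :=
  (∑ a, ∑ b, ∑ d, if c a = x ∧ c' b = y ∧ c'' d = z then p a * q b * s d * A a b d else 0) /
    (pw p c x * pw q c' y * pw s c'' z)

end

end Pool.UT
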