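/-
UT CE: the calculus of cell averages cE (conditional expectation on a finite weighted set).
All weights are nonnegative.  Cells {b | c b = c a} of total weight 0 have w b = 0 for every b in
them, so that w a * (anything) = 0 there; cE is 0 there by division by 0.
-/
import Pool.Agent.H95.UT.Defs

set_option autoImplicit false

namespace Pool.UT

open Finset

variable {α κ κ' : Type*} [Fintype α]

/-- the weight of a cell -/
private noncomputable def ceDen (w : α → ℝ) (c : α → κ) (a : α) : ℝ :=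
  ∑ b, @ite _ (c b = c a) (Classical.propDecidable _) (w b) 0

/-- the numerator -/
private noncomputable def ceNum (w : α → ℝ) (c : α → κ) (g : α → ℝ) (a : α) : ℝ :=
  ∑ b, @ite _ (c b = c a) (Classical.propDecidable _) (w b * g b) 0

private theorem ce_def (w : α → ℝ) (c : α → κ) (g : α → ℝ) (a : α) :
    cE w c g a = ceNum w c g a / ceDen w c a := rfl

private theorem ceDen_cells (w : α → ℝ) (c : α → κ) {a b : α} (h : c a = c b) :
    ceDen w c a = ceDen w c b := by
  unfold ceDen
  rw [h]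

private theorem ceNum_cells (w : α → ℝ) (c : α → κ) (g : α → ℝ) {a b : α} (h : c a = c b) :
    ceNum w c g a = ceNum w c g b := by
  unfold ceNum
  rw [h]

private theorem ceDen_nonneg (w : α → ℝ) (hw : ∀ a, 0 ≤ w a) (c : α → κ) (a : α) :
    0 ≤ ceDen w c a := by
  unfold ceDen
  apply Finset.sum_nonneg
  intro b _
  split_ifs
  · exact hw b
  · exact le_refl _

private theorem w_zero_of_den (w : α → ℝ) (hw : ∀ a, 0 ≤ w a) (c : α → κ) {a : α}
    (h : ceDen w c a = 0) : w a = 0 := by
  unfold ceDen at h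
  have h1 := (Finset.sum_eq_zero_iff_of_nonneg (fun b _ => by
    split_ifs
    · exact hw b
    · exact le_refl _)).1 h a (Finset.mem_univ a)
  simpa using h1

theorem ce_cells (w : α → ℝ) (c : α → κ) (g : α → ℝ) (a b : α) (h : c a = c b) :
    cE w c g a = cE w c g b := by
  rw [ce_def, ce_def, ceDen_cells w c h, ceNum_cells w c g h]

theorem ce_congr (w : α → ℝ) (c : α → κ) (c' : α → κ') (g : α → ℝ)
    (h : ∀ a b, c a = c b ↔ c' a = c' b) : cE w c g = cE w c' g := by
  funext a
  rw [ce_def, ce_def]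
  have h1 : ceNum w c g a = ceNum w c' g a := by
    unfold ceNum
    apply Finset.sum_congr rfl
    intro b _
    by_cases hb : c b = c a
    · rw [if_pos hb, if_pos ((h b a).1 hb)]
    · rw [if_neg hb, if_neg (mt (h b a).2 hb)]
  have h2 : ceDen w c a = ceDen w c' a := by
    unfold ceDen
    apply Finset.sum_congr rfl
    intro b _
    by_cases hb : c b = c a
    · rw [if_pos hb, if_pos ((h b a).1 hb)]
    · rw [if_neg hb, if_neg (mt (h b a).2 hb)]
  rw [h1, h2]

theorem ce_nonneg (w : α → ℝ) (hw : ∀ a, 0 ≤ w a) (c : α → κ) (g : α → ℝ) (hg : ∀ a, 0 ≤ g a)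
    (a : α) : 0 ≤ cE w c g a := by
  rw [ce_def]
  apply div_nonneg _ (ceDen_nonneg w hw c a)
  unfold ceNum
  apply Finset.sum_nonneg
  intro b _
  split_ifs
  · exact mul_nonneg (hw b) (hg b)
  · exact le_refl _

theorem ce_le_one (w : α → ℝ) (hw : ∀ a, 0 ≤ w a) (c : α → κ) (g : α → ℝ) (hg : ∀ a, g a ≤ 1)
    (a : α) : cE w c g a ≤ 1 := by
  rw [ce_def]
  apply div_le_one_of_le₀ _ (ceDen_nonneg w hw c a)
  unfold ceNum ceDen
  apply Finset.sum_le_sum
  intro b _
  split_ifs
  · exact mul_le_of_le_one_right (hw b) (hg b)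
  · exact le_refl _

theorem ce_add (w : α → ℝ) (c : α → κ) (g g' : α → ℝ) (a : α) :
    cE w c (fun x => g x + g' x) a = cE w c g a + cE w c g' a := by
  rw [ce_def, ce_def, ce_def, ← add_div]
  congr 1
  unfold ceNum
  rw [← Finset.sum_add_distrib]
  apply Finset.sum_congr rfl
  intro b _
  split_ifs
  · ring
  · ring

theorem ce_smul (w : α → ℝ) (c : α → κ) (r : ℝ) (g : α → ℝ) (a : α) :
    cE w c (fun x => r * g x) a = r * cE w c g a := by
  rw [ce_def, ce_def, ← mul_div_assoc]
  congr 1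
  unfold ceNum
  rw [Finset.mul_sum]
  apply Finset.sum_congr rfl
  intro b _
  split_ifs
  · ring
  · ring

theorem ce_finset_sum {ι : Type*} (s : Finset ι) (w : α → ℝ) (c : α → κ) (r : ι → ℝ)
    (g : ι → α → ℝ) (a : α) :
    cE w c (fun x => ∑ i ∈ s, r i * g i x) a = ∑ i ∈ s, r i * cE w c (g i) a := by
  classical
  induction s using Finset.induction_on with
  | empty =>
    simp only [Finset.sum_empty]
    rw [ce_def]
    have : ceNum w c (fun _ => (0 : ℝ)) a = 0 := by
      unfold ceNum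
      apply Finset.sum_eq_zero
      intro b _
      simp
    rw [this, zero_div]
  | insert j s hj ih =>
    simp only [Finset.sum_insert hj]
    rw [ce_add w c (fun x => r j * g j x) (fun x => ∑ i ∈ s, r i * g i x), ce_smul, ih]

private theorem ce_bil (w : α → ℝ) (c : α → κ) (g h : α → ℝ) :
    ∑ a, w a * (cE w c g a * h a) = ∑ a, ∑ b, @ite _ (c b = c a) (Classical.propDecidable _)
      (w a * w b * (g b * h a) / ceDen w c a) 0 := by
  apply Finset.sum_congr rfl
  intro a _
  rw [ce_def]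
  unfold ceNum
  rw [div_mul_eq_mul_div, Finset.sum_mul, ← mul_div_assoc, Finset.mul_sum, Finset.sum_div]
  apply Finset.sum_congr rfl
  intro b _
  split_ifs
  · ring
  · ring

private theorem ce_selfadj0 (w : α → ℝ) (c : α → κ) (g h : α → ℝ) :
    ∑ a, w a * (cE w c g a * h a) = ∑ a, w a * (g a * cE w c h a) := by
  have h1 : ∑ a, w a * (g a * cE w c h a) = ∑ a, w a * (cE w c h a * g a) := by
    apply Finset.sum_congr rfl
    intro a _
    ring
  rw [h1, ce_bil, ce_bil, Finset.sum_comm]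
  apply Finset.sum_congr rfl
  intro b _
  apply Finset.sum_congr rfl
  intro a _
  by_cases hab : c b = c a
  · rw [if_pos hab, if_pos hab.symm, ceDen_cells w c hab]
    ring
  · rw [if_neg hab, if_neg (fun hh => hab hh.symm)]

private theorem ce_meas0 (w : α → ℝ) (hw : ∀ a, 0 ≤ w a) (c : α → κ) (h : α → ℝ)
    (hh : ∀ a b, c a = c b → h a = h b) (a : α) : w a * cE w c h a = w a * h a := by
  rw [ce_def]
  have h1 : ceNum w c h a = h a * ceDen w c a := by
    unfold ceNum ceDen
    rw [Finset.mul_sum]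
    apply Finset.sum_congr rfl
    intro b _
    by_cases hb : c b = c a
    · rw [if_pos hb, if_pos hb, hh b a hb, mul_comm]
    · rw [if_neg hb, if_neg hb, mul_zero]
  rw [h1]
  by_cases hd : ceDen w c a = 0
  · rw [w_zero_of_den w hw c hd, zero_mul, zero_mul]
  · rw [mul_div_assoc, div_self hd, mul_one]

/-- total mass is preserved -/
theorem ce_sum (w : α → ℝ) (hw : ∀ a, 0 ≤ w a) (c : α → κ) (g : α → ℝ) :
    ∑ a, w a * cE w c g a = ∑ a, w a * g a := by
  have h1 := ce_selfadj0 w c g (fun _ => 1)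
  simp only [mul_one] at h1
  rw [h1]
  apply Finset.sum_congr rfl
  intro a _
  have h2 := ce_meas0 w hw c (fun _ => (1 : ℝ)) (fun _ _ _ => rfl) a
  rw [mul_one] at h2
  calc w a * (g a * cE w c (fun _ => 1) a) = g a * (w a * cE w c (fun _ => 1) a) := by ring
    _ = w a * g a := by rw [h2]; ring

/-- pulling out a cell-measurable factor -/
theorem ce_mul (w : α → ℝ) (c : α → κ) (h g : α → ℝ) (hh : ∀ a b, c a = c b → h a = h b)
    (a : α) : cE w c (fun x => h x * g x) a = h a * cE w c g a := by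
  rw [ce_def, ce_def, ← mul_div_assoc]
  congr 1
  unfold ceNum
  rw [Finset.mul_sum]
  apply Finset.sum_congr rfl
  intro b _
  by_cases hb : c b = c a
  · rw [if_pos hb, if_pos hb]
    show w b * (h b * g b) = h a * (w b * g b)
    rw [hh b a hb]
    ring
  · rw [if_neg hb, if_neg hb, mul_zero]

/-- a cell-measurable function is its own cell average, up to null cells -/
theorem ce_meas (w : α → ℝ) (hw : ∀ a, 0 ≤ w a) (c : α → κ) (h : α → ℝ)
    (hh : ∀ a b, c a = c b → h a = h b) (a : α) : w a * cE w c h a = w a * h a :=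
  ce_meas0 w hw c h hh a

/-- self-adjointness -/
theorem ce_selfadj (w : α → ℝ) (hw : ∀ a, 0 ≤ w a) (c : α → κ) (g h : α → ℝ) :
    ∑ a, w a * (cE w c g a * h a) = ∑ a, w a * (g a * cE w c h a) :=
  ce_selfadj0 w c g h

/-- averaging against a cell-measurable function -/
theorem ce_sum_mul (w : α → ℝ) (hw : ∀ a, 0 ≤ w a) (c : α → κ) (g h : α → ℝ)
    (hh : ∀ a b, c a = c b → h a = h b) :
    ∑ a, w a * (g a * h a) = ∑ a, w a * (cE w c g a * h a) := by
  rw [ce_selfadj w hw c g h]
  apply Finset.sum_congr rfl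
  intro a _
  have h2 := ce_meas w hw c h hh a
  calc w a * (g a * h a) = g a * (w a * h a) := by ring
    _ = w a * (g a * cE w c h a) := by rw [← h2]; ring

/-- tower property; holds everywhere: the numerators agree since for b in a null c'-cell w b = 0 -/
theorem ce_tower (w : α → ℝ) (hw : ∀ a, 0 ≤ w a) (c : α → κ) (c' : α → κ') (g : α → ℝ)
    (hc : ∀ a b, c' a = c' b → c a = c b) (a : α) : cE w c (cE w c' g) a = cE w c g a := by
  rw [ce_def, ce_def]
  congr 1
  have h1 := ce_sum_mul w hw c' g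
    (fun b => @ite ℝ (c b = c a) (Classical.propDecidable _) 1 0) (by
      intro x y hxy
      have h0 := hc x y hxy
      show @ite ℝ (c x = c a) (Classical.propDecidable _) 1 0 =
        @ite ℝ (c y = c a) (Classical.propDecidable _) 1 0
      by_cases hx : c x = c a
      · rw [if_pos hx, if_pos (h0.symm.trans hx)]
      · rw [if_neg hx, if_neg (fun hy => hx (h0.trans hy))])
  have h2 : ∀ f : α → ℝ, ceNum w c f a =
      ∑ b, w b * (f b * @ite ℝ (c b = c a) (Classical.propDecidable _) 1 0) := by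
    intro f
    unfold ceNum
    apply Finset.sum_congr rfl
    intro b _
    by_cases hb : c b = c a
    · rw [if_pos hb, if_pos hb, mul_one]
    · rw [if_neg hb, if_neg hb, mul_zero, mul_zero]
  rw [h2, h2, h1]

/-- Pythagoras: c' refines c -/
theorem ce_pyth (w : α → ℝ) (hw : ∀ a, 0 ≤ w a) (c : α → κ) (c' : α → κ') (g : α → ℝ)
    (hc : ∀ a b, c' a = c' b → c a = c b) :
    ∑ a, w a * (cE w c' g a - cE w c g a) ^ 2
      = ∑ a, w a * (cE w c' g a) ^ 2 - ∑ a, w a * (cE w c g a) ^ 2 := by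
  have h1 := ce_sum_mul w hw c (cE w c' g) (cE w c g) (fun a b h => ce_cells w c g a b h)
  have h2 : ∀ a, cE w c (cE w c' g) a = cE w c g a := fun a => ce_tower w hw c c' g hc a
  simp only [h2] at h1
  have h3 : ∑ a, w a * (cE w c' g a - cE w c g a) ^ 2 =
      ∑ a, w a * (cE w c' g a) ^ 2 - 2 * ∑ a, w a * (cE w c' g a * cE w c g a) +
        ∑ a, w a * (cE w c g a * cE w c g a) := by
    rw [Finset.mul_sum, ← Finset.sum_sub_distrib, ← Finset.sum_add_distrib]
    apply Finset.sum_congr rfl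
    intro a _
    ring
  have h4 : ∑ a, w a * (cE w c g a) ^ 2 = ∑ a, w a * (cE w c g a * cE w c g a) := by
    apply Finset.sum_congr rfl
    intro a _
    ring
  rw [h3, h1, h4]
  ring

private theorem ce_var (w : α → ℝ) (hw : ∀ a, 0 ≤ w a) (c : α → κ) (g : α → ℝ) :
    ∑ a, w a * (g a - cE w c g a) ^ 2 =
      ∑ a, w a * (g a) ^ 2 - ∑ a, w a * (cE w c g a) ^ 2 := by
  have h1 := ce_sum_mul w hw c g (cE w c g) (fun a b h => ce_cells w c g a b h)
  have h3 : ∑ a, w a * (g a - cE w c g a) ^ 2 =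
      ∑ a, w a * (g a) ^ 2 - 2 * ∑ a, w a * (g a * cE w c g a) +
        ∑ a, w a * (cE w c g a * cE w c g a) := by
    rw [Finset.mul_sum, ← Finset.sum_sub_distrib, ← Finset.sum_add_distrib]
    apply Finset.sum_congr rfl
    intro a _
    ring
  have h4 : ∑ a, w a * (cE w c g a) ^ 2 = ∑ a, w a * (cE w c g a * cE w c g a) := by
    apply Finset.sum_congr rfl
    intro a _
    ring
  rw [h3, h1, h4]
  ring

theorem ce_sq_le (w : α → ℝ) (hw : ∀ a, 0 ≤ w a) (c : α → κ) (g : α → ℝ) :
    ∑ a, w a * (cE w c g a) ^ 2 ≤ ∑ a, w a * (g a) ^ 2 := by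
  have h1 := ce_var w hw c g
  have h2 : 0 ≤ ∑ a, w a * (g a - cE w c g a) ^ 2 :=
    Finset.sum_nonneg (fun a _ => mul_nonneg (hw a) (sq_nonneg _))
  linarith

/-- `g - E g` has norm at most that of `g` -/
theorem sub_ce_sq_le (w : α → ℝ) (hw : ∀ a, 0 ≤ w a) (c : α → κ) (g : α → ℝ) :
    ∑ a, w a * (g a - cE w c g a) ^ 2 ≤ ∑ a, w a * (g a) ^ 2 := by
  rw [ce_var w hw c g]
  have h2 : 0 ≤ ∑ a, w a * (cE w c g a) ^ 2 :=
    Finset.sum_nonneg (fun a _ => mul_nonneg (hw a) (sq_nonneg _))
  linarith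

end Pool.UT
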