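/-
UT TypeDefs: definitions for the passage hypergraph -> reduced system (all finite).

V = vertex set, h x y z = xyz is an edge (symmetric, Bool).  Reference vertices s : A ⊕ B → V:
A = pair-level references, B = references used only for the vertex types.
ty h s x : the type of the vertex x: all values h x (s u) (s v).
pcol h s x y : the colour of the pair x y: the values h x y (s (inl a)).
fs h s : conditional expectation of h given the three types and the three pair colours.
kk h s γ : conditional probability that the pair has colour γ, given the two types.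
fv, kv : the same as functions of the types and colours.
exA s v : v is added to the pair-level references; exB s u : u is added to the other references.
del1 = E_v E_x |fs (exA s v) - fs s|, del2 = E_{u1,u2} ∑_γ E_x |kk (exB (exB s u1) u2) γ - kk s γ|.
-/
import Pool.Agent.H95.UT.CE

set_option autoImplicit false

namespace Pool.UT

open Finset

noncomputable section

/-- uniform weights -/
def unif (α : Type*) [Fintype α] : α → ℝ := fun _ => 1 / (Fintype.card α : ℝ)

/-- average over a finite type -/
def avg {α : Type*} [Fintype α] (F : α → ℝ) : ℝ := ∑ x, unif α x * F x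

variable {V : Type} [Fintype V] {A B : Type}

def hR (h : V → V → V → Bool) (x y z : V) : ℝ := if h x y z = true then 1 else 0

def ty {R : Type} (h : V → V → V → Bool) (s : R → V) (x : V) : R → R → Bool :=
  fun u v => h x (s u) (s v)

def pcol (h : V → V → V → Bool) (s : A ⊕ B → V) (x y : V) : A → Bool :=
  fun a => h x y (s (Sum.inl a))

/-- colour of a triple -/
def col3 (h : V → V → V → Bool) (s : A ⊕ B → V) (x : V × V × V) :
    ((A ⊕ B → A ⊕ B → Bool) × (A ⊕ B → A ⊕ B → Bool) × (A ⊕ B → A ⊕ B → Bool)) ×
      ((A → Bool) × (A → Bool) × (A → Bool)) :=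
  ((ty h s x.1, ty h s x.2.1, ty h s x.2.2),
    (pcol h s x.1 x.2.1, pcol h s x.1 x.2.2, pcol h s x.2.1 x.2.2))

/-- pair of types -/
def col2 (h : V → V → V → Bool) (s : A ⊕ B → V) (x : V × V) :
    (A ⊕ B → A ⊕ B → Bool) × (A ⊕ B → A ⊕ B → Bool) :=
  (ty h s x.1, ty h s x.2)

def fs (h : V → V → V → Bool) (s : A ⊕ B → V) : V × V × V → ℝ :=
  cE (unif (V × V × V)) (col3 h s) (fun x => hR h x.1 x.2.1 x.2.2)

open Classical in
def kk (h : V → V → V → Bool) (s : A ⊕ B → V) (γ : A → Bool) : V × V → ℝ :=
  cE (unif (V × V)) (col2 h s) (fun x => if pcol h s x.1 x.2 = γ then 1 else 0)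

open Classical in
/-- value of fs on a cell -/
def fv (h : V → V → V → Bool) (s : A ⊕ B → V) (t1 t2 t3 : A ⊕ B → A ⊕ B → Bool)
    (c12 c13 c23 : A → Bool) : ℝ :=
  (∑ x : V × V × V, if col3 h s x = ((t1, t2, t3), (c12, c13, c23)) then
      hR h x.1 x.2.1 x.2.2 else 0) /
    (∑ x : V × V × V, if col3 h s x = ((t1, t2, t3), (c12, c13, c23)) then (1 : ℝ) else 0)

open Classical in
/-- value of kk on a cell -/
def kv (h : V → V → V → Bool) (s : A ⊕ B → V) (t1 t2 : A ⊕ B → A ⊕ B → Bool)
    (γ : A → Bool) : ℝ :=
  (∑ x : V × V, if col2 h s x = (t1, t2) ∧ pcol h s x.1 x.2 = γ then (1 : ℝ) else 0) /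
    (∑ x : V × V, if col2 h s x = (t1, t2) then (1 : ℝ) else 0)

/-- add a pair-level reference -/
def exA (s : A ⊕ B → V) (v : V) : Option A ⊕ B → V :=
  Sum.elim (fun o => o.elim v (fun a => s (Sum.inl a))) (fun b => s (Sum.inr b))

/-- add a type-level reference -/
def exB (s : A ⊕ B → V) (u : V) : A ⊕ Option B → V :=
  Sum.elim (fun a => s (Sum.inl a)) (fun o => o.elim u (fun b => s (Sum.inr b)))

def del1 (h : V → V → V → Bool) (s : A ⊕ B → V) : ℝ :=
  avg (fun v : V => avg (fun x : V × V × V => |fs h (exA s v) x - fs h s x|))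

def del2 [Fintype A] [DecidableEq A] (h : V → V → V → Bool) (s : A ⊕ B → V) : ℝ :=
  avg (fun u : V × V => ∑ γ : A → Bool,
    avg (fun x : V × V => |kk h (exB (exB s u.1) u.2) γ x - kk h s γ x|))

/-- energy of the triple level -/
def en (V : Type) [Fintype V] (h : V → V → V → Bool) (A B : Type) [Fintype A] [Fintype B]
    [DecidableEq A] [DecidableEq B] : ℝ :=
  avg (fun s : A ⊕ B → V => avg (fun x : V × V × V => (fs h s x) ^ 2))

/-- energy of the pair level -/
def vn (V : Type) [Fintype V] (h : V → V → V → Bool) (A B : Type) [Fintype A] [Fintype B]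
    [DecidableEq A] [DecidableEq B] : ℝ :=
  avg (fun s : A ⊕ B → V => ∑ γ : A → Bool, avg (fun x : V × V => (kk h s γ x) ^ 2))

end

end Pool.UT
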