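/-
UT AvgLemmas: elementary rules for uniform averages and the cell functions.
-/
import Pool.Agent.H95.UT.TypeDefs

set_option autoImplicit false

namespace Pool.UT

open Finset

variable {V : Type} [Fintype V] {A B : Type}

theorem avgl_eq {α : Type*} [Fintype α] (F : α → ℝ) :
    avg F = 1 / (Fintype.card α : ℝ) * ∑ x, F x := by
  unfold avg unif
  rw [Finset.mul_sum]

theorem avgl_card_pos (α : Type*) [Fintype α] [Nonempty α] : (0 : ℝ) < (Fintype.card α : ℝ) := by
  exact_mod_cast Fintype.card_pos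

theorem avgl_unif_nonneg (α : Type*) [Fintype α] (a : α) : 0 ≤ unif α a := by
  unfold unif
  positivity

theorem avgl_unif_pos (α : Type*) [Fintype α] (a : α) : 0 < unif α a := by
  have : Nonempty α := ⟨a⟩
  have := avgl_card_pos α
  unfold unif
  positivity

theorem unif_prob (α : Type*) [Fintype α] [Nonempty α] : IsProb (unif α) := by
  refine ⟨avgl_unif_nonneg α, ?_⟩
  have h := avgl_card_pos α
  unfold unif
  rw [Finset.sum_const, Finset.card_univ, nsmul_eq_mul, mul_one_div, div_self h.ne']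

theorem avg_mono {α : Type*} [Fintype α] (F G : α → ℝ) (h : ∀ x, F x ≤ G x) : avg F ≤ avg G := by
  unfold avg
  exact Finset.sum_le_sum fun x _ => mul_le_mul_of_nonneg_left (h x) (avgl_unif_nonneg α x)

theorem avg_const {α : Type*} [Fintype α] [Nonempty α] (c : ℝ) : avg (fun _ : α => c) = c := by
  unfold avg
  rw [← Finset.sum_mul, (unif_prob α).2, one_mul]

theorem avg_add {α : Type*} [Fintype α] (F G : α → ℝ) :
    avg (fun x => F x + G x) = avg F + avg G := by
  rw [avgl_eq, avgl_eq, avgl_eq, Finset.sum_add_distrib, mul_add]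

theorem avg_sub {α : Type*} [Fintype α] (F G : α → ℝ) :
    avg (fun x => F x - G x) = avg F - avg G := by
  rw [avgl_eq, avgl_eq, avgl_eq, Finset.sum_sub_distrib, mul_sub]

theorem avg_mul {α : Type*} [Fintype α] (c : ℝ) (F : α → ℝ) :
    avg (fun x => c * F x) = c * avg F := by
  rw [avgl_eq, avgl_eq, ← Finset.mul_sum]
  ring

theorem avg_sum {α ι : Type*} [Fintype α] (s : Finset ι) (F : ι → α → ℝ) :
    avg (fun x => ∑ i ∈ s, F i x) = ∑ i ∈ s, avg (F i) := by
  rw [avgl_eq, Finset.sum_comm, Finset.mul_sum]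
  exact Finset.sum_congr rfl fun i _ => (avgl_eq (F i)).symm

theorem avg_abs {α : Type*} [Fintype α] (F : α → ℝ) : |avg F| ≤ avg (fun x => |F x|) := by
  unfold avg
  refine (Finset.abs_sum_le_sum_abs _ _).trans (le_of_eq ?_)
  refine Finset.sum_congr rfl fun x _ => ?_
  rw [abs_mul, abs_of_nonneg (avgl_unif_nonneg α x)]

/-- average over a product -/
theorem avg_prod {α β : Type*} [Fintype α] [Fintype β] (F : α × β → ℝ) :
    avg F = avg (fun x => avg (fun y => F (x, y))) := by
  have h : (fun x : α => avg (fun y : β => F (x, y))) =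
      fun x => 1 / (Fintype.card β : ℝ) * ∑ y, F (x, y) := by
    funext x
    exact avgl_eq _
  rw [h, avgl_eq, avgl_eq, Fintype.sum_prod_type, Fintype.card_prod, ← Finset.mul_sum,
    ← mul_assoc, one_div_mul_one_div]
  push_cast
  rfl

theorem avg_comm {α β : Type*} [Fintype α] [Fintype β] (F : α → β → ℝ) :
    avg (fun x => avg (fun y => F x y)) = avg (fun y => avg (fun x => F x y)) := by
  have h1 : (fun x : α => avg (fun y : β => F x y)) =
      fun x => 1 / (Fintype.card β : ℝ) * ∑ y, F x y := by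
    funext x
    exact avgl_eq _
  have h2 : (fun y : β => avg (fun x : α => F x y)) =
      fun y => 1 / (Fintype.card α : ℝ) * ∑ x, F x y := by
    funext y
    exact avgl_eq _
  rw [h1, h2, avgl_eq, avgl_eq, ← Finset.mul_sum, ← Finset.mul_sum, Finset.sum_comm]
  ring

theorem avg_prod' {α β : Type*} [Fintype α] [Fintype β] (F : α × β → ℝ) :
    avg F = avg (fun y => avg (fun x => F (x, y))) := by
  rw [avg_prod, avg_comm]

theorem avg_equiv {α β : Type*} [Fintype α] [Fintype β] (e : α ≃ β) (F : β → ℝ) :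
    avg (fun x => F (e x)) = avg F := by
  rw [avgl_eq, avgl_eq, Fintype.card_congr e, Equiv.sum_comp e F]

/-- Cauchy-Schwarz -/
theorem avg_sq_le {α : Type*} [Fintype α] [Nonempty α] (F : α → ℝ) :
    (avg F) ^ 2 ≤ avg (fun x => (F x) ^ 2) := by
  have h1 : avg (fun _ : α => (0 : ℝ)) ≤ avg (fun x => (F x - avg F) ^ 2) :=
    avg_mono _ _ fun x => sq_nonneg _
  have h2 : avg (fun x => (F x - avg F) ^ 2) =
      avg (fun x => (F x) ^ 2) - (avg F) ^ 2 := by
    have h3 : (fun x => (F x - avg F) ^ 2) =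
        fun x => ((F x) ^ 2 - (2 * avg F) * F x) + (avg F) ^ 2 := by
      funext x
      ring
    rw [h3, avg_add (fun x => (F x) ^ 2 - (2 * avg F) * F x) (fun _ => (avg F) ^ 2),
      avg_sub (fun x => (F x) ^ 2) (fun x => (2 * avg F) * F x), avg_mul, avg_const]
    ring
  rw [avg_const, h2] at h1
  linarith

theorem fs_eq_fv (h : V → V → V → Bool) (s : A ⊕ B → V) (x : V × V × V) :
    fs h s x = fv h s (ty h s x.1) (ty h s x.2.1) (ty h s x.2.2)
      (pcol h s x.1 x.2.1) (pcol h s x.1 x.2.2) (pcol h s x.2.1 x.2.2) := by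
  have hu : unif (V × V × V) x ≠ 0 := (avgl_unif_pos _ x).ne'
  have huc : ∀ y, unif (V × V × V) y = unif (V × V × V) x := fun _ => rfl
  unfold fs fv cE
  symm
  rw [← mul_div_mul_left _ _ hu, Finset.mul_sum, Finset.mul_sum]
  congr 1
  · refine Finset.sum_congr rfl fun y _ => ?_
    by_cases hy : col3 h s y = col3 h s x
    · rw [if_pos (show col3 h s y = ((ty h s x.1, ty h s x.2.1, ty h s x.2.2),
        (pcol h s x.1 x.2.1, pcol h s x.1 x.2.2, pcol h s x.2.1 x.2.2)) from hy), if_pos hy, huc y]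
    · rw [if_neg (show ¬ col3 h s y = ((ty h s x.1, ty h s x.2.1, ty h s x.2.2),
        (pcol h s x.1 x.2.1, pcol h s x.1 x.2.2, pcol h s x.2.1 x.2.2)) from hy), if_neg hy,
        mul_zero]
  · refine Finset.sum_congr rfl fun y _ => ?_
    by_cases hy : col3 h s y = col3 h s x
    · rw [if_pos (show col3 h s y = ((ty h s x.1, ty h s x.2.1, ty h s x.2.2),
        (pcol h s x.1 x.2.1, pcol h s x.1 x.2.2, pcol h s x.2.1 x.2.2)) from hy), if_pos hy, huc y,
        mul_one]
    · rw [if_neg (show ¬ col3 h s y = ((ty h s x.1, ty h s x.2.1, ty h s x.2.2),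
        (pcol h s x.1 x.2.1, pcol h s x.1 x.2.2, pcol h s x.2.1 x.2.2)) from hy), if_neg hy,
        mul_zero]

theorem kk_eq_kv (h : V → V → V → Bool) (s : A ⊕ B → V) (γ : A → Bool) (x : V × V) :
    kk h s γ x = kv h s (ty h s x.1) (ty h s x.2) γ := by
  have hu : unif (V × V) x ≠ 0 := (avgl_unif_pos _ x).ne'
  have huc : ∀ y, unif (V × V) y = unif (V × V) x := fun _ => rfl
  unfold kk kv cE
  symm
  rw [← mul_div_mul_left _ _ hu, Finset.mul_sum, Finset.mul_sum]
  congr 1
  · refine Finset.sum_congr rfl fun y _ => ?_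
    by_cases hy : col2 h s y = col2 h s x
    · by_cases hg : pcol h s y.1 y.2 = γ
      · rw [if_pos (show col2 h s y = (ty h s x.1, ty h s x.2) ∧ pcol h s y.1 y.2 = γ from
          ⟨hy, hg⟩), if_pos hy]
        beta_reduce
        rw [if_pos hg, huc y]
      · rw [if_neg (show ¬ (col2 h s y = (ty h s x.1, ty h s x.2) ∧ pcol h s y.1 y.2 = γ) from
          fun h' => hg h'.2), if_pos hy]
        beta_reduce
        rw [if_neg hg, mul_zero, mul_zero]
    · rw [if_neg (show ¬ (col2 h s y = (ty h s x.1, ty h s x.2) ∧ pcol h s y.1 y.2 = γ) from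
          fun h' => hy h'.1), if_neg hy, mul_zero]
  · refine Finset.sum_congr rfl fun y _ => ?_
    by_cases hy : col2 h s y = col2 h s x
    · rw [if_pos (show col2 h s y = (ty h s x.1, ty h s x.2) from hy), if_pos hy, huc y, mul_one]
    · rw [if_neg (show ¬ col2 h s y = (ty h s x.1, ty h s x.2) from hy), if_neg hy, mul_zero]

theorem fv_bounds (h : V → V → V → Bool) (s : A ⊕ B → V) (t1 t2 t3 : A ⊕ B → A ⊕ B → Bool)
    (c12 c13 c23 : A → Bool) :
    0 ≤ fv h s t1 t2 t3 c12 c13 c23 ∧ fv h s t1 t2 t3 c12 c13 c23 ≤ 1 := by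
  have hr : ∀ x y z : V, 0 ≤ hR h x y z ∧ hR h x y z ≤ 1 := by
    intro x y z
    unfold hR
    split_ifs <;> norm_num
  unfold fv
  constructor
  · refine div_nonneg (Finset.sum_nonneg fun x _ => ?_) (Finset.sum_nonneg fun x _ => ?_)
    · split_ifs
      · exact (hr _ _ _).1
      · exact le_rfl
    · split_ifs <;> norm_num
  · refine div_le_one_of_le₀ (Finset.sum_le_sum fun x _ => ?_) (Finset.sum_nonneg fun x _ => ?_)
    · split_ifs
      · exact (hr _ _ _).2
      · exact le_rfl
    · split_ifs <;> norm_num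

theorem fs_bounds (h : V → V → V → Bool) (s : A ⊕ B → V) (x : V × V × V) :
    0 ≤ fs h s x ∧ fs h s x ≤ 1 := by
  rw [fs_eq_fv]
  exact fv_bounds h s _ _ _ _ _ _

theorem avgl_kv_nonneg (h : V → V → V → Bool) (s : A ⊕ B → V) (t1 t2 : A ⊕ B → A ⊕ B → Bool)
    (γ : A → Bool) : 0 ≤ kv h s t1 t2 γ := by
  unfold kv
  refine div_nonneg (Finset.sum_nonneg fun x _ => ?_) (Finset.sum_nonneg fun x _ => ?_)
  · split_ifs <;> norm_num
  · split_ifs <;> norm_num

theorem kk_nonneg (h : V → V → V → Bool) (s : A ⊕ B → V) (γ : A → Bool) (x : V × V) :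
    0 ≤ kk h s γ x := by
  rw [kk_eq_kv]
  exact avgl_kv_nonneg h s _ _ γ

theorem avgl_kv_sum [Fintype A] [DecidableEq A] (h : V → V → V → Bool) (s : A ⊕ B → V) (x : V × V) :
    ∑ γ : A → Bool, kv h s (ty h s x.1) (ty h s x.2) γ = 1 := by
  unfold kv
  rw [← Finset.sum_div, Finset.sum_comm]
  rw [div_eq_one_iff_eq]
  · refine Finset.sum_congr rfl fun y _ => ?_
    by_cases hy : col2 h s y = col2 h s x
    · rw [Finset.sum_eq_single (pcol h s y.1 y.2)]
      · rw [if_pos (show col2 h s y = (ty h s x.1, ty h s x.2) ∧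
          pcol h s y.1 y.2 = pcol h s y.1 y.2 from ⟨hy, rfl⟩),
          if_pos (show col2 h s y = (ty h s x.1, ty h s x.2) from hy)]
      · intro γ _ hγ
        rw [if_neg]
        intro h'
        exact hγ h'.2.symm
      · intro h'
        exact absurd (Finset.mem_univ _) h'
    · rw [if_neg (show ¬ col2 h s y = (ty h s x.1, ty h s x.2) from hy)]
      refine Finset.sum_eq_zero fun γ _ => ?_
      rw [if_neg]
      intro h'
      exact hy h'.1
  · refine ne_of_gt (Finset.sum_pos' (fun y _ => ?_) ⟨x, Finset.mem_univ _, ?_⟩)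
    · split_ifs <;> norm_num
    · rw [if_pos (show col2 h s x = (ty h s x.1, ty h s x.2) from rfl)]
      norm_num

/-- the colour probabilities of a pair of types that occur sum to 1 -/
theorem kk_sum [Fintype A] [DecidableEq A] (h : V → V → V → Bool) (s : A ⊕ B → V) (x : V × V) :
    ∑ γ : A → Bool, kk h s γ x = 1 := by
  rw [← avgl_kv_sum h s x]
  exact Finset.sum_congr rfl fun γ _ => kk_eq_kv h s γ x

theorem kv_prob [Fintype A] [DecidableEq A] (h : V → V → V → Bool) (s : A ⊕ B → V) (x y : V) :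
    IsProb (kv h s (ty h s x) (ty h s y)) :=
  ⟨fun γ => avgl_kv_nonneg h s _ _ γ, avgl_kv_sum h s (x, y)⟩

end Pool.UT
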