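/-
UT Face: replacing the edges by their conditional probabilities in the tetrahedron count.

face_step: PROOF. Fix v.  Ψ v is a function of col3 h (exA s v), so ce_sum_mul gives
avg_x (hR x * Ψ v x) = avg_x (fs h (exA s v) x * Ψ v x); hence
|avg_v avg_x (hR - fs s) Ψ| = |avg_v avg_x (fs (exA s v) - fs s) Ψ| ≤ avg_v avg_x |...| as 0 ≤ Ψ ≤ 1.

face_bound: PROOF. Write h_{ijk} for hR at x_i,x_j,x_k and f_{ijk} for fs.  By hypothesis
avg (h123 h124 h134 h234) = 0.  Replace one after the other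
h123 → f123 (v = x4, Ψ = h124 h134 h234), h124 → f124 (v = x3, Ψ = f123 h134 h234, triple
(x1,x2,x4)), h134 → f134 (v = x2, Ψ = f123 f124 h234, triple (x1,x3,x4)), h234 → f234 (v = x1,
Ψ = f123 f124 f134, triple (x2,x3,x4)).  In each step Ψ is a product of three functions of the form
φ(x_i,x_j,v), φ ∈ {h, f} (h is symmetric, and fs h s is a symmetric function of the three vertices
because h is symmetric: a permutation of the vertices permutes the components of col3, use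
ce_congr and re-indexing of the sum), and x ↦ φ(x_i,x_j,v) is a function of col3 h (exA s v) x:
h(x_i,x_j,v) = pcol h (exA s v) x_i x_j none; fs(x_i,x_j,v) is determined by col3 h s (x_i,x_j,v),
i.e. by ty s x_i, ty s x_j, ty s v (constant), pcol s x_i x_j and pcol s x_i v a = h x_i v (s (inl a))
= ty (exA s v) x_i (inl none) (inl (some a)), same for x_j.  Each error is ≤ del1 h s (rename the
variables in the average: avg_comm, avg_equiv).  Since all terms are nonnegative the claim follows.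
-/
import Pool.Agent.H95.UT.AvgLemmas

set_option autoImplicit false

namespace Pool.UT

open Finset

variable {V : Type} [Fintype V] [Nonempty V] {A B : Type}

theorem face_step (h : V → V → V → Bool) (s : A ⊕ B → V) (Ψ : V → V × V × V → ℝ)
    (h0 : ∀ v x, 0 ≤ Ψ v x) (h1 : ∀ v x, Ψ v x ≤ 1)
    (hm : ∀ v x x', col3 h (exA s v) x = col3 h (exA s v) x' → Ψ v x = Ψ v x') :
    |avg (fun v : V => avg (fun x : V × V × V => (hR h x.1 x.2.1 x.2.2 - fs h s x) * Ψ v x))|
      ≤ del1 h s := by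
  have hw : ∀ a : V × V × V, 0 ≤ unif (V × V × V) a := (unif_prob (V × V × V)).1
  have e1 : ∀ v : V, avg (fun x : V × V × V =>
      (hR h x.1 x.2.1 x.2.2 - fs h s x) * Ψ v x) =
      avg (fun x : V × V × V => (fs h (exA s v) x - fs h s x) * Ψ v x) := by
    intro v
    have h2 : avg (fun x : V × V × V => hR h x.1 x.2.1 x.2.2 * Ψ v x) =
        avg (fun x : V × V × V => fs h (exA s v) x * Ψ v x) :=
      ce_sum_mul (unif (V × V × V)) hw (col3 h (exA s v))
        (fun x : V × V × V => hR h x.1 x.2.1 x.2.2) (Ψ v) (hm v)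
    have h3 : ∀ G : V × V × V → ℝ, avg (fun x : V × V × V => (G x - fs h s x) * Ψ v x) =
        avg (fun x : V × V × V => G x * Ψ v x) - avg (fun x : V × V × V => fs h s x * Ψ v x) := by
      intro G
      rw [← avg_sub]
      congr 1
      funext x
      ring
    rw [h3 (fun x => hR h x.1 x.2.1 x.2.2), h3 (fun x => fs h (exA s v) x), h2]
  have e2 : (fun v : V => avg (fun x : V × V × V =>
      (hR h x.1 x.2.1 x.2.2 - fs h s x) * Ψ v x)) =
      fun v : V => avg (fun x : V × V × V => (fs h (exA s v) x - fs h s x) * Ψ v x) :=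
    funext e1
  rw [e2]
  refine (avg_abs _).trans (avg_mono _ _ fun v => (avg_abs _).trans (avg_mono _ _ fun x => ?_))
  rw [abs_mul, abs_of_nonneg (h0 v x)]
  exact mul_le_of_le_one_right (abs_nonneg _) (h1 v x)

/-- cell averages and bijections -/
private theorem cE_equiv {α κ : Type*} [Fintype α] (σ : α ≃ α) (w : α → ℝ) (c : α → κ)
    (g : α → ℝ) (a : α) :
    cE w c g (σ a) = cE (fun b => w (σ b)) (fun b => c (σ b)) (fun b => g (σ b)) a := by
  classical
  unfold cE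
  congr 1
  · exact (Equiv.sum_comp σ fun b => if c b = c (σ a) then w b * g b else 0).symm
  · exact (Equiv.sum_comp σ fun b => if c b = c (σ a) then w b else 0).symm

theorem fs_symm (h : V → V → V → Bool) (hs1 : ∀ x y z, h x y z = h y x z)
    (hs2 : ∀ x y z, h x y z = h x z y) (s : A ⊕ B → V) (x y z : V) :
    fs h s (x, y, z) = fs h s (y, x, z) ∧ fs h s (x, y, z) = fs h s (x, z, y) := by
  have hc : ∀ a b c : V, hR h a b c = hR h b a c ∧ hR h a b c = hR h a c b := by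
    intro a b c
    constructor
    · unfold hR
      rw [hs1 a b c]
    · unfold hR
      rw [hs2 a b c]
  have hp : ∀ a b : V, pcol h s a b = pcol h s b a := by
    intro a b
    funext u
    exact hs1 a b _
  constructor
  · let σ : V × V × V ≃ V × V × V :=
      ⟨fun a => (a.2.1, a.1, a.2.2), fun a => (a.2.1, a.1, a.2.2), fun _ => rfl, fun _ => rfl⟩
    have h1 := cE_equiv σ (unif (V × V × V)) (col3 h s) (fun x => hR h x.1 x.2.1 x.2.2) (x, y, z)
    have h2 : (fun b : V × V × V => unif (V × V × V) (σ b)) = unif (V × V × V) := rfl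
    have h3 : (fun b : V × V × V => hR h (σ b).1 (σ b).2.1 (σ b).2.2) =
        fun x => hR h x.1 x.2.1 x.2.2 := by
      funext b
      exact (hc b.1 b.2.1 b.2.2).1.symm
    have h4 : cE (unif (V × V × V)) (fun b => col3 h s (σ b)) (fun x => hR h x.1 x.2.1 x.2.2) =
        cE (unif (V × V × V)) (col3 h s) (fun x => hR h x.1 x.2.1 x.2.2) := by
      refine ce_congr _ _ _ _ fun a b => ?_
      change col3 h s (a.2.1, a.1, a.2.2) = col3 h s (b.2.1, b.1, b.2.2) ↔ _
      simp only [col3, Prod.mk.injEq]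
      rw [hp a.2.1 a.1, hp b.2.1 b.1]
      tauto
    have h5 : cE (unif (V × V × V)) (col3 h s) (fun x => hR h x.1 x.2.1 x.2.2) (σ (x, y, z)) =
        cE (unif (V × V × V)) (col3 h s) (fun x => hR h x.1 x.2.1 x.2.2) (x, y, z) := by
      rw [h1, h2, h3, h4]
    exact h5.symm
  · let σ : V × V × V ≃ V × V × V :=
      ⟨fun a => (a.1, a.2.2, a.2.1), fun a => (a.1, a.2.2, a.2.1), fun _ => rfl, fun _ => rfl⟩
    have h1 := cE_equiv σ (unif (V × V × V)) (col3 h s) (fun x => hR h x.1 x.2.1 x.2.2) (x, y, z)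
    have h2 : (fun b : V × V × V => unif (V × V × V) (σ b)) = unif (V × V × V) := rfl
    have h3 : (fun b : V × V × V => hR h (σ b).1 (σ b).2.1 (σ b).2.2) =
        fun x => hR h x.1 x.2.1 x.2.2 := by
      funext b
      exact (hc b.1 b.2.1 b.2.2).2.symm
    have h4 : cE (unif (V × V × V)) (fun b => col3 h s (σ b)) (fun x => hR h x.1 x.2.1 x.2.2) =
        cE (unif (V × V × V)) (col3 h s) (fun x => hR h x.1 x.2.1 x.2.2) := by
      refine ce_congr _ _ _ _ fun a b => ?_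
      change col3 h s (a.1, a.2.2, a.2.1) = col3 h s (b.1, b.2.2, b.2.1) ↔ _
      simp only [col3, Prod.mk.injEq]
      rw [hp a.2.2 a.2.1, hp b.2.2 b.2.1]
      tauto
    have h5 : cE (unif (V × V × V)) (col3 h s) (fun x => hR h x.1 x.2.1 x.2.2) (σ (x, y, z)) =
        cE (unif (V × V × V)) (col3 h s) (fun x => hR h x.1 x.2.1 x.2.2) (x, y, z) := by
      rw [h1, h2, h3, h4]
    exact h5.symm

private theorem ty_of_exA (h : V → V → V → Bool) (s : A ⊕ B → V) (v a a' : V)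
    (e : ty h (exA s v) a = ty h (exA s v) a') : ty h s a = ty h s a' := by
  funext u u'
  have key : ∀ u : A ⊕ B, ∃ w : Option A ⊕ B, exA s v w = s u := by
    intro u
    cases u with
    | inl x => exact ⟨Sum.inl (some x), rfl⟩
    | inr x => exact ⟨Sum.inr x, rfl⟩
  obtain ⟨w, hw⟩ := key u
  obtain ⟨w', hw'⟩ := key u'
  have h1 := congrFun (congrFun e w) w'
  simp only [ty, hw, hw'] at h1
  exact h1

private theorem pcol_of_exA (h : V → V → V → Bool) (s : A ⊕ B → V) (v a b a' b' : V)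
    (e : pcol h (exA s v) a b = pcol h (exA s v) a' b') : pcol h s a b = pcol h s a' b' := by
  funext u
  exact congrFun e (some u)

private theorem pcol_v_of_exA (h : V → V → V → Bool) (s : A ⊕ B → V) (v a a' : V)
    (e : ty h (exA s v) a = ty h (exA s v) a') : pcol h s a v = pcol h s a' v := by
  funext u
  exact congrFun (congrFun e (Sum.inl none)) (Sum.inl (some u))

private theorem h_of_exA (h : V → V → V → Bool) (s : A ⊕ B → V) (v a b a' b' : V)
    (e : pcol h (exA s v) a b = pcol h (exA s v) a' b') : h a b v = h a' b' v :=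
  congrFun e none

private theorem fs_of_exA (h : V → V → V → Bool) (s : A ⊕ B → V) (v a b a' b' : V)
    (e1 : ty h (exA s v) a = ty h (exA s v) a') (e2 : ty h (exA s v) b = ty h (exA s v) b')
    (e : pcol h (exA s v) a b = pcol h (exA s v) a' b') :
    fs h s (a, b, v) = fs h s (a', b', v) := by
  rw [fs_eq_fv, fs_eq_fv]
  simp only
  rw [ty_of_exA h s v a a' e1, ty_of_exA h s v b b' e2, pcol_of_exA h s v a b a' b' e,
    pcol_v_of_exA h s v a a' e1, pcol_v_of_exA h s v b b' e2]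

private theorem hR_bounds (h : V → V → V → Bool) (a b c : V) :
    0 ≤ hR h a b c ∧ hR h a b c ≤ 1 := by
  unfold hR
  split_ifs <;> simp

private theorem prod3_bounds {p q r : ℝ} (hp : 0 ≤ p ∧ p ≤ 1) (hq : 0 ≤ q ∧ q ≤ 1)
    (hr : 0 ≤ r ∧ r ≤ 1) : 0 ≤ p * q * r ∧ p * q * r ≤ 1 := by
  refine ⟨mul_nonneg (mul_nonneg hp.1 hq.1) hr.1, ?_⟩
  exact mul_le_one₀ (mul_le_one₀ hp.2 hq.1 hq.2) hr.1 hr.2

private theorem step_equiv (h : V → V → V → Bool) (s : A ⊕ B → V)
    (e : V × V × V × V ≃ V × V × V × V) (Ψ : V → V × V × V → ℝ)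
    (h01 : ∀ v x, 0 ≤ Ψ v x ∧ Ψ v x ≤ 1)
    (hm : ∀ v x x', col3 h (exA s v) x = col3 h (exA s v) x' → Ψ v x = Ψ v x') :
    |avg (fun x : V × V × V × V =>
      (hR h (e x).2.1 (e x).2.2.1 (e x).2.2.2 - fs h s (e x).2) * Ψ (e x).1 (e x).2)|
      ≤ del1 h s := by
  have h1 := avg_equiv e (fun y : V × V × V × V =>
    (hR h y.2.1 y.2.2.1 y.2.2.2 - fs h s y.2) * Ψ y.1 y.2)
  have h2 := avg_prod (fun y : V × V × V × V =>
    (hR h y.2.1 y.2.2.1 y.2.2.2 - fs h s y.2) * Ψ y.1 y.2)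
  rw [h1, h2]
  exact face_step h s Ψ (fun v x => (h01 v x).1) (fun v x => (h01 v x).2) hm

theorem face_bound (h : V → V → V → Bool) (hs1 : ∀ x y z, h x y z = h y x z)
    (hs2 : ∀ x y z, h x y z = h x z y)
    (hK : ∀ x y z u, ¬ (h x y z = true ∧ h x y u = true ∧ h x z u = true ∧ h y z u = true))
    (s : A ⊕ B → V) :
    avg (fun x : V × V × V × V =>
      fs h s (x.1, x.2.1, x.2.2.1) * fs h s (x.1, x.2.1, x.2.2.2) *
        fs h s (x.1, x.2.2.1, x.2.2.2) * fs h s (x.2.1, x.2.2.1, x.2.2.2)) ≤ 4 * del1 h s := by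
  have sR : ∀ a b c : V, hR h a c b = hR h a b c := by
    intro a b c
    unfold hR
    rw [hs2 a b c]
  have sR' : ∀ a b c : V, hR h c a b = hR h a b c := by
    intro a b c
    unfold hR
    rw [hs1 c a b, hs2 a c b]
  have sF : ∀ a b c : V, fs h s (a, c, b) = fs h s (a, b, c) := fun a b c =>
    (fs_symm h hs1 hs2 s a b c).2.symm
  have sF' : ∀ a b c : V, fs h s (c, a, b) = fs h s (a, b, c) := by
    intro a b c
    rw [(fs_symm h hs1 hs2 s c a b).1, sF]
  have mR : ∀ v a b a' b' : V, pcol h (exA s v) a b = pcol h (exA s v) a' b' →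
      hR h a b v = hR h a' b' v := by
    intro v a b a' b' e
    unfold hR
    rw [h_of_exA h s v a b a' b' e]
  have fb : ∀ a b c : V, 0 ≤ fs h s (a, b, c) ∧ fs h s (a, b, c) ≤ 1 := fun a b c =>
    fs_bounds h s (a, b, c)
  -- the four steps
  have E1 := step_equiv h s
    ⟨fun x => (x.2.2.2, x.1, x.2.1, x.2.2.1), fun y => (y.2.1, y.2.2.1, y.2.2.2, y.1),
      fun _ => rfl, fun _ => rfl⟩
    (fun v t => hR h t.1 t.2.1 v * hR h t.1 t.2.2 v * hR h t.2.1 t.2.2 v)
    (fun v t => prod3_bounds (hR_bounds h _ _ _) (hR_bounds h _ _ _) (hR_bounds h _ _ _))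
    (by
      intro v x x' e
      simp only [col3, Prod.mk.injEq] at e
      obtain ⟨-, p1, p2, p3⟩ := e
      change hR h x.1 x.2.1 v * hR h x.1 x.2.2 v * hR h x.2.1 x.2.2 v = _
      rw [mR v _ _ _ _ p1, mR v _ _ _ _ p2, mR v _ _ _ _ p3])
  have E2 := step_equiv h s
    ⟨fun x => (x.2.2.1, x.1, x.2.1, x.2.2.2), fun y => (y.2.1, y.2.2.1, y.1, y.2.2.2),
      fun _ => rfl, fun _ => rfl⟩
    (fun v t => fs h s (t.1, t.2.1, v) * hR h t.1 t.2.2 v * hR h t.2.1 t.2.2 v)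
    (fun v t => prod3_bounds (fb _ _ _) (hR_bounds h _ _ _) (hR_bounds h _ _ _))
    (by
      intro v x x' e
      simp only [col3, Prod.mk.injEq] at e
      obtain ⟨⟨t1, t2, t3⟩, p1, p2, p3⟩ := e
      change fs h s (x.1, x.2.1, v) * hR h x.1 x.2.2 v * hR h x.2.1 x.2.2 v = _
      rw [fs_of_exA h s v _ _ _ _ t1 t2 p1, mR v _ _ _ _ p2, mR v _ _ _ _ p3])
  have E3 := step_equiv h s
    ⟨fun x => (x.2.1, x.1, x.2.2.1, x.2.2.2), fun y => (y.2.1, y.1, y.2.2.1, y.2.2.2),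
      fun _ => rfl, fun _ => rfl⟩
    (fun v t => fs h s (t.1, t.2.1, v) * fs h s (t.1, t.2.2, v) * hR h t.2.1 t.2.2 v)
    (fun v t => prod3_bounds (fb _ _ _) (fb _ _ _) (hR_bounds h _ _ _))
    (by
      intro v x x' e
      simp only [col3, Prod.mk.injEq] at e
      obtain ⟨⟨t1, t2, t3⟩, p1, p2, p3⟩ := e
      change fs h s (x.1, x.2.1, v) * fs h s (x.1, x.2.2, v) * hR h x.2.1 x.2.2 v = _
      rw [fs_of_exA h s v _ _ _ _ t1 t2 p1, fs_of_exA h s v _ _ _ _ t1 t3 p2,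
        mR v _ _ _ _ p3])
  have E4 := step_equiv h s
    ⟨fun x => (x.1, x.2.1, x.2.2.1, x.2.2.2), fun y => (y.1, y.2.1, y.2.2.1, y.2.2.2),
      fun _ => rfl, fun _ => rfl⟩
    (fun v t => fs h s (t.1, t.2.1, v) * fs h s (t.1, t.2.2, v) * fs h s (t.2.1, t.2.2, v))
    (fun v t => prod3_bounds (fb _ _ _) (fb _ _ _) (fb _ _ _))
    (by
      intro v x x' e
      simp only [col3, Prod.mk.injEq] at e
      obtain ⟨⟨t1, t2, t3⟩, p1, p2, p3⟩ := e
      change fs h s (x.1, x.2.1, v) * fs h s (x.1, x.2.2, v) * fs h s (x.2.1, x.2.2, v) = _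
      rw [fs_of_exA h s v _ _ _ _ t1 t2 p1, fs_of_exA h s v _ _ _ _ t1 t3 p2,
        fs_of_exA h s v _ _ _ _ t2 t3 p3])
  simp only [Equiv.coe_fn_mk] at E1 E2 E3 E4
  have H0 : (fun x : V × V × V × V =>
      hR h x.1 x.2.1 x.2.2.1 * hR h x.1 x.2.1 x.2.2.2 * hR h x.1 x.2.2.1 x.2.2.2 *
        hR h x.2.1 x.2.2.1 x.2.2.2) = fun _ => (0 : ℝ) := by
    funext x
    have hk := hK x.1 x.2.1 x.2.2.1 x.2.2.2
    unfold hR
    split_ifs with a1 a2 a3 a4 <;> simp
    exact hk ⟨a1, a2, a3, a4⟩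
  have H : (fun x : V × V × V × V =>
      fs h s (x.1, x.2.1, x.2.2.1) * fs h s (x.1, x.2.1, x.2.2.2) *
        fs h s (x.1, x.2.2.1, x.2.2.2) * fs h s (x.2.1, x.2.2.1, x.2.2.2)) =
      fun x => (hR h x.1 x.2.1 x.2.2.1 * hR h x.1 x.2.1 x.2.2.2 * hR h x.1 x.2.2.1 x.2.2.2 *
        hR h x.2.1 x.2.2.1 x.2.2.2) -
        ((((hR h x.1 x.2.1 x.2.2.1 - fs h s (x.1, x.2.1, x.2.2.1)) *
            (hR h x.1 x.2.1 x.2.2.2 * hR h x.1 x.2.2.1 x.2.2.2 * hR h x.2.1 x.2.2.1 x.2.2.2)) +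
          ((hR h x.1 x.2.1 x.2.2.2 - fs h s (x.1, x.2.1, x.2.2.2)) *
            (fs h s (x.1, x.2.1, x.2.2.1) * hR h x.1 x.2.2.2 x.2.2.1 *
              hR h x.2.1 x.2.2.2 x.2.2.1))) +
          ((hR h x.1 x.2.2.1 x.2.2.2 - fs h s (x.1, x.2.2.1, x.2.2.2)) *
            (fs h s (x.1, x.2.2.1, x.2.1) * fs h s (x.1, x.2.2.2, x.2.1) *
              hR h x.2.2.1 x.2.2.2 x.2.1)) +
          ((hR h x.2.1 x.2.2.1 x.2.2.2 - fs h s (x.2.1, x.2.2.1, x.2.2.2)) *
            (fs h s (x.2.1, x.2.2.1, x.1) * fs h s (x.2.1, x.2.2.2, x.1) *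
              fs h s (x.2.2.1, x.2.2.2, x.1)))) := by
    funext x
    rw [sR x.1 x.2.2.1 x.2.2.2, sR x.2.1 x.2.2.1 x.2.2.2, sF x.1 x.2.1 x.2.2.1,
      sF x.1 x.2.1 x.2.2.2, ← sR' x.2.2.1 x.2.2.2 x.2.1, ← sF' x.2.1 x.2.2.1 x.1,
      ← sF' x.2.1 x.2.2.2 x.1, ← sF' x.2.2.1 x.2.2.2 x.1]
    ring
  rw [H, avg_sub, avg_add, avg_add, avg_add, H0]
  have Hz : avg (fun _ : V × V × V × V => (0 : ℝ)) = 0 := avg_const 0
  rw [Hz]
  have a1 := (abs_le.1 E1).1
  have a2 := (abs_le.1 E2).1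
  have a3 := (abs_le.1 E3).1
  have a4 := (abs_le.1 E4).1
  linarith

end Pool.UT
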