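/-
UT PairInd: the pair colours are nearly independent given the types.

pair_step: PROOF. Fix u = (u1,u2).  Ψ u is a function of col2 h (exB (exB s u.1) u.2), so
avg_x (1[pcol x = γ] Ψ u x) = avg_x (kk h (exB (exB s u1) u2) γ x * Ψ u x) (ce_sum_mul; pcol does not
change under exB).  Then take absolute values inside.

k4_avg_le: PROOF. For x ∈ V^4 and γ ∈ (A → Bool)^6 put I_ij = 1[pcol(x_i,x_j) = γ_ij],
K_ij = kk γ_ij (x_i,x_j), Φ = product of the four fv at the types of x and the colours γ; then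
  K4gen (kv types) ... (fv ...) = ∑_γ (∏ K_ij) Φ   (kk_eq_kv),
  ∏ fs = ∑_γ (∏ I_ij) Φ   (only γ = the actual colours contributes; fs_eq_fv).
Replace K_12 by I_12, K_13 by I_13, …, K_34 by I_34 one after the other.  The difference in one
step, for the pair ij with the other two vertices u = (x_k,x_l), is
∑_γ avg_u avg_{(x_i,x_j)} (K_ij - I_ij) Ψ, where Ψ = (product of the other K's and I's) Φ is a
nonnegative function of (x_i,x_j) which for fixed u depends only on col2 h (exB (exB s x_k) x_l):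
K's and Φ depend on the types only (ty s is determined by ty (exB (exB s ..) ..)), and
I_ik = 1[pcol(x_i,x_k) = γ_ik], pcol h s x_i x_k a = h x_i x_k (s (inl a)) is an entry of
ty h (exB (exB s x_k) x_l) x_i; I_kl is constant.  By pair_step the step costs at most
∑_γ avg_u avg_x Ψ |kk' γ_ij - kk γ_ij| ≤ del2 h s because Φ ≤ 1 and the sum over the other five
colours of the product of the K's and I's is ≤ 1 (kk_sum; exactly one colour has I = 1).
Total 6 del2.

d3_avg_ge: the same with three vertices (dummy fourth vertex x4; u = (x_k, x4)) and Φ = 1_Q(types) *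
fv: avg (1_Q fs) ≤ avg (1_Q D3gen) + 3 del2; and avg (1_Q hR) = avg (1_Q fs) by ce_sum_mul since 1_Q is
a function of col3 h s.
-/
import Pool.Agent.H95.UT.AvgLemmas

set_option autoImplicit false

namespace Pool.UT

open Finset

open Classical in
/-- indicator of the colour of a pair -/
noncomputable def pairIndI {V A B : Type} (h : V → V → V → Bool) (s : A ⊕ B → V) (x y : V)
    (γ : A → Bool) : ℝ := if pcol h s x y = γ then 1 else 0

/-- conditional probability of the colour of a pair -/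
noncomputable def pairIndK {V : Type} [Fintype V] {A B : Type} (h : V → V → V → Bool)
    (s : A ⊕ B → V) (x y : V) (γ : A → Bool) : ℝ := kk h s γ (x, y)

variable {V : Type} [Fintype V] [Nonempty V] {A B : Type} [Fintype A] [DecidableEq A]

omit [Fintype V] [Nonempty V] [Fintype A] [DecidableEq A] in
theorem pairIndI_pos {h : V → V → V → Bool} {s : A ⊕ B → V} {x y : V} {γ : A → Bool}
    (hh : pcol h s x y = γ) : pairIndI h s x y γ = 1 := by
  unfold pairIndI
  rw [if_pos hh]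

omit [Fintype V] [Nonempty V] [Fintype A] [DecidableEq A] in
theorem pairIndI_neg {h : V → V → V → Bool} {s : A ⊕ B → V} {x y : V} {γ : A → Bool}
    (hh : ¬ pcol h s x y = γ) : pairIndI h s x y γ = 0 := by
  unfold pairIndI
  rw [if_neg hh]

omit [Nonempty V] [Fintype A] [DecidableEq A] in
theorem pairInd_kk (h : V → V → V → Bool) (s : A ⊕ B → V) (γ : A → Bool) :
    kk h s γ = cE (unif (V × V)) (col2 h s) (fun x => pairIndI h s x.1 x.2 γ) := rfl

omit [Fintype A] [DecidableEq A] in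
theorem pairInd_step0 (h : V → V → V → Bool) (s : A ⊕ B → V) (γ : A → Bool)
    (Ψ : V × V → V × V → ℝ) (h0 : ∀ u x, 0 ≤ Ψ u x)
    (hm : ∀ u x x', col2 h (exB (exB s u.1) u.2) x = col2 h (exB (exB s u.1) u.2) x' →
      Ψ u x = Ψ u x') :
    |avg (fun u : V × V => avg (fun x : V × V =>
        (kk h s γ x - pairIndI h s x.1 x.2 γ) * Ψ u x))|
      ≤ avg (fun u : V × V => avg (fun x : V × V =>
          |kk h (exB (exB s u.1) u.2) γ x - kk h s γ x| * Ψ u x)) := by
  have key : ∀ u : V × V, avg (fun x : V × V =>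
        (kk h s γ x - pairIndI h s x.1 x.2 γ) * Ψ u x) =
      avg (fun x : V × V => (kk h s γ x - kk h (exB (exB s u.1) u.2) γ x) * Ψ u x) := by
    intro u
    have h1 : avg (fun x : V × V => pairIndI h s x.1 x.2 γ * Ψ u x) =
        avg (fun x : V × V => kk h (exB (exB s u.1) u.2) γ x * Ψ u x) :=
      ce_sum_mul (unif (V × V)) (unif_prob (V × V)).1 (col2 h (exB (exB s u.1) u.2))
        (fun x => pairIndI h (exB (exB s u.1) u.2) x.1 x.2 γ) (Ψ u) (hm u)
    have h2 : ∀ F : V × V → ℝ, avg (fun x : V × V => (kk h s γ x - F x) * Ψ u x) =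
        avg (fun x : V × V => kk h s γ x * Ψ u x) - avg (fun x : V × V => F x * Ψ u x) := by
      intro F
      rw [← avg_sub]
      simp only [sub_mul]
    rw [h2 (fun x => pairIndI h s x.1 x.2 γ), h2 (kk h (exB (exB s u.1) u.2) γ), h1]
  calc |avg (fun u : V × V => avg (fun x : V × V =>
        (kk h s γ x - pairIndI h s x.1 x.2 γ) * Ψ u x))|
      ≤ avg (fun u : V × V => |avg (fun x : V × V =>
        (kk h s γ x - pairIndI h s x.1 x.2 γ) * Ψ u x)|) := avg_abs _
    _ ≤ avg (fun u : V × V => avg (fun x : V × V =>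
          |kk h (exB (exB s u.1) u.2) γ x - kk h s γ x| * Ψ u x)) := by
        apply avg_mono
        intro u
        rw [key u]
        refine (avg_abs _).trans (avg_mono _ _ fun x => ?_)
        rw [abs_mul, abs_of_nonneg (h0 u x), abs_sub_comm]

open Classical in
theorem pair_step (h : V → V → V → Bool) (s : A ⊕ B → V) (γ : A → Bool)
    (Ψ : V × V → V × V → ℝ) (h0 : ∀ u x, 0 ≤ Ψ u x)
    (hm : ∀ u x x', col2 h (exB (exB s u.1) u.2) x = col2 h (exB (exB s u.1) u.2) x' →
      Ψ u x = Ψ u x') :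
    |avg (fun u : V × V => avg (fun x : V × V =>
        (kk h s γ x - (if pcol h s x.1 x.2 = γ then 1 else 0)) * Ψ u x))|
      ≤ avg (fun u : V × V => avg (fun x : V × V =>
          |kk h (exB (exB s u.1) u.2) γ x - kk h s γ x| * Ψ u x)) := by
  have e : ∀ x : V × V, (if pcol h s x.1 x.2 = γ then (1 : ℝ) else 0) =
      pairIndI h s x.1 x.2 γ := by
    intro x
    by_cases hx : pcol h s x.1 x.2 = γ
    · rw [if_pos hx, pairIndI_pos hx]
    · rw [if_neg hx, pairIndI_neg hx]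
  simp only [e]
  exact pairInd_step0 h s γ Ψ h0 hm

/-! ### measurability -/

omit [Fintype V] [Nonempty V] [Fintype A] [DecidableEq A] in
theorem pairInd_ty1 (h : V → V → V → Bool) (s : A ⊕ B → V) (v x x' : V)
    (hh : ty h (exB s v) x = ty h (exB s v) x') : ty h s x = ty h s x' := by
  funext r r'
  rcases r with a | b <;> rcases r' with a' | b'
  · exact congrFun (congrFun hh (Sum.inl a)) (Sum.inl a')
  · exact congrFun (congrFun hh (Sum.inl a)) (Sum.inr (some b'))
  · exact congrFun (congrFun hh (Sum.inr (some b))) (Sum.inl a')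
  · exact congrFun (congrFun hh (Sum.inr (some b))) (Sum.inr (some b'))

omit [Fintype V] [Nonempty V] [Fintype A] [DecidableEq A] in
theorem pairInd_ty2 (h : V → V → V → Bool) (s : A ⊕ B → V) (u v x x' : V)
    (hh : ty h (exB (exB s u) v) x = ty h (exB (exB s u) v) x') :
    ty h (exB s v) x = ty h (exB s v) x' := by
  funext r r'
  rcases r with a | (_ | b) <;> rcases r' with a' | (_ | b')
  · exact congrFun (congrFun hh (Sum.inl a)) (Sum.inl a')
  · exact congrFun (congrFun hh (Sum.inl a)) (Sum.inr none)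
  · exact congrFun (congrFun hh (Sum.inl a)) (Sum.inr (some (some b')))
  · exact congrFun (congrFun hh (Sum.inr none)) (Sum.inl a')
  · exact congrFun (congrFun hh (Sum.inr none)) (Sum.inr none)
  · exact congrFun (congrFun hh (Sum.inr none)) (Sum.inr (some (some b')))
  · exact congrFun (congrFun hh (Sum.inr (some (some b)))) (Sum.inl a')
  · exact congrFun (congrFun hh (Sum.inr (some (some b)))) (Sum.inr none)
  · exact congrFun (congrFun hh (Sum.inr (some (some b)))) (Sum.inr (some (some b')))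

/-- weights on the colours of pairs of vertices -/
structure PairIndGood (h : V → V → V → Bool) (s : A ⊕ B → V)
    (P : V → V → (A → Bool) → ℝ) : Prop where
  nonneg : ∀ x y γ, 0 ≤ P x y γ
  sum : ∀ x y, ∑ γ, P x y γ = 1
  left : ∀ v x x', ty h (exB s v) x = ty h (exB s v) x' → P x v = P x' v
  right : ∀ v x x', ty h (exB s v) x = ty h (exB s v) x' → P v x = P v x'

omit [Fintype V] [Nonempty V] in
theorem PairIndGood.tr {h : V → V → V → Bool} {s : A ⊕ B → V} {P : V → V → (A → Bool) → ℝ}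
    (hP : PairIndGood h s P) : PairIndGood h s (fun x y => P y x) :=
  ⟨fun x y γ => hP.nonneg y x γ, fun x y => hP.sum y x, fun v x x' hh => hP.right v x x' hh,
    fun v x x' hh => hP.left v x x' hh⟩

omit [Fintype V] [Nonempty V] in
theorem pairInd_goodI (h : V → V → V → Bool) (hs1 : ∀ x y z, h x y z = h y x z)
    (s : A ⊕ B → V) : PairIndGood h s (pairIndI h s) := by
  have hl : ∀ v x x', ty h (exB s v) x = ty h (exB s v) x' → pcol h s x v = pcol h s x' v := by
    intro v x x' hh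
    funext a
    exact congrFun (congrFun hh (Sum.inr none)) (Sum.inl a)
  have hr : ∀ v x x', ty h (exB s v) x = ty h (exB s v) x' → pcol h s v x = pcol h s v x' := by
    intro v x x' hh
    funext a
    have h1 : h x v (s (Sum.inl a)) = h x' v (s (Sum.inl a)) :=
      congrFun (congrFun hh (Sum.inr none)) (Sum.inl a)
    show h v x (s (Sum.inl a)) = h v x' (s (Sum.inl a))
    rw [hs1 v x, hs1 v x', h1]
  refine ⟨fun x y γ => ?_, fun x y => ?_, fun v x x' hh => ?_, fun v x x' hh => ?_⟩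
  · unfold pairIndI
    split_ifs
    · exact zero_le_one
    · exact le_refl _
  · rw [Finset.sum_eq_single (pcol h s x y)]
    · exact pairIndI_pos rfl
    · intro γ _ hγ
      exact pairIndI_neg (Ne.symm hγ)
    · intro hh
      exact absurd (mem_univ _) hh
  · funext γ
    unfold pairIndI
    rw [hl v x x' hh]
  · funext γ
    unfold pairIndI
    rw [hr v x x' hh]

theorem pairInd_goodK (h : V → V → V → Bool) (s : A ⊕ B → V) :
    PairIndGood h s (pairIndK h s) := by
  refine ⟨fun x y γ => kk_nonneg h s γ _, fun x y => kk_sum h s (x, y), fun v x x' hh => ?_,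
    fun v x x' hh => ?_⟩
  · funext γ
    unfold pairIndK
    rw [kk_eq_kv, kk_eq_kv]
    simp only
    rw [pairInd_ty1 h s v x x' hh]
  · funext γ
    unfold pairIndK
    rw [kk_eq_kv, kk_eq_kv]
    simp only
    rw [pairInd_ty1 h s v x x' hh]

/-- a bounded function of the types and of the six colours -/
structure PairIndPhi (h : V → V → V → Bool) (s : A ⊕ B → V)
    (Φ : V → V → V → V → (A → Bool) → (A → Bool) → (A → Bool) → (A → Bool) → (A → Bool) →
      (A → Bool) → ℝ) : Prop where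
  nonneg : ∀ x y z w a b c d e f, 0 ≤ Φ x y z w a b c d e f
  le_one : ∀ x y z w a b c d e f, Φ x y z w a b c d e f ≤ 1
  dep : ∀ x x' y y' z z' w w', ty h s x = ty h s x' → ty h s y = ty h s y' →
    ty h s z = ty h s z' → ty h s w = ty h s w' → Φ x y z w = Φ x' y' z' w'

/-- the general count -/
noncomputable def pairIndG (P12 P13 P14 P23 P24 P34 : V → V → (A → Bool) → ℝ)
    (Φ : V → V → V → V → (A → Bool) → (A → Bool) → (A → Bool) → (A → Bool) → (A → Bool) →
      (A → Bool) → ℝ) : ℝ :=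
  avg (fun x : V × V × V × V =>
    ∑ a : (A → Bool) × (A → Bool) × (A → Bool) × (A → Bool) × (A → Bool) × (A → Bool),
      P12 x.1 x.2.1 a.1 * P13 x.1 x.2.2.1 a.2.1 * P14 x.1 x.2.2.2 a.2.2.1 *
      P23 x.2.1 x.2.2.1 a.2.2.2.1 * P24 x.2.1 x.2.2.2 a.2.2.2.2.1 *
      P34 x.2.2.1 x.2.2.2 a.2.2.2.2.2 *
      Φ x.1 x.2.1 x.2.2.1 x.2.2.2 a.1 a.2.1 a.2.2.1 a.2.2.2.1 a.2.2.2.2.1 a.2.2.2.2.2)

omit [Nonempty V] in
theorem pairInd_reorder
    (e : (V × V × V × V) ≃ (V × V × V × V))
    (f : ((A → Bool) × (A → Bool) × (A → Bool) × (A → Bool) × (A → Bool) × (A → Bool)) ≃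
      ((A → Bool) × (A → Bool) × (A → Bool) × (A → Bool) × (A → Bool) × (A → Bool)))
    (F G : (V × V × V × V) →
      ((A → Bool) × (A → Bool) × (A → Bool) × (A → Bool) × (A → Bool) × (A → Bool)) → ℝ)
    (hFG : ∀ x a, F x a = G (e x) (f a)) :
    avg (fun x => ∑ a, F x a) = avg (fun x => ∑ a, G x a) := by
  rw [← avg_equiv e (fun x => ∑ a, G x a)]
  have h1 : (fun x => ∑ a, F x a) = fun x => ∑ a, G (e x) a := by
    funext x
    exact Fintype.sum_equiv f _ _ (hFG x)
  rw [h1]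


omit [Nonempty V] in
theorem pairInd_sw13 (P12 P13 P14 P23 P24 P34 : V → V → (A → Bool) → ℝ)
    (Φ : V → V → V → V → (A → Bool) → (A → Bool) → (A → Bool) → (A → Bool) → (A → Bool) →
      (A → Bool) → ℝ) :
    pairIndG P12 P13 P14 P23 P24 P34 Φ =
      pairIndG P13 P12 P14 (fun x y => P23 y x) P34 P24
        (fun x y z w a b c d e f => Φ x z y w b a c d f e) := by
  unfold pairIndG
  apply pairInd_reorder
    { toFun := fun x => (x.1, x.2.2.1, x.2.1, x.2.2.2), invFun := fun x => (x.1, x.2.2.1, x.2.1, x.2.2.2),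
      left_inv := fun _ => rfl, right_inv := fun _ => rfl }
    { toFun := fun a => (a.2.1, a.1, a.2.2.1, a.2.2.2.1, a.2.2.2.2.2, a.2.2.2.2.1), invFun := fun a => (a.2.1, a.1, a.2.2.1, a.2.2.2.1, a.2.2.2.2.2, a.2.2.2.2.1),
      left_inv := fun _ => rfl, right_inv := fun _ => rfl }
  intro x a
  simp only [Equiv.coe_fn_mk]
  ring

omit [Nonempty V] in
theorem pairInd_sw14 (P12 P13 P14 P23 P24 P34 : V → V → (A → Bool) → ℝ)
    (Φ : V → V → V → V → (A → Bool) → (A → Bool) → (A → Bool) → (A → Bool) → (A → Bool) →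
      (A → Bool) → ℝ) :
    pairIndG P12 P13 P14 P23 P24 P34 Φ =
      pairIndG P14 P13 P12 (fun x y => P34 y x) (fun x y => P24 y x) (fun x y => P23 y x)
        (fun x y z w a b c d e f => Φ x w z y c b a f e d) := by
  unfold pairIndG
  apply pairInd_reorder
    { toFun := fun x => (x.1, x.2.2.2, x.2.2.1, x.2.1), invFun := fun x => (x.1, x.2.2.2, x.2.2.1, x.2.1),
      left_inv := fun _ => rfl, right_inv := fun _ => rfl }
    { toFun := fun a => (a.2.2.1, a.2.1, a.1, a.2.2.2.2.2, a.2.2.2.2.1, a.2.2.2.1), invFun := fun a => (a.2.2.1, a.2.1, a.1, a.2.2.2.2.2, a.2.2.2.2.1, a.2.2.2.1),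
      left_inv := fun _ => rfl, right_inv := fun _ => rfl }
  intro x a
  simp only [Equiv.coe_fn_mk]
  ring

omit [Nonempty V] in
theorem pairInd_sw23 (P12 P13 P14 P23 P24 P34 : V → V → (A → Bool) → ℝ)
    (Φ : V → V → V → V → (A → Bool) → (A → Bool) → (A → Bool) → (A → Bool) → (A → Bool) →
      (A → Bool) → ℝ) :
    pairIndG P12 P13 P14 P23 P24 P34 Φ =
      pairIndG P23 (fun x y => P12 y x) P24 (fun x y => P13 y x) P34 P14
        (fun x y z w a b c d e f => Φ z x y w b d f a c e) := by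
  unfold pairIndG
  apply pairInd_reorder
    { toFun := fun x => (x.2.1, x.2.2.1, x.1, x.2.2.2), invFun := fun x => (x.2.2.1, x.1, x.2.1, x.2.2.2),
      left_inv := fun _ => rfl, right_inv := fun _ => rfl }
    { toFun := fun a => (a.2.2.2.1, a.1, a.2.2.2.2.1, a.2.1, a.2.2.2.2.2, a.2.2.1), invFun := fun a => (a.2.1, a.2.2.2.1, a.2.2.2.2.2, a.1, a.2.2.1, a.2.2.2.2.1),
      left_inv := fun _ => rfl, right_inv := fun _ => rfl }
  intro x a
  simp only [Equiv.coe_fn_mk]
  ring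

omit [Nonempty V] in
theorem pairInd_sw24 (P12 P13 P14 P23 P24 P34 : V → V → (A → Bool) → ℝ)
    (Φ : V → V → V → V → (A → Bool) → (A → Bool) → (A → Bool) → (A → Bool) → (A → Bool) →
      (A → Bool) → ℝ) :
    pairIndG P12 P13 P14 P23 P24 P34 Φ =
      pairIndG P24 (fun x y => P12 y x) P23 (fun x y => P14 y x) (fun x y => P34 y x) P13
        (fun x y z w a b c d e f => Φ z x w y b f d c a e) := by
  unfold pairIndG
  apply pairInd_reorder
    { toFun := fun x => (x.2.1, x.2.2.2, x.1, x.2.2.1), invFun := fun x => (x.2.2.1, x.1, x.2.2.2, x.2.1),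
      left_inv := fun _ => rfl, right_inv := fun _ => rfl }
    { toFun := fun a => (a.2.2.2.2.1, a.1, a.2.2.2.1, a.2.2.1, a.2.2.2.2.2, a.2.1), invFun := fun a => (a.2.1, a.2.2.2.2.2, a.2.2.2.1, a.2.2.1, a.1, a.2.2.2.2.1),
      left_inv := fun _ => rfl, right_inv := fun _ => rfl }
  intro x a
  simp only [Equiv.coe_fn_mk]
  ring

omit [Nonempty V] in
theorem pairInd_sw34 (P12 P13 P14 P23 P24 P34 : V → V → (A → Bool) → ℝ)
    (Φ : V → V → V → V → (A → Bool) → (A → Bool) → (A → Bool) → (A → Bool) → (A → Bool) →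
      (A → Bool) → ℝ) :
    pairIndG P12 P13 P14 P23 P24 P34 Φ =
      pairIndG P34 (fun x y => P13 y x) (fun x y => P23 y x) (fun x y => P14 y x) (fun x y => P24 y x) P12
        (fun x y z w a b c d e f => Φ z w x y f b d c e a) := by
  unfold pairIndG
  apply pairInd_reorder
    { toFun := fun x => (x.2.2.1, x.2.2.2, x.1, x.2.1), invFun := fun x => (x.2.2.1, x.2.2.2, x.1, x.2.1),
      left_inv := fun _ => rfl, right_inv := fun _ => rfl }
    { toFun := fun a => (a.2.2.2.2.2, a.2.1, a.2.2.2.1, a.2.2.1, a.2.2.2.2.1, a.1), invFun := fun a => (a.2.2.2.2.2, a.2.1, a.2.2.2.1, a.2.2.1, a.2.2.2.2.1, a.1),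
      left_inv := fun _ => rfl, right_inv := fun _ => rfl }
  intro x a
  simp only [Equiv.coe_fn_mk]
  ring


/-- the part of the count which does not depend on the colour of the first pair -/
noncomputable def pairIndPsi (P13 P14 P23 P24 P34 : V → V → (A → Bool) → ℝ)
    (Φ : V → V → V → V → (A → Bool) → (A → Bool) → (A → Bool) → (A → Bool) → (A → Bool) →
      (A → Bool) → ℝ) (γ : A → Bool) (u x : V × V) : ℝ :=
  ∑ a : (A → Bool) × (A → Bool) × (A → Bool) × (A → Bool) × (A → Bool),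
    P13 x.1 u.1 a.1 * P14 x.1 u.2 a.2.1 * P23 x.2 u.1 a.2.2.1 * P24 x.2 u.2 a.2.2.2.1 *
      P34 u.1 u.2 a.2.2.2.2 *
      Φ x.1 x.2 u.1 u.2 γ a.1 a.2.1 a.2.2.1 a.2.2.2.1 a.2.2.2.2

omit [Nonempty V] in
theorem pairInd_G_eq (P P13 P14 P23 P24 P34 : V → V → (A → Bool) → ℝ)
    (Φ : V → V → V → V → (A → Bool) → (A → Bool) → (A → Bool) → (A → Bool) → (A → Bool) →
      (A → Bool) → ℝ) :
    pairIndG P P13 P14 P23 P24 P34 Φ =
      ∑ γ : A → Bool, avg (fun u : V × V => avg (fun x : V × V =>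
        P x.1 x.2 γ * pairIndPsi P13 P14 P23 P24 P34 Φ γ u x)) := by
  have h1 : pairIndG P P13 P14 P23 P24 P34 Φ = avg (fun u : V × V => avg (fun x : V × V =>
      ∑ γ : A → Bool, P x.1 x.2 γ * pairIndPsi P13 P14 P23 P24 P34 Φ γ u x)) := by
    unfold pairIndG
    rw [← avg_equiv (⟨fun p : (V × V) × (V × V) => (p.2.1, p.2.2, p.1.1, p.1.2),
      fun x => ((x.2.2.1, x.2.2.2), (x.1, x.2.1)), fun _ => rfl, fun _ => rfl⟩ :
      ((V × V) × (V × V)) ≃ (V × V × V × V)), avg_prod]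
    simp only [Equiv.coe_fn_mk]
    congr 1
    funext u
    congr 1
    funext x
    rw [Fintype.sum_prod_type]
    refine Finset.sum_congr rfl fun γ _ => ?_
    unfold pairIndPsi
    rw [Finset.mul_sum]
    refine Finset.sum_congr rfl fun a _ => ?_
    ring
  rw [h1]
  have h2 : ∀ u : V × V, avg (fun x : V × V =>
      ∑ γ : A → Bool, P x.1 x.2 γ * pairIndPsi P13 P14 P23 P24 P34 Φ γ u x) =
      ∑ γ : A → Bool, avg (fun x : V × V =>
        P x.1 x.2 γ * pairIndPsi P13 P14 P23 P24 P34 Φ γ u x) := fun u =>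
    avg_sum univ (fun γ x => P x.1 x.2 γ * pairIndPsi P13 P14 P23 P24 P34 Φ γ u x)
  simp only [h2]
  exact avg_sum univ (fun γ u => avg (fun x : V × V =>
        P x.1 x.2 γ * pairIndPsi P13 P14 P23 P24 P34 Φ γ u x))

theorem pairInd_sum5 (f1 f2 f3 f4 f5 : (A → Bool) → ℝ) (h1 : ∑ a, f1 a = 1)
    (h2 : ∑ a, f2 a = 1) (h3 : ∑ a, f3 a = 1) (h4 : ∑ a, f4 a = 1) (h5 : ∑ a, f5 a = 1) :
    ∑ a : (A → Bool) × (A → Bool) × (A → Bool) × (A → Bool) × (A → Bool),
      f1 a.1 * f2 a.2.1 * f3 a.2.2.1 * f4 a.2.2.2.1 * f5 a.2.2.2.2 = 1 := by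
  simp only [Fintype.sum_prod_type, ← Finset.mul_sum, ← Finset.sum_mul, h1, h2, h3, h4, h5]
  norm_num

theorem pairInd_main (h : V → V → V → Bool) (s : A ⊕ B → V)
    {P13 P14 P23 P24 P34 : V → V → (A → Bool) → ℝ}
    {Φ : V → V → V → V → (A → Bool) → (A → Bool) → (A → Bool) → (A → Bool) → (A → Bool) →
      (A → Bool) → ℝ}
    (g13 : PairIndGood h s P13) (g14 : PairIndGood h s P14) (g23 : PairIndGood h s P23)
    (g24 : PairIndGood h s P24) (g34 : PairIndGood h s P34) (gΦ : PairIndPhi h s Φ) :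
    |pairIndG (pairIndK h s) P13 P14 P23 P24 P34 Φ -
      pairIndG (pairIndI h s) P13 P14 P23 P24 P34 Φ| ≤ del2 h s := by
  have hΨ0 : ∀ γ u x, 0 ≤ pairIndPsi P13 P14 P23 P24 P34 Φ γ u x := by
    intro γ u x
    unfold pairIndPsi
    refine Finset.sum_nonneg fun a _ => ?_
    exact mul_nonneg (mul_nonneg (mul_nonneg (mul_nonneg (mul_nonneg (g13.nonneg _ _ _)
      (g14.nonneg _ _ _)) (g23.nonneg _ _ _)) (g24.nonneg _ _ _)) (g34.nonneg _ _ _))
      (gΦ.nonneg _ _ _ _ _ _ _ _ _ _)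
  have hΨ1 : ∀ γ u x, pairIndPsi P13 P14 P23 P24 P34 Φ γ u x ≤ 1 := by
    intro γ u x
    have h5 := pairInd_sum5 (P13 x.1 u.1) (P14 x.1 u.2) (P23 x.2 u.1) (P24 x.2 u.2)
      (P34 u.1 u.2) (g13.sum _ _) (g14.sum _ _) (g23.sum _ _) (g24.sum _ _) (g34.sum _ _)
    unfold pairIndPsi
    refine le_trans (Finset.sum_le_sum fun a _ => ?_) (le_of_eq h5)
    refine mul_le_of_le_one_right ?_ (gΦ.le_one _ _ _ _ _ _ _ _ _ _)
    exact mul_nonneg (mul_nonneg (mul_nonneg (mul_nonneg (g13.nonneg _ _ _)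
      (g14.nonneg _ _ _)) (g23.nonneg _ _ _)) (g24.nonneg _ _ _)) (g34.nonneg _ _ _)
  have hΨm : ∀ γ u x x', col2 h (exB (exB s u.1) u.2) x = col2 h (exB (exB s u.1) u.2) x' →
      pairIndPsi P13 P14 P23 P24 P34 Φ γ u x = pairIndPsi P13 P14 P23 P24 P34 Φ γ u x' := by
    intro γ u x x' hc
    have hc1 : ty h (exB (exB s u.1) u.2) x.1 = ty h (exB (exB s u.1) u.2) x'.1 :=
      congrArg Prod.fst hc
    have hc2 : ty h (exB (exB s u.1) u.2) x.2 = ty h (exB (exB s u.1) u.2) x'.2 :=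
      congrArg Prod.snd hc
    have a1 := pairInd_ty1 h (exB s u.1) u.2 _ _ hc1
    have a2 := pairInd_ty2 h s u.1 u.2 _ _ hc1
    have b1 := pairInd_ty1 h (exB s u.1) u.2 _ _ hc2
    have b2 := pairInd_ty2 h s u.1 u.2 _ _ hc2
    have a0 := pairInd_ty1 h s u.1 _ _ a1
    have b0 := pairInd_ty1 h s u.1 _ _ b1
    unfold pairIndPsi
    rw [g13.left u.1 x.1 x'.1 a1, g14.left u.2 x.1 x'.1 a2, g23.left u.1 x.2 x'.2 b1,
      g24.left u.2 x.2 x'.2 b2, gΦ.dep x.1 x'.1 x.2 x'.2 u.1 u.1 u.2 u.2 a0 b0 rfl rfl]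
  rw [pairInd_G_eq, pairInd_G_eq, ← Finset.sum_sub_distrib]
  have hd : ∀ γ : A → Bool, avg (fun u : V × V => avg (fun x : V × V =>
      pairIndK h s x.1 x.2 γ * pairIndPsi P13 P14 P23 P24 P34 Φ γ u x)) -
      avg (fun u : V × V => avg (fun x : V × V =>
      pairIndI h s x.1 x.2 γ * pairIndPsi P13 P14 P23 P24 P34 Φ γ u x)) =
      avg (fun u : V × V => avg (fun x : V × V =>
      (kk h s γ x - pairIndI h s x.1 x.2 γ) * pairIndPsi P13 P14 P23 P24 P34 Φ γ u x)) := by
    intro γ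
    rw [← avg_sub]
    congr 1
    funext u
    rw [← avg_sub]
    congr 1
    funext x
    unfold pairIndK
    ring
  have hdel : del2 h s = ∑ γ : A → Bool, avg (fun u : V × V =>
      avg (fun x : V × V => |kk h (exB (exB s u.1) u.2) γ x - kk h s γ x|)) := by
    unfold del2
    rw [avg_sum]
  rw [hdel]
  refine (Finset.abs_sum_le_sum_abs _ _).trans (Finset.sum_le_sum fun γ _ => ?_)
  rw [hd γ]
  have h1 := pairInd_step0 h s γ (pairIndPsi P13 P14 P23 P24 P34 Φ γ) (hΨ0 γ) (hΨm γ)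
  refine le_trans h1 ?_
  apply avg_mono
  intro u
  apply avg_mono
  intro x
  exact mul_le_of_le_one_right (abs_nonneg _) (hΨ1 γ u x)


theorem pairInd_pos13 (h : V → V → V → Bool) (s : A ⊕ B → V)
    {P12 P14 P23 P24 P34 : V → V → (A → Bool) → ℝ}
    {Φ : V → V → V → V → (A → Bool) → (A → Bool) → (A → Bool) → (A → Bool) → (A → Bool) →
      (A → Bool) → ℝ}
    (g12 : PairIndGood h s P12) (g14 : PairIndGood h s P14) (g23 : PairIndGood h s P23) (g24 : PairIndGood h s P24) (g34 : PairIndGood h s P34)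
    (gΦ : PairIndPhi h s Φ) :
    |pairIndG P12 (pairIndK h s) P14 P23 P24 P34 Φ -
      pairIndG P12 (pairIndI h s) P14 P23 P24 P34 Φ| ≤ del2 h s := by
  rw [pairInd_sw13 P12 (pairIndK h s) P14 P23 P24 P34 Φ,
    pairInd_sw13 P12 (pairIndI h s) P14 P23 P24 P34 Φ]
  refine pairInd_main h s g12 g14 g23.tr g34 g24 ⟨?_, ?_, ?_⟩
  · intros
    exact gΦ.nonneg _ _ _ _ _ _ _ _ _ _
  · intros
    exact gΦ.le_one _ _ _ _ _ _ _ _ _ _
  · intro x x' y y' z z' w w' hx hy hz hw
    funext a b c d e f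
    show Φ x z y w b a c d f e = Φ x' z' y' w' b a c d f e
    rw [gΦ.dep x x' z z' y y' w w' hx hz hy hw]

theorem pairInd_pos14 (h : V → V → V → Bool) (s : A ⊕ B → V)
    {P12 P13 P23 P24 P34 : V → V → (A → Bool) → ℝ}
    {Φ : V → V → V → V → (A → Bool) → (A → Bool) → (A → Bool) → (A → Bool) → (A → Bool) →
      (A → Bool) → ℝ}
    (g12 : PairIndGood h s P12) (g13 : PairIndGood h s P13) (g23 : PairIndGood h s P23) (g24 : PairIndGood h s P24) (g34 : PairIndGood h s P34)
    (gΦ : PairIndPhi h s Φ) :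
    |pairIndG P12 P13 (pairIndK h s) P23 P24 P34 Φ -
      pairIndG P12 P13 (pairIndI h s) P23 P24 P34 Φ| ≤ del2 h s := by
  rw [pairInd_sw14 P12 P13 (pairIndK h s) P23 P24 P34 Φ,
    pairInd_sw14 P12 P13 (pairIndI h s) P23 P24 P34 Φ]
  refine pairInd_main h s g13 g12 g34.tr g24.tr g23.tr ⟨?_, ?_, ?_⟩
  · intros
    exact gΦ.nonneg _ _ _ _ _ _ _ _ _ _
  · intros
    exact gΦ.le_one _ _ _ _ _ _ _ _ _ _
  · intro x x' y y' z z' w w' hx hy hz hw
    funext a b c d e f
    show Φ x w z y c b a f e d = Φ x' w' z' y' c b a f e d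
    rw [gΦ.dep x x' w w' z z' y y' hx hw hz hy]

theorem pairInd_pos23 (h : V → V → V → Bool) (s : A ⊕ B → V)
    {P12 P13 P14 P24 P34 : V → V → (A → Bool) → ℝ}
    {Φ : V → V → V → V → (A → Bool) → (A → Bool) → (A → Bool) → (A → Bool) → (A → Bool) →
      (A → Bool) → ℝ}
    (g12 : PairIndGood h s P12) (g13 : PairIndGood h s P13) (g14 : PairIndGood h s P14) (g24 : PairIndGood h s P24) (g34 : PairIndGood h s P34)
    (gΦ : PairIndPhi h s Φ) :
    |pairIndG P12 P13 P14 (pairIndK h s) P24 P34 Φ -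
      pairIndG P12 P13 P14 (pairIndI h s) P24 P34 Φ| ≤ del2 h s := by
  rw [pairInd_sw23 P12 P13 P14 (pairIndK h s) P24 P34 Φ,
    pairInd_sw23 P12 P13 P14 (pairIndI h s) P24 P34 Φ]
  refine pairInd_main h s g12.tr g24 g13.tr g34 g14 ⟨?_, ?_, ?_⟩
  · intros
    exact gΦ.nonneg _ _ _ _ _ _ _ _ _ _
  · intros
    exact gΦ.le_one _ _ _ _ _ _ _ _ _ _
  · intro x x' y y' z z' w w' hx hy hz hw
    funext a b c d e f
    show Φ z x y w b d f a c e = Φ z' x' y' w' b d f a c e
    rw [gΦ.dep z z' x x' y y' w w' hz hx hy hw]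

theorem pairInd_pos24 (h : V → V → V → Bool) (s : A ⊕ B → V)
    {P12 P13 P14 P23 P34 : V → V → (A → Bool) → ℝ}
    {Φ : V → V → V → V → (A → Bool) → (A → Bool) → (A → Bool) → (A → Bool) → (A → Bool) →
      (A → Bool) → ℝ}
    (g12 : PairIndGood h s P12) (g13 : PairIndGood h s P13) (g14 : PairIndGood h s P14) (g23 : PairIndGood h s P23) (g34 : PairIndGood h s P34)
    (gΦ : PairIndPhi h s Φ) :
    |pairIndG P12 P13 P14 P23 (pairIndK h s) P34 Φ -
      pairIndG P12 P13 P14 P23 (pairIndI h s) P34 Φ| ≤ del2 h s := by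
  rw [pairInd_sw24 P12 P13 P14 P23 (pairIndK h s) P34 Φ,
    pairInd_sw24 P12 P13 P14 P23 (pairIndI h s) P34 Φ]
  refine pairInd_main h s g12.tr g23 g14.tr g34.tr g13 ⟨?_, ?_, ?_⟩
  · intros
    exact gΦ.nonneg _ _ _ _ _ _ _ _ _ _
  · intros
    exact gΦ.le_one _ _ _ _ _ _ _ _ _ _
  · intro x x' y y' z z' w w' hx hy hz hw
    funext a b c d e f
    show Φ z x w y b f d c a e = Φ z' x' w' y' b f d c a e
    rw [gΦ.dep z z' x x' w w' y y' hz hx hw hy]

theorem pairInd_pos34 (h : V → V → V → Bool) (s : A ⊕ B → V)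
    {P12 P13 P14 P23 P24 : V → V → (A → Bool) → ℝ}
    {Φ : V → V → V → V → (A → Bool) → (A → Bool) → (A → Bool) → (A → Bool) → (A → Bool) →
      (A → Bool) → ℝ}
    (g12 : PairIndGood h s P12) (g13 : PairIndGood h s P13) (g14 : PairIndGood h s P14) (g23 : PairIndGood h s P23) (g24 : PairIndGood h s P24)
    (gΦ : PairIndPhi h s Φ) :
    |pairIndG P12 P13 P14 P23 P24 (pairIndK h s) Φ -
      pairIndG P12 P13 P14 P23 P24 (pairIndI h s) Φ| ≤ del2 h s := by
  rw [pairInd_sw34 P12 P13 P14 P23 P24 (pairIndK h s) Φ,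
    pairInd_sw34 P12 P13 P14 P23 P24 (pairIndI h s) Φ]
  refine pairInd_main h s g13.tr g23.tr g14.tr g24.tr g12 ⟨?_, ?_, ?_⟩
  · intros
    exact gΦ.nonneg _ _ _ _ _ _ _ _ _ _
  · intros
    exact gΦ.le_one _ _ _ _ _ _ _ _ _ _
  · intro x x' y y' z z' w w' hx hy hz hw
    funext a b c d e f
    show Φ z w x y f b d c e a = Φ z' w' x' y' f b d c e a
    rw [gΦ.dep z z' w w' x x' y y' hz hw hx hy]

omit [Nonempty V] in
theorem pairInd_sumI (h : V → V → V → Bool) (s : A ⊕ B → V) (x y z w : V)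
    (F : (A → Bool) → (A → Bool) → (A → Bool) → (A → Bool) → (A → Bool) → (A → Bool) → ℝ) :
    ∑ a : (A → Bool) × (A → Bool) × (A → Bool) × (A → Bool) × (A → Bool) × (A → Bool),
      pairIndI h s x y a.1 * pairIndI h s x z a.2.1 * pairIndI h s x w a.2.2.1 *
      pairIndI h s y z a.2.2.2.1 * pairIndI h s y w a.2.2.2.2.1 *
      pairIndI h s z w a.2.2.2.2.2 *
      F a.1 a.2.1 a.2.2.1 a.2.2.2.1 a.2.2.2.2.1 a.2.2.2.2.2 =
    F (pcol h s x y) (pcol h s x z) (pcol h s x w) (pcol h s y z) (pcol h s y w)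
      (pcol h s z w) := by
  rw [Finset.sum_eq_single (pcol h s x y, pcol h s x z, pcol h s x w, pcol h s y z,
    pcol h s y w, pcol h s z w)]
  · simp only [pairIndI_pos]
    ring
  · rintro ⟨a, b, c, d, e, f⟩ _ hne
    simp only
    by_cases h1 : pcol h s x y = a
    · by_cases h2 : pcol h s x z = b
      · by_cases h3 : pcol h s x w = c
        · by_cases h4 : pcol h s y z = d
          · by_cases h5 : pcol h s y w = e
            · by_cases h6 : pcol h s z w = f
              · exact absurd (by rw [h1, h2, h3, h4, h5, h6]) hne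
              · rw [pairIndI_neg h6]
                ring
            · rw [pairIndI_neg h5]
              ring
          · rw [pairIndI_neg h4]
            ring
        · rw [pairIndI_neg h3]
          ring
      · rw [pairIndI_neg h2]
        ring
    · rw [pairIndI_neg h1]
      ring
  · intro hh
    exact absurd (mem_univ _) hh

theorem pairInd_total (h : V → V → V → Bool) (hs1 : ∀ x y z, h x y z = h y x z)
    (s : A ⊕ B → V)
    {Φ : V → V → V → V → (A → Bool) → (A → Bool) → (A → Bool) → (A → Bool) → (A → Bool) →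
      (A → Bool) → ℝ} (gΦ : PairIndPhi h s Φ) :
    |pairIndG (pairIndK h s) (pairIndK h s) (pairIndK h s) (pairIndK h s) (pairIndK h s)
        (pairIndK h s) Φ -
      pairIndG (pairIndI h s) (pairIndI h s) (pairIndI h s) (pairIndI h s) (pairIndI h s)
        (pairIndI h s) Φ| ≤ 6 * del2 h s := by
  have K := pairInd_goodK h s
  have I := pairInd_goodI h hs1 s
  have e1 := abs_le.1 (pairInd_main h s K K K K K gΦ)
  have e2 := abs_le.1 (pairInd_pos13 h s I K K K K gΦ)
  have e3 := abs_le.1 (pairInd_pos14 h s I I K K K gΦ)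
  have e4 := abs_le.1 (pairInd_pos23 h s I I I K K gΦ)
  have e5 := abs_le.1 (pairInd_pos24 h s I I I I K gΦ)
  have e6 := abs_le.1 (pairInd_pos34 h s I I I I I gΦ)
  rw [abs_le]
  constructor
  · linarith [e1.1, e2.1, e3.1, e4.1, e5.1, e6.1]
  · linarith [e1.2, e2.2, e3.2, e4.2, e5.2, e6.2]

/-- tetrahedron count of the reduced system at four vertices -/
noncomputable def k4v (h : V → V → V → Bool) (s : A ⊕ B → V) (x y z u : V) : ℝ :=
  K4gen (kv h s (ty h s x) (ty h s y)) (kv h s (ty h s x) (ty h s z))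
    (kv h s (ty h s x) (ty h s u)) (kv h s (ty h s y) (ty h s z))
    (kv h s (ty h s y) (ty h s u)) (kv h s (ty h s z) (ty h s u))
    (fv h s (ty h s x) (ty h s y) (ty h s z)) (fv h s (ty h s x) (ty h s y) (ty h s u))
    (fv h s (ty h s x) (ty h s z) (ty h s u)) (fv h s (ty h s y) (ty h s z) (ty h s u))

/-- density of the reduced system at three vertices -/
noncomputable def d3v (h : V → V → V → Bool) (s : A ⊕ B → V) (x y z : V) : ℝ :=
  D3gen (kv h s (ty h s x) (ty h s y)) (kv h s (ty h s x) (ty h s z))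
    (kv h s (ty h s y) (ty h s z)) (fv h s (ty h s x) (ty h s y) (ty h s z))

/-- the product of the four faces -/
noncomputable def pairIndF4 (h : V → V → V → Bool) (s : A ⊕ B → V) (x y z w : V)
    (a b c d e f : A → Bool) : ℝ :=
  fv h s (ty h s x) (ty h s y) (ty h s z) a b d *
    fv h s (ty h s x) (ty h s y) (ty h s w) a c e *
    fv h s (ty h s x) (ty h s z) (ty h s w) b c f *
    fv h s (ty h s y) (ty h s z) (ty h s w) d e f

theorem pairInd_F4_good (h : V → V → V → Bool) (s : A ⊕ B → V) :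
    PairIndPhi h s (pairIndF4 h s) := by
  refine ⟨fun x y z w a b c d e f => ?_, fun x y z w a b c d e f => ?_,
    fun x x' y y' z z' w w' hx hy hz hw => ?_⟩
  · unfold pairIndF4
    exact mul_nonneg (mul_nonneg (mul_nonneg (fv_bounds h s _ _ _ _ _ _).1
      (fv_bounds h s _ _ _ _ _ _).1) (fv_bounds h s _ _ _ _ _ _).1)
      (fv_bounds h s _ _ _ _ _ _).1
  · unfold pairIndF4
    exact mul_le_one₀ (mul_le_one₀ (mul_le_one₀ (fv_bounds h s _ _ _ _ _ _).2
      (fv_bounds h s _ _ _ _ _ _).1 (fv_bounds h s _ _ _ _ _ _).2)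
      (fv_bounds h s _ _ _ _ _ _).1 (fv_bounds h s _ _ _ _ _ _).2)
      (fv_bounds h s _ _ _ _ _ _).1 (fv_bounds h s _ _ _ _ _ _).2
  · funext a b c d e f
    unfold pairIndF4
    rw [hx, hy, hz, hw]

theorem k4_avg_le (h : V → V → V → Bool) (hs1 : ∀ x y z, h x y z = h y x z) (s : A ⊕ B → V) :
    avg (fun x : V × V × V × V => k4v h s x.1 x.2.1 x.2.2.1 x.2.2.2)
      ≤ avg (fun x : V × V × V × V =>
          fs h s (x.1, x.2.1, x.2.2.1) * fs h s (x.1, x.2.1, x.2.2.2) *
          fs h s (x.1, x.2.2.1, x.2.2.2) * fs h s (x.2.1, x.2.2.1, x.2.2.2)) + 6 * del2 h s := by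
  have hK : pairIndG (pairIndK h s) (pairIndK h s) (pairIndK h s) (pairIndK h s)
      (pairIndK h s) (pairIndK h s) (pairIndF4 h s) =
      avg (fun x : V × V × V × V => k4v h s x.1 x.2.1 x.2.2.1 x.2.2.2) := by
    unfold pairIndG
    congr 1
    funext x
    unfold k4v K4gen pairIndF4 pairIndK
    simp only [Fintype.sum_prod_type, kk_eq_kv]
  have hI : pairIndG (pairIndI h s) (pairIndI h s) (pairIndI h s) (pairIndI h s)
      (pairIndI h s) (pairIndI h s) (pairIndF4 h s) =
      avg (fun x : V × V × V × V =>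
          fs h s (x.1, x.2.1, x.2.2.1) * fs h s (x.1, x.2.1, x.2.2.2) *
          fs h s (x.1, x.2.2.1, x.2.2.2) * fs h s (x.2.1, x.2.2.1, x.2.2.2)) := by
    unfold pairIndG
    congr 1
    funext x
    rw [pairInd_sumI h s x.1 x.2.1 x.2.2.1 x.2.2.2
      (fun a b c d e f => pairIndF4 h s x.1 x.2.1 x.2.2.1 x.2.2.2 a b c d e f)]
    unfold pairIndF4
    simp only [fs_eq_fv]
  have hT := abs_le.1 (pairInd_total h hs1 s (pairInd_F4_good h s))
  rw [hK, hI] at hT
  linarith [hT.2]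


omit [Fintype A] [DecidableEq A] in
theorem pairInd_avg4 (F : V × V × V → ℝ) :
    avg (fun x : V × V × V × V => F (x.1, x.2.1, x.2.2.1)) = avg F := by
  rw [← avg_equiv (⟨fun p : (V × V × V) × V => (p.1.1, p.1.2.1, p.1.2.2, p.2),
      fun x => ((x.1, x.2.1, x.2.2.1), x.2.2.2), fun _ => rfl, fun _ => rfl⟩ :
      ((V × V × V) × V) ≃ (V × V × V × V)), avg_prod]
  simp only [Equiv.coe_fn_mk, avg_const]

theorem pairInd_dummy (P12 P13 P14 P23 P24 P34 : V → V → (A → Bool) → ℝ)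
    (h14 : ∀ x y, ∑ γ, P14 x y γ = 1) (h24 : ∀ x y, ∑ γ, P24 x y γ = 1)
    (h34 : ∀ x y, ∑ γ, P34 x y γ = 1)
    (Φ : V → V → V → (A → Bool) → (A → Bool) → (A → Bool) → ℝ) :
    pairIndG P12 P13 P14 P23 P24 P34 (fun x y z _ a b _ d _ _ => Φ x y z a b d) =
      avg (fun x : V × V × V => ∑ a : A → Bool, ∑ b : A → Bool, ∑ d : A → Bool,
        P12 x.1 x.2.1 a * P13 x.1 x.2.2 b * P23 x.2.1 x.2.2 d * Φ x.1 x.2.1 x.2.2 a b d) := by
  rw [← pairInd_avg4]
  unfold pairIndG
  congr 1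
  funext x
  simp only [Fintype.sum_prod_type]
  refine Finset.sum_congr rfl fun a _ => ?_
  refine Finset.sum_congr rfl fun b _ => ?_
  rw [Finset.sum_comm]
  refine Finset.sum_congr rfl fun d _ => ?_
  have e1 : ∀ c e : A → Bool, ∑ f : A → Bool,
      P12 x.1 x.2.1 a * P13 x.1 x.2.2.1 b * P14 x.1 x.2.2.2 c * P23 x.2.1 x.2.2.1 d *
        P24 x.2.1 x.2.2.2 e * P34 x.2.2.1 x.2.2.2 f * Φ x.1 x.2.1 x.2.2.1 a b d =
      P12 x.1 x.2.1 a * P13 x.1 x.2.2.1 b * P23 x.2.1 x.2.2.1 d *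
        Φ x.1 x.2.1 x.2.2.1 a b d * (P14 x.1 x.2.2.2 c * P24 x.2.1 x.2.2.2 e) := by
    intro c e
    rw [← Finset.sum_mul, ← Finset.mul_sum, h34]
    ring
  simp only [e1]
  have e2 : ∀ c : A → Bool, ∑ e : A → Bool,
      P12 x.1 x.2.1 a * P13 x.1 x.2.2.1 b * P23 x.2.1 x.2.2.1 d *
        Φ x.1 x.2.1 x.2.2.1 a b d * (P14 x.1 x.2.2.2 c * P24 x.2.1 x.2.2.2 e) =
      P12 x.1 x.2.1 a * P13 x.1 x.2.2.1 b * P23 x.2.1 x.2.2.1 d *
        Φ x.1 x.2.1 x.2.2.1 a b d * P14 x.1 x.2.2.2 c := by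
    intro c
    rw [← Finset.mul_sum, ← Finset.mul_sum, h24]
    ring
  simp only [e2]
  rw [← Finset.mul_sum, h14, mul_one]

omit [Nonempty V] in
theorem pairInd_sumI3 (h : V → V → V → Bool) (s : A ⊕ B → V) (x y z : V)
    (F : (A → Bool) → (A → Bool) → (A → Bool) → ℝ) :
    ∑ a : A → Bool, ∑ b : A → Bool, ∑ d : A → Bool,
      pairIndI h s x y a * pairIndI h s x z b * pairIndI h s y z d * F a b d =
    F (pcol h s x y) (pcol h s x z) (pcol h s y z) := by
  rw [Finset.sum_eq_single (pcol h s x y)]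
  · rw [Finset.sum_eq_single (pcol h s x z)]
    · rw [Finset.sum_eq_single (pcol h s y z)]
      · rw [pairIndI_pos rfl, pairIndI_pos rfl, pairIndI_pos rfl]
        ring
      · intro d _ hd
        rw [pairIndI_neg (Ne.symm hd)]
        ring
      · intro hh
        exact absurd (mem_univ _) hh
    · intro b _ hb
      refine Finset.sum_eq_zero fun d _ => ?_
      rw [pairIndI_neg (Ne.symm hb)]
      ring
    · intro hh
      exact absurd (mem_univ _) hh
  · intro a _ ha
    refine Finset.sum_eq_zero fun b _ => Finset.sum_eq_zero fun d _ => ?_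
    rw [pairIndI_neg (Ne.symm ha)]
    ring
  · intro hh
    exact absurd (mem_univ _) hh

open Classical in
theorem d3_avg_ge (h : V → V → V → Bool) (hs1 : ∀ x y z, h x y z = h y x z) (s : A ⊕ B → V)
    (Q : (A ⊕ B → A ⊕ B → Bool) → (A ⊕ B → A ⊕ B → Bool) → (A ⊕ B → A ⊕ B → Bool) → Prop) :
    avg (fun x : V × V × V =>
        if Q (ty h s x.1) (ty h s x.2.1) (ty h s x.2.2) then hR h x.1 x.2.1 x.2.2 else 0)
      ≤ avg (fun x : V × V × V =>
        if Q (ty h s x.1) (ty h s x.2.1) (ty h s x.2.2) then d3v h s x.1 x.2.1 x.2.2 else 0)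
        + 3 * del2 h s := by
  obtain ⟨Φ, hΦ⟩ : ∃ Φ : V → V → V → (A → Bool) → (A → Bool) → (A → Bool) → ℝ,
      Φ = fun x y z a b d => if Q (ty h s x) (ty h s y) (ty h s z) then
        fv h s (ty h s x) (ty h s y) (ty h s z) a b d else 0 := ⟨_, rfl⟩
  have gΦ : PairIndPhi h s (fun x y z _ a b _ d _ _ => Φ x y z a b d) := by
    refine ⟨fun x y z w a b c d e f => ?_, fun x y z w a b c d e f => ?_,
      fun x x' y y' z z' w w' hx hy hz hw => ?_⟩
    · rw [hΦ]
      simp only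
      split_ifs
      · exact (fv_bounds h s _ _ _ _ _ _).1
      · exact le_refl _
    · rw [hΦ]
      simp only
      split_ifs
      · exact (fv_bounds h s _ _ _ _ _ _).2
      · exact zero_le_one
    · funext a b c d e f
      rw [hΦ]
      simp only
      rw [hx, hy, hz]
  have K := pairInd_goodK h s
  have I := pairInd_goodI h hs1 s
  have e1 := (abs_le.1 (pairInd_main h s K I K I I gΦ)).1
  have e2 := (abs_le.1 (pairInd_pos13 h s I I K I I gΦ)).1
  have e4 := (abs_le.1 (pairInd_pos23 h s I I I I I gΦ)).1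
  have hK : pairIndG (pairIndK h s) (pairIndK h s) (pairIndI h s) (pairIndK h s)
      (pairIndI h s) (pairIndI h s) (fun x y z _ a b _ d _ _ => Φ x y z a b d) =
      avg (fun x : V × V × V =>
        if Q (ty h s x.1) (ty h s x.2.1) (ty h s x.2.2) then d3v h s x.1 x.2.1 x.2.2
          else 0) := by
    rw [pairInd_dummy _ _ _ _ _ _ I.sum I.sum I.sum]
    congr 1
    funext x
    rw [hΦ]
    simp only
    by_cases hQ : Q (ty h s x.1) (ty h s x.2.1) (ty h s x.2.2)
    · rw [if_pos hQ]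
      unfold d3v D3gen pairIndK
      simp only [kk_eq_kv, if_pos hQ]
    · rw [if_neg hQ]
      simp only [if_neg hQ, mul_zero, Finset.sum_const_zero]
  have hI : pairIndG (pairIndI h s) (pairIndI h s) (pairIndI h s) (pairIndI h s)
      (pairIndI h s) (pairIndI h s) (fun x y z _ a b _ d _ _ => Φ x y z a b d) =
      avg (fun x : V × V × V =>
        if Q (ty h s x.1) (ty h s x.2.1) (ty h s x.2.2) then fs h s x else 0) := by
    rw [pairInd_dummy _ _ _ _ _ _ I.sum I.sum I.sum]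
    congr 1
    funext x
    rw [pairInd_sumI3 h s x.1 x.2.1 x.2.2 (Φ x.1 x.2.1 x.2.2), hΦ]
    simp only
    by_cases hQ : Q (ty h s x.1) (ty h s x.2.1) (ty h s x.2.2)
    · rw [if_pos hQ, if_pos hQ, fs_eq_fv]
    · rw [if_neg hQ, if_neg hQ]
  have hH : avg (fun x : V × V × V =>
        if Q (ty h s x.1) (ty h s x.2.1) (ty h s x.2.2) then hR h x.1 x.2.1 x.2.2 else 0) =
      avg (fun x : V × V × V =>
        if Q (ty h s x.1) (ty h s x.2.1) (ty h s x.2.2) then fs h s x else 0) := by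
    have h1 := ce_sum_mul (unif (V × V × V)) (unif_prob (V × V × V)).1 (col3 h s)
      (fun x => hR h x.1 x.2.1 x.2.2)
      (fun x => if Q (ty h s x.1) (ty h s x.2.1) (ty h s x.2.2) then (1 : ℝ) else 0)
      (by
        intro a b hab
        have h2 := congrArg Prod.fst hab
        have t1 : ty h s a.1 = ty h s b.1 := congrArg Prod.fst h2
        have t2 : ty h s a.2.1 = ty h s b.2.1 := congrArg (fun p => p.2.1) h2
        have t3 : ty h s a.2.2 = ty h s b.2.2 := congrArg (fun p => p.2.2) h2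
        rw [t1, t2, t3])
    have h3 : ∀ F : V × V × V → ℝ, avg (fun x : V × V × V =>
        if Q (ty h s x.1) (ty h s x.2.1) (ty h s x.2.2) then F x else 0) =
        ∑ x, unif (V × V × V) x * (F x *
          (if Q (ty h s x.1) (ty h s x.2.1) (ty h s x.2.2) then (1 : ℝ) else 0)) := by
      intro F
      unfold avg
      refine Finset.sum_congr rfl fun x _ => ?_
      dsimp only
      by_cases hQ : Q (ty h s x.1) (ty h s x.2.1) (ty h s x.2.2)
      · rw [if_pos hQ, if_pos hQ]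
        ring
      · rw [if_neg hQ, if_neg hQ]
        ring
    rw [h3 (fun x => hR h x.1 x.2.1 x.2.2), h3 (fs h s), h1]
    rfl
  rw [hH, ← hI, ← hK]
  linarith

end Pool.UT
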