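/-
UT Ramsey: the finite Ramsey theorem for k-subsets, and its forms for 3- and 4-tuples.

PROOF of ramseySet, by induction on k (for all C, m).
k = 0: N = m, take any H of size m, c = f ∅.
k -> k+1: let q = (card C) * m + 1 (or any number with: among q elements coloured by C some
m have the same colour).  Build N_q, N_{q-1}, ..., N_0 with N_q = 0 and
N_i = 1 + (Ramsey number of k, C for m' = N_{i+1}); i.e. prove by induction on q:
 (*) for all q there is N so that for every S with N <= |S| and f there are H ⊆ S, |H| = q and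
     g : ℕ → C with: for all K ⊆ H, |K| = k+1, f K = g (K.min' _)   [colour depends on the minimum
     only].
 Step: S given, a = min S, apply the induction hypothesis (k) to S \ {a} and K ↦ f (insert a K) to
 get S' homogeneous of size N(q), then (*) for q inside S' gives H', put H = insert a H' and
 g a = the homogeneous colour.  (All elements of S' are > a.)
Then pigeonhole on g restricted to H (|H| = q large) gives m elements with the same g.
ramsey3 / ramsey4: apply ramseySet with k = 3 / 4 to f' K = f applied to the sorted list of K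
(e.g. with l = K.sort (· ≤ ·), f' K = f (l.getD 0 0) (l.getD 1 0) (l.getD 2 0) (l.getD 3 0)).
-/
import Mathlib

set_option autoImplicit false

namespace Pool.UT

open Finset

/-- auxiliary step: colour depends on the minimum only -/
private theorem ramseyMinAux (k : ℕ) (C : Type) [Fintype C]
    (ih : ∀ m : ℕ, ∃ N : ℕ, ∀ S : Finset ℕ, N ≤ S.card → ∀ f : Finset ℕ → C,
      ∃ H : Finset ℕ, H ⊆ S ∧ H.card = m ∧ ∃ c : C, ∀ K : Finset ℕ, K ⊆ H → K.card = k → f K = c)
    (q : ℕ) :
    ∃ N : ℕ, ∀ S : Finset ℕ, N ≤ S.card → ∀ f : Finset ℕ → C,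
      ∃ H : Finset ℕ, H ⊆ S ∧ H.card = q ∧ ∃ g : ℕ → C, ∀ a ∈ H, ∀ K : Finset ℕ, K ⊆ H →
        K.card = k → (∀ x ∈ K, a < x) → f (insert a K) = g a := by
  induction q with
  | zero =>
    refine ⟨0, fun S _ f => ⟨∅, Finset.empty_subset _, rfl, fun _ => f ∅, ?_⟩⟩
    intro a ha
    exact absurd ha (Finset.notMem_empty a)
  | succ q ihq =>
    obtain ⟨N, hN⟩ := ihq
    obtain ⟨M, hM⟩ := ih N
    refine ⟨M + 1, fun S hS f => ?_⟩
    have hne : S.Nonempty := by
      rw [← Finset.card_pos]; omega
    have haS : S.min' hne ∈ S := Finset.min'_mem S hne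
    have hmin : ∀ b ∈ S, S.min' hne ≤ b := fun b hb => Finset.min'_le S b hb
    generalize S.min' hne = a at haS hmin
    have hcard : M ≤ (S.erase a).card := by
      rw [Finset.card_erase_of_mem haS]; omega
    obtain ⟨H₁, hH₁, hc₁, c, hc⟩ := hM (S.erase a) hcard (fun K => f (insert a K))
    obtain ⟨H₂, hH₂, hc₂, g, hg⟩ := hN H₁ hc₁.ge f
    have ha₂ : a ∉ H₂ := fun h => by
      have := hH₁ (hH₂ h)
      exact absurd rfl (Finset.mem_erase.mp this).1
    have hsub : ∀ K : Finset ℕ, K ⊆ insert a H₂ → (∀ x ∈ K, x ≠ a) → K ⊆ H₂ := by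
      intro K hK hx x hxK
      rcases Finset.mem_insert.mp (hK hxK) with h | h
      · exact absurd h (hx x hxK)
      · exact h
    refine ⟨insert a H₂, ?_, ?_, fun x => if x = a then c else g x, ?_⟩
    · intro x hx
      rcases Finset.mem_insert.mp hx with h | h
      · rw [h]; exact haS
      · exact Finset.mem_of_mem_erase (hH₁ (hH₂ h))
    · rw [Finset.card_insert_of_notMem ha₂, hc₂]
    · intro b hb K hK hKc hKb
      show f (insert b K) = if b = a then c else g b
      by_cases hba : b = a
      · subst hba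
        have h1 : K ⊆ H₂ := hsub K hK (fun x hx => (hKb x hx).ne')
        rw [if_pos rfl]
        exact hc K (h1.trans hH₂) hKc
      · rw [if_neg hba]
        have hb₂ : b ∈ H₂ := by
          rcases Finset.mem_insert.mp hb with h | h
          · exact absurd h hba
          · exact h
        have hab : a ≤ b := hmin b (Finset.mem_of_mem_erase (hH₁ (hH₂ hb₂)))
        have h1 : K ⊆ H₂ := hsub K hK (fun x hx => by have := hKb x hx; omega)
        exact hg b hb₂ K h1 hKc hKb

theorem ramseySet (k : ℕ) (C : Type) [Fintype C] (m : ℕ) :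
    ∃ N : ℕ, ∀ S : Finset ℕ, N ≤ S.card → ∀ f : Finset ℕ → C,
      ∃ H : Finset ℕ, H ⊆ S ∧ H.card = m ∧ ∃ c : C, ∀ K : Finset ℕ, K ⊆ H → K.card = k → f K = c := by
  induction k generalizing m with
  | zero =>
    refine ⟨m, fun S hS f => ?_⟩
    obtain ⟨H, hH, hHc⟩ := Finset.exists_subset_card_eq hS
    refine ⟨H, hH, hHc, f ∅, fun K _ hK => ?_⟩
    rw [Finset.card_eq_zero.mp hK]
  | succ k ih =>
    classical
    obtain ⟨N, hN⟩ := ramseyMinAux k C ih (Fintype.card C * m)
    refine ⟨N, fun S hS f => ?_⟩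
    obtain ⟨H, hH, hHc, g, hg⟩ := hN S hS f
    have hne : (Finset.univ : Finset C).Nonempty := ⟨f ∅, Finset.mem_univ _⟩
    obtain ⟨c, _, hc⟩ := Finset.exists_le_card_fiber_of_mul_le_card_of_maps_to
      (s := H) (t := (Finset.univ : Finset C)) (f := g) (n := m)
      (fun a _ => Finset.mem_univ _) hne (by rw [hHc, Finset.card_univ])
    obtain ⟨H', hH', hHc'⟩ := Finset.exists_subset_card_eq hc
    refine ⟨H', (hH'.trans (Finset.filter_subset _ _)).trans hH, hHc', c, fun K hK hKc => ?_⟩
    have hKne : K.Nonempty := by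
      rw [← Finset.card_pos]; omega
    have haK : K.min' hKne ∈ K := Finset.min'_mem K hKne
    have hmin : ∀ b ∈ K, K.min' hKne ≤ b := fun b hb => Finset.min'_le K b hb
    generalize K.min' hKne = a at haK hmin
    have hmem := Finset.mem_filter.mp (hH' (hK haK))
    have h1 : f (insert a (K.erase a)) = g a := by
      apply hg a hmem.1
      · intro x hx
        exact (Finset.mem_filter.mp (hH' (hK (Finset.mem_of_mem_erase hx)))).1
      · rw [Finset.card_erase_of_mem haK]; omega
      · intro x hx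
        have h2 := hmin x (Finset.mem_of_mem_erase hx)
        have h3 := (Finset.mem_erase.mp hx).1
        omega
    rw [Finset.insert_erase haK] at h1
    rw [h1, hmem.2]

theorem ramsey3 (C : Type) [Fintype C] (m : ℕ) :
    ∃ N : ℕ, ∀ S : Finset ℕ, N ≤ S.card → ∀ f : ℕ → ℕ → ℕ → C,
      ∃ H : Finset ℕ, H ⊆ S ∧ H.card = m ∧ ∃ c : C, ∀ x ∈ H, ∀ y ∈ H, ∀ z ∈ H,
        x < y → y < z → f x y z = c := by
  obtain ⟨N, hN⟩ := ramseySet 3 C m
  refine ⟨N, fun S hS f => ?_⟩
  obtain ⟨H, hH, hHc, c, hc⟩ := hN S hS (fun K => f ((K.sort (· ≤ ·)).getD 0 0)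
    ((K.sort (· ≤ ·)).getD 1 0) ((K.sort (· ≤ ·)).getD 2 0))
  refine ⟨H, hH, hHc, c, fun x hx y hy z hz hxy hyz => ?_⟩
  have hsort : ({x, y, z} : Finset ℕ).sort (· ≤ ·) = [x, y, z] := by
    rw [Finset.sort_insert, Finset.sort_insert, Finset.sort_singleton]
    · intro b hb; simp only [Finset.mem_singleton] at hb; omega
    · simp only [Finset.mem_singleton]; omega
    · intro b hb; simp only [Finset.mem_insert, Finset.mem_singleton] at hb; omega
    · simp only [Finset.mem_insert, Finset.mem_singleton]; omega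
  have h1 := hc {x, y, z} (by
    intro t ht
    simp only [Finset.mem_insert, Finset.mem_singleton] at ht
    rcases ht with h | h | h <;> rw [h] <;> assumption) (by
    rw [← Finset.length_sort (· ≤ ·), hsort]; rfl)
  simp only [hsort] at h1
  exact h1

theorem ramsey4 (C : Type) [Fintype C] (m : ℕ) :
    ∃ N : ℕ, ∀ S : Finset ℕ, N ≤ S.card → ∀ f : ℕ → ℕ → ℕ → ℕ → C,
      ∃ H : Finset ℕ, H ⊆ S ∧ H.card = m ∧ ∃ c : C, ∀ x ∈ H, ∀ y ∈ H, ∀ z ∈ H, ∀ u ∈ H,
        x < y → y < z → z < u → f x y z u = c := by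
  obtain ⟨N, hN⟩ := ramseySet 4 C m
  refine ⟨N, fun S hS f => ?_⟩
  obtain ⟨H, hH, hHc, c, hc⟩ := hN S hS (fun K => f ((K.sort (· ≤ ·)).getD 0 0)
    ((K.sort (· ≤ ·)).getD 1 0) ((K.sort (· ≤ ·)).getD 2 0) ((K.sort (· ≤ ·)).getD 3 0))
  refine ⟨H, hH, hHc, c, fun x hx y hy z hz u hu hxy hyz hzu => ?_⟩
  have hsort : ({x, y, z, u} : Finset ℕ).sort (· ≤ ·) = [x, y, z, u] := by
    rw [Finset.sort_insert, Finset.sort_insert, Finset.sort_insert, Finset.sort_singleton]
    · intro b hb; simp only [Finset.mem_singleton] at hb; omega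
    · simp only [Finset.mem_singleton]; omega
    · intro b hb; simp only [Finset.mem_insert, Finset.mem_singleton] at hb; omega
    · simp only [Finset.mem_insert, Finset.mem_singleton]; omega
    · intro b hb; simp only [Finset.mem_insert, Finset.mem_singleton] at hb; omega
    · simp only [Finset.mem_insert, Finset.mem_singleton]; omega
  have h1 := hc {x, y, z, u} (by
    intro t ht
    simp only [Finset.mem_insert, Finset.mem_singleton] at ht
    rcases ht with h | h | h | h <;> rw [h] <;> assumption) (by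
    rw [← Finset.length_sort (· ≤ ·), hsort]; rfl)
  simp only [hsort] at h1
  exact h1

end Pool.UT
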