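/-
UT EnergyE: the triple-level energy.

en_congr: relabel the references by the equivalences; s ↦ s ∘ (e ⊕ e') is a bijection of
A'⊕B' → V with A⊕B → V and fs does not change because the kernel relation of col3 does not
change (ce_congr).
en_diff: (Option A ⊕ B → V) ≃ V × (A ⊕ B → V) by (v, s) ↦ exA s v; for fixed s, v the colouring
col3 h (exA s v) refines col3 h s, so ce_pyth gives
avg (fs (exA s v) - fs s)^2 = avg (fs (exA s v))^2 - avg (fs s)^2.
en_monoB: the same with exB.
-/
import Pool.Agent.H95.UT.AvgLemmas

set_option autoImplicit false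

namespace Pool.UT

open Finset

variable {V : Type} [Fintype V]

omit [Fintype V] in
/-- if the references `s` are among the references `s'`, the colouring of `s'` refines that of `s` -/
theorem enE_refine {A B A' B' : Type} (h : V → V → V → Bool) (f : A → A') (g : B → B')
    (s : A ⊕ B → V) (s' : A' ⊕ B' → V) (hs : ∀ u, s u = s' (Sum.map f g u)) (x y : V × V × V)
    (hxy : col3 h s' x = col3 h s' y) : col3 h s x = col3 h s y := by
  have hty : ∀ a b : V, ty h s' a = ty h s' b → ty h s a = ty h s b := by
    intro a b hab
    funext u v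
    show h a (s u) (s v) = h b (s u) (s v)
    rw [hs u, hs v]
    exact congrFun (congrFun hab _) _
  have hpc : ∀ a b c d : V, pcol h s' a b = pcol h s' c d → pcol h s a b = pcol h s c d := by
    intro a b c d hab
    funext u
    show h a b (s (Sum.inl u)) = h c d (s (Sum.inl u))
    rw [hs (Sum.inl u)]
    exact congrFun hab (f u)
  simp only [col3, Prod.mk.injEq] at hxy ⊢
  obtain ⟨⟨h1, h2, h3⟩, h4, h5, h6⟩ := hxy
  exact ⟨⟨hty _ _ h1, hty _ _ h2, hty _ _ h3⟩, hpc _ _ _ _ h4, hpc _ _ _ _ h5, hpc _ _ _ _ h6⟩

/-- Pythagoras for the functions `fs` -/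
theorem enE_pyth {A B A' B' : Type} (h : V → V → V → Bool) (f : A → A') (g : B → B')
    (s : A ⊕ B → V) (s' : A' ⊕ B' → V) (hs : ∀ u, s u = s' (Sum.map f g u)) :
    avg (fun x : V × V × V => (fs h s' x - fs h s x) ^ 2) =
      avg (fun x : V × V × V => (fs h s' x) ^ 2) - avg (fun x : V × V × V => (fs h s x) ^ 2) := by
  have hw : ∀ a : V × V × V, 0 ≤ unif (V × V × V) a := by
    intro a
    unfold unif
    positivity
  exact ce_pyth (unif (V × V × V)) hw (col3 h s) (col3 h s') (fun x => hR h x.1 x.2.1 x.2.2)
    (enE_refine h f g s s' hs)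

theorem enE_avg_nonneg {α : Type*} [Fintype α] (F : α → ℝ) (hF : ∀ x, 0 ≤ F x) : 0 ≤ avg F := by
  unfold avg unif
  exact Finset.sum_nonneg fun x _ => mul_nonneg (by positivity) (hF x)

theorem enE_avg_congr {α : Type*} [Fintype α] {F G : α → ℝ} (hF : ∀ x, F x = G x) :
    avg F = avg G := by
  rw [funext hF]

theorem en_bounds [Nonempty V] (h : V → V → V → Bool) (A B : Type) [Fintype A] [Fintype B]
    [DecidableEq A] [DecidableEq B] : 0 ≤ en V h A B ∧ en V h A B ≤ 1 := by
  constructor
  · exact enE_avg_nonneg _ fun s => enE_avg_nonneg _ fun x => sq_nonneg _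
  · have h1 : ∀ s : A ⊕ B → V, avg (fun x : V × V × V => (fs h s x) ^ 2) ≤ 1 := by
      intro s
      calc avg (fun x : V × V × V => (fs h s x) ^ 2) ≤ avg (fun _ : V × V × V => (1 : ℝ)) := by
            refine avg_mono _ _ fun x => ?_
            obtain ⟨h0, h1⟩ := fs_bounds h s x
            nlinarith
        _ = 1 := avg_const 1
    calc en V h A B ≤ avg (fun _ : A ⊕ B → V => (1 : ℝ)) := avg_mono _ _ h1
      _ = 1 := avg_const 1

theorem en_congr (h : V → V → V → Bool) (A B A' B' : Type) [Fintype A] [Fintype B] [Fintype A']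
    [Fintype B'] [DecidableEq A] [DecidableEq B] [DecidableEq A'] [DecidableEq B']
    (e : A ≃ A') (e' : B ≃ B') : en V h A B = en V h A' B' := by
  let E : (A' ⊕ B' → V) ≃ (A ⊕ B → V) :=
    { toFun := fun s => fun u => s (Sum.map e e' u)
      invFun := fun s => fun u => s (Sum.map e.symm e'.symm u)
      left_inv := fun s => by
        funext u
        rcases u with u | u <;> simp
      right_inv := fun s => by
        funext u
        rcases u with u | u <;> simp }
  have h1 : ∀ s : A' ⊕ B' → V, fs h (E s) = fs h s := by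
    intro s
    refine ce_congr _ _ _ _ fun x y => ⟨?_, ?_⟩
    · refine enE_refine h e.symm e'.symm s (E s) ?_ x y
      intro u
      show s u = s (Sum.map e e' (Sum.map e.symm e'.symm u))
      rcases u with u | u <;> simp
    · exact enE_refine h e e' (E s) s (fun u => rfl) x y
  unfold en
  rw [← avg_equiv E (fun s => avg (fun x : V × V × V => (fs h s x) ^ 2))]
  exact enE_avg_congr fun s => by rw [h1 s]

theorem en_diff [Nonempty V] (h : V → V → V → Bool) (A B : Type) [Fintype A] [Fintype B]
    [DecidableEq A] [DecidableEq B] :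
    en V h (Option A) B - en V h A B
      = avg (fun s : A ⊕ B → V => avg (fun v : V =>
          avg (fun x : V × V × V => (fs h (exA s v) x - fs h s x) ^ 2))) := by
  let E : V × (A ⊕ B → V) ≃ (Option A ⊕ B → V) :=
    { toFun := fun p => exA p.2 p.1
      invFun := fun s => (s (Sum.inl none), fun u => s (Sum.map some id u))
      left_inv := fun p => by
        refine Prod.ext rfl ?_
        funext u
        rcases u with u | u <;> rfl
      right_inv := fun s => by
        funext u
        rcases u with (_ | u) | u <;> rfl }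
  have h1 : ∀ (s : A ⊕ B → V) (v : V), avg (fun x : V × V × V => (fs h (exA s v) x - fs h s x) ^ 2)
      = avg (fun x : V × V × V => (fs h (exA s v) x) ^ 2) -
        avg (fun x : V × V × V => (fs h s x) ^ 2) := by
    intro s v
    refine enE_pyth h some id s (exA s v) ?_
    intro u
    rcases u with u | u <;> rfl
  have h2 : en V h (Option A) B = avg (fun s : A ⊕ B → V => avg (fun v : V =>
      avg (fun x : V × V × V => (fs h (exA s v) x) ^ 2))) := by
    unfold en
    rw [← avg_equiv E (fun s => avg (fun x : V × V × V => (fs h s x) ^ 2)), avg_prod']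
    rfl
  have h3 : en V h A B = avg (fun s : A ⊕ B → V => avg (fun _ : V =>
      avg (fun x : V × V × V => (fs h s x) ^ 2))) := by
    unfold en
    exact enE_avg_congr fun s => (avg_const _).symm
  rw [h2, h3, ← avg_sub]
  refine enE_avg_congr fun s => ?_
  rw [← avg_sub]
  exact enE_avg_congr fun v => (h1 s v).symm

theorem enE_diffB [Nonempty V] (h : V → V → V → Bool) (A B : Type) [Fintype A] [Fintype B]
    [DecidableEq A] [DecidableEq B] :
    en V h A (Option B) - en V h A B
      = avg (fun s : A ⊕ B → V => avg (fun v : V =>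
          avg (fun x : V × V × V => (fs h (exB s v) x - fs h s x) ^ 2))) := by
  let E : V × (A ⊕ B → V) ≃ (A ⊕ Option B → V) :=
    { toFun := fun p => exB p.2 p.1
      invFun := fun s => (s (Sum.inr none), fun u => s (Sum.map id some u))
      left_inv := fun p => by
        refine Prod.ext rfl ?_
        funext u
        rcases u with u | u <;> rfl
      right_inv := fun s => by
        funext u
        rcases u with u | (_ | u) <;> rfl }
  have h1 : ∀ (s : A ⊕ B → V) (v : V), avg (fun x : V × V × V => (fs h (exB s v) x - fs h s x) ^ 2)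
      = avg (fun x : V × V × V => (fs h (exB s v) x) ^ 2) -
        avg (fun x : V × V × V => (fs h s x) ^ 2) := by
    intro s v
    refine enE_pyth h id some s (exB s v) ?_
    intro u
    rcases u with u | u <;> rfl
  have h2 : en V h A (Option B) = avg (fun s : A ⊕ B → V => avg (fun v : V =>
      avg (fun x : V × V × V => (fs h (exB s v) x) ^ 2))) := by
    unfold en
    rw [← avg_equiv E (fun s => avg (fun x : V × V × V => (fs h s x) ^ 2)), avg_prod']
    rfl
  have h3 : en V h A B = avg (fun s : A ⊕ B → V => avg (fun _ : V =>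
      avg (fun x : V × V × V => (fs h s x) ^ 2))) := by
    unfold en
    exact enE_avg_congr fun s => (avg_const _).symm
  rw [h2, h3, ← avg_sub]
  refine enE_avg_congr fun s => ?_
  rw [← avg_sub]
  exact enE_avg_congr fun v => (h1 s v).symm

theorem en_monoB [Nonempty V] (h : V → V → V → Bool) (A B : Type) [Fintype A] [Fintype B]
    [DecidableEq A] [DecidableEq B] : en V h A B ≤ en V h A (Option B) := by
  have h1 := enE_diffB h A B
  have h2 : 0 ≤ avg (fun s : A ⊕ B → V => avg (fun v : V =>
      avg (fun x : V × V × V => (fs h (exB s v) x - fs h s x) ^ 2))) :=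
    enE_avg_nonneg _ fun s => enE_avg_nonneg _ fun v => enE_avg_nonneg _ fun x => sq_nonneg _
  linarith

end Pool.UT
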