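/-
UT EnergyV: the pair-level energy.

vn_congr: relabel B by the equivalence.
vn_diff: (A ⊕ Option (Option B) → V) ≃ (V × V) × (A ⊕ B → V) by (u, s) ↦ exB (exB s u.1) u.2; the
colouring col2 h (exB (exB s u1) u2) refines col2 h s and pcol does not change, so for each γ
ce_pyth gives the identity.
vn_mono: the same with one reference.
vn_bounds: ∑_γ avg (kk γ)^2 ≤ ∑_γ avg kk γ = 1 (kk ∈ [0,1], kk_sum).
-/
import Pool.Agent.H95.UT.AvgLemmas

set_option autoImplicit false

namespace Pool.UT

open Finset

variable {V : Type} [Fintype V]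

theorem vn_bounds [Nonempty V] (h : V → V → V → Bool) (A B : Type) [Fintype A] [Fintype B]
    [DecidableEq A] [DecidableEq B] : 0 ≤ vn V h A B ∧ vn V h A B ≤ 1 := by
  have hle : ∀ (s : A ⊕ B → V) (γ : A → Bool) (x : V × V), kk h s γ x ≤ 1 := by
    intro s γ x
    rw [← kk_sum h s x]
    exact Finset.single_le_sum (f := fun γ => kk h s γ x)
      (fun γ' _ => kk_nonneg h s γ' x) (Finset.mem_univ γ)
  constructor
  · have h0 : avg (fun _ : A ⊕ B → V => (0 : ℝ)) = 0 := avg_const 0
    rw [← h0]
    unfold vn
    apply avg_mono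
    intro s
    apply Finset.sum_nonneg
    intro γ _
    have h1 : avg (fun _ : V × V => (0 : ℝ)) = 0 := avg_const 0
    rw [← h1]
    apply avg_mono
    intro x
    exact sq_nonneg _
  · have h1 : avg (fun _ : A ⊕ B → V => (1 : ℝ)) = 1 := avg_const 1
    rw [← h1]
    unfold vn
    apply avg_mono
    intro s
    have h2 : ∑ γ : A → Bool, avg (fun x : V × V => (kk h s γ x) ^ 2)
        = avg (fun x : V × V => ∑ γ : A → Bool, (kk h s γ x) ^ 2) :=
      (avg_sum Finset.univ (fun γ (x : V × V) => (kk h s γ x) ^ 2)).symm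
    have h3 : avg (fun _ : V × V => (1 : ℝ)) = 1 := avg_const 1
    rw [h2, ← h3]
    apply avg_mono
    intro x
    rw [← kk_sum h s x]
    apply Finset.sum_le_sum
    intro γ _
    have ha := kk_nonneg h s γ x
    have hb := hle s γ x
    nlinarith

private theorem ty_relabel {R R' : Type} (h : V → V → V → Bool) (e : R ≃ R') (s : R → V)
    (x y : V) : ty h s x = ty h s y ↔
      ty h (fun r' => s (e.symm r')) x = ty h (fun r' => s (e.symm r')) y := by
  constructor
  · intro H
    funext u v
    exact congrFun (congrFun H (e.symm u)) (e.symm v)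
  · intro H
    funext u v
    have := congrFun (congrFun H (e u)) (e v)
    simpa [ty] using this

theorem vn_congr (h : V → V → V → Bool) (A B B' : Type) [Fintype A] [Fintype B]
    [Fintype B'] [DecidableEq A] [DecidableEq B] [DecidableEq B']
    (e' : B ≃ B') : vn V h A B = vn V h A B' := by
  unfold vn
  let e : A ⊕ B ≃ A ⊕ B' := Equiv.sumCongr (Equiv.refl A) e'
  let E : (A ⊕ B → V) ≃ (A ⊕ B' → V) := e.arrowCongr (Equiv.refl V)
  rw [← avg_equiv E]
  congr 1
  funext s
  apply Finset.sum_congr rfl
  intro γ _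
  congr 1
  funext x
  congr 1
  have hcol : ∀ a b : V × V, col2 h s a = col2 h s b ↔ col2 h (E s) a = col2 h (E s) b := by
    intro a b
    have h1 := ty_relabel h e s a.1 b.1
    have h2 := ty_relabel h e s a.2 b.2
    constructor
    · intro H
      have H1 := congrArg Prod.fst H
      have H2 := congrArg Prod.snd H
      exact Prod.ext (h1.1 H1) (h2.1 H2)
    · intro H
      have H1 := congrArg Prod.fst H
      have H2 := congrArg Prod.snd H
      exact Prod.ext (h1.2 H1) (h2.2 H2)
  have hk : kk h s γ = kk h (E s) γ := ce_congr _ _ _ _ hcol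
  exact congrFun hk x

/-- adding a type-level reference is a bijection -/
private def exBEquiv (V A B : Type) : (A ⊕ B → V) × V ≃ (A ⊕ Option B → V) where
  toFun p := exB p.1 p.2
  invFun t := (Sum.elim (fun a => t (Sum.inl a)) (fun b => t (Sum.inr (some b))),
    t (Sum.inr none))
  left_inv p := by
    apply Prod.ext
    · funext r
      cases r <;> rfl
    · rfl
  right_inv t := by
    funext r
    rcases r with a | o
    · rfl
    · cases o <;> rfl

private theorem avg_exB {A B : Type} [Fintype A] [Fintype B] [DecidableEq A] [DecidableEq B]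
    (F : (A ⊕ Option B → V) → ℝ) :
    avg F = avg (fun s : A ⊕ B → V => avg (fun u : V => F (exB s u))) := by
  rw [← avg_equiv (exBEquiv V A B), avg_prod]
  rfl

private theorem col2_exB {A B : Type} (h : V → V → V → Bool) (s : A ⊕ B → V) (u : V)
    (a b : V × V) (H : col2 h (exB s u) a = col2 h (exB s u) b) :
    col2 h s a = col2 h s b := by
  have key : ∀ x y : V, ty h (exB s u) x = ty h (exB s u) y → ty h s x = ty h s y := by
    intro x y Hxy
    have hemb : ∀ r : A ⊕ B, exB s u (Sum.map id some r) = s r := by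
      intro r
      cases r <;> rfl
    funext r r'
    have := congrFun (congrFun Hxy (Sum.map id some r)) (Sum.map id some r')
    simp only [ty, hemb] at this
    exact this
  exact Prod.ext (key _ _ (congrArg Prod.fst H)) (key _ _ (congrArg Prod.snd H))

private theorem kk_pyth {A B B' : Type} (h : V → V → V → Bool)
    (s : A ⊕ B → V) (s' : A ⊕ B' → V) (hs : ∀ a : A, s' (Sum.inl a) = s (Sum.inl a))
    (hc : ∀ a b : V × V, col2 h s' a = col2 h s' b → col2 h s a = col2 h s b)
    (γ : A → Bool) :
    avg (fun x : V × V => (kk h s' γ x - kk h s γ x) ^ 2)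
      = avg (fun x : V × V => (kk h s' γ x) ^ 2) - avg (fun x : V × V => (kk h s γ x) ^ 2) := by
  classical
  have hp : ∀ x y : V, pcol h s' x y = pcol h s x y := by
    intro x y
    funext a
    simp only [pcol, hs]
  have hk : kk h s' γ = cE (unif (V × V)) (col2 h s')
      (fun x => if pcol h s x.1 x.2 = γ then 1 else 0) := by
    unfold kk
    simp only [hp]
  have hk0 : kk h s γ = cE (unif (V × V)) (col2 h s)
      (fun x => if pcol h s x.1 x.2 = γ then 1 else 0) := rfl
  rw [hk, hk0]
  unfold avg
  apply ce_pyth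
  · intro a
    unfold unif
    positivity
  · exact hc

theorem vn_diff [Nonempty V] (h : V → V → V → Bool) (A B : Type) [Fintype A] [Fintype B]
    [DecidableEq A] [DecidableEq B] :
    vn V h A (Option (Option B)) - vn V h A B
      = avg (fun s : A ⊕ B → V => avg (fun u : V × V => ∑ γ : A → Bool,
          avg (fun x : V × V => (kk h (exB (exB s u.1) u.2) γ x - kk h s γ x) ^ 2))) := by
  have h1 : vn V h A (Option (Option B)) = avg (fun s : A ⊕ B → V => avg (fun u : V × V =>
      ∑ γ : A → Bool, avg (fun x : V × V => (kk h (exB (exB s u.1) u.2) γ x) ^ 2))) := by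
    unfold vn
    rw [avg_exB, avg_exB]
    congr 1
    funext s
    rw [avg_prod]
  have h2 : vn V h A B = avg (fun s : A ⊕ B → V => avg (fun _ : V × V =>
      ∑ γ : A → Bool, avg (fun x : V × V => (kk h s γ x) ^ 2))) := by
    unfold vn
    congr 1
    funext s
    rw [avg_const]
  rw [h1, h2, ← avg_sub]
  congr 1
  funext s
  rw [← avg_sub]
  congr 1
  funext u
  rw [← Finset.sum_sub_distrib]
  apply Finset.sum_congr rfl
  intro γ _
  rw [kk_pyth h s (exB (exB s u.1) u.2) (fun a => rfl) _ γ]
  intro a b H
  exact col2_exB h s u.1 a b (col2_exB h (exB s u.1) u.2 a b H)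

theorem vn_mono [Nonempty V] (h : V → V → V → Bool) (A B : Type) [Fintype A] [Fintype B]
    [DecidableEq A] [DecidableEq B] : vn V h A B ≤ vn V h A (Option B) := by
  have h1 : vn V h A (Option B) = avg (fun s : A ⊕ B → V => avg (fun u : V =>
      ∑ γ : A → Bool, avg (fun x : V × V => (kk h (exB s u) γ x) ^ 2))) := by
    unfold vn
    rw [avg_exB]
  have h2 : vn V h A B = avg (fun s : A ⊕ B → V => avg (fun _ : V =>
      ∑ γ : A → Bool, avg (fun x : V × V => (kk h s γ x) ^ 2))) := by
    unfold vn
    congr 1
    funext s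
    rw [avg_const]
  rw [h1, h2]
  apply avg_mono
  intro s
  apply avg_mono
  intro u
  apply Finset.sum_le_sum
  intro γ _
  have hp := kk_pyth h s (exB s u) (fun a => rfl) (fun a b H => col2_exB h s u a b H) γ
  have h0 : (0 : ℝ) ≤ avg (fun x : V × V => (kk h (exB s u) γ x - kk h s γ x) ^ 2) := by
    have hz : avg (fun _ : V × V => (0 : ℝ)) = 0 := avg_const 0
    rw [← hz]
    apply avg_mono
    intro x
    exact sq_nonneg _
  linarith

end Pool.UT
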