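/-
UT Pigeon: choice of the two numbers of references.

PROOF. First choose m(0) = 0-th, and recursively m(r+1) ≥ m(r), such that
v r (m(r)+2) - v r (m(r)) ≤ ε2 r: among m(r), m(r)+2, …, m(r)+2K with K ≥ 1/ε2 one works since
v r is nondecreasing with values in [0,1]; all m(r) are bounded by a number Mb(r) that depends only
on ε2 (not on e, v).  Then r ↦ e r (m(r)) is nondecreasing (e r (m r) ≤ e (r+1) (m r) ≤
e (r+1) (m (r+1))) with values in [0,1], so for some r ≤ R0 = ⌈1/ε1⌉ one has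
e (r+1) (m (r+1)) - e r (m r) ≤ ε1, and e (r+1) (m r) ≤ e (r+1) (m(r+1)).
M0 = R0 + max_{r ≤ R0} Mb(r).
-/
import Mathlib

set_option autoImplicit false

namespace Pool.UT

private theorem pigeon_incr (ε : ℝ) (hε : 0 < ε) (f : ℕ → ℝ) (hf : ∀ n, 0 ≤ f n ∧ f n ≤ 1) :
    ∃ j, j ≤ ⌈1 / ε⌉₊ ∧ f (j + 1) - f j ≤ ε := by
  by_contra hcon
  push Not at hcon
  set K : ℕ := ⌈1 / ε⌉₊ with hK
  have h1 : ∑ j ∈ Finset.range (K + 1), (f (j + 1) - f j) = f (K + 1) - f 0 :=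
    Finset.sum_range_sub f (K + 1)
  have h2 : ∑ j ∈ Finset.range (K + 1), ε ≤ ∑ j ∈ Finset.range (K + 1), (f (j + 1) - f j) := by
    apply Finset.sum_le_sum
    intro j hj
    rw [Finset.mem_range] at hj
    exact (hcon j (by omega)).le
  rw [Finset.sum_const, Finset.card_range, nsmul_eq_mul, h1] at h2
  have h3 : 1 / ε ≤ (K : ℝ) := Nat.le_ceil _
  have h4 : 1 ≤ (K : ℝ) * ε := by
    rw [div_le_iff₀ hε] at h3
    exact h3
  have h5 := (hf (K + 1)).2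
  have h6 := (hf 0).1
  push_cast at h2
  nlinarith

theorem pigeon (ε1 : ℝ) (h1 : 0 < ε1) (ε2 : ℕ → ℝ) (h2 : ∀ r, 0 < ε2 r) :
    ∃ M0 : ℕ, ∀ e v : ℕ → ℕ → ℝ,
      (∀ r m, 0 ≤ e r m ∧ e r m ≤ 1) → (∀ r m, 0 ≤ v r m ∧ v r m ≤ 1) →
      (∀ r m, e r m ≤ e r (m + 1)) → (∀ r m, e r m ≤ e (r + 1) m) →
      (∀ r m, v r m ≤ v r (m + 1)) →
      ∃ r m : ℕ, r ≤ M0 ∧ m ≤ M0 ∧ e (r + 1) m - e r m ≤ ε1 ∧ v r (m + 2) - v r m ≤ ε2 r := by
  set R0 : ℕ := ⌈1 / ε1⌉₊ with hR0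
  set S : ℕ → ℕ := fun r => ∑ i ∈ Finset.range (r + 1), 2 * ⌈1 / ε2 i⌉₊ with hS
  have hSmono : ∀ r r', r ≤ r' → S r ≤ S r' := by
    intro r r' h
    apply Finset.sum_le_sum_of_subset
    intro x hx
    rw [Finset.mem_range] at hx ⊢
    omega
  refine ⟨R0 + S R0, ?_⟩
  intro e v he hv he1 he2 hv1
  have step : ∀ r m0 : ℕ, ∃ m, m0 ≤ m ∧ m ≤ m0 + 2 * ⌈1 / ε2 r⌉₊ ∧
      v r (m + 2) - v r m ≤ ε2 r := by
    intro r m0
    obtain ⟨j, hj, hj2⟩ := pigeon_incr (ε2 r) (h2 r) (fun j => v r (m0 + 2 * j))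
      (fun j => hv r (m0 + 2 * j))
    refine ⟨m0 + 2 * j, by omega, by omega, ?_⟩
    have e1 : m0 + 2 * (j + 1) = m0 + 2 * j + 2 := by ring
    simp only [e1] at hj2
    exact hj2
  choose g hg1 hg2 hg3 using step
  set m : ℕ → ℕ := fun r => Nat.rec (g 0 0) (fun r mr => g (r + 1) mr) r with hm
  have hm0 : m 0 = g 0 0 := rfl
  have hms : ∀ r, m (r + 1) = g (r + 1) (m r) := fun r => rfl
  have hmS : ∀ r, m r ≤ S r := by
    intro r
    induction r with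
    | zero =>
      rw [hm0]
      have := hg2 0 0
      have e1 : S 0 = 2 * ⌈1 / ε2 0⌉₊ := by
        rw [hS]
        simp
      omega
    | succ r ih =>
      rw [hms]
      have := hg2 (r + 1) (m r)
      have e1 : S (r + 1) = S r + 2 * ⌈1 / ε2 (r + 1)⌉₊ := by
        rw [hS]
        simp only []
        rw [Finset.sum_range_succ]
      omega
  have hvm : ∀ r, v r (m r + 2) - v r (m r) ≤ ε2 r := by
    intro r
    cases r with
    | zero => exact hg3 0 0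
    | succ r => exact hg3 (r + 1) (m r)
  obtain ⟨r, hr, hr2⟩ := pigeon_incr ε1 h1 (fun r => e r (m r)) (fun r => he r (m r))
  refine ⟨r, m r, by omega, ?_, ?_, hvm r⟩
  · have := hmS r
    have := hSmono r R0 hr
    omega
  · have hmle : m r ≤ m (r + 1) := by
      rw [hms]
      exact hg1 (r + 1) (m r)
    have hmono : Monotone (e (r + 1)) := monotone_nat_of_le_succ (he1 (r + 1))
    have := hmono hmle
    linarith

end Pool.UT
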