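/-
UT Select: choice of the references.

PROOF. Apply pigeon with ε1 = ε^2/4 and ε2 r = ε^2/(4 * 2^r) to e r m = en V h (Fin r) (Fin m) and
v r m = vn V h (Fin r) (Fin m) (monotonicity: en_monoB, en_diff ≥ 0, vn_mono together with the
congr lemmas for finSuccEquiv-type equivalences Option (Fin r) ≃ Fin (r+1)).  This gives r, m with
avg_s a(s) ≤ ε^2/4 and avg_s b(s) ≤ ε^2/(4*2^r), where
a(s) = avg_v avg_x (fs(exA s v) - fs s)^2, b(s) = avg_u ∑_γ avg_x (kk(exB exB) - kk)^2.
So avg_s (a(s) + 2^r b(s)) ≤ ε^2/2 and some s has a(s) ≤ ε^2/2 ≤ ε^2 and b(s) ≤ ε^2/2^r.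
del1 ≤ √a(s) ≤ ε (avg_sq_le twice); del2 ≤ ε: (∑_γ avg |.|) over 2^r colours, Cauchy-Schwarz:
del2^2 ≤ avg_u (∑_γ avg_x |.|)^2 ≤ avg_u 2^r ∑_γ avg_x (.)^2 = 2^r b(s) ≤ ε^2.
-/
import Pool.Agent.H95.UT.EnergyE
import Pool.Agent.H95.UT.EnergyV
import Pool.Agent.H95.UT.Pigeon

set_option autoImplicit false

namespace Pool.UT

open Finset

private theorem sel_avg_nonneg {α : Type*} [Fintype α] (F : α → ℝ) (h : ∀ x, 0 ≤ F x) :
    0 ≤ avg F := by
  unfold avg unif
  exact Finset.sum_nonneg (fun x _ => mul_nonneg (by positivity) (h x))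

private theorem sel_le_of_sq {a b : ℝ} (hb : 0 < b) (h : a ^ 2 ≤ b ^ 2) : a ≤ b := by
  by_contra hc
  push Not at hc
  nlinarith

theorem select (ε : ℝ) (hε : 0 < ε) :
    ∃ M : ℕ, ∀ (V : Type) [Fintype V] [Nonempty V] (h : V → V → V → Bool),
      ∃ r m : ℕ, r ≤ M ∧ m ≤ M ∧ ∃ s : Fin r ⊕ Fin m → V, del1 h s ≤ ε ∧ del2 h s ≤ ε := by
  obtain ⟨M0, hM0⟩ := pigeon (ε ^ 2 / 4) (by positivity) (fun r => ε ^ 2 / (4 * 2 ^ r))
    (fun r => by positivity)
  refine ⟨M0, fun V _ _ h => ?_⟩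
  have hcongrA : ∀ r m : ℕ, en V h (Option (Fin r)) (Fin m) = en V h (Fin (r + 1)) (Fin m) :=
    fun r m => en_congr h _ _ _ _ (finSuccEquiv r).symm (Equiv.refl _)
  have hcongrB : ∀ r m : ℕ, en V h (Fin r) (Option (Fin m)) = en V h (Fin r) (Fin (m + 1)) :=
    fun r m => en_congr h _ _ _ _ (Equiv.refl _) (finSuccEquiv m).symm
  have hcongrV : ∀ r m : ℕ, vn V h (Fin r) (Option (Fin m)) = vn V h (Fin r) (Fin (m + 1)) :=
    fun r m => vn_congr h _ _ _ (finSuccEquiv m).symm
  have hcongrV2 : ∀ r m : ℕ, vn V h (Fin r) (Option (Option (Fin m))) =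
      vn V h (Fin r) (Fin (m + 2)) :=
    fun r m => vn_congr h _ _ _
      ((Equiv.optionCongr (finSuccEquiv m).symm).trans (finSuccEquiv (m + 1)).symm)
  obtain ⟨r, m, hr, hm, he, hv⟩ := hM0 (fun r m => en V h (Fin r) (Fin m))
    (fun r m => vn V h (Fin r) (Fin m))
    (fun r m => en_bounds h _ _) (fun r m => vn_bounds h _ _)
    (fun r m => by
      show en V h (Fin r) (Fin m) ≤ en V h (Fin r) (Fin (m + 1))
      rw [← hcongrB]
      exact en_monoB h _ _)
    (fun r m => by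
      show en V h (Fin r) (Fin m) ≤ en V h (Fin (r + 1)) (Fin m)
      rw [← hcongrA]
      have h1 := en_diff h (Fin r) (Fin m)
      have h2 : 0 ≤ avg (fun s : Fin r ⊕ Fin m → V => avg (fun v : V =>
          avg (fun x : V × V × V => (fs h (exA s v) x - fs h s x) ^ 2))) :=
        sel_avg_nonneg _ (fun s => sel_avg_nonneg _ (fun v => sel_avg_nonneg _
          (fun x => sq_nonneg _)))
      linarith)
    (fun r m => by
      show vn V h (Fin r) (Fin m) ≤ vn V h (Fin r) (Fin (m + 1))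
      rw [← hcongrV]
      exact vn_mono h _ _)
  refine ⟨r, m, hr, hm, ?_⟩
  change en V h (Fin (r + 1)) (Fin m) - en V h (Fin r) (Fin m) ≤ ε ^ 2 / 4 at he
  change vn V h (Fin r) (Fin (m + 2)) - vn V h (Fin r) (Fin m) ≤ ε ^ 2 / (4 * 2 ^ r) at hv
  rw [← hcongrA, en_diff] at he
  rw [← hcongrV2, vn_diff] at hv
  have hpow : (0 : ℝ) < 2 ^ r := by positivity
  obtain ⟨s, hs⟩ : ∃ s : Fin r ⊕ Fin m → V,
      avg (fun v : V => avg (fun x : V × V × V => (fs h (exA s v) x - fs h s x) ^ 2)) +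
        2 ^ r * avg (fun u : V × V => ∑ γ : Fin r → Bool,
          avg (fun x : V × V => (kk h (exB (exB s u.1) u.2) γ x - kk h s γ x) ^ 2)) ≤ ε ^ 2 := by
    by_contra hcon
    push Not at hcon
    have h1 : avg (fun _ : Fin r ⊕ Fin m → V => ε ^ 2) ≤
        avg (fun s : Fin r ⊕ Fin m → V =>
          avg (fun v : V => avg (fun x : V × V × V => (fs h (exA s v) x - fs h s x) ^ 2)) +
          2 ^ r * avg (fun u : V × V => ∑ γ : Fin r → Bool,
            avg (fun x : V × V => (kk h (exB (exB s u.1) u.2) γ x - kk h s γ x) ^ 2))) :=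
      avg_mono _ _ (fun s => (hcon s).le)
    rw [avg_const, avg_add, avg_mul] at h1
    have h2 : 2 ^ r * avg (fun s : Fin r ⊕ Fin m → V => avg (fun u : V × V =>
        ∑ γ : Fin r → Bool,
          avg (fun x : V × V => (kk h (exB (exB s u.1) u.2) γ x - kk h s γ x) ^ 2))) ≤
        2 ^ r * (ε ^ 2 / (4 * 2 ^ r)) := mul_le_mul_of_nonneg_left hv hpow.le
    have h3 : (2 : ℝ) ^ r * (ε ^ 2 / (4 * 2 ^ r)) = ε ^ 2 / 4 := by
      field_simp
    rw [h3] at h2
    have h4 : 0 < ε ^ 2 := by positivity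
    linarith
  refine ⟨s, ?_, ?_⟩
  · have hb : 0 ≤ 2 ^ r * avg (fun u : V × V => ∑ γ : Fin r → Bool,
          avg (fun x : V × V => (kk h (exB (exB s u.1) u.2) γ x - kk h s γ x) ^ 2)) :=
      mul_nonneg hpow.le (sel_avg_nonneg _ (fun u => Finset.sum_nonneg
        (fun γ _ => sel_avg_nonneg _ (fun x => sq_nonneg _))))
    apply sel_le_of_sq hε
    unfold del1
    calc (avg (fun v : V => avg (fun x : V × V × V => |fs h (exA s v) x - fs h s x|))) ^ 2
        ≤ avg (fun v : V => (avg (fun x : V × V × V => |fs h (exA s v) x - fs h s x|)) ^ 2) :=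
          avg_sq_le _
      _ ≤ avg (fun v : V => avg (fun x : V × V × V => (fs h (exA s v) x - fs h s x) ^ 2)) := by
          apply avg_mono
          intro v
          refine (avg_sq_le _).trans (le_of_eq ?_)
          simp only [sq_abs]
      _ ≤ ε ^ 2 := by linarith
  · have ha : 0 ≤ avg (fun v : V =>
        avg (fun x : V × V × V => (fs h (exA s v) x - fs h s x) ^ 2)) :=
      sel_avg_nonneg _ (fun v => sel_avg_nonneg _ (fun x => sq_nonneg _))
    apply sel_le_of_sq hε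
    unfold del2
    have hcard : ((Finset.univ : Finset (Fin r → Bool)).card : ℝ) = 2 ^ r := by
      rw [Finset.card_univ, Fintype.card_fun, Fintype.card_bool, Fintype.card_fin]
      push_cast
      ring
    calc (avg (fun u : V × V => ∑ γ : Fin r → Bool,
          avg (fun x : V × V => |kk h (exB (exB s u.1) u.2) γ x - kk h s γ x|))) ^ 2
        ≤ avg (fun u : V × V => (∑ γ : Fin r → Bool,
          avg (fun x : V × V => |kk h (exB (exB s u.1) u.2) γ x - kk h s γ x|)) ^ 2) :=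
          avg_sq_le _
      _ ≤ avg (fun u : V × V => 2 ^ r * ∑ γ : Fin r → Bool,
          avg (fun x : V × V => (kk h (exB (exB s u.1) u.2) γ x - kk h s γ x) ^ 2)) := by
          apply avg_mono
          intro u
          refine (sq_sum_le_card_mul_sum_sq).trans ?_
          rw [hcard]
          apply mul_le_mul_of_nonneg_left _ hpow.le
          apply Finset.sum_le_sum
          intro γ _
          refine (avg_sq_le _).trans (le_of_eq ?_)
          simp only [sq_abs]
      _ = 2 ^ r * avg (fun u : V × V => ∑ γ : Fin r → Bool,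
          avg (fun x : V × V => (kk h (exB (exB s u.1) u.2) γ x - kk h s γ x) ^ 2)) := avg_mul _ _
      _ ≤ ε ^ 2 := by linarith

end Pool.UT
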