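/-
UT Super2: sampling k colours.

sample_marg: for an injection ι : Fin m → Fin k the sum over x : Fin k → κ of ∏ ν (x i) * G (x ∘ ι)
equals ∑_{y : Fin m → κ} ∏ ν (y j) * G y (the other coordinates have total weight 1).

k4_of_positions: let a,…,f ∈ Fin k be positions with a,b,c distinct, a,d,e distinct, b,d,f
distinct, c,e,f distinct.  Then the only possible coincidences are a = f, b = e, c = d, and the
expectation of the product of the four faces at (x a,…,x f) is K4id s1 s2 s3 with
s1 = (a = f), s2 = (b = e), s3 = (c = d).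
PROOF of k4_of_positions: choose the injection of the distinct positions (for each of the 8 cases
the distinct ones among a,…,f: e.g. if a = f only, ι = ![a,b,c,d,e]) and use sample_marg for it on
the left, and sample_marg for the corresponding injection into Fin 6 on the right (K4id is a sum
over Fin 6 → κ whose integrand does not depend on the coordinates 5 (if s1), 4 (if s2), 3 (if s3)).
A uniform way: both sides equal ∑_{y : Fin m → κ} for the image positions.
-/
import Pool.Agent.H95.UT.Super1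

set_option autoImplicit false

namespace Pool.UT

open Finset

private theorem super2_cell {κ : Type} [Fintype κ] (ν : κ → ℝ) (hν : IsProb ν) (k m : ℕ)
    (ι : Fin m → Fin k) (hι : Function.Injective ι) [DecidableEq κ] (y : Fin m → κ) :
    ∑ x : Fin k → κ, (if (fun j => x (ι j)) = y then ∏ i, ν (x i) else 0) = ∏ j, ν (y j) := by
  classical
  obtain ⟨s, hs⟩ : ∃ s : Fin k → Finset κ,
      s = fun i => if h : ∃ j, ι j = i then {y h.choose} else univ := ⟨_, rfl⟩
  have hs1 : ∀ j, s (ι j) = {y j} := by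
    intro j
    have h : ∃ j', ι j' = ι j := ⟨j, rfl⟩
    rw [hs]
    show (if h : ∃ j', ι j' = ι j then ({y h.choose} : Finset κ) else univ) = {y j}
    rw [dif_pos h, hι h.choose_spec]
  have hs2 : ∀ i, (∀ j, ι j ≠ i) → s i = univ := by
    intro i hi
    rw [hs]
    show (if h : ∃ j', ι j' = i then ({y h.choose} : Finset κ) else univ) = univ
    rw [dif_neg]
    rintro ⟨j, hj⟩
    exact hi j hj
  have hmem : ∀ x : Fin k → κ, (fun j => x (ι j)) = y ↔ x ∈ Fintype.piFinset s := by
    intro x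
    rw [Fintype.mem_piFinset]
    constructor
    · intro h i
      by_cases hi : ∃ j, ι j = i
      · obtain ⟨j, rfl⟩ := hi
        rw [hs1, Finset.mem_singleton]
        exact congrFun h j
      · rw [hs2 i (fun j hj => hi ⟨j, hj⟩)]
        exact Finset.mem_univ _
    · intro h
      funext j
      have := h (ι j)
      rw [hs1, Finset.mem_singleton] at this
      exact this
  calc ∑ x : Fin k → κ, (if (fun j => x (ι j)) = y then ∏ i, ν (x i) else 0)
      = ∑ x : Fin k → κ, (if x ∈ Fintype.piFinset s then ∏ i, ν (x i) else 0) := by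
        refine Finset.sum_congr rfl fun x _ => ?_
        by_cases h : (fun j => x (ι j)) = y
        · rw [if_pos h, if_pos ((hmem x).1 h)]
        · rw [if_neg h, if_neg (fun h' => h ((hmem x).2 h'))]
    _ = ∑ x ∈ Fintype.piFinset s, ∏ i, ν (x i) := by
        rw [← Finset.sum_filter]
        refine Finset.sum_congr ?_ fun _ _ => rfl
        ext x
        simp
    _ = ∏ i, ∑ c ∈ s i, ν c := (Finset.prod_univ_sum s fun _ c => ν c).symm
    _ = ∏ i ∈ univ.map ⟨ι, hι⟩, ∑ c ∈ s i, ν c := by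
        symm
        apply Finset.prod_subset (Finset.subset_univ _)
        intro i _ hi
        rw [hs2 i, hν.2]
        intro j hj
        exact hi (Finset.mem_map.2 ⟨j, Finset.mem_univ _, hj⟩)
    _ = ∏ j, ν (y j) := by
        rw [Finset.prod_map]
        refine Finset.prod_congr rfl fun j _ => ?_
        show ∑ c ∈ s (ι j), ν c = ν (y j)
        rw [hs1, Finset.sum_singleton]

theorem sample_marg {κ : Type} [Fintype κ] (ν : κ → ℝ) (hν : IsProb ν) (k m : ℕ)
    (ι : Fin m → Fin k) (hι : Function.Injective ι) (G : (Fin m → κ) → ℝ) :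
    ∑ x : Fin k → κ, (∏ i, ν (x i)) * G (fun j => x (ι j))
      = ∑ y : Fin m → κ, (∏ j, ν (y j)) * G y := by
  classical
  calc ∑ x : Fin k → κ, (∏ i, ν (x i)) * G (fun j => x (ι j))
      = ∑ x : Fin k → κ, ∑ y : Fin m → κ,
          (if (fun j => x (ι j)) = y then ∏ i, ν (x i) else 0) * G y := by
        refine Finset.sum_congr rfl fun x _ => ?_
        rw [Finset.sum_eq_single (fun j => x (ι j))]
        · rw [if_pos rfl]
        · intro y _ hy
          rw [if_neg (fun h => hy h.symm), zero_mul]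
        · intro h
          exact absurd (Finset.mem_univ _) h
    _ = ∑ y : Fin m → κ, ∑ x : Fin k → κ,
          (if (fun j => x (ι j)) = y then ∏ i, ν (x i) else 0) * G y := Finset.sum_comm
    _ = ∑ y : Fin m → κ, (∏ j, ν (y j)) * G y := by
        refine Finset.sum_congr rfl fun y _ => ?_
        rw [← Finset.sum_mul, super2_cell ν hν k m ι hι y]

private theorem super2_sum_succ {κ : Type} [Fintype κ] (n : ℕ) (F : (Fin (n + 1) → κ) → ℝ) :
    ∑ x : Fin (n + 1) → κ, F x = ∑ a : κ, ∑ y : Fin n → κ, F (Fin.cons a y) := by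
  rw [← Fintype.sum_prod_type']
  exact (Equiv.sum_comp (Fin.consEquiv fun _ => κ) F).symm

theorem d3_of_positions {κ : Type} [Fintype κ] (ν : κ → ℝ) (hν : IsProb ν)
    (w : κ → κ → κ → ℝ) (k : ℕ) (a b c : Fin k) (hab : a ≠ b) (hac : a ≠ c) (hbc : b ≠ c) :
    ∑ x : Fin k → κ, (∏ i, ν (x i)) * w (x a) (x b) (x c) = D3gen ν ν ν w := by
  have hinj : Function.Injective (![a, b, c] : Fin 3 → Fin k) := by
    intro i j hij
    fin_cases i <;> fin_cases j <;> simp_all
  have h := sample_marg ν hν k 3 ![a, b, c] hinj (fun y => w (y 0) (y 1) (y 2))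
  have h1 : ∑ x : Fin k → κ, (∏ i, ν (x i)) * w (x a) (x b) (x c) =
      ∑ y : Fin 3 → κ, (∏ j, ν (y j)) * w (y 0) (y 1) (y 2) := h
  rw [h1, D3gen, super2_sum_succ]
  refine Finset.sum_congr rfl fun x _ => ?_
  rw [super2_sum_succ]
  refine Finset.sum_congr rfl fun y _ => ?_
  rw [super2_sum_succ]
  refine Finset.sum_congr rfl fun z _ => ?_
  rw [Fintype.sum_unique]
  rw [Fin.prod_univ_three]
  rfl

private theorem super2_two {κ : Type} [Fintype κ] (ν : κ → ℝ) (hν : IsProb ν) (k : ℕ)
    (r : Fin 6 → Fin 6) (hr : ∀ i, r (r i) = r i) (P : Fin 6 → Fin k) (hP : ∀ i, P (r i) = P i)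
    (hinj : ∀ i j, P i = P j → r i = r j) (G : (Fin 6 → κ) → ℝ) :
    ∑ x : Fin k → κ, (∏ i, ν (x i)) * G (fun i => x (P i)) =
      ∑ z : Fin 6 → κ, (∏ i, ν (z i)) * G (fun i => z (r i)) := by
  classical
  obtain ⟨e, -⟩ : ∃ e : Fin (Fintype.card {i : Fin 6 // r i = i}) ≃ {i : Fin 6 // r i = i}, e = e :=
    ⟨(Fintype.equivFin _).symm, rfl⟩
  have h1 := sample_marg ν hν k _ (fun j => P (e j).1) (by
    intro j j' h
    have h2 := hinj _ _ h
    rw [(e j).2, (e j').2] at h2
    exact e.injective (Subtype.ext h2)) (fun y => G (fun i => y (e.symm ⟨r i, hr i⟩)))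
  have h2 := sample_marg ν hν 6 _ (fun j => (e j).1) (by
    intro j j' h
    exact e.injective (Subtype.ext h)) (fun y => G (fun i => y (e.symm ⟨r i, hr i⟩)))
  have h3 : ∀ x : Fin k → κ, (fun i => x (P i)) =
      fun i => x (P (e (e.symm ⟨r i, hr i⟩)).1) := by
    intro x
    funext i
    rw [Equiv.apply_symm_apply, hP]
  have h4 : ∀ z : Fin 6 → κ, (fun i => z (r i)) = fun i => z (e (e.symm ⟨r i, hr i⟩)).1 := by
    intro z
    funext i
    rw [Equiv.apply_symm_apply]
  calc ∑ x : Fin k → κ, (∏ i, ν (x i)) * G (fun i => x (P i))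
      = ∑ x : Fin k → κ, (∏ i, ν (x i)) * G (fun i => x (P (e (e.symm ⟨r i, hr i⟩)).1)) := by
        refine Finset.sum_congr rfl fun x _ => ?_
        rw [h3 x]
    _ = ∑ z : Fin 6 → κ, (∏ i, ν (z i)) * G (fun i => z (e (e.symm ⟨r i, hr i⟩)).1) :=
        h1.trans h2.symm
    _ = ∑ z : Fin 6 → κ, (∏ i, ν (z i)) * G (fun i => z (r i)) := by
        refine Finset.sum_congr rfl fun z _ => ?_
        rw [h4 z]

theorem k4_of_positions {κ : Type} [Fintype κ] (ν : κ → ℝ) (hν : IsProb ν)
    (w : κ → κ → κ → ℝ) (k : ℕ) (a b c d e f : Fin k)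
    (h1 : a ≠ b ∧ a ≠ c ∧ b ≠ c) (h2 : a ≠ d ∧ a ≠ e ∧ d ≠ e)
    (h3 : b ≠ d ∧ b ≠ f ∧ d ≠ f) (h4 : c ≠ e ∧ c ≠ f ∧ e ≠ f) :
    ∑ x : Fin k → κ, (∏ i, ν (x i)) *
        (w (x a) (x b) (x c) * w (x a) (x d) (x e) * w (x b) (x d) (x f) * w (x c) (x e) (x f))
      = K4id (decide (a = f)) (decide (b = e)) (decide (c = d)) ν w := by
  obtain ⟨h11, h12, h13⟩ := h1
  obtain ⟨h21, h22, h23⟩ := h2
  obtain ⟨h31, h32, h33⟩ := h3
  obtain ⟨h41, h42, h43⟩ := h4
  obtain ⟨r3, hr3⟩ : ∃ r3 : Fin 6, r3 = if c = d then 2 else 3 := ⟨_, rfl⟩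
  obtain ⟨r4, hr4⟩ : ∃ r4 : Fin 6, r4 = if b = e then 1 else 4 := ⟨_, rfl⟩
  obtain ⟨r5, hr5⟩ : ∃ r5 : Fin 6, r5 = if a = f then 0 else 5 := ⟨_, rfl⟩
  have h := super2_two ν hν k ![0, 1, 2, r3, r4, r5] (by
      by_cases e1 : c = d <;> by_cases e2 : b = e <;> by_cases e3 : a = f <;>
        simp only [e1, e2, e3, if_true, if_false] at hr3 hr4 hr5 <;> subst hr3 hr4 hr5 <;>
        decide) ![a, b, c, d, e, f] (by
      by_cases e1 : c = d <;> by_cases e2 : b = e <;> by_cases e3 : a = f <;>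
        simp only [e1, e2, e3, if_true, if_false] at hr3 hr4 hr5 <;> subst hr3 hr4 hr5 <;>
        intro i <;> fin_cases i <;> simp_all) (by
      by_cases e1 : c = d <;> by_cases e2 : b = e <;> by_cases e3 : a = f <;>
        simp only [e1, e2, e3, if_true, if_false] at hr3 hr4 hr5 <;> subst hr3 hr4 hr5 <;>
        intro i j <;> fin_cases i <;> fin_cases j <;> simp_all <;> (intro h0; simp_all))
    (fun z => w (z 0) (z 1) (z 2) * w (z 0) (z 3) (z 4) * w (z 1) (z 3) (z 5) *
      w (z 2) (z 4) (z 5))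
  refine Eq.trans h ?_
  rw [K4id]
  refine Finset.sum_congr rfl fun z _ => ?_
  congr 1
  have z3 : z r3 = if decide (c = d) = true then z 2 else z 3 := by
    rw [hr3]; by_cases e1 : c = d <;> simp [e1]
  have z4 : z r4 = if decide (b = e) = true then z 1 else z 4 := by
    rw [hr4]; by_cases e1 : b = e <;> simp [e1]
  have z5 : z r5 = if decide (a = f) = true then z 0 else z 5 := by
    rw [hr5]; by_cases e1 : a = f <;> simp [e1]
  rw [← z3, ← z4, ← z5]
  rfl

end Pool.UT
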