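/-
UT Avoid: a large set contains an n-subset avoiding bad vertices.

PROOF. Let M = |I| > n^2 + K n^4 and consider the M^n functions f : Fin n → I.  The number of
f that are not injective is at most n^2 M^(n-1) (choose the two positions, the value of the second
is determined by that of the first).  For four distinct positions i,j,z,v the number of f with
f v ∈ Bad (f i) (f j) (f z) is at most K M^(n-1).  Since n^2 M^(n-1) + K n^4 M^(n-1) < M^n some f is
injective and good; I' = its range.  (n = 0 is trivial.)
-/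
import Mathlib

set_option autoImplicit false

namespace Pool.UT

open Finset

private theorem avoid_count (n K : ℕ) (I : Finset ℕ) (i₀ : ℕ) (hi₀ : i₀ ∈ I) (d : Fin n)
    (g : (Fin n → ℕ) → Finset ℕ) (hg : ∀ f x, g (Function.update f d x) = g f)
    (hK : ∀ f, (g f).card ≤ K) :
    ((Fintype.piFinset (fun _ : Fin n => I)).filter (fun f => f d ∈ g f)).card
      ≤ K * I.card ^ (n - 1) := by
  classical
  set s := (Fintype.piFinset (fun _ : Fin n => I)).filter (fun f => f d ∈ g f) with hs
  have h1 : s.card ≤ K * (s.image (fun f => Function.update f d i₀)).card := by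
    refine Finset.card_le_mul_card_image s K (fun a _ => ?_)
    refine (Finset.card_le_card_of_injOn (fun x : Fin n → ℕ => x d) ?_ ?_).trans (hK a)
    · intro x hx
      simp only [Finset.coe_filter, Set.mem_ofPred_eq] at hx
      have h2 : x d ∈ g x := (Finset.mem_filter.mp hx.1).2
      have h3 : g a = g x := by rw [← hx.2, hg]
      simpa [h3] using h2
    · intro x hx y hy hxy
      simp only [Finset.coe_filter, Set.mem_ofPred_eq] at hx hy
      have h2 : Function.update x d i₀ = Function.update y d i₀ := by rw [hx.2, hy.2]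
      funext j
      by_cases hj : j = d
      · rw [hj]; exact hxy
      · have := congrFun h2 j
        rwa [Function.update_of_ne hj, Function.update_of_ne hj] at this
  have h2 : (s.image (fun f => Function.update f d i₀)).card ≤ I.card ^ (n - 1) := by
    have h3 : s.image (fun f => Function.update f d i₀) ⊆
        Fintype.piFinset (fun i : Fin n => if i = d then {i₀} else I) := by
      intro h hh
      obtain ⟨f, hf, rfl⟩ := Finset.mem_image.mp hh
      rw [Fintype.mem_piFinset]
      intro j
      have hfΩ := Fintype.mem_piFinset.mp (Finset.mem_filter.mp hf).1 j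
      by_cases hj : j = d
      · subst hj
        simp
      · rw [Function.update_of_ne hj, if_neg hj]
        exact hfΩ
    refine (Finset.card_le_card h3).trans ?_
    rw [Fintype.card_piFinset]
    have h4 : ∀ i : Fin n, (if i = d then ({i₀} : Finset ℕ) else I).card =
        if i = d then 1 else I.card := by
      intro i
      split_ifs <;> simp
    simp only [h4]
    rw [Finset.prod_ite, Finset.prod_const_one, one_mul, Finset.prod_const]
    have h5 : (Finset.univ.filter (fun i : Fin n => ¬ i = d)).card = n - 1 := by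
      rw [Finset.filter_not, Finset.filter_eq', if_pos (Finset.mem_univ d),
        Finset.card_sdiff_of_subset (Finset.subset_univ _)]
      simp
    rw [h5]
  exact h1.trans (Nat.mul_le_mul_left K h2)

theorem avoid (n K : ℕ) (I : Finset ℕ) (hI : n ^ 2 + K * n ^ 4 < I.card)
    (Bad : ℕ → ℕ → ℕ → Finset ℕ) (hBad : ∀ i j z, (Bad i j z).card ≤ K) :
    ∃ I' : Finset ℕ, I' ⊆ I ∧ I'.card = n ∧ ∀ i ∈ I', ∀ j ∈ I', ∀ z ∈ I', ∀ v ∈ I',
      i ≠ j → i ≠ z → i ≠ v → j ≠ z → j ≠ v → z ≠ v → v ∉ Bad i j z := by
  classical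
  rcases Nat.eq_zero_or_pos n with rfl | hn
  · exact ⟨∅, by simp, rfl, by simp⟩
  have hIpos : 0 < I.card := by omega
  obtain ⟨i₀, hi₀⟩ := Finset.card_pos.mp hIpos
  have hΩ : (Fintype.piFinset (fun _ : Fin n => I)).card = I.card ^ n := by
    rw [Fintype.card_piFinset, Finset.prod_const]
    simp
  -- the bad functions
  set B1 : Finset (Fin n → ℕ) := (Finset.univ.filter (fun p : Fin n × Fin n => p.1 ≠ p.2)).biUnion
    (fun p => (Fintype.piFinset (fun _ : Fin n => I)).filter (fun f => f p.2 ∈ ({f p.1} : Finset ℕ)))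
    with hB1
  set B2 : Finset (Fin n → ℕ) := (Finset.univ.filter
    (fun p : Fin n × Fin n × Fin n × Fin n => p.1 ≠ p.2.2.2 ∧ p.2.1 ≠ p.2.2.2 ∧
      p.2.2.1 ≠ p.2.2.2)).biUnion
    (fun p => (Fintype.piFinset (fun _ : Fin n => I)).filter
      (fun f => f p.2.2.2 ∈ Bad (f p.1) (f p.2.1) (f p.2.2.1))) with hB2
  have c1 : B1.card ≤ n ^ 2 * I.card ^ (n - 1) := by
    refine (Finset.card_biUnion_le_card_mul _ _ (1 * I.card ^ (n - 1)) ?_).trans ?_
    · intro p hp
      have hp' := (Finset.mem_filter.mp hp).2
      refine avoid_count n 1 I i₀ hi₀ p.2 (fun f => {f p.1}) ?_ ?_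
      · intro f x
        rw [Function.update_of_ne hp']
      · intro f
        simp
    · rw [one_mul]
      refine Nat.mul_le_mul_right _ ?_
      refine (Finset.card_filter_le _ _).trans ?_
      simp [Fintype.card_prod, sq]
  have c2 : B2.card ≤ n ^ 4 * (K * I.card ^ (n - 1)) := by
    refine (Finset.card_biUnion_le_card_mul _ _ (K * I.card ^ (n - 1)) ?_).trans ?_
    · intro p hp
      obtain ⟨h1, h2, h3⟩ := (Finset.mem_filter.mp hp).2
      refine avoid_count n K I i₀ hi₀ p.2.2.2
        (fun f => Bad (f p.1) (f p.2.1) (f p.2.2.1)) ?_ ?_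
      · intro f x
        rw [Function.update_of_ne h1, Function.update_of_ne h2, Function.update_of_ne h3]
      · intro f
        exact hBad _ _ _
    · refine Nat.mul_le_mul_right _ ?_
      refine (Finset.card_filter_le _ _).trans ?_
      simp only [Finset.card_univ, Fintype.card_prod, Fintype.card_fin]
      exact le_of_eq (by ring)
  have hlt : (B1 ∪ B2).card < (Fintype.piFinset (fun _ : Fin n => I)).card := by
    rw [hΩ]
    have hpow : I.card ^ n = I.card * I.card ^ (n - 1) := by
      rw [← pow_succ', Nat.sub_add_cancel hn]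
    have hp : 0 < I.card ^ (n - 1) := Nat.pow_pos hIpos
    calc (B1 ∪ B2).card ≤ B1.card + B2.card := Finset.card_union_le _ _
      _ ≤ n ^ 2 * I.card ^ (n - 1) + n ^ 4 * (K * I.card ^ (n - 1)) := Nat.add_le_add c1 c2
      _ = (n ^ 2 + K * n ^ 4) * I.card ^ (n - 1) := by ring
      _ < I.card * I.card ^ (n - 1) := Nat.mul_lt_mul_of_pos_right hI hp
      _ = I.card ^ n := hpow.symm
  obtain ⟨f, hfΩ, hfB⟩ := Finset.exists_mem_notMem_of_card_lt_card hlt
  rw [Finset.mem_union, not_or] at hfB
  have hinj : Function.Injective f := by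
    intro a b hab
    by_contra hne
    apply hfB.1
    rw [hB1, Finset.mem_biUnion]
    refine ⟨(a, b), ?_, ?_⟩
    · simp [hne]
    · rw [Finset.mem_filter]
      refine ⟨hfΩ, ?_⟩
      simp [hab]
  refine ⟨Finset.univ.image f, ?_, ?_, ?_⟩
  · intro x hx
    obtain ⟨a, _, rfl⟩ := Finset.mem_image.mp hx
    exact Fintype.mem_piFinset.mp hfΩ a
  · rw [Finset.card_image_of_injective _ hinj]
    simp
  · intro i hi j hj z hz v hv hij hiz hiv hjz hjv hzv hbad
    obtain ⟨a, _, rfl⟩ := Finset.mem_image.mp hi
    obtain ⟨b, _, rfl⟩ := Finset.mem_image.mp hj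
    obtain ⟨c, _, rfl⟩ := Finset.mem_image.mp hz
    obtain ⟨d, _, rfl⟩ := Finset.mem_image.mp hv
    apply hfB.2
    rw [hB2, Finset.mem_biUnion]
    refine ⟨(a, b, c, d), ?_, ?_⟩
    · rw [Finset.mem_filter]
      refine ⟨Finset.mem_univ _, ?_, ?_, ?_⟩
      · intro h; exact hiv (congrArg f h)
      · intro h; exact hjv (congrArg f h)
      · intro h; exact hzv (congrArg f h)
    · rw [Finset.mem_filter]
      exact ⟨hfΩ, hbad⟩

end Pool.UT
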