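/-
UT CellSum: passing from the colour set Γ to the set of cells κ.
All statements are fibre sums: ∑_a f(c a) p a = ∑_γ pw p c γ * f γ, and
av3 p q s c c' c'' A a b d = cv ... (c a) (c' b) (c'' d) when the three cells have positive weight
(iterated averages; for null cells both sides are multiplied by a zero weight).
-/
import Pool.Agent.H95.UT.CE

set_option autoImplicit false

namespace Pool.UT

open Finset

variable {Γ κ : Type} [Fintype Γ] [Fintype κ]

open Classical in
private theorem cs_fib (p : Γ → ℝ) (c : Γ → κ) (f : Γ → ℝ) :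
    ∑ γ, ∑ a, (if c a = γ then p a else 0) * f a = ∑ a, p a * f a := by
  rw [Finset.sum_comm]
  refine Finset.sum_congr rfl fun a _ => ?_
  rw [Finset.sum_eq_single (c a)]
  · rw [if_pos rfl]
  · intro γ _ hγ
    rw [if_neg (fun h => hγ h.symm), zero_mul]
  · intro h
    exact absurd (Finset.mem_univ _) h

theorem pw_prob (p : Γ → ℝ) (hp : IsProb p) (c : Γ → κ) : IsProb (pw p c) := by
  refine ⟨fun γ => Finset.sum_nonneg fun a _ => ?_, ?_⟩
  · split_ifs
    · exact hp.1 a
    · exact le_rfl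
  · have h := cs_fib p c (fun _ => 1)
    simp only [mul_one] at h
    unfold pw
    rw [h]
    exact hp.2

theorem pw_sum (p : Γ → ℝ) (c : Γ → κ) (f : κ → ℝ) :
    ∑ γ, pw p c γ * f γ = ∑ a, p a * f (c a) := by
  rw [← cs_fib p c (fun a => f (c a))]
  refine Finset.sum_congr rfl fun γ _ => ?_
  unfold pw
  rw [Finset.sum_mul]
  refine Finset.sum_congr rfl fun a _ => ?_
  split_ifs with h
  · rw [h]
  · rw [zero_mul, zero_mul]

open Classical in
private theorem cs_num (p q s : Γ → ℝ) (c c' c'' : Γ → κ) (A : Γ → Γ → Γ → ℝ) (x y z : κ) :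
    (∑ a, ∑ b, ∑ d, if c a = x ∧ c' b = y ∧ c'' d = z then p a * q b * s d * A a b d else 0) =
      ∑ a, (if c a = x then p a else 0) * ∑ b, (if c' b = y then q b else 0) *
        ∑ d, (if c'' d = z then s d else 0) * A a b d := by
  refine Finset.sum_congr rfl fun a _ => ?_
  rw [Finset.mul_sum]
  refine Finset.sum_congr rfl fun b _ => ?_
  rw [Finset.mul_sum, Finset.mul_sum]
  refine Finset.sum_congr rfl fun d _ => ?_
  by_cases h1 : c a = x
  · by_cases h2 : c' b = y
    · by_cases h3 : c'' d = z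
      · rw [if_pos ⟨h1, h2, h3⟩, if_pos h1, if_pos h2, if_pos h3]; ring
      · rw [if_neg (fun h => h3 h.2.2), if_neg h3]; ring
    · rw [if_neg (fun h => h2 h.2.1), if_neg h2]; ring
  · rw [if_neg (fun h => h1 h.1), if_neg h1]; ring

private theorem cs_pw_nonneg (p : Γ → ℝ) (hp : ∀ a, 0 ≤ p a) (c : Γ → κ) (x : κ) :
    0 ≤ pw p c x := by
  unfold pw
  refine Finset.sum_nonneg fun a _ => ?_
  split_ifs
  · exact hp a
  · exact le_rfl

theorem cv_bounds (p q s : Γ → ℝ) (hp : ∀ a, 0 ≤ p a) (hq : ∀ a, 0 ≤ q a) (hs : ∀ a, 0 ≤ s a)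
    (c c' c'' : Γ → κ) (A : Γ → Γ → Γ → ℝ) (hA : ∀ a b d, 0 ≤ A a b d ∧ A a b d ≤ 1) (x y z : κ) :
    0 ≤ cv p q s c c' c'' A x y z ∧ cv p q s c c' c'' A x y z ≤ 1 := by
  classical
  have hx := cs_pw_nonneg p hp c x
  have hy := cs_pw_nonneg q hq c' y
  have hz := cs_pw_nonneg s hs c'' z
  have hD : 0 ≤ pw p c x * pw q c' y * pw s c'' z := by positivity
  have hP : ∀ a, 0 ≤ (if c a = x then p a else 0) := fun a => by
    split_ifs
    · exact hp a
    · exact le_rfl
  have hQ : ∀ a, 0 ≤ (if c' a = y then q a else 0) := fun a => by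
    split_ifs
    · exact hq a
    · exact le_rfl
  have hS : ∀ a, 0 ≤ (if c'' a = z then s a else 0) := fun a => by
    split_ifs
    · exact hs a
    · exact le_rfl
  have hin : ∀ a b, 0 ≤ ∑ d, (if c'' d = z then s d else 0) * A a b d ∧
      ∑ d, (if c'' d = z then s d else 0) * A a b d ≤ pw s c'' z := by
    intro a b
    refine ⟨Finset.sum_nonneg fun d _ => mul_nonneg (hS d) (hA a b d).1, ?_⟩
    have h : pw s c'' z = ∑ d, (if c'' d = z then s d else 0) := by
      unfold pw
      refine Finset.sum_congr rfl fun d _ => ?_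
      split_ifs <;> rfl
    rw [h]
    exact Finset.sum_le_sum fun d _ => mul_le_of_le_one_right (hS d) (hA a b d).2
  have hmid : ∀ a, 0 ≤ ∑ b, (if c' b = y then q b else 0) *
        ∑ d, (if c'' d = z then s d else 0) * A a b d ∧
      ∑ b, (if c' b = y then q b else 0) *
        ∑ d, (if c'' d = z then s d else 0) * A a b d ≤ pw q c' y * pw s c'' z := by
    intro a
    refine ⟨Finset.sum_nonneg fun b _ => mul_nonneg (hQ b) (hin a b).1, ?_⟩
    have h : pw q c' y = ∑ d, (if c' d = y then q d else 0) := by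
      unfold pw
      refine Finset.sum_congr rfl fun d _ => ?_
      split_ifs <;> rfl
    rw [h, Finset.sum_mul]
    exact Finset.sum_le_sum fun b _ => mul_le_mul_of_nonneg_left (hin a b).2 (hQ b)
  have hout : 0 ≤ ∑ a, (if c a = x then p a else 0) * ∑ b, (if c' b = y then q b else 0) *
        ∑ d, (if c'' d = z then s d else 0) * A a b d ∧
      ∑ a, (if c a = x then p a else 0) * ∑ b, (if c' b = y then q b else 0) *
        ∑ d, (if c'' d = z then s d else 0) * A a b d ≤
          pw p c x * pw q c' y * pw s c'' z := by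
    refine ⟨Finset.sum_nonneg fun a _ => mul_nonneg (hP a) (hmid a).1, ?_⟩
    have h : pw p c x = ∑ d, (if c d = x then p d else 0) := by
      unfold pw
      refine Finset.sum_congr rfl fun d _ => ?_
      split_ifs <;> rfl
    rw [h, mul_assoc, Finset.sum_mul]
    exact Finset.sum_le_sum fun a _ => mul_le_mul_of_nonneg_left (hmid a).2 (hP a)
  have hcv : cv p q s c c' c'' A x y z =
      (∑ a, (if c a = x then p a else 0) * ∑ b, (if c' b = y then q b else 0) *
        ∑ d, (if c'' d = z then s d else 0) * A a b d) /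
        (pw p c x * pw q c' y * pw s c'' z) := by
    unfold cv
    rw [← cs_num]
  rw [hcv]
  exact ⟨div_nonneg hout.1 hD, div_le_one_of_le₀ hout.2 hD⟩

private theorem cs_av3 (p q s : Γ → ℝ) (c c' c'' : Γ → κ) (A : Γ → Γ → Γ → ℝ) (a b d : Γ) :
    av3 p q s c c' c'' A a b d = cv p q s c c' c'' A (c a) (c' b) (c'' d) := by
  classical
  unfold av3 cv cE
  rw [cs_num]
  have h1 : ∀ a' b' : Γ, (∑ d', if c'' d' = c'' d then s d' * A a' b' d' else 0) =
      ∑ d', (if c'' d' = c'' d then s d' else 0) * A a' b' d' := fun a' b' =>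
    Finset.sum_congr rfl fun d' _ => by split_ifs <;> ring
  have h2 : ∀ (v : ℝ) (F : Γ → ℝ), (∑ b', if c' b' = c' b then q b' * (F b' / v) else 0) =
      (∑ b', (if c' b' = c' b then q b' else 0) * F b') / v := fun v F => by
    rw [Finset.sum_div]
    exact Finset.sum_congr rfl fun d' _ => by split_ifs <;> ring
  have h3 : ∀ (v w : ℝ) (F : Γ → ℝ), (∑ a', if c a' = c a then p a' * (F a' / v / w) else 0) =
      (∑ a', (if c a' = c a then p a' else 0) * F a') / v / w := fun v w F => by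
    rw [Finset.sum_div, Finset.sum_div]
    exact Finset.sum_congr rfl fun d' _ => by split_ifs <;> ring
  simp only [h1, h2]
  rw [h3]
  unfold pw
  rw [div_div, div_div]
  congr 1
  ring

theorem av3_eq_cv (p q s : Γ → ℝ) (hp : ∀ a, 0 ≤ p a) (hq : ∀ a, 0 ≤ q a) (hs : ∀ a, 0 ≤ s a)
    (c c' c'' : Γ → κ) (A : Γ → Γ → Γ → ℝ) (a b d : Γ) :
    p a * q b * s d * av3 p q s c c' c'' A a b d
      = p a * q b * s d * cv p q s c c' c'' A (c a) (c' b) (c'' d) := by
  rw [cs_av3]

private theorem cs_step (p : Γ → ℝ) (c : Γ → κ) (F : Γ → ℝ) (G : κ → ℝ)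
    (h : ∀ a, F a = G (c a)) : ∑ a, p a * F a = ∑ γ, pw p c γ * G γ := by
  rw [pw_sum]
  exact Finset.sum_congr rfl fun a _ => by rw [h a]

private theorem cs_K4 {Γ' : Type} [Fintype Γ'] (p12 p13 p14 p23 p24 p34 : Γ' → ℝ)
    (A B C D : Γ' → Γ' → Γ' → ℝ) :
    K4gen p12 p13 p14 p23 p24 p34 A B C D =
      ∑ a12, p12 a12 * ∑ a13, p13 a13 * ∑ a14, p14 a14 * ∑ a23, p23 a23 * ∑ a24, p24 a24 *
        ∑ a34, p34 a34 * (A a12 a13 a23 * B a12 a14 a24 * C a13 a14 a34 * D a23 a24 a34) := by
  unfold K4gen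
  refine Finset.sum_congr rfl fun a12 _ => ?_
  rw [Finset.mul_sum]
  refine Finset.sum_congr rfl fun a13 _ => ?_
  rw [Finset.mul_sum, Finset.mul_sum]
  refine Finset.sum_congr rfl fun a14 _ => ?_
  rw [Finset.mul_sum, Finset.mul_sum, Finset.mul_sum]
  refine Finset.sum_congr rfl fun a23 _ => ?_
  rw [Finset.mul_sum, Finset.mul_sum, Finset.mul_sum, Finset.mul_sum]
  refine Finset.sum_congr rfl fun a24 _ => ?_
  rw [Finset.mul_sum, Finset.mul_sum, Finset.mul_sum, Finset.mul_sum, Finset.mul_sum]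
  refine Finset.sum_congr rfl fun a34 _ => ?_
  ring

theorem K4gen_cells (p12 p13 p14 p23 p24 p34 : Γ → ℝ)
    (h12 : IsProb p12) (h13 : IsProb p13) (h14 : IsProb p14) (h23 : IsProb p23)
    (h24 : IsProb p24) (h34 : IsProb p34) (A B C D : Γ → Γ → Γ → ℝ)
    (c12 c13 c14 c23 c24 c34 : Γ → κ) :
    K4gen p12 p13 p14 p23 p24 p34 (av3 p12 p13 p23 c12 c13 c23 A)
          (av3 p12 p14 p24 c12 c14 c24 B) (av3 p13 p14 p34 c13 c14 c34 C)
          (av3 p23 p24 p34 c23 c24 c34 D)
      = K4gen (pw p12 c12) (pw p13 c13) (pw p14 c14) (pw p23 c23) (pw p24 c24) (pw p34 c34)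
          (cv p12 p13 p23 c12 c13 c23 A) (cv p12 p14 p24 c12 c14 c24 B)
          (cv p13 p14 p34 c13 c14 c34 C) (cv p23 p24 p34 c23 c24 c34 D) := by
  rw [cs_K4, cs_K4]
  refine cs_step p12 c12 _ _ fun a12 => ?_
  refine cs_step p13 c13 _ _ fun a13 => ?_
  refine cs_step p14 c14 _ _ fun a14 => ?_
  refine cs_step p23 c23 _ _ fun a23 => ?_
  refine cs_step p24 c24 _ _ fun a24 => ?_
  refine cs_step p34 c34 _ _ fun a34 => ?_
  rw [cs_av3, cs_av3, cs_av3, cs_av3]

open Classical in
private theorem cs_null (p : Γ → ℝ) (hp : ∀ a, 0 ≤ p a) (c : Γ → κ) (x : κ)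
    (h : pw p c x = 0) (a : Γ) : (if c a = x then p a else 0) = 0 := by
  unfold pw at h
  have h2 := (Finset.sum_eq_zero_iff_of_nonneg (fun a _ => by
    split_ifs
    · exact hp a
    · exact le_rfl)).mp h a (Finset.mem_univ a)
  by_cases h3 : c a = x
  · rw [if_pos h3] at h2 ⊢
    exact h2
  · rw [if_neg h3]

theorem D3gen_cells (p12 p13 p23 : Γ → ℝ)
    (h12 : IsProb p12) (h13 : IsProb p13) (h23 : IsProb p23) (A : Γ → Γ → Γ → ℝ)
    (c12 c13 c23 : Γ → κ) :
    D3gen (pw p12 c12) (pw p13 c13) (pw p23 c23) (cv p12 p13 p23 c12 c13 c23 A)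
      = D3gen p12 p13 p23 A := by
  classical
  have hN : ∀ x y z : κ, pw p12 c12 x * pw p13 c13 y * pw p23 c23 z *
      cv p12 p13 p23 c12 c13 c23 A x y z =
      ∑ a, (if c12 a = x then p12 a else 0) * ∑ b, (if c13 b = y then p13 b else 0) *
        ∑ d, (if c23 d = z then p23 d else 0) * A a b d := by
    intro x y z
    unfold cv
    rw [cs_num]
    by_cases h : pw p12 c12 x * pw p13 c13 y * pw p23 c23 z = 0
    · rw [h, zero_mul]
      symm
      rcases mul_eq_zero.mp h with h' | h3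
      · rcases mul_eq_zero.mp h' with h1 | h2
        · refine Finset.sum_eq_zero fun a _ => ?_
          rw [cs_null p12 h12.1 c12 x h1 a, zero_mul]
        · refine Finset.sum_eq_zero fun a _ => ?_
          have : ∑ b, (if c13 b = y then p13 b else 0) *
              ∑ d, (if c23 d = z then p23 d else 0) * A a b d = 0 :=
            Finset.sum_eq_zero fun b _ => by rw [cs_null p13 h13.1 c13 y h2 b, zero_mul]
          rw [this, mul_zero]
      · refine Finset.sum_eq_zero fun a _ => ?_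
        have : ∑ b, (if c13 b = y then p13 b else 0) *
            ∑ d, (if c23 d = z then p23 d else 0) * A a b d = 0 := by
          refine Finset.sum_eq_zero fun b _ => ?_
          have h4 : ∑ d, (if c23 d = z then p23 d else 0) * A a b d = 0 :=
            Finset.sum_eq_zero fun d _ => by rw [cs_null p23 h23.1 c23 z h3 d, zero_mul]
          rw [h4, mul_zero]
        rw [this, mul_zero]
    · rw [mul_div_cancel₀ _ h]
  unfold D3gen
  have h1 : ∀ x y : κ, ∑ z, pw p12 c12 x * pw p13 c13 y * pw p23 c23 z *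
      cv p12 p13 p23 c12 c13 c23 A x y z =
      ∑ a, (if c12 a = x then p12 a else 0) * ∑ b, (if c13 b = y then p13 b else 0) *
        ∑ d, p23 d * A a b d := by
    intro x y
    rw [Finset.sum_congr rfl fun z _ => hN x y z, Finset.sum_comm]
    refine Finset.sum_congr rfl fun a _ => ?_
    rw [← Finset.mul_sum, Finset.sum_comm]
    congr 1
    refine Finset.sum_congr rfl fun b _ => ?_
    rw [← Finset.mul_sum, cs_fib]
  have h2 : ∀ x : κ, ∑ y, ∑ z, pw p12 c12 x * pw p13 c13 y * pw p23 c23 z *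
      cv p12 p13 p23 c12 c13 c23 A x y z =
      ∑ a, (if c12 a = x then p12 a else 0) * ∑ b, p13 b * ∑ d, p23 d * A a b d := by
    intro x
    rw [Finset.sum_congr rfl fun y _ => h1 x y, Finset.sum_comm]
    refine Finset.sum_congr rfl fun a _ => ?_
    rw [← Finset.mul_sum, cs_fib]
  rw [Finset.sum_congr rfl fun x _ => h2 x, cs_fib]
  refine Finset.sum_congr rfl fun a _ => ?_
  rw [Finset.mul_sum]
  refine Finset.sum_congr rfl fun b _ => ?_
  rw [Finset.mul_sum, Finset.mul_sum]
  refine Finset.sum_congr rfl fun d _ => ?_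
  ring

end Pool.UT
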