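/-
UT Close: four fractional faces with nearly equal weights and nearly equal values.

PROOF. Telescoping: replace the six weights by ν one after the other (each replacement changes the
sum by at most ∑_γ |p γ - ν γ| ≤ |κ| e, since the other five weights are probabilities and the
integrand is in [0,1]), then the four faces by w (each changes the sum by at most e).
-/
import Pool.Agent.H95.UT.Defs

set_option autoImplicit false

namespace Pool.UT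

open Finset

theorem close_step {κ : Type} [Fintype κ] {p ν f g : κ → ℝ} (hν : IsProb ν) {e δ : ℝ}
    (he : ∀ γ, |p γ - ν γ| ≤ e) (hg : ∀ γ, 0 ≤ g γ ∧ g γ ≤ 1) (hfg : ∀ γ, f γ ≤ g γ + δ) :
    ∑ γ, ν γ * f γ ≤ ∑ γ, p γ * g γ + (δ + (Fintype.card κ : ℝ) * e) := by
  have h1 : ∀ γ, ν γ * f γ ≤ p γ * g γ + (ν γ * δ + e) := by
    intro γ
    have a1 : ν γ * f γ ≤ ν γ * (g γ + δ) := mul_le_mul_of_nonneg_left (hfg γ) (hν.1 γ)
    have a2 := (abs_le.1 (he γ)).1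
    have a3 : 0 ≤ e := (abs_nonneg _).trans (he γ)
    have a4 : (ν γ - p γ) * g γ ≤ e := by
      have := hg γ
      by_cases h : 0 ≤ ν γ - p γ
      · nlinarith
      · push Not at h
        nlinarith
    nlinarith
  calc ∑ γ, ν γ * f γ ≤ ∑ γ, (p γ * g γ + (ν γ * δ + e)) := Finset.sum_le_sum fun γ _ => h1 γ
    _ = ∑ γ, p γ * g γ + (δ + (Fintype.card κ : ℝ) * e) := by
      rw [Finset.sum_add_distrib, Finset.sum_add_distrib, ← Finset.sum_mul, hν.2]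
      simp

theorem close_rng {κ : Type} [Fintype κ] {p g : κ → ℝ} (hp : IsProb p)
    (hg : ∀ γ, 0 ≤ g γ ∧ g γ ≤ 1) : 0 ≤ ∑ γ, p γ * g γ ∧ ∑ γ, p γ * g γ ≤ 1 := by
  constructor
  · exact Finset.sum_nonneg fun γ _ => mul_nonneg (hp.1 γ) (hg γ).1
  · calc ∑ γ, p γ * g γ ≤ ∑ γ, p γ :=
        Finset.sum_le_sum fun γ _ => mul_le_of_le_one_right (hp.1 γ) (hg γ).2
      _ = 1 := hp.2

theorem close_mul {x y x' y' s t : ℝ} (hx : 0 ≤ x ∧ x ≤ 1) (hy' : 0 ≤ y' ∧ y' ≤ 1)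
    (h1 : x' ≤ x + s) (h2 : y' ≤ y + t) (hs : 0 ≤ s) (ht : 0 ≤ t) :
    x' * y' ≤ x * y + (s + t) := by
  have a1 : x' * y' ≤ (x + s) * y' := mul_le_mul_of_nonneg_right h1 hy'.1
  have a2 : x * y' ≤ x * (y + t) := mul_le_mul_of_nonneg_left h2 hx.1
  have a3 : s * y' ≤ s := mul_le_of_le_one_right hs hy'.2
  have a4 : x * t ≤ t := mul_le_of_le_one_left ht hx.2
  nlinarith

theorem close_mul_rng {x y : ℝ} (hx : 0 ≤ x ∧ x ≤ 1) (hy : 0 ≤ y ∧ y ≤ 1) :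
    0 ≤ x * y ∧ x * y ≤ 1 :=
  ⟨mul_nonneg hx.1 hy.1, mul_le_one₀ hx.2 hy.1 hy.2⟩

theorem K4gen_nest {κ : Type} [Fintype κ] (p12 p13 p14 p23 p24 p34 : κ → ℝ)
    (A B C D : κ → κ → κ → ℝ) :
    K4gen p12 p13 p14 p23 p24 p34 A B C D =
      ∑ a12, p12 a12 * ∑ a13, p13 a13 * ∑ a14, p14 a14 * ∑ a23, p23 a23 * ∑ a24, p24 a24 *
        ∑ a34, p34 a34 * (A a12 a13 a23 * B a12 a14 a24 * C a13 a14 a34 * D a23 a24 a34) := by
  unfold K4gen
  simp only [Finset.mul_sum, mul_assoc]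

theorem D3gen_nest {κ : Type} [Fintype κ] (p12 p13 p23 : κ → ℝ) (A : κ → κ → κ → ℝ) :
    D3gen p12 p13 p23 A =
      ∑ a12, p12 a12 * ∑ a13, p13 a13 * ∑ a23, p23 a23 * A a12 a13 a23 := by
  unfold D3gen
  simp only [Finset.mul_sum, mul_assoc]

theorem close_K4 {κ : Type} [Fintype κ] (p12 p13 p14 p23 p24 p34 ν : κ → ℝ)
    (h12 : IsProb p12) (h13 : IsProb p13) (h14 : IsProb p14) (h23 : IsProb p23)
    (h24 : IsProb p24) (h34 : IsProb p34) (hν : IsProb ν) (A B C D w : κ → κ → κ → ℝ)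
    (hA : ∀ a b c, 0 ≤ A a b c ∧ A a b c ≤ 1) (hB : ∀ a b c, 0 ≤ B a b c ∧ B a b c ≤ 1)
    (hC : ∀ a b c, 0 ≤ C a b c ∧ C a b c ≤ 1) (hD : ∀ a b c, 0 ≤ D a b c ∧ D a b c ≤ 1)
    (hw : ∀ a b c, 0 ≤ w a b c ∧ w a b c ≤ 1) (e : ℝ) (he : 0 ≤ e)
    (e12 : ∀ γ, |p12 γ - ν γ| ≤ e) (e13 : ∀ γ, |p13 γ - ν γ| ≤ e) (e14 : ∀ γ, |p14 γ - ν γ| ≤ e)
    (e23 : ∀ γ, |p23 γ - ν γ| ≤ e) (e24 : ∀ γ, |p24 γ - ν γ| ≤ e) (e34 : ∀ γ, |p34 γ - ν γ| ≤ e)
    (eA : ∀ a b c, |A a b c - w a b c| ≤ e) (eB : ∀ a b c, |B a b c - w a b c| ≤ e)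
    (eC : ∀ a b c, |C a b c - w a b c| ≤ e) (eD : ∀ a b c, |D a b c - w a b c| ≤ e) :
    K4gen ν ν ν ν ν ν w w w w
      ≤ K4gen p12 p13 p14 p23 p24 p34 A B C D + (6 * (Fintype.card κ : ℝ) + 4) * e := by
  rw [K4gen_nest, K4gen_nest]
  have r0 : ∀ a12 a13 a14 a23 a24 a34, 0 ≤ (A a12 a13 a23 * B a12 a14 a24 * C a13 a14 a34 *
      D a23 a24 a34) ∧ (A a12 a13 a23 * B a12 a14 a24 * C a13 a14 a34 * D a23 a24 a34) ≤ 1 :=
    fun a12 a13 a14 a23 a24 a34 => close_mul_rng (close_mul_rng (close_mul_rng (hA _ _ _)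
      (hB _ _ _)) (hC _ _ _)) (hD _ _ _)
  have r1 := fun a12 a13 a14 a23 a24 => close_rng h34 (r0 a12 a13 a14 a23 a24)
  have r2 := fun a12 a13 a14 a23 => close_rng h24 (r1 a12 a13 a14 a23)
  have r3 := fun a12 a13 a14 => close_rng h23 (r2 a12 a13 a14)
  have r4 := fun a12 a13 => close_rng h14 (r3 a12 a13)
  have r5 := fun a12 => close_rng h13 (r4 a12)
  have i0 : ∀ a12 a13 a14 a23 a24 a34, w a12 a13 a23 * w a12 a14 a24 * w a13 a14 a34 *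
      w a23 a24 a34 ≤ A a12 a13 a23 * B a12 a14 a24 * C a13 a14 a34 * D a23 a24 a34 +
        (e + e + e + e) := by
    intro a12 a13 a14 a23 a24 a34
    have b1 : w a12 a13 a23 * w a12 a14 a24 ≤ A a12 a13 a23 * B a12 a14 a24 + (e + e) :=
      close_mul (hA _ _ _) (hw _ _ _) (by linarith [(abs_le.1 (eA a12 a13 a23)).1])
        (by linarith [(abs_le.1 (eB a12 a14 a24)).1]) he he
    have b2 : w a12 a13 a23 * w a12 a14 a24 * w a13 a14 a34 ≤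
        A a12 a13 a23 * B a12 a14 a24 * C a13 a14 a34 + (e + e + e) :=
      close_mul (close_mul_rng (hA _ _ _) (hB _ _ _)) (hw _ _ _) b1
        (by linarith [(abs_le.1 (eC a13 a14 a34)).1]) (by linarith) he
    exact close_mul (close_mul_rng (close_mul_rng (hA _ _ _) (hB _ _ _)) (hC _ _ _)) (hw _ _ _) b2
        (by linarith [(abs_le.1 (eD a23 a24 a34)).1]) (by linarith) he
  have i1 := fun a12 a13 a14 a23 a24 =>
    close_step hν e34 (r0 a12 a13 a14 a23 a24) (i0 a12 a13 a14 a23 a24)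
  have i2 := fun a12 a13 a14 a23 => close_step hν e24 (r1 a12 a13 a14 a23) (i1 a12 a13 a14 a23)
  have i3 := fun a12 a13 a14 => close_step hν e23 (r2 a12 a13 a14) (i2 a12 a13 a14)
  have i4 := fun a12 a13 => close_step hν e14 (r3 a12 a13) (i3 a12 a13)
  have i5 := fun a12 => close_step hν e13 (r4 a12) (i4 a12)
  have i6 := close_step hν e12 r5 i5
  refine i6.trans (le_of_eq ?_)
  ring

theorem close_D3 {κ : Type} [Fintype κ] (p12 p13 p23 ν : κ → ℝ)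
    (h12 : IsProb p12) (h13 : IsProb p13) (h23 : IsProb p23) (hν : IsProb ν)
    (A w : κ → κ → κ → ℝ)
    (hA : ∀ a b c, 0 ≤ A a b c ∧ A a b c ≤ 1)
    (hw : ∀ a b c, 0 ≤ w a b c ∧ w a b c ≤ 1) (e : ℝ) (he : 0 ≤ e)
    (e12 : ∀ γ, |p12 γ - ν γ| ≤ e) (e13 : ∀ γ, |p13 γ - ν γ| ≤ e)
    (e23 : ∀ γ, |p23 γ - ν γ| ≤ e)
    (eA : ∀ a b c, |A a b c - w a b c| ≤ e) :
    D3gen p12 p13 p23 A - (3 * (Fintype.card κ : ℝ) + 1) * e ≤ D3gen ν ν ν w := by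
  rw [D3gen_nest, D3gen_nest]
  have r0 : ∀ a12 a13 a23, 0 ≤ w a12 a13 a23 ∧ w a12 a13 a23 ≤ 1 := hw
  have r1 := fun a12 a13 => close_rng hν (r0 a12 a13)
  have r2 := fun a12 => close_rng hν (r1 a12)
  have f12 : ∀ γ, |ν γ - p12 γ| ≤ e := fun γ => by rw [abs_sub_comm]; exact e12 γ
  have f13 : ∀ γ, |ν γ - p13 γ| ≤ e := fun γ => by rw [abs_sub_comm]; exact e13 γ
  have f23 : ∀ γ, |ν γ - p23 γ| ≤ e := fun γ => by rw [abs_sub_comm]; exact e23 γ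
  have i0 : ∀ a12 a13 a23, A a12 a13 a23 ≤ w a12 a13 a23 + e := fun a12 a13 a23 => by
    linarith [(abs_le.1 (eA a12 a13 a23)).2]
  have i1 := fun a12 a13 => close_step h23 f23 (r0 a12 a13) (i0 a12 a13)
  have i2 := fun a12 => close_step h13 f13 (r1 a12) (i1 a12)
  have i3 := close_step h12 f12 r2 i2
  rw [sub_le_iff_le_add]
  refine i3.trans (le_of_eq ?_)
  ring

end Pool.UT
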