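/-
UT Count: replacing the four faces of a tetrahedron count by their cell averages.

PROOF. Work with functions of the six colours; E12 = cE p12 c12 in the variable a12 etc.
S(F) = ∑ (product of the six weights) * F.
(CS) For a pair, say 12, with A, B the two faces containing it (Y = colours 13,23 of A;
X = colours 14,24 of B), and Ψ with |Ψ| ≤ 1 not depending on a12:
  |S( A (B - E12 B) Ψ )| ≤ ∑_{a13,a23,a14,a24,a34} (weights) |∑_{a12} p12 A (B - E12 B)|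
   ≤ √ ∑ (weights) (...)^2 = √ beta12      (Cauchy-Schwarz, total weight 1).
Step A: S(A B C D) → S(A (E12 B) C D) → S(A (E12 B)(E13 C) D) → S(A (E12 B)(E13 C)(E23 D)),
 with errors √beta12, √beta13, √beta23 (in each step the other factors do not involve the
 variable of the pair and are bounded by 1).  Since E12 B, E13 C, E23 D are cell-measurable in
 a12, a13, a23, the last sum equals S(Ã (E12 B)(E13 C)(E23 D)) = S(Ã B C D) (ce_sum_mul /
 ce_selfadj one variable at a time; Ã = av3 of A is cell measurable in its three variables).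
Step B: S(Ã B C D) → S(Ã B (E14 C) D) → S(Ã B (E14 C)(E24 D)) = S(Ã B̃ C D), errors √beta14,
 √beta24.
Step C: S(Ã B̃ C D) → S(Ã B̃ C (E34 D)) = S(Ã B̃ C̃ D), error √beta34.
Step D: S(Ã B̃ C̃ D) = S(Ã B̃ C̃ D̃).
-/
import Pool.Agent.H95.UT.CE

set_option autoImplicit false

namespace Pool.UT

open Finset

section CountAux

variable {Γ κ : Type} [Fintype Γ]

/-- weighted sum over the six colours -/
private def S6 (p12 p13 p14 p23 p24 p34 : Γ → ℝ) (F : Γ → Γ → Γ → Γ → Γ → Γ → ℝ) : ℝ :=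
  ∑ a12, ∑ a13, ∑ a14, ∑ a23, ∑ a24, ∑ a34,
    p12 a12 * p13 a13 * p14 a14 * p23 a23 * p24 a24 * p34 a34 * F a12 a13 a14 a23 a24 a34

private lemma S6_sub (p12 p13 p14 p23 p24 p34 : Γ → ℝ)
    (F G : Γ → Γ → Γ → Γ → Γ → Γ → ℝ) :
    S6 p12 p13 p14 p23 p24 p34 F - S6 p12 p13 p14 p23 p24 p34 G
      = S6 p12 p13 p14 p23 p24 p34 (fun a b c d e f => F a b c d e f - G a b c d e f) := by
  unfold S6
  simp only [← Finset.sum_sub_distrib, mul_sub]

private lemma S6_flat (p12 p13 p14 p23 p24 p34 : Γ → ℝ) (F : Γ → Γ → Γ → Γ → Γ → Γ → ℝ) :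
    S6 p12 p13 p14 p23 p24 p34 F = ∑ t : Γ × Γ × Γ × Γ × Γ × Γ,
      p12 t.1 * p13 t.2.1 * p14 t.2.2.1 * p23 t.2.2.2.1 * p24 t.2.2.2.2.1 * p34 t.2.2.2.2.2 *
        F t.1 t.2.1 t.2.2.1 t.2.2.2.1 t.2.2.2.2.1 t.2.2.2.2.2 := by
  unfold S6
  simp only [Fintype.sum_prod_type]

private lemma U6_flat (w r : Γ → ℝ) (q' q : Γ × Γ → ℝ)
    (G : (Γ × Γ) → (Γ × Γ) → Γ → Γ → ℝ) :
    (∑ y, ∑ x, ∑ z, q' y * q x * r z * ∑ a, w a * G y x z a)
      = ∑ s : (Γ × Γ) × (Γ × Γ) × Γ × Γ,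
        q' s.1 * q s.2.1 * r s.2.2.1 * (w s.2.2.2 * G s.1 s.2.1 s.2.2.1 s.2.2.2) := by
  conv_rhs => rw [Fintype.sum_prod_type]
  refine Finset.sum_congr rfl fun y _ => ?_
  conv_rhs => rw [Fintype.sum_prod_type]
  refine Finset.sum_congr rfl fun x _ => ?_
  conv_rhs => rw [Fintype.sum_prod_type]
  refine Finset.sum_congr rfl fun z _ => ?_
  rw [Finset.mul_sum]

private def e12 : (Γ × Γ × Γ × Γ × Γ × Γ) ≃ ((Γ × Γ) × (Γ × Γ) × Γ × Γ) where
  toFun t := ((t.2.1, t.2.2.2.1), (t.2.2.1, t.2.2.2.2.1), t.2.2.2.2.2, t.1)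
  invFun s := (s.2.2.2, s.1.1, s.2.1.1, s.1.2, s.2.1.2, s.2.2.1)
  left_inv _ := rfl
  right_inv _ := rfl

private def e13 : (Γ × Γ × Γ × Γ × Γ × Γ) ≃ ((Γ × Γ) × (Γ × Γ) × Γ × Γ) where
  toFun t := ((t.1, t.2.2.2.1), (t.2.2.1, t.2.2.2.2.2), t.2.2.2.2.1, t.2.1)
  invFun s := (s.1.1, s.2.2.2, s.2.1.1, s.1.2, s.2.2.1, s.2.1.2)
  left_inv _ := rfl
  right_inv _ := rfl

private def e23 : (Γ × Γ × Γ × Γ × Γ × Γ) ≃ ((Γ × Γ) × (Γ × Γ) × Γ × Γ) where
  toFun t := ((t.1, t.2.1), (t.2.2.2.2.1, t.2.2.2.2.2), t.2.2.1, t.2.2.2.1)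
  invFun s := (s.1.1, s.1.2, s.2.2.1, s.2.2.2, s.2.1.1, s.2.1.2)
  left_inv _ := rfl
  right_inv _ := rfl

private def e14 : (Γ × Γ × Γ × Γ × Γ × Γ) ≃ ((Γ × Γ) × (Γ × Γ) × Γ × Γ) where
  toFun t := ((t.1, t.2.2.2.2.1), (t.2.1, t.2.2.2.2.2), t.2.2.2.1, t.2.2.1)
  invFun s := (s.1.1, s.2.1.1, s.2.2.2, s.2.2.1, s.1.2, s.2.1.2)
  left_inv _ := rfl
  right_inv _ := rfl

private def e24 : (Γ × Γ × Γ × Γ × Γ × Γ) ≃ ((Γ × Γ) × (Γ × Γ) × Γ × Γ) where
  toFun t := ((t.1, t.2.2.1), (t.2.2.2.1, t.2.2.2.2.2), t.2.1, t.2.2.2.2.1)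
  invFun s := (s.1.1, s.2.2.1, s.1.2, s.2.1.1, s.2.2.2, s.2.1.2)
  left_inv _ := rfl
  right_inv _ := rfl

private def e34 : (Γ × Γ × Γ × Γ × Γ × Γ) ≃ ((Γ × Γ) × (Γ × Γ) × Γ × Γ) where
  toFun t := ((t.2.1, t.2.2.1), (t.2.2.2.1, t.2.2.2.2.1), t.1, t.2.2.2.2.2)
  invFun s := (s.2.2.1, s.1.1, s.1.2, s.2.1.1, s.2.1.2, s.2.2.2)
  left_inv _ := rfl
  right_inv _ := rfl

private lemma R12 (p12 p13 p14 p23 p24 p34 : Γ → ℝ) (F : Γ → Γ → Γ → Γ → Γ → Γ → ℝ) :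
    S6 p12 p13 p14 p23 p24 p34 F = ∑ y : Γ × Γ, ∑ x : Γ × Γ, ∑ z : Γ,
      (p13 y.1 * p23 y.2) * (p14 x.1 * p24 x.2) * p34 z *
        ∑ a, p12 a * F a y.1 x.1 y.2 x.2 z := by
  rw [S6_flat, U6_flat p12 p34 (fun y : Γ × Γ => p13 y.1 * p23 y.2)
    (fun x : Γ × Γ => p14 x.1 * p24 x.2) (fun y x z a => F a y.1 x.1 y.2 x.2 z)]
  refine Fintype.sum_equiv e12 _ _ fun t => ?_
  simp only [e12, Equiv.coe_fn_mk]
  ring

private lemma R13 (p12 p13 p14 p23 p24 p34 : Γ → ℝ) (F : Γ → Γ → Γ → Γ → Γ → Γ → ℝ) :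
    S6 p12 p13 p14 p23 p24 p34 F = ∑ y : Γ × Γ, ∑ x : Γ × Γ, ∑ z : Γ,
      (p12 y.1 * p23 y.2) * (p14 x.1 * p34 x.2) * p24 z *
        ∑ a, p13 a * F y.1 a x.1 y.2 z x.2 := by
  rw [S6_flat, U6_flat p13 p24 (fun y : Γ × Γ => p12 y.1 * p23 y.2)
    (fun x : Γ × Γ => p14 x.1 * p34 x.2) (fun y x z a => F y.1 a x.1 y.2 z x.2)]
  refine Fintype.sum_equiv e13 _ _ fun t => ?_
  simp only [e13, Equiv.coe_fn_mk]
  ring

private lemma R23 (p12 p13 p14 p23 p24 p34 : Γ → ℝ) (F : Γ → Γ → Γ → Γ → Γ → Γ → ℝ) :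
    S6 p12 p13 p14 p23 p24 p34 F = ∑ y : Γ × Γ, ∑ x : Γ × Γ, ∑ z : Γ,
      (p12 y.1 * p13 y.2) * (p24 x.1 * p34 x.2) * p14 z *
        ∑ a, p23 a * F y.1 y.2 z a x.1 x.2 := by
  rw [S6_flat, U6_flat p23 p14 (fun y : Γ × Γ => p12 y.1 * p13 y.2)
    (fun x : Γ × Γ => p24 x.1 * p34 x.2) (fun y x z a => F y.1 y.2 z a x.1 x.2)]
  refine Fintype.sum_equiv e23 _ _ fun t => ?_
  simp only [e23, Equiv.coe_fn_mk]
  ring

private lemma R14 (p12 p13 p14 p23 p24 p34 : Γ → ℝ) (F : Γ → Γ → Γ → Γ → Γ → Γ → ℝ) :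
    S6 p12 p13 p14 p23 p24 p34 F = ∑ y : Γ × Γ, ∑ x : Γ × Γ, ∑ z : Γ,
      (p12 y.1 * p24 y.2) * (p13 x.1 * p34 x.2) * p23 z *
        ∑ a, p14 a * F y.1 x.1 a z y.2 x.2 := by
  rw [S6_flat, U6_flat p14 p23 (fun y : Γ × Γ => p12 y.1 * p24 y.2)
    (fun x : Γ × Γ => p13 x.1 * p34 x.2) (fun y x z a => F y.1 x.1 a z y.2 x.2)]
  refine Fintype.sum_equiv e14 _ _ fun t => ?_
  simp only [e14, Equiv.coe_fn_mk]
  ring

private lemma R24 (p12 p13 p14 p23 p24 p34 : Γ → ℝ) (F : Γ → Γ → Γ → Γ → Γ → Γ → ℝ) :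
    S6 p12 p13 p14 p23 p24 p34 F = ∑ y : Γ × Γ, ∑ x : Γ × Γ, ∑ z : Γ,
      (p12 y.1 * p14 y.2) * (p23 x.1 * p34 x.2) * p13 z *
        ∑ a, p24 a * F y.1 z y.2 x.1 a x.2 := by
  rw [S6_flat, U6_flat p24 p13 (fun y : Γ × Γ => p12 y.1 * p14 y.2)
    (fun x : Γ × Γ => p23 x.1 * p34 x.2) (fun y x z a => F y.1 z y.2 x.1 a x.2)]
  refine Fintype.sum_equiv e24 _ _ fun t => ?_
  simp only [e24, Equiv.coe_fn_mk]
  ring

private lemma R34 (p12 p13 p14 p23 p24 p34 : Γ → ℝ) (F : Γ → Γ → Γ → Γ → Γ → Γ → ℝ) :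
    S6 p12 p13 p14 p23 p24 p34 F = ∑ y : Γ × Γ, ∑ x : Γ × Γ, ∑ z : Γ,
      (p13 y.1 * p14 y.2) * (p23 x.1 * p24 x.2) * p12 z *
        ∑ a, p34 a * F z y.1 y.2 x.1 x.2 a := by
  rw [S6_flat, U6_flat p34 p12 (fun y : Γ × Γ => p13 y.1 * p14 y.2)
    (fun x : Γ × Γ => p23 x.1 * p24 x.2) (fun y x z a => F z y.1 y.2 x.1 x.2 a)]
  refine Fintype.sum_equiv e34 _ _ fun t => ?_
  simp only [e34, Equiv.coe_fn_mk]
  ring

/-- Cauchy-Schwarz step -/
private lemma csStep {X Y Z : Type} [Fintype X] [Fintype Y] [Fintype Z] (w : Γ → ℝ)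
    (c : Γ → κ) (q' : Y → ℝ) (hq' : IsProb q') (q : X → ℝ) (hq : IsProb q) (r : Z → ℝ)
    (hr : IsProb r) (g' : Y → Γ → ℝ) (g : X → Γ → ℝ) (Ψ : Y → X → Z → ℝ)
    (hΨ : ∀ y x z, |Ψ y x z| ≤ 1) (G : Y → X → Z → Γ → ℝ)
    (hG : ∀ y x z a, G y x z a = g' y a * (g x a - cE w c (g x) a) * Ψ y x z) :
    |∑ y, ∑ x, ∑ z, q' y * q x * r z * ∑ a, w a * G y x z a|
      ≤ Real.sqrt (beta w c q' g' q g) := by
  set T : Y → X → ℝ := fun y x => ∑ a, w a * (g' y a * (g x a - cE w c (g x) a)) with hT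
  have h1 : ∀ y x z, (∑ a, w a * G y x z a) = Ψ y x z * T y x := by
    intro y x z
    rw [hT]
    simp only [hG, Finset.mul_sum]
    exact Finset.sum_congr rfl fun a _ => by ring
  have hb : beta w c q' g' q g = ∑ y, ∑ x, q' y * q x * (T y x) ^ 2 := by
    unfold beta
    refine Finset.sum_congr rfl fun y _ => ?_
    rw [Finset.mul_sum]
    exact Finset.sum_congr rfl fun x _ => by rw [hT]; ring
  -- the absolute value
  have h2 : |∑ y, ∑ x, ∑ z, q' y * q x * r z * ∑ a, w a * G y x z a|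
      ≤ ∑ y, ∑ x, q' y * q x * |T y x| := by
    refine (Finset.abs_sum_le_sum_abs _ _).trans (Finset.sum_le_sum fun y _ => ?_)
    refine (Finset.abs_sum_le_sum_abs _ _).trans (Finset.sum_le_sum fun x _ => ?_)
    refine (Finset.abs_sum_le_sum_abs _ _).trans ?_
    have hz : ∀ z, |q' y * q x * r z * ∑ a, w a * G y x z a| ≤ q' y * q x * |T y x| * r z := by
      intro z
      rw [h1, abs_mul, abs_mul, abs_mul, abs_mul, abs_of_nonneg (hq'.1 y),
        abs_of_nonneg (hq.1 x), abs_of_nonneg (hr.1 z)]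
      have hnn : 0 ≤ q' y * q x * r z * |T y x| :=
        mul_nonneg (mul_nonneg (mul_nonneg (hq'.1 y) (hq.1 x)) (hr.1 z)) (abs_nonneg _)
      calc q' y * q x * r z * (|Ψ y x z| * |T y x|)
          = (q' y * q x * r z * |T y x|) * |Ψ y x z| := by ring
        _ ≤ (q' y * q x * r z * |T y x|) * 1 := mul_le_mul_of_nonneg_left (hΨ y x z) hnn
        _ = q' y * q x * |T y x| * r z := by ring
    calc ∑ z, |q' y * q x * r z * ∑ a, w a * G y x z a|
        ≤ ∑ z, q' y * q x * |T y x| * r z := Finset.sum_le_sum fun z _ => hz z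
      _ = q' y * q x * |T y x| * ∑ z, r z := by rw [Finset.mul_sum]
      _ = q' y * q x * |T y x| := by rw [hr.2, mul_one]
  have h3 : (∑ y, ∑ x, q' y * q x * |T y x|) ^ 2 ≤ ∑ y, ∑ x, q' y * q x * (T y x) ^ 2 := by
    have e1 : (∑ y, ∑ x, q' y * q x * |T y x|)
        = ∑ p : Y × X, (Real.sqrt (q' p.1 * q p.2)) * (Real.sqrt (q' p.1 * q p.2) * |T p.1 p.2|) := by
      rw [Fintype.sum_prod_type]
      refine Finset.sum_congr rfl fun y _ => Finset.sum_congr rfl fun x _ => ?_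
      rw [← mul_assoc, Real.mul_self_sqrt (mul_nonneg (hq'.1 y) (hq.1 x))]
    have e2 : (∑ p : Y × X, (Real.sqrt (q' p.1 * q p.2)) ^ 2) = 1 := by
      rw [Fintype.sum_prod_type]
      calc (∑ y, ∑ x, Real.sqrt (q' y * q x) ^ 2) = ∑ y, ∑ x, q' y * q x := by
            refine Finset.sum_congr rfl fun y _ => Finset.sum_congr rfl fun x _ => ?_
            rw [Real.sq_sqrt (mul_nonneg (hq'.1 y) (hq.1 x))]
        _ = 1 := by
            simp only [← Finset.mul_sum, hq.2, mul_one, hq'.2]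
    have e3 : (∑ p : Y × X, (Real.sqrt (q' p.1 * q p.2) * |T p.1 p.2|) ^ 2)
        = ∑ y, ∑ x, q' y * q x * (T y x) ^ 2 := by
      rw [Fintype.sum_prod_type]
      refine Finset.sum_congr rfl fun y _ => Finset.sum_congr rfl fun x _ => ?_
      rw [mul_pow, Real.sq_sqrt (mul_nonneg (hq'.1 y) (hq.1 x)), sq_abs]
    have h := Finset.sum_mul_sq_le_sq_mul_sq (Finset.univ : Finset (Y × X))
      (fun p => Real.sqrt (q' p.1 * q p.2)) (fun p => Real.sqrt (q' p.1 * q p.2) * |T p.1 p.2|)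
    rw [e2, e3, one_mul] at h
    rw [e1]
    exact h
  rw [hb]
  exact h2.trans (Real.le_sqrt_of_sq_le h3)


/-- averaging a face function in its first, second, third variable -/
private noncomputable def E1 (w : Γ → ℝ) (c : Γ → κ) (F : Γ → Γ → Γ → ℝ) : Γ → Γ → Γ → ℝ :=
  fun a b d => cE w c (fun a' => F a' b d) a

private noncomputable def E2 (w : Γ → ℝ) (c : Γ → κ) (F : Γ → Γ → Γ → ℝ) : Γ → Γ → Γ → ℝ :=
  fun a b d => cE w c (fun b' => F a b' d) b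

private noncomputable def E3 (w : Γ → ℝ) (c : Γ → κ) (F : Γ → Γ → Γ → ℝ) : Γ → Γ → Γ → ℝ :=
  fun a b d => cE w c (fun d' => F a b d') d

private def Un (A : Γ → Γ → Γ → ℝ) : Prop := ∀ a b c, 0 ≤ A a b c ∧ A a b c ≤ 1

private lemma Un.E1 {w : Γ → ℝ} (hw : IsProb w) (c : Γ → κ) {A : Γ → Γ → Γ → ℝ} (hA : Un A) :
    Un (E1 w c A) := fun a b d =>
  ⟨ce_nonneg w hw.1 c _ (fun x => (hA x b d).1) a, ce_le_one w hw.1 c _ (fun x => (hA x b d).2) a⟩

private lemma Un.E2 {w : Γ → ℝ} (hw : IsProb w) (c : Γ → κ) {A : Γ → Γ → Γ → ℝ} (hA : Un A) :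
    Un (E2 w c A) := fun a b d =>
  ⟨ce_nonneg w hw.1 c _ (fun x => (hA a x d).1) b, ce_le_one w hw.1 c _ (fun x => (hA a x d).2) b⟩

private lemma Un.E3 {w : Γ → ℝ} (hw : IsProb w) (c : Γ → κ) {A : Γ → Γ → Γ → ℝ} (hA : Un A) :
    Un (E3 w c A) := fun a b d =>
  ⟨ce_nonneg w hw.1 c _ (fun x => (hA a b x).1) d, ce_le_one w hw.1 c _ (fun x => (hA a b x).2) d⟩

private lemma abs_mul_un {x y : ℝ} (hx : 0 ≤ x ∧ x ≤ 1) (hy : 0 ≤ y ∧ y ≤ 1) : |x * y| ≤ 1 := by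
  rw [abs_of_nonneg (mul_nonneg hx.1 hy.1)]
  exact mul_le_one₀ hx.2 hy.1 hy.2

private lemma K_eq (p12 p13 p14 p23 p24 p34 : Γ → ℝ) (A B C D : Γ → Γ → Γ → ℝ) :
    K4gen p12 p13 p14 p23 p24 p34 A B C D = S6 p12 p13 p14 p23 p24 p34
      (fun a12 a13 a14 a23 a24 a34 =>
        A a12 a13 a23 * B a12 a14 a24 * C a13 a14 a34 * D a23 a24 a34) := rfl

private lemma innerM (w : Γ → ℝ) (hw : IsProb w) (c : Γ → κ) (g h : Γ → ℝ) (k : ℝ)
    (F F' : Γ → ℝ) (hF : ∀ a, F a = g a * cE w c h a * k)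
    (hF' : ∀ a, F' a = cE w c g a * h a * k) : ∑ a, w a * F a = ∑ a, w a * F' a := by
  have h1 := ce_selfadj w hw.1 c g h
  calc ∑ a, w a * F a = (∑ a, w a * (g a * cE w c h a)) * k := by
        rw [Finset.sum_mul]
        exact Finset.sum_congr rfl fun a _ => by rw [hF]; ring
    _ = (∑ a, w a * (cE w c g a * h a)) * k := by rw [h1]
    _ = ∑ a, w a * F' a := by
        rw [Finset.sum_mul]
        exact Finset.sum_congr rfl fun a _ => by rw [hF']; ring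

private lemma innerN (w : Γ → ℝ) (hw : IsProb w) (c : Γ → κ) (g h : Γ → ℝ) (k : ℝ)
    (hh : ∀ a b, c a = c b → h a = h b)
    (F F' : Γ → ℝ) (hF : ∀ a, F a = g a * h a * k)
    (hF' : ∀ a, F' a = cE w c g a * h a * k) : ∑ a, w a * F a = ∑ a, w a * F' a := by
  have h1 := ce_sum_mul w hw.1 c g h hh
  calc ∑ a, w a * F a = (∑ a, w a * (g a * h a)) * k := by
        rw [Finset.sum_mul]
        exact Finset.sum_congr rfl fun a _ => by rw [hF]; ring
    _ = (∑ a, w a * (cE w c g a * h a)) * k := by rw [h1]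
    _ = ∑ a, w a * F' a := by
        rw [Finset.sum_mul]
        exact Finset.sum_congr rfl fun a _ => by rw [hF']; ring

section Steps

variable (p12 p13 p14 p23 p24 p34 : Γ → ℝ)
  (h12 : IsProb p12) (h13 : IsProb p13) (h14 : IsProb p14) (h23 : IsProb p23)
  (h24 : IsProb p24) (h34 : IsProb p34) (A B C D : Γ → Γ → Γ → ℝ)

private lemma IsProb.pair {p q : Γ → ℝ} (hp : IsProb p) (hq : IsProb q) :
    IsProb (fun y : Γ × Γ => p y.1 * q y.2) := by
  refine ⟨fun y => mul_nonneg (hp.1 _) (hq.1 _), ?_⟩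
  rw [Fintype.sum_prod_type]
  simp only [← Finset.mul_sum, hq.2, mul_one, hp.2]

include h12 h13 h14 h23 h24 h34 in
private lemma D12 (c : Γ → κ) (hC : Un C) (hD : Un D) :
    |K4gen p12 p13 p14 p23 p24 p34 A B C D
      - K4gen p12 p13 p14 p23 p24 p34 A (E1 p12 c B) C D| ≤
      Real.sqrt (beta p12 c (fun y : Γ × Γ => p13 y.1 * p23 y.2) (fun y a => A a y.1 y.2)
        (fun x : Γ × Γ => p14 x.1 * p24 x.2) (fun x a => B a x.1 x.2)) := by
  rw [K_eq, K_eq, S6_sub, R12]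
  refine csStep p12 c (fun y : Γ × Γ => p13 y.1 * p23 y.2) (IsProb.pair h13 h23)
    (fun x : Γ × Γ => p14 x.1 * p24 x.2) (IsProb.pair h14 h24) p34 h34
    (fun y a => A a y.1 y.2) (fun x a => B a x.1 x.2)
    (fun y x z => C y.1 x.1 z * D y.2 x.2 z)
    (fun y x z => abs_mul_un (hC _ _ _) (hD _ _ _)) _ (fun y x z a => ?_)
  simp only [E1]
  ring

include h12 h13 h14 h23 h24 h34 in
private lemma D13 (c : Γ → κ) (hB : Un B) (hD : Un D) :
    |K4gen p12 p13 p14 p23 p24 p34 A B C D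
      - K4gen p12 p13 p14 p23 p24 p34 A B (E1 p13 c C) D| ≤
      Real.sqrt (beta p13 c (fun y : Γ × Γ => p12 y.1 * p23 y.2) (fun y a => A y.1 a y.2)
        (fun x : Γ × Γ => p14 x.1 * p34 x.2) (fun x a => C a x.1 x.2)) := by
  rw [K_eq, K_eq, S6_sub, R13]
  refine csStep p13 c (fun y : Γ × Γ => p12 y.1 * p23 y.2) (IsProb.pair h12 h23)
    (fun x : Γ × Γ => p14 x.1 * p34 x.2) (IsProb.pair h14 h34) p24 h24
    (fun y a => A y.1 a y.2) (fun x a => C a x.1 x.2)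
    (fun y x z => B y.1 x.1 z * D y.2 z x.2)
    (fun y x z => abs_mul_un (hB _ _ _) (hD _ _ _)) _ (fun y x z a => ?_)
  simp only [E1]
  ring

include h12 h13 h14 h23 h24 h34 in
private lemma D23 (c : Γ → κ) (hB : Un B) (hC : Un C) :
    |K4gen p12 p13 p14 p23 p24 p34 A B C D
      - K4gen p12 p13 p14 p23 p24 p34 A B C (E1 p23 c D)| ≤
      Real.sqrt (beta p23 c (fun y : Γ × Γ => p12 y.1 * p13 y.2) (fun y a => A y.1 y.2 a)
        (fun x : Γ × Γ => p24 x.1 * p34 x.2) (fun x a => D a x.1 x.2)) := by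
  rw [K_eq, K_eq, S6_sub, R23]
  refine csStep p23 c (fun y : Γ × Γ => p12 y.1 * p13 y.2) (IsProb.pair h12 h13)
    (fun x : Γ × Γ => p24 x.1 * p34 x.2) (IsProb.pair h24 h34) p14 h14
    (fun y a => A y.1 y.2 a) (fun x a => D a x.1 x.2)
    (fun y x z => B y.1 z x.1 * C y.2 z x.2)
    (fun y x z => abs_mul_un (hB _ _ _) (hC _ _ _)) _ (fun y x z a => ?_)
  simp only [E1]
  ring

include h12 h13 h14 h23 h24 h34 in
private lemma D14 (c : Γ → κ) (hA : Un A) (hD : Un D) :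
    |K4gen p12 p13 p14 p23 p24 p34 A B C D
      - K4gen p12 p13 p14 p23 p24 p34 A B (E2 p14 c C) D| ≤
      Real.sqrt (beta p14 c (fun y : Γ × Γ => p12 y.1 * p24 y.2) (fun y a => B y.1 a y.2)
        (fun x : Γ × Γ => p13 x.1 * p34 x.2) (fun x a => C x.1 a x.2)) := by
  rw [K_eq, K_eq, S6_sub, R14]
  refine csStep p14 c (fun y : Γ × Γ => p12 y.1 * p24 y.2) (IsProb.pair h12 h24)
    (fun x : Γ × Γ => p13 x.1 * p34 x.2) (IsProb.pair h13 h34) p23 h23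
    (fun y a => B y.1 a y.2) (fun x a => C x.1 a x.2)
    (fun y x z => A y.1 x.1 z * D z y.2 x.2)
    (fun y x z => abs_mul_un (hA _ _ _) (hD _ _ _)) _ (fun y x z a => ?_)
  simp only [E2]
  ring

include h12 h13 h14 h23 h24 h34 in
private lemma D24 (c : Γ → κ) (hA : Un A) (hC : Un C) :
    |K4gen p12 p13 p14 p23 p24 p34 A B C D
      - K4gen p12 p13 p14 p23 p24 p34 A B C (E2 p24 c D)| ≤
      Real.sqrt (beta p24 c (fun y : Γ × Γ => p12 y.1 * p14 y.2) (fun y a => B y.1 y.2 a)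
        (fun x : Γ × Γ => p23 x.1 * p34 x.2) (fun x a => D x.1 a x.2)) := by
  rw [K_eq, K_eq, S6_sub, R24]
  refine csStep p24 c (fun y : Γ × Γ => p12 y.1 * p14 y.2) (IsProb.pair h12 h14)
    (fun x : Γ × Γ => p23 x.1 * p34 x.2) (IsProb.pair h23 h34) p13 h13
    (fun y a => B y.1 y.2 a) (fun x a => D x.1 a x.2)
    (fun y x z => A y.1 z x.1 * C z y.2 x.2)
    (fun y x z => abs_mul_un (hA _ _ _) (hC _ _ _)) _ (fun y x z a => ?_)
  simp only [E2]
  ring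

include h12 h13 h14 h23 h24 h34 in
private lemma D34 (c : Γ → κ) (hA : Un A) (hB : Un B) :
    |K4gen p12 p13 p14 p23 p24 p34 A B C D
      - K4gen p12 p13 p14 p23 p24 p34 A B C (E3 p34 c D)| ≤
      Real.sqrt (beta p34 c (fun y : Γ × Γ => p13 y.1 * p14 y.2) (fun y a => C y.1 y.2 a)
        (fun x : Γ × Γ => p23 x.1 * p24 x.2) (fun x a => D x.1 x.2 a)) := by
  rw [K_eq, K_eq, S6_sub, R34]
  refine csStep p34 c (fun y : Γ × Γ => p13 y.1 * p14 y.2) (IsProb.pair h13 h14)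
    (fun x : Γ × Γ => p23 x.1 * p24 x.2) (IsProb.pair h23 h24) p12 h12
    (fun y a => C y.1 y.2 a) (fun x a => D x.1 x.2 a)
    (fun y x z => A z y.1 x.1 * B z y.2 x.2)
    (fun y x z => abs_mul_un (hA _ _ _) (hB _ _ _)) _ (fun y x z a => ?_)
  simp only [E3]
  ring

include h12 in
private lemma M12 (c : Γ → κ) : K4gen p12 p13 p14 p23 p24 p34 A (E1 p12 c B) C D
    = K4gen p12 p13 p14 p23 p24 p34 (E1 p12 c A) B C D := by
  rw [K_eq, K_eq, R12, R12]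
  refine Finset.sum_congr rfl fun y _ => Finset.sum_congr rfl fun x _ =>
    Finset.sum_congr rfl fun z _ => ?_
  congr 1
  exact innerM p12 h12 c (fun a => A a y.1 y.2) (fun a => B a x.1 x.2) (C y.1 x.1 z * D y.2 x.2 z)
    _ _ (fun a => by simp only [E1]; ring) (fun a => by simp only [E1]; ring)

include h13 in
private lemma M13 (c : Γ → κ) : K4gen p12 p13 p14 p23 p24 p34 A B (E1 p13 c C) D
    = K4gen p12 p13 p14 p23 p24 p34 (E2 p13 c A) B C D := by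
  rw [K_eq, K_eq, R13, R13]
  refine Finset.sum_congr rfl fun y _ => Finset.sum_congr rfl fun x _ =>
    Finset.sum_congr rfl fun z _ => ?_
  congr 1
  exact innerM p13 h13 c (fun a => A y.1 a y.2) (fun a => C a x.1 x.2) (B y.1 x.1 z * D y.2 z x.2)
    _ _ (fun a => by simp only [E1]; ring) (fun a => by simp only [E2]; ring)

include h23 in
private lemma M23 (c : Γ → κ) : K4gen p12 p13 p14 p23 p24 p34 A B C (E1 p23 c D)
    = K4gen p12 p13 p14 p23 p24 p34 (E3 p23 c A) B C D := by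
  rw [K_eq, K_eq, R23, R23]
  refine Finset.sum_congr rfl fun y _ => Finset.sum_congr rfl fun x _ =>
    Finset.sum_congr rfl fun z _ => ?_
  congr 1
  exact innerM p23 h23 c (fun a => A y.1 y.2 a) (fun a => D a x.1 x.2) (B y.1 z x.1 * C y.2 z x.2)
    _ _ (fun a => by simp only [E1]; ring) (fun a => by simp only [E3]; ring)

include h14 in
private lemma M14 (c : Γ → κ) : K4gen p12 p13 p14 p23 p24 p34 A B (E2 p14 c C) D
    = K4gen p12 p13 p14 p23 p24 p34 A (E2 p14 c B) C D := by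
  rw [K_eq, K_eq, R14, R14]
  refine Finset.sum_congr rfl fun y _ => Finset.sum_congr rfl fun x _ =>
    Finset.sum_congr rfl fun z _ => ?_
  congr 1
  exact innerM p14 h14 c (fun a => B y.1 a y.2) (fun a => C x.1 a x.2) (A y.1 x.1 z * D z y.2 x.2)
    _ _ (fun a => by simp only [E2]; ring) (fun a => by simp only [E2]; ring)

include h24 in
private lemma M24 (c : Γ → κ) : K4gen p12 p13 p14 p23 p24 p34 A B C (E2 p24 c D)
    = K4gen p12 p13 p14 p23 p24 p34 A (E3 p24 c B) C D := by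
  rw [K_eq, K_eq, R24, R24]
  refine Finset.sum_congr rfl fun y _ => Finset.sum_congr rfl fun x _ =>
    Finset.sum_congr rfl fun z _ => ?_
  congr 1
  exact innerM p24 h24 c (fun a => B y.1 y.2 a) (fun a => D x.1 a x.2) (A y.1 z x.1 * C z y.2 x.2)
    _ _ (fun a => by simp only [E2]; ring) (fun a => by simp only [E3]; ring)

include h34 in
private lemma M34 (c : Γ → κ) : K4gen p12 p13 p14 p23 p24 p34 A B C (E3 p34 c D)
    = K4gen p12 p13 p14 p23 p24 p34 A B (E3 p34 c C) D := by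
  rw [K_eq, K_eq, R34, R34]
  refine Finset.sum_congr rfl fun y _ => Finset.sum_congr rfl fun x _ =>
    Finset.sum_congr rfl fun z _ => ?_
  congr 1
  exact innerM p34 h34 c (fun a => C y.1 y.2 a) (fun a => D x.1 x.2 a) (A z y.1 x.1 * B z y.2 x.2)
    _ _ (fun a => by simp only [E3]; ring) (fun a => by simp only [E3]; ring)

include h12 in
private lemma N12 (c : Γ → κ) (hm : ∀ a b x y, c a = c b → A a x y = A b x y) :
    K4gen p12 p13 p14 p23 p24 p34 A B C D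
    = K4gen p12 p13 p14 p23 p24 p34 A (E1 p12 c B) C D := by
  rw [K_eq, K_eq, R12, R12]
  refine Finset.sum_congr rfl fun y _ => Finset.sum_congr rfl fun x _ =>
    Finset.sum_congr rfl fun z _ => ?_
  congr 1
  exact innerN p12 h12 c (fun a => B a x.1 x.2) (fun a => A a y.1 y.2) (C y.1 x.1 z * D y.2 x.2 z)
    (fun a b h => hm a b _ _ h) _ _ (fun a => by ring) (fun a => by simp only [E1]; ring)

include h13 in
private lemma N13 (c : Γ → κ) (hm : ∀ a b x y, c a = c b → A x a y = A x b y) :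
    K4gen p12 p13 p14 p23 p24 p34 A B C D
    = K4gen p12 p13 p14 p23 p24 p34 A B (E1 p13 c C) D := by
  rw [K_eq, K_eq, R13, R13]
  refine Finset.sum_congr rfl fun y _ => Finset.sum_congr rfl fun x _ =>
    Finset.sum_congr rfl fun z _ => ?_
  congr 1
  exact innerN p13 h13 c (fun a => C a x.1 x.2) (fun a => A y.1 a y.2) (B y.1 x.1 z * D y.2 z x.2)
    (fun a b h => hm a b _ _ h) _ _ (fun a => by ring) (fun a => by simp only [E1]; ring)

include h14 in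
private lemma N14 (c : Γ → κ) (hm : ∀ a b x y, c a = c b → B x a y = B x b y) :
    K4gen p12 p13 p14 p23 p24 p34 A B C D
    = K4gen p12 p13 p14 p23 p24 p34 A B (E2 p14 c C) D := by
  rw [K_eq, K_eq, R14, R14]
  refine Finset.sum_congr rfl fun y _ => Finset.sum_congr rfl fun x _ =>
    Finset.sum_congr rfl fun z _ => ?_
  congr 1
  exact innerN p14 h14 c (fun a => C x.1 a x.2) (fun a => B y.1 a y.2) (A y.1 x.1 z * D z y.2 x.2)
    (fun a b h => hm a b _ _ h) _ _ (fun a => by ring) (fun a => by simp only [E2]; ring)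

include h23 in
private lemma N23 (c : Γ → κ) (hm : ∀ a b x y, c a = c b → A x y a = A x y b) :
    K4gen p12 p13 p14 p23 p24 p34 A B C D
    = K4gen p12 p13 p14 p23 p24 p34 A B C (E1 p23 c D) := by
  rw [K_eq, K_eq, R23, R23]
  refine Finset.sum_congr rfl fun y _ => Finset.sum_congr rfl fun x _ =>
    Finset.sum_congr rfl fun z _ => ?_
  congr 1
  exact innerN p23 h23 c (fun a => D a x.1 x.2) (fun a => A y.1 y.2 a) (B y.1 z x.1 * C y.2 z x.2)
    (fun a b h => hm a b _ _ h) _ _ (fun a => by ring) (fun a => by simp only [E1]; ring)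

include h24 in
private lemma N24 (c : Γ → κ) (hm : ∀ a b x y, c a = c b → B x y a = B x y b) :
    K4gen p12 p13 p14 p23 p24 p34 A B C D
    = K4gen p12 p13 p14 p23 p24 p34 A B C (E2 p24 c D) := by
  rw [K_eq, K_eq, R24, R24]
  refine Finset.sum_congr rfl fun y _ => Finset.sum_congr rfl fun x _ =>
    Finset.sum_congr rfl fun z _ => ?_
  congr 1
  exact innerN p24 h24 c (fun a => D x.1 a x.2) (fun a => B y.1 y.2 a) (A y.1 z x.1 * C z y.2 x.2)
    (fun a b h => hm a b _ _ h) _ _ (fun a => by ring) (fun a => by simp only [E2]; ring)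

include h34 in
private lemma N34 (c : Γ → κ) (hm : ∀ a b x y, c a = c b → C x y a = C x y b) :
    K4gen p12 p13 p14 p23 p24 p34 A B C D
    = K4gen p12 p13 p14 p23 p24 p34 A B C (E3 p34 c D) := by
  rw [K_eq, K_eq, R34, R34]
  refine Finset.sum_congr rfl fun y _ => Finset.sum_congr rfl fun x _ =>
    Finset.sum_congr rfl fun z _ => ?_
  congr 1
  exact innerN p34 h34 c (fun a => D x.1 x.2 a) (fun a => C y.1 y.2 a) (A z y.1 x.1 * B z y.2 x.2)
    (fun a b h => hm a b _ _ h) _ _ (fun a => by ring) (fun a => by simp only [E3]; ring)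

end Steps

private lemma av3_eq (p q s : Γ → ℝ) (c c' c'' : Γ → κ) (A : Γ → Γ → Γ → ℝ) :
    av3 p q s c c' c'' A = E1 p c (E2 q c' (E3 s c'' A)) := rfl

private lemma av3_m1 (p q s : Γ → ℝ) (c c' c'' : Γ → κ) (A : Γ → Γ → Γ → ℝ) (a b x y : Γ)
    (h : c a = c b) : av3 p q s c c' c'' A a x y = av3 p q s c c' c'' A b x y :=
  ce_cells p c _ a b h

private lemma av3_m2 (p q s : Γ → ℝ) (c c' c'' : Γ → κ) (A : Γ → Γ → Γ → ℝ) (a b x y : Γ)
    (h : c' a = c' b) : av3 p q s c c' c'' A x a y = av3 p q s c c' c'' A x b y := by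
  unfold av3
  have : ∀ a', cE q c' (fun b' => cE s c'' (fun d' => A a' b' d') y) a
      = cE q c' (fun b' => cE s c'' (fun d' => A a' b' d') y) b :=
    fun a' => ce_cells q c' _ a b h
  simp only [this]

private lemma av3_m3 (p q s : Γ → ℝ) (c c' c'' : Γ → κ) (A : Γ → Γ → Γ → ℝ) (a b x y : Γ)
    (h : c'' a = c'' b) : av3 p q s c c' c'' A x y a = av3 p q s c c' c'' A x y b := by
  unfold av3
  have : ∀ a' b', cE s c'' (fun d' => A a' b' d') a = cE s c'' (fun d' => A a' b' d') b :=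
    fun a' b' => ce_cells s c'' _ a b h
  simp only [this]

end CountAux

theorem count_replace {Γ κ : Type} [Fintype Γ] (p12 p13 p14 p23 p24 p34 : Γ → ℝ)
    (h12 : IsProb p12) (h13 : IsProb p13) (h14 : IsProb p14) (h23 : IsProb p23)
    (h24 : IsProb p24) (h34 : IsProb p34) (A B C D : Γ → Γ → Γ → ℝ)
    (hA : ∀ a b c, 0 ≤ A a b c ∧ A a b c ≤ 1) (hB : ∀ a b c, 0 ≤ B a b c ∧ B a b c ≤ 1)
    (hC : ∀ a b c, 0 ≤ C a b c ∧ C a b c ≤ 1) (hD : ∀ a b c, 0 ≤ D a b c ∧ D a b c ≤ 1)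
    (c12 c13 c14 c23 c24 c34 : Γ → κ) :
    |K4gen p12 p13 p14 p23 p24 p34 A B C D
      - K4gen p12 p13 p14 p23 p24 p34 (av3 p12 p13 p23 c12 c13 c23 A)
          (av3 p12 p14 p24 c12 c14 c24 B) (av3 p13 p14 p34 c13 c14 c34 C)
          (av3 p23 p24 p34 c23 c24 c34 D)| ≤
      Real.sqrt (beta p12 c12 (fun y : Γ × Γ => p13 y.1 * p23 y.2) (fun y a => A a y.1 y.2)
        (fun x : Γ × Γ => p14 x.1 * p24 x.2) (fun x a => B a x.1 x.2))
      + Real.sqrt (beta p13 c13 (fun y : Γ × Γ => p12 y.1 * p23 y.2) (fun y a => A y.1 a y.2)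
        (fun x : Γ × Γ => p14 x.1 * p34 x.2) (fun x a => C a x.1 x.2))
      + Real.sqrt (beta p23 c23 (fun y : Γ × Γ => p12 y.1 * p13 y.2) (fun y a => A y.1 y.2 a)
        (fun x : Γ × Γ => p24 x.1 * p34 x.2) (fun x a => D a x.1 x.2))
      + Real.sqrt (beta p14 c14 (fun y : Γ × Γ => p12 y.1 * p24 y.2) (fun y a => B y.1 a y.2)
        (fun x : Γ × Γ => p13 x.1 * p34 x.2) (fun x a => C x.1 a x.2))
      + Real.sqrt (beta p24 c24 (fun y : Γ × Γ => p12 y.1 * p14 y.2) (fun y a => B y.1 y.2 a)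
        (fun x : Γ × Γ => p23 x.1 * p34 x.2) (fun x a => D x.1 a x.2))
      + Real.sqrt (beta p34 c34 (fun y : Γ × Γ => p13 y.1 * p14 y.2) (fun y a => C y.1 y.2 a)
        (fun x : Γ × Γ => p23 x.1 * p24 x.2) (fun x a => D x.1 x.2 a)) := by
  have uA : Un A := hA
  have uB : Un B := hB
  have uC : Un C := hC
  have uD : Un D := hD
  set A' := av3 p12 p13 p23 c12 c13 c23 A with hA'
  set B' := av3 p12 p14 p24 c12 c14 c24 B with hB'
  set C' := av3 p13 p14 p34 c13 c14 c34 C with hC'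
  set D' := av3 p23 p24 p34 c23 c24 c34 D with hD'
  have uA' : Un A' := by
    rw [hA', av3_eq]; exact Un.E1 h12 _ (Un.E2 h13 _ (Un.E3 h23 _ uA))
  have uB' : Un B' := by
    rw [hB', av3_eq]; exact Un.E1 h12 _ (Un.E2 h14 _ (Un.E3 h24 _ uB))
  -- step A
  have s1 := D12 p12 p13 p14 p23 p24 p34 h12 h13 h14 h23 h24 h34 A B C D c12 uC uD
  have s2 := D13 p12 p13 p14 p23 p24 p34 h12 h13 h14 h23 h24 h34 A (E1 p12 c12 B) C D c13
    (Un.E1 h12 _ uB) uD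
  have s3 := D23 p12 p13 p14 p23 p24 p34 h12 h13 h14 h23 h24 h34 A (E1 p12 c12 B)
    (E1 p13 c13 C) D c23 (Un.E1 h12 _ uB) (Un.E1 h13 _ uC)
  have t1 : K4gen p12 p13 p14 p23 p24 p34 A (E1 p12 c12 B) (E1 p13 c13 C) (E1 p23 c23 D)
      = K4gen p12 p13 p14 p23 p24 p34 A' B C D := by
    rw [M23 p12 p13 p14 p23 p24 p34 h23, M13 p12 p13 p14 p23 p24 p34 h13,
      M12 p12 p13 p14 p23 p24 p34 h12, hA', av3_eq]
  -- step B
  have s4 := D14 p12 p13 p14 p23 p24 p34 h12 h13 h14 h23 h24 h34 A' B C D c14 uA' uD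
  have s5 := D24 p12 p13 p14 p23 p24 p34 h12 h13 h14 h23 h24 h34 A' B (E2 p14 c14 C) D c24
    uA' (Un.E2 h14 _ uC)
  have t2 : K4gen p12 p13 p14 p23 p24 p34 A' B (E2 p14 c14 C) (E2 p24 c24 D)
      = K4gen p12 p13 p14 p23 p24 p34 A' B' C D := by
    rw [M24 p12 p13 p14 p23 p24 p34 h24, M14 p12 p13 p14 p23 p24 p34 h14,
      N12 p12 p13 p14 p23 p24 p34 h12 A' _ C D c12
        (fun a b x y h => av3_m1 _ _ _ _ _ _ _ a b x y h), hB', av3_eq]
  -- step C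
  have s6 := D34 p12 p13 p14 p23 p24 p34 h12 h13 h14 h23 h24 h34 A' B' C D c34 uA' uB'
  have t3 : K4gen p12 p13 p14 p23 p24 p34 A' B' C (E3 p34 c34 D)
      = K4gen p12 p13 p14 p23 p24 p34 A' B' C' D := by
    rw [M34 p12 p13 p14 p23 p24 p34 h34,
      N14 p12 p13 p14 p23 p24 p34 h14 A' B' _ D c14
        (fun a b x y h => av3_m2 _ _ _ _ _ _ _ a b x y h),
      N13 p12 p13 p14 p23 p24 p34 h13 A' B' _ D c13
        (fun a b x y h => av3_m2 _ _ _ _ _ _ _ a b x y h), hC', av3_eq]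
  -- step D
  have t4 : K4gen p12 p13 p14 p23 p24 p34 A' B' C' D
      = K4gen p12 p13 p14 p23 p24 p34 A' B' C' D' := by
    rw [N34 p12 p13 p14 p23 p24 p34 h34 A' B' C' D c34
        (fun a b x y h => av3_m3 _ _ _ _ _ _ _ a b x y h),
      N24 p12 p13 p14 p23 p24 p34 h24 A' B' C' _ c24
        (fun a b x y h => av3_m3 _ _ _ _ _ _ _ a b x y h),
      N23 p12 p13 p14 p23 p24 p34 h23 A' B' C' _ c23
        (fun a b x y h => av3_m3 _ _ _ _ _ _ _ a b x y h), hD', av3_eq]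
  rw [t1] at s3
  rw [t2] at s5
  rw [t3, t4] at s6
  rw [abs_le] at s1 s2 s3 s4 s5 s6 ⊢
  constructor <;> linarith [s1.1, s1.2, s2.1, s2.2, s3.1, s3.2, s4.1, s4.2, s5.1, s5.2, s6.1, s6.2]

end Pool.UT
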