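/-
UT Hilb: two facts on vectors in a real inner product space.

maurey: PROOF. Let yb = ∑ p x • y x.  Claim by induction on k: there is s : Fin k → X with
‖∑_{i<k} (y (s i) - yb)‖^2 ≤ k.  Step: with S the current sum,
∑_x p x ‖S + (y x - yb)‖^2 = ‖S‖^2 + 2 <S, ∑ p x (y x - yb)> + ∑ p x ‖y x - yb‖^2
 = ‖S‖^2 + (∑ p x ‖y x‖^2 - ‖yb‖^2) ≤ ‖S‖^2 + 1,
so some x (with p x > 0) has ‖S + (y x - yb)‖^2 ≤ ‖S‖^2 + 1 (otherwise the average would be
larger).  Finally ‖yb - (1/r) ∑ y (s i)‖^2 = (1/r^2) ‖∑ (y (s i) - yb)‖^2 ≤ 1/r.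

gram_avg: PROOF. Put α v = 1_{v∈B}/|B| - 1_{v∈B'}/|B'| for v in B ∪ B', so ∑ α = 0, ∑ |α| ≤ 2 and
∑ α^2 ≤ 1/|B| + 1/|B'| ≤ 2/m.  The left side is ‖∑ α v • u v‖^2 = ∑∑ α v α v' <u v, u v'>
= ∑∑ α v α v' (<u v, u v'> - ρ) ≤ e (∑|α|)^2 + ∑_v α v ^2 (‖u v‖^2 - ρ) ≤ 4 e + 2/m  (ρ ≥ 0).
-/
import Pool.Agent.H95.UT.Defs

set_option autoImplicit false

namespace Pool.UT

open Finset

private theorem hilb_step {H : Type*} [NormedAddCommGroup H] [InnerProductSpace ℝ H] {X : Type*} [Fintype X]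
    (p : X → ℝ) (hp : IsProb p) (y : X → H) (hy : ∀ x, ‖y x‖ ≤ 1) (yb S : H) (hyb : yb = ∑ x, p x • y x) :
    ∃ x, ‖S + (y x - yb)‖ ^ 2 ≤ ‖S‖ ^ 2 + 1 := by
  have h1 : ∑ x, p x * ‖S + (y x - yb)‖ ^ 2 = ‖S‖ ^ 2 + (∑ x, p x * ‖y x‖ ^ 2) - ‖yb‖ ^ 2 := by
    have h2 : ∀ x, p x * ‖S + (y x - yb)‖ ^ 2 =
        p x * ‖S - yb‖ ^ 2 + 2 * inner ℝ (S - yb) (p x • y x) + p x * ‖y x‖ ^ 2 := by
      intro x
      have h3 : S + (y x - yb) = (S - yb) + y x := by abel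
      rw [h3, norm_add_sq_real, inner_smul_right]
      ring
    simp_rw [h2]
    rw [sum_add_distrib, sum_add_distrib, ← sum_mul, hp.2, one_mul, ← mul_sum, ← inner_sum, ← hyb,
      norm_sub_sq_real, inner_sub_left, real_inner_self_eq_norm_sq]
    ring
  have h4 : ∑ x, p x * ‖y x‖ ^ 2 ≤ 1 := by
    rw [← hp.2]
    refine sum_le_sum fun x _ => ?_
    have h5 : ‖y x‖ ^ 2 ≤ 1 := by
      have := hy x
      have h0 := norm_nonneg (y x)
      nlinarith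
    exact mul_le_of_le_one_right (hp.1 x) h5
  by_contra hc
  push Not at hc
  obtain ⟨x0, hx0⟩ : ∃ x, 0 < p x := by
    by_contra h
    push Not at h
    have h6 : ∑ x, p x ≤ 0 := sum_nonpos fun x _ => h x
    rw [hp.2] at h6
    linarith
  have h7 : ∑ x, p x * (‖S‖ ^ 2 + 1) < ∑ x, p x * ‖S + (y x - yb)‖ ^ 2 := by
    refine sum_lt_sum (fun x _ => mul_le_mul_of_nonneg_left (hc x).le (hp.1 x)) ⟨x0, mem_univ _, ?_⟩
    exact mul_lt_mul_of_pos_left (hc x0) hx0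
  rw [← sum_mul, hp.2, one_mul, h1] at h7
  nlinarith [sq_nonneg ‖yb‖]

theorem maurey {H : Type*} [NormedAddCommGroup H] [InnerProductSpace ℝ H] {X : Type*} [Fintype X]
    (p : X → ℝ) (hp : IsProb p) (y : X → H) (hy : ∀ x, ‖y x‖ ≤ 1) (r : ℕ) (hr : 0 < r) :
    ∃ s : Fin r → X, ‖∑ x, p x • y x - (1 / (r : ℝ)) • ∑ i, y (s i)‖ ^ 2 ≤ 1 / (r : ℝ) := by
  set yb := ∑ x, p x • y x with hyb
  have h1 : ∀ k : ℕ, ∃ s : ℕ → X, ‖∑ i ∈ range k, (y (s i) - yb)‖ ^ 2 ≤ (k : ℝ) := by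
    intro k
    induction k with
    | zero =>
      obtain ⟨x, _⟩ := hilb_step p hp y hy yb 0 hyb
      exact ⟨fun _ => x, by simp⟩
    | succ k ih =>
      obtain ⟨s, hs⟩ := ih
      obtain ⟨x, hx⟩ := hilb_step p hp y hy yb (∑ i ∈ range k, (y (s i) - yb)) hyb
      refine ⟨fun i => if i = k then x else s i, ?_⟩
      simp only [sum_range_succ, if_true]
      have h2 : ∑ i ∈ range k, (y (if i = k then x else s i) - yb) = ∑ i ∈ range k, (y (s i) - yb) := by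
        refine sum_congr rfl fun i hi => ?_
        rw [if_neg (mem_range.1 hi).ne]
      rw [h2]
      push_cast
      linarith
  obtain ⟨s, hs⟩ := h1 r
  refine ⟨fun i => s i, ?_⟩
  have hr0 : (0 : ℝ) < r := Nat.cast_pos.2 hr
  have h3 : ∑ i : Fin r, y (s i) = ∑ i ∈ range r, y (s i) := (sum_range fun i => y (s i)).symm
  have h4 : yb - (1 / (r : ℝ)) • ∑ i : Fin r, y (s i) =
      -((1 / (r : ℝ)) • ∑ i ∈ range r, (y (s i) - yb)) := by
    rw [h3, sum_sub_distrib, sum_const, card_range, smul_sub, ← Nat.cast_smul_eq_nsmul ℝ, smul_smul,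
      one_div, inv_mul_cancel₀ hr0.ne', one_smul, neg_sub]
  rw [h4, norm_neg, norm_smul, mul_pow, Real.norm_of_nonneg (by positivity)]
  calc (1 / (r : ℝ)) ^ 2 * ‖∑ i ∈ range r, (y (s i) - yb)‖ ^ 2 ≤ (1 / (r : ℝ)) ^ 2 * r := by gcongr
    _ = 1 / (r : ℝ) := by field_simp

private theorem hilb_sumA (B W : Finset ℕ) (hBW : B ⊆ W) (hB : 0 < B.card) :
    ∑ v ∈ W, (if v ∈ B then 1 / (B.card : ℝ) else 0) = 1 := by
  have h0 : (B.card : ℝ) ≠ 0 := (Nat.cast_pos.2 hB).ne'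
  rw [← sum_filter, filter_mem_eq_inter, inter_eq_right.2 hBW, sum_const, nsmul_eq_mul]
  field_simp

private theorem hilb_sumA2 (B W : Finset ℕ) (hBW : B ⊆ W) (m : ℕ) (hm : 0 < m) (hB : m ≤ B.card) :
    ∑ v ∈ W, (if v ∈ B then 1 / (B.card : ℝ) else 0) ^ 2 ≤ 1 / (m : ℝ) := by
  have hm0 : (0 : ℝ) < m := Nat.cast_pos.2 hm
  have hmB : (m : ℝ) ≤ B.card := Nat.cast_le.2 hB
  calc ∑ v ∈ W, (if v ∈ B then 1 / (B.card : ℝ) else 0) ^ 2
      ≤ ∑ v ∈ W, (if v ∈ B then 1 / (B.card : ℝ) else 0) * (1 / (m : ℝ)) := by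
        refine sum_le_sum fun v _ => ?_
        split_ifs
        · rw [sq]
          gcongr
        · simp
    _ = 1 / (m : ℝ) := by
        rw [← sum_mul, hilb_sumA B W hBW (hm.trans_le hB), one_mul]

private theorem hilb_sumU {H : Type*} [NormedAddCommGroup H] [InnerProductSpace ℝ H]
    (u : ℕ → H) (B W : Finset ℕ) (hBW : B ⊆ W) :
    ∑ v ∈ W, (if v ∈ B then 1 / (B.card : ℝ) else 0) • u v = (1 / (B.card : ℝ)) • ∑ v ∈ B, u v := by
  have h1 : ∀ v ∈ W, (if v ∈ B then 1 / (B.card : ℝ) else 0) • u v =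
      if v ∈ B then (1 / (B.card : ℝ)) • u v else 0 := by
    intro v _
    split_ifs <;> simp
  rw [sum_congr rfl h1, ← sum_filter, filter_mem_eq_inter, inter_eq_right.2 hBW, smul_sum]

theorem gram_avg {H : Type*} [NormedAddCommGroup H] [InnerProductSpace ℝ H]
    (u : ℕ → H) (hu : ∀ v, ‖u v‖ ≤ 1) (P : Finset ℕ) (ρ e : ℝ) (hρ : 0 ≤ ρ) (he : 0 ≤ e)
    (hG : ∀ v ∈ P, ∀ v' ∈ P, v ≠ v' → |inner ℝ (u v) (u v') - ρ| ≤ e)
    (m : ℕ) (hm : 0 < m) (B B' : Finset ℕ) (hB : B ⊆ P) (hB' : B' ⊆ P)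
    (hBm : m ≤ B.card) (hBm' : m ≤ B'.card) :
    ‖(1 / (B.card : ℝ)) • ∑ v ∈ B, u v - (1 / (B'.card : ℝ)) • ∑ v ∈ B', u v‖ ^ 2
      ≤ 4 / (m : ℝ) + 4 * e := by
  set W := B ∪ B' with hW
  have hBW : B ⊆ W := subset_union_left
  have hBW' : B' ⊆ W := subset_union_right
  set a : ℕ → ℝ := fun v => if v ∈ B then 1 / (B.card : ℝ) else 0 with ha
  set b : ℕ → ℝ := fun v => if v ∈ B' then 1 / (B'.card : ℝ) else 0 with hb
  have ha0 : ∀ v, 0 ≤ a v := by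
    intro v
    simp only [ha]
    split_ifs <;> positivity
  have hb0 : ∀ v, 0 ≤ b v := by
    intro v
    simp only [hb]
    split_ifs <;> positivity
  have hsa : ∑ v ∈ W, a v = 1 := hilb_sumA B W hBW (hm.trans_le hBm)
  have hsb : ∑ v ∈ W, b v = 1 := hilb_sumA B' W hBW' (hm.trans_le hBm')
  have hsa2 : ∑ v ∈ W, a v ^ 2 ≤ 1 / (m : ℝ) := hilb_sumA2 B W hBW m hm hBm
  have hsb2 : ∑ v ∈ W, b v ^ 2 ≤ 1 / (m : ℝ) := hilb_sumA2 B' W hBW' m hm hBm'
  set α : ℕ → ℝ := fun v => a v - b v with hα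
  have hsα : ∑ v ∈ W, α v = 0 := by
    simp only [hα]
    rw [sum_sub_distrib, hsa, hsb, sub_self]
  have hvec : (1 / (B.card : ℝ)) • ∑ v ∈ B, u v - (1 / (B'.card : ℝ)) • ∑ v ∈ B', u v =
      ∑ v ∈ W, α v • u v := by
    rw [← hilb_sumU u B W hBW, ← hilb_sumU u B' W hBW', ← sum_sub_distrib]
    refine sum_congr rfl fun v _ => ?_
    rw [← sub_smul]
  rw [hvec, ← real_inner_self_eq_norm_sq, sum_inner]
  have h1 : ∑ v ∈ W, inner ℝ (α v • u v) (∑ v' ∈ W, α v' • u v') =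
      ∑ v ∈ W, ∑ v' ∈ W, α v * α v' * (inner ℝ (u v) (u v') - ρ) := by
    have h2 : ∑ v ∈ W, ∑ v' ∈ W, α v * α v' * ρ = 0 := by
      have h3 : ∀ v ∈ W, ∑ v' ∈ W, α v * α v' * ρ = 0 := by
        intro v _
        have h4 : ∀ v' ∈ W, α v * α v' * ρ = (α v * ρ) * α v' := fun v' _ => by ring
        rw [sum_congr rfl h4, ← mul_sum, hsα, mul_zero]
      exact sum_eq_zero h3
    have h5 : ∑ v ∈ W, inner ℝ (α v • u v) (∑ v' ∈ W, α v' • u v') =
        ∑ v ∈ W, ∑ v' ∈ W, α v * α v' * inner ℝ (u v) (u v') := by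
      refine sum_congr rfl fun v _ => ?_
      rw [inner_sum]
      refine sum_congr rfl fun v' _ => ?_
      rw [real_inner_smul_left, real_inner_smul_right]
      ring
    rw [h5, ← sub_zero (∑ v ∈ W, ∑ v' ∈ W, α v * α v' * inner ℝ (u v) (u v')), ← h2, ← sum_sub_distrib]
    refine sum_congr rfl fun v _ => ?_
    rw [← sum_sub_distrib]
    refine sum_congr rfl fun v' _ => ?_
    ring
  rw [h1]
  have hterm : ∀ v ∈ W, ∀ v' ∈ W, α v * α v' * (inner ℝ (u v) (u v') - ρ) ≤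
      (a v + b v) * (a v' + b v') * e + (if v' = v then α v ^ 2 else 0) := by
    intro v hv v' hv'
    have hP : ∀ x ∈ W, x ∈ P := by
      intro x hx
      rcases mem_union.1 hx with h | h
      · exact hB h
      · exact hB' h
    have habs : ∀ x, |α x| ≤ a x + b x := by
      intro x
      simp only [hα]
      rw [abs_le]
      constructor <;> linarith [ha0 x, hb0 x]
    have hnn : ∀ x, 0 ≤ a x + b x := fun x => add_nonneg (ha0 x) (hb0 x)
    by_cases hvv : v' = v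
    · subst hvv
      rw [if_pos rfl, real_inner_self_eq_norm_sq]
      have h6 : ‖u v'‖ ^ 2 - ρ ≤ 1 := by
        have := hu v'
        nlinarith [norm_nonneg (u v')]
      have h7 : α v' * α v' * (‖u v'‖ ^ 2 - ρ) ≤ α v' ^ 2 := by
        nlinarith [mul_self_nonneg (α v')]
      have h8 : 0 ≤ (a v' + b v') * (a v' + b v') * e := mul_nonneg (mul_nonneg (hnn _) (hnn _)) he
      linarith
    · rw [if_neg hvv, add_zero]
      calc α v * α v' * (inner ℝ (u v) (u v') - ρ)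
          ≤ |α v * α v' * (inner ℝ (u v) (u v') - ρ)| := le_abs_self _
        _ = |α v| * |α v'| * |inner ℝ (u v) (u v') - ρ| := by rw [abs_mul, abs_mul]
        _ ≤ (a v + b v) * (a v' + b v') * e := by
            refine mul_le_mul ?_ (hG v (hP v hv) v' (hP v' hv') (Ne.symm hvv)) (abs_nonneg _)
              (mul_nonneg (hnn _) (hnn _))
            exact mul_le_mul (habs v) (habs v') (abs_nonneg _) (hnn _)
  have hα2 : ∑ v ∈ W, α v ^ 2 ≤ 2 / (m : ℝ) := by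
    calc ∑ v ∈ W, α v ^ 2 ≤ ∑ v ∈ W, (a v ^ 2 + b v ^ 2) := by
          refine sum_le_sum fun v _ => ?_
          simp only [hα]
          nlinarith [mul_nonneg (ha0 v) (hb0 v)]
      _ = ∑ v ∈ W, a v ^ 2 + ∑ v ∈ W, b v ^ 2 := sum_add_distrib
      _ ≤ 1 / (m : ℝ) + 1 / (m : ℝ) := add_le_add hsa2 hsb2
      _ = 2 / (m : ℝ) := by ring
  have hm0 : (0 : ℝ) < m := Nat.cast_pos.2 hm
  calc ∑ v ∈ W, ∑ v' ∈ W, α v * α v' * (inner ℝ (u v) (u v') - ρ)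
      ≤ ∑ v ∈ W, ∑ v' ∈ W, ((a v + b v) * (a v' + b v') * e + (if v' = v then α v ^ 2 else 0)) :=
        sum_le_sum fun v hv => sum_le_sum fun v' hv' => hterm v hv v' hv'
    _ = ∑ v ∈ W, ((a v + b v) * (2 * e) + α v ^ 2) := by
        refine sum_congr rfl fun v hv => ?_
        rw [sum_add_distrib, sum_ite_eq' W v, if_pos hv]
        congr 1
        have h9 : ∀ v' ∈ W, (a v + b v) * (a v' + b v') * e = (a v + b v) * e * (a v' + b v') :=
          fun v' _ => by ring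
        rw [sum_congr rfl h9, ← mul_sum, sum_add_distrib, hsa, hsb]
        ring
    _ = 4 * e + ∑ v ∈ W, α v ^ 2 := by
        rw [sum_add_distrib, ← sum_mul, sum_add_distrib, hsa, hsb]
        ring
    _ ≤ 4 * e + 2 / (m : ℝ) := by linarith
    _ ≤ 4 / (m : ℝ) + 4 * e := by
        have : 2 / (m : ℝ) ≤ 4 / (m : ℝ) := by gcongr; norm_num
        linarith

end Pool.UT
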