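/-
UT Kern: the Hilbert space of kernels on Γ and the operator 1 - E in both variables.

For weights w on Γ let emb w F : EuclideanSpace ℝ (Γ × Γ) be (a,a') ↦ √(w a) √(w a') F (a,a').
D w c F is obtained from F by applying g ↦ g - cE w c g in the first variable and then in the
second variable.
-/
import Pool.Agent.H95.UT.CE

set_option autoImplicit false

namespace Pool.UT

open Finset

noncomputable section

variable {Γ κ X Y : Type} [Fintype Γ] [Fintype X] [Fintype Y]

/-- weighted embedding of kernels -/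
def emb (w : Γ → ℝ) (F : Γ × Γ → ℝ) : EuclideanSpace ℝ (Γ × Γ) :=
  WithLp.toLp 2 (fun x => Real.sqrt (w x.1) * Real.sqrt (w x.2) * F x)

/-- `1 - E` in both variables -/
def dbl (w : Γ → ℝ) (c : Γ → κ) (F : Γ × Γ → ℝ) (x : Γ × Γ) : ℝ :=
  (F x - cE w c (fun a => F (a, x.2)) x.1)
    - cE w c (fun a' => F (x.1, a') - cE w c (fun a => F (a, a')) x.1) x.2

/-- the kernel of a family of tests -/
def ker (q : X → ℝ) (g : X → Γ → ℝ) (x : Γ × Γ) : ℝ := ∑ t, q t * (g t x.1 * g t x.2)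

theorem emb_add (w : Γ → ℝ) (F G : Γ × Γ → ℝ) :
    emb w (fun x => F x + G x) = emb w F + emb w G := by
  ext x
  simp only [emb, PiLp.add_apply]
  ring

theorem emb_smul (w : Γ → ℝ) (r : ℝ) (F : Γ × Γ → ℝ) :
    emb w (fun x => r * F x) = r • emb w F := by
  ext x
  simp only [emb, PiLp.smul_apply, smul_eq_mul]
  ring

theorem emb_sum {ι : Type*} (s : Finset ι) (w : Γ → ℝ) (r : ι → ℝ) (F : ι → Γ × Γ → ℝ) :
    emb w (fun x => ∑ i ∈ s, r i * F i x) = ∑ i ∈ s, r i • emb w (F i) := by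
  ext x
  rw [WithLp.ofLp_sum, Finset.sum_apply]
  simp only [emb, PiLp.smul_apply, smul_eq_mul]
  rw [Finset.mul_sum]
  refine Finset.sum_congr rfl fun i _ => ?_
  ring

theorem emb_inner (w : Γ → ℝ) (hw : ∀ a, 0 ≤ w a) (F G : Γ × Γ → ℝ) :
    inner ℝ (emb w F) (emb w G) = ∑ x : Γ × Γ, w x.1 * w x.2 * (F x * G x) := by
  rw [PiLp.inner_apply]
  refine Finset.sum_congr rfl fun x _ => ?_
  simp only [emb, RCLike.inner_apply, conj_trivial]
  have h1 := Real.mul_self_sqrt (hw x.1)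
  have h2 := Real.mul_self_sqrt (hw x.2)
  calc Real.sqrt (w x.1) * Real.sqrt (w x.2) * G x * (Real.sqrt (w x.1) * Real.sqrt (w x.2) * F x)
      = (Real.sqrt (w x.1) * Real.sqrt (w x.1)) * (Real.sqrt (w x.2) * Real.sqrt (w x.2))
          * (F x * G x) := by ring
    _ = w x.1 * w x.2 * (F x * G x) := by rw [h1, h2]

theorem emb_norm_sq (w : Γ → ℝ) (hw : ∀ a, 0 ≤ w a) (F : Γ × Γ → ℝ) :
    ‖emb w F‖ ^ 2 = ∑ x : Γ × Γ, w x.1 * w x.2 * (F x) ^ 2 := by
  rw [← real_inner_self_eq_norm_sq, emb_inner w hw]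
  refine Finset.sum_congr rfl fun x _ => ?_
  ring

/-- kernels with values in [-1,1] have norm at most 1 -/
theorem emb_norm_le_one (w : Γ → ℝ) (hw : IsProb w) (F : Γ × Γ → ℝ)
    (hF : ∀ x, |F x| ≤ 1) : ‖emb w F‖ ≤ 1 := by
  have h1 := emb_norm_sq w hw.1 F
  have h2 : ∑ x : Γ × Γ, w x.1 * w x.2 * (F x) ^ 2 ≤ 1 := by
    have h3 : ∑ x : Γ × Γ, w x.1 * w x.2 = 1 := by
      rw [Fintype.sum_prod_type]
      simp only
      simp_rw [← Finset.mul_sum]
      rw [hw.2]
      simp only [mul_one]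
      exact hw.2
    calc ∑ x : Γ × Γ, w x.1 * w x.2 * (F x) ^ 2 ≤ ∑ x : Γ × Γ, w x.1 * w x.2 := by
          refine Finset.sum_le_sum fun x _ => ?_
          have h4 : (F x) ^ 2 ≤ 1 := by
            have := hF x
            rw [← sq_abs]
            exact pow_le_one₀ (abs_nonneg _) this
          have h5 : 0 ≤ w x.1 * w x.2 := mul_nonneg (hw.1 _) (hw.1 _)
          calc w x.1 * w x.2 * (F x) ^ 2 ≤ w x.1 * w x.2 * 1 := mul_le_mul_of_nonneg_left h4 h5
            _ = w x.1 * w x.2 := mul_one _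
      _ = 1 := h3
  nlinarith [norm_nonneg (emb w F)]

/-- dbl is linear -/
theorem dbl_sum {ι : Type*} (s : Finset ι) (w : Γ → ℝ) (c : Γ → κ) (r : ι → ℝ)
    (F : ι → Γ × Γ → ℝ) (x : Γ × Γ) :
    dbl w c (fun x => ∑ i ∈ s, r i * F i x) x = ∑ i ∈ s, r i * dbl w c (F i) x := by
  unfold dbl
  rw [ce_finset_sum]
  have h1 : (fun a' => (∑ i ∈ s, r i * F i (x.1, a'))
      - cE w c (fun a => ∑ i ∈ s, r i * F i (a, a')) x.1)
      = fun a' => ∑ i ∈ s, r i * (F i (x.1, a') - cE w c (fun a => F i (a, a')) x.1) := by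
    funext a'
    rw [ce_finset_sum, ← Finset.sum_sub_distrib]
    refine Finset.sum_congr rfl fun i _ => ?_
    ring
  rw [h1, ce_finset_sum, ← Finset.sum_sub_distrib, ← Finset.sum_sub_distrib]
  refine Finset.sum_congr rfl fun i _ => ?_
  ring

theorem kern_ce_sub (w : Γ → ℝ) (c : Γ → κ) (g g' : Γ → ℝ) (a : Γ) :
    cE w c (fun x => g x - g' x) a = cE w c g a - cE w c g' a := by
  have h1 : (fun x => g x - g' x) = fun x => g x + (-1) * g' x := by
    funext x
    ring
  rw [h1, ce_add, ce_smul]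
  ring

theorem dbl_sub (w : Γ → ℝ) (c : Γ → κ) (F G : Γ × Γ → ℝ) (x : Γ × Γ) :
    dbl w c (fun x => F x - G x) x = dbl w c F x - dbl w c G x := by
  unfold dbl
  rw [kern_ce_sub]
  have h1 : (fun a' => (F (x.1, a') - G (x.1, a')) - cE w c (fun a => F (a, a') - G (a, a')) x.1)
      = fun a' => (F (x.1, a') - cE w c (fun a => F (a, a')) x.1)
        - (G (x.1, a') - cE w c (fun a => G (a, a')) x.1) := by
    funext a'
    rw [kern_ce_sub]
    ring
  rw [h1, kern_ce_sub]
  ring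

/-- dbl is a contraction: sub_ce_sq_le in each variable -/
theorem dbl_norm_le (w : Γ → ℝ) (hw : ∀ a, 0 ≤ w a) (c : Γ → κ) (F : Γ × Γ → ℝ) :
    ‖emb w (dbl w c F)‖ ≤ ‖emb w F‖ := by
  have hsq : ‖emb w (dbl w c F)‖ ^ 2 ≤ ‖emb w F‖ ^ 2 := by
    rw [emb_norm_sq w hw, emb_norm_sq w hw, Fintype.sum_prod_type, Fintype.sum_prod_type]
    simp only
    set G : Γ × Γ → ℝ := fun x => F x - cE w c (fun a => F (a, x.2)) x.1 with hG
    have hd : ∀ a a', dbl w c F (a, a') = G (a, a') - cE w c (fun b => G (a, b)) a' := by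
      intro a a'
      rfl
    calc ∑ a, ∑ a', w a * w a' * (dbl w c F (a, a')) ^ 2
        = ∑ a, w a * ∑ a', w a' * (G (a, a') - cE w c (fun b => G (a, b)) a') ^ 2 := by
          refine Finset.sum_congr rfl fun a _ => ?_
          rw [Finset.mul_sum]
          refine Finset.sum_congr rfl fun a' _ => ?_
          rw [hd]
          ring
      _ ≤ ∑ a, w a * ∑ a', w a' * (G (a, a')) ^ 2 := by
          refine Finset.sum_le_sum fun a _ => ?_
          exact mul_le_mul_of_nonneg_left (sub_ce_sq_le w hw c (fun b => G (a, b))) (hw a)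
      _ = ∑ a', w a' * ∑ a, w a * (F (a, a') - cE w c (fun b => F (b, a')) a) ^ 2 := by
          simp_rw [Finset.mul_sum]
          rw [Finset.sum_comm]
          refine Finset.sum_congr rfl fun a' _ => ?_
          refine Finset.sum_congr rfl fun a _ => ?_
          simp only [hG]
          ring
      _ ≤ ∑ a', w a' * ∑ a, w a * (F (a, a')) ^ 2 := by
          refine Finset.sum_le_sum fun a' _ => ?_
          exact mul_le_mul_of_nonneg_left (sub_ce_sq_le w hw c (fun b => F (b, a'))) (hw a')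
      _ = ∑ a, ∑ a', w a * w a' * (F (a, a')) ^ 2 := by
          simp_rw [Finset.mul_sum]
          rw [Finset.sum_comm]
          refine Finset.sum_congr rfl fun a _ => ?_
          refine Finset.sum_congr rfl fun a' _ => ?_
          ring
  exact (sq_le_sq₀ (norm_nonneg _) (norm_nonneg _)).mp hsq

/-- dbl of a product kernel g(a) g(a') is the product of the g - E g -/
theorem dbl_prod (w : Γ → ℝ) (c : Γ → κ) (g g' : Γ → ℝ) (x : Γ × Γ) :
    dbl w c (fun x => g x.1 * g' x.2) x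
      = (g x.1 - cE w c g x.1) * (g' x.2 - cE w c g' x.2) := by
  unfold dbl
  have h1 : ∀ t : ℝ, cE w c (fun a => g a * t) x.1 = t * cE w c g x.1 := by
    intro t
    have : (fun a => g a * t) = fun a => t * g a := by
      funext a
      ring
    rw [this, ce_smul]
  simp only
  rw [h1]
  have h2 : (fun a' => g x.1 * g' a' - cE w c (fun a => g a * g' a') x.1)
      = fun a' => (g x.1 - cE w c g x.1) * g' a' := by
    funext a'
    rw [h1]
    ring
  rw [h2, ce_smul]
  ring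

/-- dbl of a cell measurable product kernel vanishes up to null sets -/
theorem emb_dbl_meas (w : Γ → ℝ) (hw : ∀ a, 0 ≤ w a) (c : Γ → κ) (g : Γ → ℝ)
    (hg : ∀ a b, c a = c b → g a = g b) : emb w (dbl w c (fun x => g x.1 * g x.2)) = 0 := by
  ext x
  have h1 : ∀ a, Real.sqrt (w a) * (g a - cE w c g a) = 0 := by
    intro a
    have h2 := ce_meas w hw c g hg a
    have h3 : w a * (g a - cE w c g a) = 0 := by linarith
    rcases mul_eq_zero.mp h3 with h4 | h4
    · rw [h4, Real.sqrt_zero, zero_mul]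
    · rw [h4, mul_zero]
  have h4 : dbl w c (fun x => g x.1 * g x.2) x
      = (g x.1 - cE w c g x.1) * (g x.2 - cE w c g x.2) := dbl_prod w c g g x
  simp only [emb, PiLp.zero_apply]
  rw [h4]
  calc Real.sqrt (w x.1) * Real.sqrt (w x.2) * ((g x.1 - cE w c g x.1) * (g x.2 - cE w c g x.2))
      = (Real.sqrt (w x.1) * (g x.1 - cE w c g x.1))
        * (Real.sqrt (w x.2) * (g x.2 - cE w c g x.2)) := by ring
    _ = 0 := by rw [h1, zero_mul]

/-- beta as an inner product of kernels: expand the square, exchange sums, dbl_prod, dbl_sum.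
(∑_a w a g'(a) (g - E g)(a))^2 = ∑_{a,a'} w a w a' g'(a) g'(a') (g-Eg)(a) (g-Eg)(a'). -/
theorem beta_eq_inner (w : Γ → ℝ) (hw : ∀ a, 0 ≤ w a) (c : Γ → κ)
    (q' : Y → ℝ) (g' : Y → Γ → ℝ) (q : X → ℝ) (g : X → Γ → ℝ) :
    beta w c q' g' q g = inner ℝ (emb w (ker q' g')) (emb w (dbl w c (ker q g))) := by
  rw [emb_inner w hw, Fintype.sum_prod_type]
  have hd : ∀ x : Γ × Γ, dbl w c (ker q g) x
      = ∑ t, q t * ((g t x.1 - cE w c (g t) x.1) * (g t x.2 - cE w c (g t) x.2)) := by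
    intro x
    have h1 : ker q g = fun x : Γ × Γ => ∑ t ∈ (univ : Finset X), q t * (g t x.1 * g t x.2) := rfl
    rw [h1, dbl_sum]
    refine Finset.sum_congr rfl fun t _ => ?_
    rw [dbl_prod]
  simp_rw [hd]
  unfold beta ker
  -- the right side as a sum over y, t, a, a'
  have hR : ∑ a, ∑ a', w a * w a' * ((∑ y, q' y * (g' y a * g' y a'))
        * ∑ t, q t * ((g t a - cE w c (g t) a) * (g t a' - cE w c (g t) a')))
      = ∑ a, ∑ a', ∑ y, ∑ t, q' y * (q t * ((w a * (g' y a * (g t a - cE w c (g t) a)))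
          * (w a' * (g' y a' * (g t a' - cE w c (g t) a'))))) := by
    refine Finset.sum_congr rfl fun a _ => ?_
    refine Finset.sum_congr rfl fun a' _ => ?_
    rw [Finset.sum_mul_sum, Finset.mul_sum]
    refine Finset.sum_congr rfl fun y _ => ?_
    rw [Finset.mul_sum]
    refine Finset.sum_congr rfl fun t _ => ?_
    ring
  rw [hR]
  have hL : ∀ y, q' y * ∑ x, q x * (∑ a, w a * (g' y a * (g x a - cE w c (g x) a))) ^ 2
      = ∑ a, ∑ a', ∑ t, q' y * (q t * ((w a * (g' y a * (g t a - cE w c (g t) a)))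
          * (w a' * (g' y a' * (g t a' - cE w c (g t) a'))))) := by
    intro y
    rw [Finset.mul_sum]
    have h2 : ∀ t, q' y * (q t * (∑ a, w a * (g' y a * (g t a - cE w c (g t) a))) ^ 2)
        = ∑ a, ∑ a', q' y * (q t * ((w a * (g' y a * (g t a - cE w c (g t) a)))
          * (w a' * (g' y a' * (g t a' - cE w c (g t) a'))))) := by
      intro t
      rw [sq, Finset.sum_mul_sum, Finset.mul_sum, Finset.mul_sum]
      refine Finset.sum_congr rfl fun a _ => ?_
      rw [Finset.mul_sum, Finset.mul_sum]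
    simp_rw [h2]
    rw [Finset.sum_comm]
    refine Finset.sum_congr rfl fun a _ => ?_
    rw [Finset.sum_comm]
  simp_rw [hL]
  rw [Finset.sum_comm]
  refine Finset.sum_congr rfl fun a _ => ?_
  rw [Finset.sum_comm]

theorem beta_nonneg (w : Γ → ℝ) (c : Γ → κ)
    (q' : Y → ℝ) (hq' : ∀ y, 0 ≤ q' y) (g' : Y → Γ → ℝ) (q : X → ℝ) (hq : ∀ x, 0 ≤ q x)
    (g : X → Γ → ℝ) : 0 ≤ beta w c q' g' q g := by
  unfold beta
  refine Finset.sum_nonneg fun y _ => mul_nonneg (hq' y) ?_
  exact Finset.sum_nonneg fun x _ => mul_nonneg (hq x) (sq_nonneg _)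

/-- kernels of tests with values in [0,1] have norm at most 1 -/
theorem ker_norm_le_one (w : Γ → ℝ) (hw : IsProb w) (q : X → ℝ) (hq : IsProb q) (g : X → Γ → ℝ)
    (hg : ∀ x a, 0 ≤ g x a ∧ g x a ≤ 1) : ‖emb w (ker q g)‖ ≤ 1 := by
  refine emb_norm_le_one w hw _ fun x => ?_
  unfold ker
  rw [abs_le]
  have h0 : 0 ≤ ∑ t, q t * (g t x.1 * g t x.2) :=
    Finset.sum_nonneg fun t _ => mul_nonneg (hq.1 t) (mul_nonneg (hg t _).1 (hg t _).1)
  constructor
  · linarith
  · calc ∑ t, q t * (g t x.1 * g t x.2) ≤ ∑ t, q t := by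
          refine Finset.sum_le_sum fun t _ => ?_
          have h1 : g t x.1 * g t x.2 ≤ 1 :=
            mul_le_one₀ (hg t _).2 (hg t _).1 (hg t _).2
          calc q t * (g t x.1 * g t x.2) ≤ q t * 1 := mul_le_mul_of_nonneg_left h1 (hq.1 t)
            _ = q t := mul_one _
      _ = 1 := hq.2

end

end Pool.UT
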