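/-
UT PairCol: existence of the colouring of the colour set of one pair.

PROOF. Let R v = emb w (ker (q v) (g v)) ∈ H = EuclideanSpace ℝ (Γ×Γ), ‖R v‖ ≤ 1.
For t : Fin 3 consider the family over (v,x) ∈ Res t × X with weights (1/|Res t|) q v x of the
vectors emb w ((a,a') ↦ g v x a g v x a') (norm ≤ 1); its mean is M t = (1/|Res t|) ∑_{v∈Res t} R v.
`maurey` gives s_1..s_r = (v_s, x_s) with ‖M t - (1/r) ∑_s emb w (g⊗g)_s‖ ≤ √(1/r).
Let c a = (t, s) ↦ decide (g v_{t,s} x_{t,s} a = 1); since the tests are 0/1 valued each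
g v_{t,s} x_{t,s} is c-measurable, so dbl of (1/r)∑ g⊗g embeds to 0 (emb_dbl_meas).
Let B ⊆ P t with |B| ≥ m.  By gram_avg, ‖M_B - M t‖ ≤ √(4/m+4e), M_B = (1/|B|) ∑_{v∈B} R v
(the hypothesis hG is |<R v, R v'> - ρ t| ≤ e by emb_inner).  dbl is a linear contraction, hence
‖(1/|B|) ∑_{v∈B} emb w (dbl (ker v))‖ = ‖emb (dbl (ker_B - (1/r)∑ g⊗g))‖
 ≤ ‖M_B - (1/r) ∑ emb g⊗g‖ ≤ √(4/m+4e) + √(1/r).
Finally ∑_{v∈B} beta = |B| <emb w (ker q' g'), (1/|B|)∑ emb w (dbl ker v)> ≤ |B| * that, by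
beta_eq_inner, Cauchy-Schwarz and ker_norm_le_one.
-/
import Pool.Agent.H95.UT.Kern
import Pool.Agent.H95.UT.Hilb

set_option autoImplicit false

namespace Pool.UT

open Finset

theorem pairCol_emb_sub {Γ : Type} [Fintype Γ] (w : Γ → ℝ) (F G : Γ × Γ → ℝ) :
    emb w (fun x => F x - G x) = emb w F - emb w G := by
  unfold emb
  ext x
  simp
  ring

theorem pairCol_ker {Γ X : Type} [Fintype Γ] [Fintype X] (w : Γ → ℝ) (q : X → ℝ)
    (g : X → Γ → ℝ) :
    emb w (ker q g) = ∑ x, q x • emb w (fun z => g x z.1 * g x z.2) :=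
  emb_sum univ w q (fun x z => g x z.1 * g x z.2)

theorem pairCol_maurey {Γ X : Type} [Fintype Γ] [Fintype X] (w : Γ → ℝ) (hw : IsProb w)
    (q : ℕ → X → ℝ) (g : ℕ → X → Γ → ℝ) (S : Finset ℕ) (hS : 0 < S.card)
    (hq : ∀ v ∈ S, IsProb (q v)) (hg : ∀ v x a, g v x a = 0 ∨ g v x a = 1)
    (r : ℕ) (hr : 0 < r) :
    ∃ s : Fin r → ℕ × X,
      ‖(1 / (S.card : ℝ)) • ∑ v ∈ S, emb w (ker (q v) (g v)) - (1 / (r : ℝ)) •
        ∑ i, emb w (fun z => g (s i).1 (s i).2 z.1 * g (s i).1 (s i).2 z.2)‖ ^ 2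
        ≤ 1 / (r : ℝ) := by
  have hS' : (0 : ℝ) < S.card := Nat.cast_pos.2 hS
  have hsum : ∀ {H : Type} [AddCommGroup H] [Module ℝ H] (y : ℕ → X → H),
      ∑ p : {v // v ∈ S} × X, ((1 / (S.card : ℝ)) * q p.1.1 p.2) • y p.1.1 p.2
        = (1 / (S.card : ℝ)) • ∑ v ∈ S, ∑ x, q v x • y v x := by
    intro H _ _ y
    rw [Fintype.sum_prod_type]
    simp_rw [mul_smul, ← Finset.smul_sum]
    congr 1
    exact Finset.sum_coe_sort S (fun v => ∑ x, q v x • y v x)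
  obtain ⟨s, hs⟩ := maurey (X := {v // v ∈ S} × X)
    (fun p => (1 / (S.card : ℝ)) * q p.1.1 p.2) (by
      refine ⟨fun p => mul_nonneg (by positivity) ((hq p.1.1 p.1.2).1 p.2), ?_⟩
      have h1 := hsum (H := ℝ) (fun _ _ => (1 : ℝ))
      simp only [smul_eq_mul, mul_one] at h1
      rw [h1, Finset.sum_congr rfl (fun v hv => (hq v hv).2)]
      simp only [Finset.sum_const, nsmul_eq_mul, mul_one]
      rw [one_div, inv_mul_cancel₀ hS'.ne'])
    (fun p => emb w (fun z => g p.1.1 p.2 z.1 * g p.1.1 p.2 z.2)) (by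
      intro p
      refine emb_norm_le_one w hw _ fun z => ?_
      rcases hg p.1.1 p.2 z.1 with h1 | h1 <;> rcases hg p.1.1 p.2 z.2 with h2 | h2 <;>
        simp [h1, h2]) r hr
  refine ⟨fun i => ((s i).1.1, (s i).2), ?_⟩
  have h2 := hsum (fun v x => emb w (fun z => g v x z.1 * g v x z.2))
  have h3 : ∑ v ∈ S, ∑ x, q v x • emb w (fun z => g v x z.1 * g v x z.2)
      = ∑ v ∈ S, emb w (ker (q v) (g v)) :=
    Finset.sum_congr rfl fun v _ => (pairCol_ker w (q v) (g v)).symm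
  rw [h3] at h2
  rw [h2] at hs
  exact hs

theorem exists_coloring {Γ X : Type} [Fintype Γ] [Fintype X] (w : Γ → ℝ) (hw : IsProb w)
    (q : ℕ → X → ℝ) (g : ℕ → X → Γ → ℝ)
    (P Res : Fin 3 → Finset ℕ) (hq : ∀ t, ∀ v ∈ P t, IsProb (q v))
    (hg : ∀ v x a, g v x a = 0 ∨ g v x a = 1)
    (hRes : ∀ t, Res t ⊆ P t) (m : ℕ) (hm : 0 < m) (hcard : ∀ t, m ≤ (Res t).card)
    (ρ : Fin 3 → ℝ) (hρ : ∀ t, 0 ≤ ρ t) (e : ℝ) (he : 0 ≤ e)
    (hG : ∀ t, ∀ v ∈ P t, ∀ v' ∈ P t, v ≠ v' →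
      |(∑ x : Γ × Γ, w x.1 * w x.2 * (ker (q v) (g v) x * ker (q v') (g v') x)) - ρ t| ≤ e)
    (r : ℕ) (hr : 0 < r) :
    ∃ c : Γ → (Fin 3 → Fin r → Bool), ∀ t, ∀ B : Finset ℕ, B ⊆ P t → m ≤ B.card →
      ∀ (q' : X → ℝ) (g' : X → Γ → ℝ), IsProb q' → (∀ x a, 0 ≤ g' x a ∧ g' x a ≤ 1) →
        ∑ v ∈ B, beta w c q' g' (q v) (g v)
          ≤ (B.card : ℝ) * (Real.sqrt (4 / (m : ℝ) + 4 * e) + Real.sqrt (1 / (r : ℝ))) := by
  classical
  have hg01 : ∀ v x a, 0 ≤ g v x a ∧ g v x a ≤ 1 := by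
    intro v x a
    rcases hg v x a with h | h <;> rw [h] <;> constructor <;> norm_num
  have hm' : (0 : ℝ) < m := Nat.cast_pos.2 hm
  have hr' : (0 : ℝ) < r := Nat.cast_pos.2 hr
  have hex : ∀ t : Fin 3, ∃ s : Fin r → ℕ × X,
      ‖(1 / ((Res t).card : ℝ)) • ∑ v ∈ Res t, emb w (ker (q v) (g v)) - (1 / (r : ℝ)) •
        ∑ i, emb w (fun z => g (s i).1 (s i).2 z.1 * g (s i).1 (s i).2 z.2)‖ ^ 2
        ≤ 1 / (r : ℝ) := fun t =>
    pairCol_maurey w hw q g (Res t) (lt_of_lt_of_le hm (hcard t))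
      (fun v hv => hq t v (hRes t hv)) hg r hr
  choose s hs using hex
  refine ⟨fun a t i => decide (g (s t i).1 (s t i).2 a = 1), ?_⟩
  set c : Γ → (Fin 3 → Fin r → Bool) := fun a t i => decide (g (s t i).1 (s t i).2 a = 1) with hc
  have hmeas : ∀ t i a b, c a = c b → g (s t i).1 (s t i).2 a = g (s t i).1 (s t i).2 b := by
    intro t i a b hab
    have h1 : decide (g (s t i).1 (s t i).2 a = 1) = decide (g (s t i).1 (s t i).2 b = 1) :=
      congrFun (congrFun hab t) i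
    rw [decide_eq_decide] at h1
    rcases hg (s t i).1 (s t i).2 a with h2 | h2
    · rcases hg (s t i).1 (s t i).2 b with h3 | h3
      · rw [h2, h3]
      · rw [h1.2 h3, h3]
    · rw [h2, h1.1 h2]
  intro t B hB hBm q' g' hq' hg'
  have hBc : (0 : ℝ) < B.card := Nat.cast_pos.2 (lt_of_lt_of_le hm hBm)
  -- the averages
  have hgram : ‖(1 / (B.card : ℝ)) • ∑ v ∈ B, emb w (ker (q v) (g v)) -
      (1 / ((Res t).card : ℝ)) • ∑ v ∈ Res t, emb w (ker (q v) (g v))‖ ^ 2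
      ≤ 4 / (m : ℝ) + 4 * e := by
    have h1 := gram_avg (fun v => if v ∈ P t then emb w (ker (q v) (g v)) else 0)
      (by
        intro v
        by_cases hv : v ∈ P t
        · simp only [if_pos hv]
          exact ker_norm_le_one w hw (q v) (hq t v hv) (g v) (hg01 v)
        · simp only [if_neg hv, norm_zero]
          exact zero_le_one)
      (P t) (ρ t) e (hρ t) he
      (by
        intro v hv v' hv' hne
        simp only [if_pos hv, if_pos hv']
        rw [emb_inner w hw.1]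
        exact hG t v hv v' hv' hne)
      m hm B (Res t) hB (hRes t) hBm (hcard t)
    have h2 : ∑ v ∈ B, (if v ∈ P t then emb w (ker (q v) (g v)) else 0)
        = ∑ v ∈ B, emb w (ker (q v) (g v)) :=
      Finset.sum_congr rfl fun v hv => if_pos (hB hv)
    have h3 : ∑ v ∈ Res t, (if v ∈ P t then emb w (ker (q v) (g v)) else 0)
        = ∑ v ∈ Res t, emb w (ker (q v) (g v)) :=
      Finset.sum_congr rfl fun v hv => if_pos (hRes t hv)
    simp only [h2, h3] at h1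
    exact h1
  -- the kernels
  set KB : Γ × Γ → ℝ := fun x => ∑ v ∈ B, (1 / (B.card : ℝ)) * ker (q v) (g v) x with hKB
  set G : Γ × Γ → ℝ := fun x => ∑ i : Fin r, (1 / (r : ℝ)) *
    (fun z : Γ × Γ => g (s t i).1 (s t i).2 z.1 * g (s t i).1 (s t i).2 z.2) x with hGdef
  have hembKB : emb w KB = (1 / (B.card : ℝ)) • ∑ v ∈ B, emb w (ker (q v) (g v)) := by
    rw [hKB, emb_sum, Finset.smul_sum]
  have hembG : emb w G = (1 / (r : ℝ)) •
      ∑ i, emb w (fun z => g (s t i).1 (s t i).2 z.1 * g (s t i).1 (s t i).2 z.2) := by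
    rw [hGdef, emb_sum, Finset.smul_sum]
  have hdblG : emb w (dbl w c G) = 0 := by
    have h1 : dbl w c G = fun x => ∑ i : Fin r, (1 / (r : ℝ)) *
        dbl w c (fun z : Γ × Γ => g (s t i).1 (s t i).2 z.1 * g (s t i).1 (s t i).2 z.2) x := by
      funext x
      exact dbl_sum univ w c _ _ x
    rw [h1, emb_sum]
    refine Finset.sum_eq_zero fun i _ => ?_
    rw [emb_dbl_meas w hw.1 c _ (hmeas t i), smul_zero]
  have hdblKB : emb w (dbl w c KB) = (1 / (B.card : ℝ)) •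
      ∑ v ∈ B, emb w (dbl w c (ker (q v) (g v))) := by
    have h1 : dbl w c KB = fun x => ∑ v ∈ B, (1 / (B.card : ℝ)) *
        dbl w c (ker (q v) (g v)) x := by
      funext x
      exact dbl_sum B w c _ _ x
    rw [h1, emb_sum, Finset.smul_sum]
  have hdiff : emb w (dbl w c (fun x => KB x - G x)) = emb w (dbl w c KB) := by
    have h1 : dbl w c (fun x => KB x - G x) = fun x => dbl w c KB x - dbl w c G x := by
      funext x
      exact dbl_sub w c KB G x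
    rw [h1, pairCol_emb_sub, hdblG, sub_zero]
  have hnorm : ‖emb w (dbl w c KB)‖ ≤
      Real.sqrt (4 / (m : ℝ) + 4 * e) + Real.sqrt (1 / (r : ℝ)) := by
    rw [← hdiff]
    refine (dbl_norm_le w hw.1 c _).trans ?_
    rw [pairCol_emb_sub, hembKB, hembG]
    have h1 := Real.le_sqrt_of_sq_le hgram
    have h2 := Real.le_sqrt_of_sq_le (hs t)
    refine le_trans ?_ (add_le_add h1 h2)
    refine le_trans (le_of_eq ?_) (norm_add_le _ _)
    congr 1
    abel
  have hsum : ∑ v ∈ B, beta w c q' g' (q v) (g v) =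
      (B.card : ℝ) * inner ℝ (emb w (ker q' g')) (emb w (dbl w c KB)) := by
    rw [hdblKB, inner_smul_right, inner_sum, ← mul_assoc, mul_one_div, div_self hBc.ne', one_mul]
    exact Finset.sum_congr rfl fun v _ => beta_eq_inner w hw.1 c q' g' (q v) (g v)
  rw [hsum]
  refine mul_le_mul_of_nonneg_left ?_ hBc.le
  refine (real_inner_le_norm _ _).trans ?_
  have hk := ker_norm_le_one w hw q' hq' g' hg'
  calc ‖emb w (ker q' g')‖ * ‖emb w (dbl w c KB)‖ ≤ 1 * ‖emb w (dbl w c KB)‖ :=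
        mul_le_mul_of_nonneg_right hk (norm_nonneg _)
    _ = ‖emb w (dbl w c KB)‖ := one_mul _
    _ ≤ _ := hnorm

end Pool.UT
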