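/-
UT Supersat: supersaturation of the palette bound.

PROOF. Let T a b c = (δ/2 ≤ w a b c), 1_T its indicator.  D3gen 1_T ≥ D3gen w - δ/2 ≥ c + δ/2
(w ≤ 1_T + δ/2) and K4gen w ≥ (δ/2)^4 K4gen 1_T (w ≥ (δ/2) 1_T).
Take k ≥ 12/δ.
For x : Fin k → κ let T_x(i,j,l) = (i,j,l distinct and T(x i, x j, x l)).  Its number of triples
averages (d3_of_positions) to N D3gen 1_T ≥ (c+δ/4) k^3, N ≥ k^3 - 3 k^2.  If T_x is K4-free it has
at most c k^3 triples (PL), and always at most k^3; so the total weight p of the x for which T_x is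
not K4-free satisfies (c + δ/4) k^3 ≤ c k^3 + p k^3 (c ≥ 0), i.e. p ≥ δ/4.
If T_x is not K4-free, there are positions a,…,f with the four faces in T_x, all four faces
consist of distinct positions; hence p ≤ ∑ over admissible (a,…,f) of the left side of
k4_of_positions for 1_T ≤ k^6 * max K4id.
-/
import Pool.Agent.H95.UT.Super2

set_option autoImplicit false

namespace Pool.UT

open Finset

theorem ss_PL_nonneg {c : ℝ} (h : PL c) : 0 ≤ c := by
  have h1 := h 1 (fun _ _ _ => False) (by rintro ⟨a, b, c, d, e, f, h, _⟩; exact h)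
  have h2 : (0 : ℝ) ≤ (palCount 1 (fun _ _ _ => False) : ℝ) := Nat.cast_nonneg _
  have h3 := h2.trans h1
  norm_num at h3
  exact h3

open Classical in
/-- indicator of `ε ≤ w` -/
noncomputable def ssInd {κ : Type} (ε : ℝ) (w : κ → κ → κ → ℝ) (a b c : κ) : ℝ :=
  if ε ≤ w a b c then 1 else 0

theorem ssInd_mem {κ : Type} (ε : ℝ) (w : κ → κ → κ → ℝ) (a b c : κ) :
    0 ≤ ssInd ε w a b c ∧ ssInd ε w a b c ≤ 1 := by
  unfold ssInd
  split_ifs <;> norm_num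

theorem ss_D3gen_le_add {κ : Type} [Fintype κ] (ν : κ → ℝ) (hν : IsProb ν)
    (A B : κ → κ → κ → ℝ) (ε : ℝ) (h : ∀ a b c, A a b c ≤ B a b c + ε) :
    D3gen ν ν ν A ≤ D3gen ν ν ν B + ε := by
  have h1 : D3gen ν ν ν A ≤ ∑ a, ∑ b, ∑ c, ν a * ν b * ν c * (B a b c + ε) := by
    unfold D3gen
    refine Finset.sum_le_sum fun a _ => Finset.sum_le_sum fun b _ => Finset.sum_le_sum fun c _ => ?_
    exact mul_le_mul_of_nonneg_left (h a b c)
      (mul_nonneg (mul_nonneg (hν.1 a) (hν.1 b)) (hν.1 c))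
  have h2 : ∑ a, ∑ b, ∑ c, ν a * ν b * ν c * (B a b c + ε) = D3gen ν ν ν B + ε := by
    unfold D3gen
    have h3 : ∀ a b : κ, ∑ c, ν a * ν b * ν c * (B a b c + ε)
        = ∑ c, ν a * ν b * ν c * B a b c + ν a * ν b * ε := by
      intro a b
      simp_rw [mul_add]
      rw [Finset.sum_add_distrib, ← Finset.sum_mul, ← Finset.mul_sum, hν.2, mul_one]
    simp_rw [h3]
    have h4 : ∀ a : κ, ∑ b, (∑ c, ν a * ν b * ν c * B a b c + ν a * ν b * ε)
        = ∑ b, ∑ c, ν a * ν b * ν c * B a b c + ν a * ε := by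
      intro a
      rw [Finset.sum_add_distrib, ← Finset.sum_mul, ← Finset.mul_sum, hν.2, mul_one]
    simp_rw [h4]
    rw [Finset.sum_add_distrib, ← Finset.sum_mul, hν.2, one_mul]
  linarith

theorem ss_K4gen_ge {κ : Type} [Fintype κ] (ν : κ → ℝ) (hν : IsProb ν)
    (A B : κ → κ → κ → ℝ) (ε : ℝ) (hε : 0 ≤ ε) (hB : ∀ a b c, 0 ≤ B a b c)
    (h : ∀ a b c, ε * B a b c ≤ A a b c) :
    ε ^ 4 * K4gen ν ν ν ν ν ν B B B B ≤ K4gen ν ν ν ν ν ν A A A A := by
  unfold K4gen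
  simp_rw [Finset.mul_sum]
  refine Finset.sum_le_sum fun a12 _ => Finset.sum_le_sum fun a13 _ =>
    Finset.sum_le_sum fun a14 _ => Finset.sum_le_sum fun a23 _ => Finset.sum_le_sum fun a24 _ =>
    Finset.sum_le_sum fun a34 _ => ?_
  have hn : ∀ a b c, 0 ≤ ε * B a b c := fun a b c => mul_nonneg hε (hB a b c)
  have h1 : ε ^ 4 * (ν a12 * ν a13 * ν a14 * ν a23 * ν a24 * ν a34 *
      (B a12 a13 a23 * B a12 a14 a24 * B a13 a14 a34 * B a23 a24 a34))
      = ν a12 * ν a13 * ν a14 * ν a23 * ν a24 * ν a34 *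
      ((ε * B a12 a13 a23) * (ε * B a12 a14 a24) * (ε * B a13 a14 a34) * (ε * B a23 a24 a34)) := by
    ring
  rw [h1]
  refine mul_le_mul_of_nonneg_left ?_ ?_
  · have e1 := h a12 a13 a23
    have e2 := h a12 a14 a24
    have e3 := h a13 a14 a34
    have e4 := h a23 a24 a34
    have n1 := hn a12 a13 a23
    have n2 := hn a12 a14 a24
    have n3 := hn a13 a14 a34
    have n4 := hn a23 a24 a34
    have m1 : (ε * B a12 a13 a23) * (ε * B a12 a14 a24) ≤ A a12 a13 a23 * A a12 a14 a24 :=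
      mul_le_mul e1 e2 n2 (n1.trans e1)
    have m2 : (ε * B a12 a13 a23) * (ε * B a12 a14 a24) * (ε * B a13 a14 a34)
        ≤ A a12 a13 a23 * A a12 a14 a24 * A a13 a14 a34 :=
      mul_le_mul m1 e3 n3 (mul_nonneg (n1.trans e1) (n2.trans e2))
    exact mul_le_mul m2 e4 n4
      (mul_nonneg (mul_nonneg (n1.trans e1) (n2.trans e2)) (n3.trans e3))
  · have q := hν.1
    exact mul_nonneg (mul_nonneg (mul_nonneg (mul_nonneg (mul_nonneg (q _) (q _)) (q _)) (q _))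
      (q _)) (q _)

theorem ss_sum_prod {κ : Type} [Fintype κ] (ν : κ → ℝ) (hν : IsProb ν) (k : ℕ) :
    ∑ x : Fin k → κ, ∏ i, ν (x i) = 1 := by
  have h := Finset.prod_univ_sum (fun _ : Fin k => (Finset.univ : Finset κ)) (fun _ j => ν j)
  rw [Fintype.piFinset_univ] at h
  rw [← h, hν.2, Finset.prod_const_one]

theorem ss_card_dist (k : ℕ) :
    (k : ℝ) ^ 3 - 3 * (k : ℝ) ^ 2 ≤
      (((univ : Finset (Fin k × Fin k × Fin k)).filter
        (fun p => p.1 ≠ p.2.1 ∧ p.1 ≠ p.2.2 ∧ p.2.1 ≠ p.2.2)).card : ℝ) := by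
  have h0 := Finset.card_filter_add_card_filter_not (s := (univ : Finset (Fin k × Fin k × Fin k)))
    (fun p => p.1 ≠ p.2.1 ∧ p.1 ≠ p.2.2 ∧ p.2.1 ≠ p.2.2)
  have h1 : ((univ : Finset (Fin k × Fin k × Fin k)).filter
      (fun p => ¬ (p.1 ≠ p.2.1 ∧ p.1 ≠ p.2.2 ∧ p.2.1 ≠ p.2.2)))
      ⊆ (univ.image (fun q : Fin k × Fin k => (q.1, q.1, q.2)))
        ∪ ((univ.image (fun q : Fin k × Fin k => (q.1, q.2, q.1)))
        ∪ (univ.image (fun q : Fin k × Fin k => (q.1, q.2, q.2)))) := by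
    rintro ⟨a, b, c⟩ hp
    rw [Finset.mem_filter] at hp
    have hp2 := hp.2
    simp only [ne_eq] at hp2
    simp only [Finset.mem_union, Finset.mem_image, Finset.mem_univ, true_and, Prod.exists,
      Prod.mk.injEq]
    by_cases hab : a = b
    · left
      exact ⟨a, c, rfl, hab, rfl⟩
    · by_cases hac : a = c
      · right; left
        exact ⟨a, b, rfl, rfl, hac⟩
      · by_cases hbc : b = c
        · right; right
          exact ⟨a, b, rfl, rfl, hbc⟩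
        · exact absurd ⟨hab, hac, hbc⟩ hp2
  have hc : ∀ f : Fin k × Fin k → Fin k × Fin k × Fin k, (univ.image f).card ≤ k ^ 2 := by
    intro f
    refine Finset.card_image_le.trans ?_
    rw [Finset.card_univ, Fintype.card_prod, Fintype.card_fin]
    exact le_of_eq (by ring)
  have h2 := Finset.card_le_card h1
  have h3 : ((univ.image (fun q : Fin k × Fin k => (q.1, q.1, q.2)))
        ∪ ((univ.image (fun q : Fin k × Fin k => (q.1, q.2, q.1)))
        ∪ (univ.image (fun q : Fin k × Fin k => (q.1, q.2, q.2))))).card ≤ 3 * k ^ 2 := by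
    refine (Finset.card_union_le _ _).trans ?_
    have e1 := hc (fun q : Fin k × Fin k => (q.1, q.1, q.2))
    have e2 := Finset.card_union_le (univ.image (fun q : Fin k × Fin k => (q.1, q.2, q.1)))
      (univ.image (fun q : Fin k × Fin k => (q.1, q.2, q.2)))
    have e3 := hc (fun q : Fin k × Fin k => (q.1, q.2, q.1))
    have e4 := hc (fun q : Fin k × Fin k => (q.1, q.2, q.2))
    omega
  have h4 : (univ : Finset (Fin k × Fin k × Fin k)).card = k ^ 3 := by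
    rw [Finset.card_univ, Fintype.card_prod, Fintype.card_prod, Fintype.card_fin]
    ring
  rw [h4] at h0
  have h5 := h2.trans h3
  have h6 : (k : ℝ) ^ 3 = (((univ : Finset (Fin k × Fin k × Fin k)).filter
        (fun p => p.1 ≠ p.2.1 ∧ p.1 ≠ p.2.2 ∧ p.2.1 ≠ p.2.2)).card : ℝ)
      + (((univ : Finset (Fin k × Fin k × Fin k)).filter
      (fun p => ¬ (p.1 ≠ p.2.1 ∧ p.1 ≠ p.2.2 ∧ p.2.1 ≠ p.2.2))).card : ℝ) := by
    exact_mod_cast h0.symm
  have h7 : (((univ : Finset (Fin k × Fin k × Fin k)).filter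
      (fun p => ¬ (p.1 ≠ p.2.1 ∧ p.1 ≠ p.2.2 ∧ p.2.1 ≠ p.2.2))).card : ℝ)
      ≤ 3 * (k : ℝ) ^ 2 := by exact_mod_cast h5
  linarith

/-- the sampled palette -/
def ssPal {κ : Type} (ε : ℝ) (w : κ → κ → κ → ℝ) (k : ℕ) (x : Fin k → κ) (i j l : Fin k) : Prop :=
  (i ≠ j ∧ i ≠ l ∧ j ≠ l) ∧ ε ≤ w (x i) (x j) (x l)

theorem ss_palCount_eq {κ : Type} (ε : ℝ) (w : κ → κ → κ → ℝ) (k : ℕ)
    (x : Fin k → κ) :
    (palCount k (ssPal ε w k x) : ℝ)
      = ∑ p ∈ (univ : Finset (Fin k × Fin k × Fin k)).filter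
        (fun p => p.1 ≠ p.2.1 ∧ p.1 ≠ p.2.2 ∧ p.2.1 ≠ p.2.2),
          ssInd ε w (x p.1) (x p.2.1) (x p.2.2) := by
  classical
  unfold palCount ssPal
  rw [Finset.card_filter, Nat.cast_sum, Finset.sum_filter]
  refine Finset.sum_congr rfl fun p _ => ?_
  unfold ssInd
  by_cases h1 : p.1 ≠ p.2.1 ∧ p.1 ≠ p.2.2 ∧ p.2.1 ≠ p.2.2
  · by_cases h2 : ε ≤ w (x p.1) (x p.2.1) (x p.2.2)
    · rw [if_pos h1, if_pos h2, if_pos ⟨h1, h2⟩, Nat.cast_one]
    · rw [if_pos h1, if_neg h2, if_neg (fun h => h2 h.2), Nat.cast_zero]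
  · rw [if_neg h1, if_neg (fun h => h1 h.1), Nat.cast_zero]

theorem ss_palCount_le (k : ℕ) (T : Fin k → Fin k → Fin k → Prop) :
    (palCount k T : ℝ) ≤ (k : ℝ) ^ 3 := by
  classical
  unfold palCount
  have h := Finset.card_filter_le (univ : Finset (Fin k × Fin k × Fin k))
    (fun p => T p.1 p.2.1 p.2.2)
  have h4 : (univ : Finset (Fin k × Fin k × Fin k)).card = k ^ 3 := by
    rw [Finset.card_univ, Fintype.card_prod, Fintype.card_prod, Fintype.card_fin]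
    ring
  rw [h4] at h
  exact_mod_cast h

/-- admissible sextuples of positions -/
def ssAdm {k : ℕ} (p : Fin 6 → Fin k) : Prop :=
  (p 0 ≠ p 1 ∧ p 0 ≠ p 2 ∧ p 1 ≠ p 2) ∧ (p 0 ≠ p 3 ∧ p 0 ≠ p 4 ∧ p 3 ≠ p 4) ∧
  (p 1 ≠ p 3 ∧ p 1 ≠ p 5 ∧ p 3 ≠ p 5) ∧ (p 2 ≠ p 4 ∧ p 2 ≠ p 5 ∧ p 4 ≠ p 5)

/-- the product of the four faces of the indicator -/
noncomputable def ssF {κ : Type} (ε : ℝ) (w : κ → κ → κ → ℝ) {k : ℕ} (x : Fin k → κ)
    (p : Fin 6 → Fin k) : ℝ :=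
  ssInd ε w (x (p 0)) (x (p 1)) (x (p 2)) * ssInd ε w (x (p 0)) (x (p 3)) (x (p 4)) *
    ssInd ε w (x (p 1)) (x (p 3)) (x (p 5)) * ssInd ε w (x (p 2)) (x (p 4)) (x (p 5))

theorem ssF_nonneg {κ : Type} (ε : ℝ) (w : κ → κ → κ → ℝ) {k : ℕ} (x : Fin k → κ)
    (p : Fin 6 → Fin k) : 0 ≤ ssF ε w x p := by
  unfold ssF
  have h := fun a b c => (ssInd_mem ε w a b c).1
  exact mul_nonneg (mul_nonneg (mul_nonneg (h _ _ _) (h _ _ _)) (h _ _ _)) (h _ _ _)

open Classical in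
theorem ss_notFree_le {κ : Type} (ε : ℝ) (w : κ → κ → κ → ℝ) (k : ℕ) (x : Fin k → κ)
    (h : ¬ K4FreePal (ssPal ε w k x)) :
    (1 : ℝ) ≤ ∑ p ∈ (univ : Finset (Fin 6 → Fin k)).filter ssAdm, ssF ε w x p := by
  unfold K4FreePal at h
  rw [not_not] at h
  obtain ⟨a, b, c, d, e, f, h1, h2, h3, h4⟩ := h
  have hp : (![a, b, c, d, e, f] : Fin 6 → Fin k) ∈ (univ : Finset (Fin 6 → Fin k)).filter ssAdm := by
    rw [Finset.mem_filter]
    exact ⟨Finset.mem_univ _, h1.1, h2.1, h3.1, h4.1⟩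
  refine le_trans ?_ (Finset.single_le_sum (f := fun p => ssF ε w x p)
    (fun p _ => ssF_nonneg ε w x p) hp)
  have e1 : ssInd ε w (x a) (x b) (x c) = 1 := if_pos h1.2
  have e2 : ssInd ε w (x a) (x d) (x e) = 1 := if_pos h2.2
  have e3 : ssInd ε w (x b) (x d) (x f) = 1 := if_pos h3.2
  have e4 : ssInd ε w (x c) (x e) (x f) = 1 := if_pos h4.2
  have e5 : ssF ε w x ![a, b, c, d, e, f] =
      ssInd ε w (x a) (x b) (x c) * ssInd ε w (x a) (x d) (x e) *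
        ssInd ε w (x b) (x d) (x f) * ssInd ε w (x c) (x e) (x f) := rfl
  show (1 : ℝ) ≤ ssF ε w x ![a, b, c, d, e, f]
  rw [e5, e1, e2, e3, e4]
  norm_num

/-- core step: the indicator palette has many tetrahedra -/
theorem ss_core {κ : Type} [Fintype κ] (ν : κ → ℝ) (hν : IsProb ν) (w : κ → κ → κ → ℝ)
    (c : ℝ) (hPL : PL c) (hc : 0 ≤ c) (δ : ℝ) (hδ : 0 < δ) (hc1 : c + δ / 2 ≤ 1) (k : ℕ)
    (hk : 12 ≤ k * δ) (hD : c + δ / 2 ≤ D3gen ν ν ν (ssInd (δ / 2) w)) :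
    (δ / (8 * (k : ℝ) ^ 6)) ^ 8 ≤ K4gen ν ν ν ν ν ν (ssInd (δ / 2) w) (ssInd (δ / 2) w)
      (ssInd (δ / 2) w) (ssInd (δ / 2) w) := by
  classical
  have hk0 : (0 : ℝ) < k := by
    rcases Nat.eq_zero_or_pos k with h | h
    · subst h
      norm_num at hk
    · exact_mod_cast h
  set t := ssInd (δ / 2) w with ht
  have ht01 : ∀ a b c, 0 ≤ t a b c ∧ t a b c ≤ 1 := ssInd_mem (δ / 2) w
  set P : (Fin k → κ) → ℝ := fun x => ∏ i, ν (x i) with hP
  have hP0 : ∀ x, 0 ≤ P x := fun x => Finset.prod_nonneg fun i _ => hν.1 _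
  have hP1 : ∑ x, P x = 1 := ss_sum_prod ν hν k
  by_contra hcon
  push Not at hcon
  -- average of palCount
  set Dst := (univ : Finset (Fin k × Fin k × Fin k)).filter
        (fun p => p.1 ≠ p.2.1 ∧ p.1 ≠ p.2.2 ∧ p.2.1 ≠ p.2.2) with hDst
  have hav : ∑ x, P x * (palCount k (ssPal (δ / 2) w k x) : ℝ) = (Dst.card : ℝ) * D3gen ν ν ν t := by
    have e1 : ∀ x, P x * (palCount k (ssPal (δ / 2) w k x) : ℝ)
        = ∑ p ∈ Dst, P x * t (x p.1) (x p.2.1) (x p.2.2) := by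
      intro x
      rw [ss_palCount_eq, Finset.mul_sum]
    rw [Finset.sum_congr rfl fun x _ => e1 x, Finset.sum_comm]
    have e2 : ∀ p ∈ Dst, ∑ x, P x * t (x p.1) (x p.2.1) (x p.2.2) = D3gen ν ν ν t := by
      intro p hp
      rw [hDst, Finset.mem_filter] at hp
      exact d3_of_positions ν hν t k p.1 p.2.1 p.2.2 hp.2.1 hp.2.2.1 hp.2.2.2
    rw [Finset.sum_congr rfl e2, Finset.sum_const, nsmul_eq_mul]
  have hlow : (c + δ / 4) * (k : ℝ) ^ 3 ≤ (Dst.card : ℝ) * D3gen ν ν ν t := by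
    have e1 := ss_card_dist k
    rw [← hDst] at e1
    have e2 : (0 : ℝ) ≤ Dst.card := Nat.cast_nonneg _
    have e3 : (Dst.card : ℝ) * (c + δ / 2) ≤ (Dst.card : ℝ) * D3gen ν ν ν t :=
      mul_le_mul_of_nonneg_left hD e2
    have e4 : ((k : ℝ) ^ 3 - 3 * (k : ℝ) ^ 2) * (c + δ / 2) ≤ (Dst.card : ℝ) * (c + δ / 2) :=
      mul_le_mul_of_nonneg_right e1 (by positivity)
    have e5 : (c + δ / 4) * (k : ℝ) ^ 3 ≤ ((k : ℝ) ^ 3 - 3 * (k : ℝ) ^ 2) * (c + δ / 2) := by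
      have e6 : 3 * (c + δ / 2) ≤ k * (δ / 4) := by nlinarith
      have e7 : (k : ℝ) ^ 2 * (3 * (c + δ / 2)) ≤ (k : ℝ) ^ 2 * (k * (δ / 4)) :=
        mul_le_mul_of_nonneg_left e6 (by positivity)
      nlinarith
    linarith
  -- upper bound
  set p0 := ∑ x, P x * (if K4FreePal (ssPal (δ / 2) w k x) then (0 : ℝ) else 1) with hp0
  have hup : ∑ x, P x * (palCount k (ssPal (δ / 2) w k x) : ℝ)
      ≤ c * (k : ℝ) ^ 3 + p0 * (k : ℝ) ^ 3 := by
    have e1 : ∀ x, P x * (palCount k (ssPal (δ / 2) w k x) : ℝ) ≤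
        P x * (c * (k : ℝ) ^ 3) +
          (P x * (if K4FreePal (ssPal (δ / 2) w k x) then (0 : ℝ) else 1)) * (k : ℝ) ^ 3 := by
      intro x
      by_cases hx : K4FreePal (ssPal (δ / 2) w k x)
      · rw [if_pos hx]
        have := mul_le_mul_of_nonneg_left (hPL k _ hx) (hP0 x)
        simpa using this
      · rw [if_neg hx]
        have h1 := mul_le_mul_of_nonneg_left (ss_palCount_le k (ssPal (δ / 2) w k x)) (hP0 x)
        have h2 : 0 ≤ P x * (c * (k : ℝ) ^ 3) := mul_nonneg (hP0 x) (by positivity)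
        linarith
    refine (Finset.sum_le_sum fun x _ => e1 x).trans ?_
    rw [Finset.sum_add_distrib, ← Finset.sum_mul, ← Finset.sum_mul, hP1, one_mul]
  have hp0lo : δ / 4 ≤ p0 := by
    have h1 : (c + δ / 4) * (k : ℝ) ^ 3 ≤ c * (k : ℝ) ^ 3 + p0 * (k : ℝ) ^ 3 := by
      rw [← hav] at hlow
      exact hlow.trans hup
    have h2 : 0 < (k : ℝ) ^ 3 := by positivity
    nlinarith
  -- upper bound of p0
  have hp0up : p0 ≤ ∑ p ∈ (univ : Finset (Fin 6 → Fin k)).filter ssAdm,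
      ∑ x, P x * ssF (δ / 2) w x p := by
    rw [Finset.sum_comm, hp0]
    refine Finset.sum_le_sum fun x _ => ?_
    rw [← Finset.mul_sum]
    refine mul_le_mul_of_nonneg_left ?_ (hP0 x)
    by_cases hx : K4FreePal (ssPal (δ / 2) w k x)
    · rw [if_pos hx]
      exact Finset.sum_nonneg fun p _ => ssF_nonneg _ _ _ _
    · rw [if_neg hx]
      exact ss_notFree_le (δ / 2) w k x hx
  have hterm : ∀ p ∈ (univ : Finset (Fin 6 → Fin k)).filter ssAdm,
      ∑ x, P x * ssF (δ / 2) w x p ≤ δ / (8 * (k : ℝ) ^ 6) := by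
    intro p hp
    rw [Finset.mem_filter] at hp
    obtain ⟨_, h1, h2, h3, h4⟩ := hp
    have e1 : ∑ x, P x * ssF (δ / 2) w x p
        = K4id (decide (p 0 = p 5)) (decide (p 1 = p 4)) (decide (p 2 = p 3)) ν t :=
      k4_of_positions ν hν t k (p 0) (p 1) (p 2) (p 3) (p 4) (p 5) h1 h2 h3 h4
    rw [e1]
    have e2 := K4id_pow_le (decide (p 0 = p 5)) (decide (p 1 = p 4)) (decide (p 2 = p 3)) ν hν t ht01
    by_contra h5
    push Not at h5
    have e3 : (δ / (8 * (k : ℝ) ^ 6)) ^ 8 <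
        (K4id (decide (p 0 = p 5)) (decide (p 1 = p 4)) (decide (p 2 = p 3)) ν t) ^ 8 :=
      pow_lt_pow_left₀ h5 (by positivity) (by norm_num)
    linarith
  have hcard : (((univ : Finset (Fin 6 → Fin k)).filter ssAdm).card : ℝ) ≤ (k : ℝ) ^ 6 := by
    have h1 := Finset.card_filter_le (univ : Finset (Fin 6 → Fin k)) ssAdm
    have h2 : (univ : Finset (Fin 6 → Fin k)).card = k ^ 6 := by
      rw [Finset.card_univ, Fintype.card_fun, Fintype.card_fin, Fintype.card_fin]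
    rw [h2] at h1
    exact_mod_cast h1
  have hfin : p0 ≤ δ / 8 := by
    refine hp0up.trans ((Finset.sum_le_sum hterm).trans ?_)
    rw [Finset.sum_const, nsmul_eq_mul]
    calc (((univ : Finset (Fin 6 → Fin k)).filter ssAdm).card : ℝ) * (δ / (8 * (k : ℝ) ^ 6))
        ≤ (k : ℝ) ^ 6 * (δ / (8 * (k : ℝ) ^ 6)) := mul_le_mul_of_nonneg_right hcard (by positivity)
      _ = δ / 8 := by field_simp
  linarith

theorem supersat (c : ℝ) (hPL : PL c) (δ : ℝ) (hδ : 0 < δ) :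
    ∃ ζ : ℝ, 0 < ζ ∧ ∀ (κ : Type) [Fintype κ] (ν : κ → ℝ) (w : κ → κ → κ → ℝ), IsProb ν →
      (∀ a b c, 0 ≤ w a b c ∧ w a b c ≤ 1) → c + δ ≤ D3gen ν ν ν w →
      ζ ≤ K4gen ν ν ν ν ν ν w w w w := by
  have hc := ss_PL_nonneg hPL
  obtain ⟨k, hk⟩ := exists_nat_ge (12 / δ)
  have hk' : 12 ≤ k * δ := by
    rw [div_le_iff₀ hδ] at hk
    exact hk
  have hk0 : (0 : ℝ) < k := by
    rcases Nat.eq_zero_or_pos k with h | h
    · subst h
      norm_num at hk'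
    · exact_mod_cast h
  refine ⟨(δ / 2) ^ 4 * (δ / (8 * (k : ℝ) ^ 6)) ^ 8, by positivity, ?_⟩
  intro κ _ ν w hν hw hD
  have h1 : ∀ a b c, w a b c ≤ ssInd (δ / 2) w a b c + δ / 2 := by
    intro a b c
    unfold ssInd
    split_ifs with h
    · have := (hw a b c).2
      linarith
    · push Not at h
      linarith
  have h2 := ss_D3gen_le_add ν hν w (ssInd (δ / 2) w) (δ / 2) h1
  have h3 : c + δ / 2 ≤ D3gen ν ν ν (ssInd (δ / 2) w) := by linarith
  have h4 : D3gen ν ν ν (ssInd (δ / 2) w) ≤ 1 := by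
    have h5 := ss_D3gen_le_add ν hν (ssInd (δ / 2) w) (fun _ _ _ => 0) 1 (fun a b c => by
      have := (ssInd_mem (δ / 2) w a b c).2
      linarith)
    have h6 : D3gen ν ν ν (fun _ _ _ : κ => (0 : ℝ)) = 0 := by
      unfold D3gen
      simp
    linarith
  have h5 := ss_core ν hν w c hPL hc δ hδ (h3.trans h4) k hk' h3
  have h6 : ∀ a b c, (δ / 2) * ssInd (δ / 2) w a b c ≤ w a b c := by
    intro a b c
    unfold ssInd
    split_ifs with h
    · linarith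
    · have := (hw a b c).1
      linarith
  have h7 := ss_K4gen_ge ν hν w (ssInd (δ / 2) w) (δ / 2) (by positivity)
    (fun a b c => (ssInd_mem (δ / 2) w a b c).1) h6
  calc (δ / 2) ^ 4 * (δ / (8 * (k : ℝ) ^ 6)) ^ 8
      ≤ (δ / 2) ^ 4 * K4gen ν ν ν ν ν ν (ssInd (δ / 2) w) (ssInd (δ / 2) w)
        (ssInd (δ / 2) w) (ssInd (δ / 2) w) :=
        mul_le_mul_of_nonneg_left h5 (by positivity)
    _ ≤ _ := h7

end Pool.UT
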