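/-
UT Tests: the test functions of a vertex v on the colours of a pair i < j, and the selection of
a homogeneous set of indices.

qT i j v, gT i j v: weights and test functions; the two remaining colours x = (x.1, x.2) are those
of the pairs {i,v} and {j,v}.
posSet S i j t: the elements of S in position t relative to i < j: t = 0 right of j, t = 1 between,
t = 2 left of i.
-/
import Pool.Agent.H95.UT.Kern
import Pool.Agent.H95.UT.Ramsey

set_option autoImplicit false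

namespace Pool.UT

open Finset

noncomputable section

variable {Γ : Type} [Fintype Γ]

def qT (μ : ℕ → ℕ → Γ → ℝ) (i j v : ℕ) (x : Γ × Γ) : ℝ :=
  if j < v then μ i v x.1 * μ j v x.2
  else if i < v then μ i v x.1 * μ v j x.2
  else μ v i x.1 * μ v j x.2

def gT (W : ℕ → ℕ → ℕ → Γ → Γ → Γ → ℝ) (i j v : ℕ) (x : Γ × Γ) (a : Γ) : ℝ :=
  if j < v then W i j v a x.1 x.2
  else if i < v then W i v j x.1 a x.2
  else W v i j x.1 x.2 a

def ipT (μ : ℕ → ℕ → Γ → ℝ) (W : ℕ → ℕ → ℕ → Γ → Γ → Γ → ℝ) (i j v v' : ℕ) : ℝ :=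
  ∑ x : Γ × Γ, μ i j x.1 * μ i j x.2 *
    (ker (qT μ i j v) (gT W i j v) x * ker (qT μ i j v') (gT W i j v') x)

def posSet (S : Finset ℕ) (i j : ℕ) (t : Fin 3) : Finset ℕ :=
  S.filter (fun v => (t = 0 ∧ j < v) ∨ (t = 1 ∧ i < v ∧ v < j) ∨ (t = 2 ∧ v < i))

private theorem prob_prod {p q : Γ → ℝ} (hp : IsProb p) (hq : IsProb q) :
    IsProb (fun x : Γ × Γ => p x.1 * q x.2) := by
  refine ⟨fun x => mul_nonneg (hp.1 _) (hq.1 _), ?_⟩
  rw [Fintype.sum_prod_type]
  have : ∀ x : Γ, ∑ y : Γ, p x * q y = p x := by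
    intro x
    rw [← Finset.mul_sum, hq.2, mul_one]
  simp only [this]
  exact hp.2

theorem qT_prob (n : ℕ) (μ : ℕ → ℕ → Γ → ℝ) (hμ : ∀ i j, i < j → j < n → IsProb (μ i j))
    (i j v : ℕ) (hij : i < j) (hj : j < n) (hv : v < n) (h1 : v ≠ i) (h2 : v ≠ j) :
    IsProb (qT μ i j v) := by
  by_cases c1 : j < v
  · have : qT μ i j v = fun x => μ i v x.1 * μ j v x.2 := by
      funext x
      simp only [qT, if_pos c1]
    rw [this]
    exact prob_prod (hμ i v (by omega) hv) (hμ j v c1 hv)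
  · by_cases c2 : i < v
    · have : qT μ i j v = fun x => μ i v x.1 * μ v j x.2 := by
        funext x
        simp only [qT, if_neg c1, if_pos c2]
      rw [this]
      exact prob_prod (hμ i v c2 hv) (hμ v j (by omega) hj)
    · have : qT μ i j v = fun x => μ v i x.1 * μ v j x.2 := by
        funext x
        simp only [qT, if_neg c1, if_neg c2]
      rw [this]
      exact prob_prod (hμ v i (by omega) (by omega)) (hμ v j (by omega) hj)

private theorem gT_mem {n : ℕ} {μ : ℕ → ℕ → Γ → ℝ} {W : ℕ → ℕ → ℕ → Γ → Γ → Γ → ℝ} {d ε : ℝ}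
    (h : IsRS n μ W d ε) (i j v : ℕ) (x : Γ × Γ) (a : Γ) :
    0 ≤ gT W i j v x a ∧ gT W i j v x a ≤ 1 := by
  unfold gT
  split_ifs
  · exact ⟨h.nonneg _ _ _ _ _ _, h.le_one _ _ _ _ _ _⟩
  · exact ⟨h.nonneg _ _ _ _ _ _, h.le_one _ _ _ _ _ _⟩
  · exact ⟨h.nonneg _ _ _ _ _ _, h.le_one _ _ _ _ _ _⟩

private theorem ker_mem {n : ℕ} {μ : ℕ → ℕ → Γ → ℝ} {W : ℕ → ℕ → ℕ → Γ → Γ → Γ → ℝ} {d ε : ℝ}
    (h : IsRS n μ W d ε) (i j v : ℕ) (hq : IsProb (qT μ i j v)) (x : Γ × Γ) :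
    0 ≤ ker (qT μ i j v) (gT W i j v) x ∧ ker (qT μ i j v) (gT W i j v) x ≤ 1 := by
  unfold ker
  constructor
  · refine Finset.sum_nonneg fun t _ => ?_
    exact mul_nonneg (hq.1 t) (mul_nonneg (gT_mem h i j v t x.1).1 (gT_mem h i j v t x.2).1)
  · rw [← hq.2]
    refine Finset.sum_le_sum fun t _ => ?_
    have h1 : gT W i j v t x.1 * gT W i j v t x.2 ≤ 1 :=
      mul_le_one₀ (gT_mem h i j v t x.1).2 (gT_mem h i j v t x.2).1 (gT_mem h i j v t x.2).2
    calc qT μ i j v t * (gT W i j v t x.1 * gT W i j v t x.2) ≤ qT μ i j v t * 1 :=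
          mul_le_mul_of_nonneg_left h1 (hq.1 t)
      _ = qT μ i j v t := mul_one _

private theorem ipT_mem {n : ℕ} {μ : ℕ → ℕ → Γ → ℝ} {W : ℕ → ℕ → ℕ → Γ → Γ → Γ → ℝ} {d ε : ℝ}
    (h : IsRS n μ W d ε) (i j v v' : ℕ) (hij : i < j) (hj : j < n) (hv : v < n) (hv' : v' < n)
    (h1 : v ≠ i) (h2 : v ≠ j) (h3 : v' ≠ i) (h4 : v' ≠ j) :
    0 ≤ ipT μ W i j v v' ∧ ipT μ W i j v v' ≤ 1 := by
  have hq := qT_prob n μ h.prob i j v hij hj hv h1 h2
  have hq' := qT_prob n μ h.prob i j v' hij hj hv' h3 h4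
  have hw := prob_prod (h.prob i j hij hj) (h.prob i j hij hj)
  unfold ipT
  constructor
  · refine Finset.sum_nonneg fun x _ => ?_
    exact mul_nonneg (hw.1 x) (mul_nonneg (ker_mem h i j v hq x).1 (ker_mem h i j v' hq' x).1)
  · rw [← hw.2]
    refine Finset.sum_le_sum fun x _ => ?_
    have h5 : ker (qT μ i j v) (gT W i j v) x * ker (qT μ i j v') (gT W i j v') x ≤ 1 :=
      mul_le_one₀ (ker_mem h i j v hq x).2 (ker_mem h i j v' hq' x).1 (ker_mem h i j v' hq' x).2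
    have h6 := mul_le_mul_of_nonneg_left h5 (hw.1 x)
    simpa using h6

private theorem ipT_comm (μ : ℕ → ℕ → Γ → ℝ) (W : ℕ → ℕ → ℕ → Γ → Γ → Γ → ℝ) (i j v v' : ℕ) :
    ipT μ W i j v v' = ipT μ W i j v' v := by
  unfold ipT
  refine Finset.sum_congr rfl fun x _ => ?_
  rw [mul_comm (ker (qT μ i j v) (gT W i j v) x)]

/-- the box of a number of `[0,1]` -/
private def bx (M : ℕ) (r : ℝ) : Fin (M + 1) :=
  if h : ⌊(M : ℝ) * r⌋₊ < M + 1 then ⟨⌊(M : ℝ) * r⌋₊, h⟩ else 0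

private theorem bx_spec (M : ℕ) (hM : 0 < M) (r : ℝ) (h0 : 0 ≤ r) (h1 : r ≤ 1) :
    |r - ((bx M r : ℕ) : ℝ) / (M : ℝ)| ≤ 1 / (M : ℝ) := by
  have hM' : (0 : ℝ) < (M : ℝ) := by exact_mod_cast hM
  have h2 : (0 : ℝ) ≤ (M : ℝ) * r := mul_nonneg hM'.le h0
  have h3 : ⌊(M : ℝ) * r⌋₊ < M + 1 := by
    have : ⌊(M : ℝ) * r⌋₊ ≤ M := by
      have h4 : (M : ℝ) * r ≤ (M : ℝ) := by nlinarith
      have h5 := Nat.floor_le_floor h4
      simpa using h5
    omega
  have h4 : ((bx M r : ℕ) : ℝ) = (⌊(M : ℝ) * r⌋₊ : ℝ) := by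
    unfold bx
    rw [dif_pos h3]
  rw [h4]
  have h5 := Nat.floor_le h2
  have h6 := Nat.lt_floor_add_one ((M : ℝ) * r)
  have h7 : r = ((M : ℝ) * r) / (M : ℝ) := by
    field_simp
  rw [abs_le]
  constructor
  · have : (0 : ℝ) ≤ r - (⌊(M : ℝ) * r⌋₊ : ℝ) / (M : ℝ) := by
      rw [sub_nonneg, div_le_iff₀ hM']
      linarith
    have h8 : (0 : ℝ) ≤ 1 / (M : ℝ) := by positivity
    linarith
  · rw [sub_le_iff_le_add, ← add_div, le_div_iff₀ hM']
    linarith

/-- PROOF. Ramsey (ramsey4) for the colouring of x < y < z < u by the three numbers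
⌊M ipT x y z u⌋, ⌊M ipT x u y z⌋, ⌊M ipT z u x y⌋ in {0,…,M} (all ipT are in [0,1] for indices < n);
take S inside range n, so N = the Ramsey number.  Then for i < j in S and v ≠ v' of S in position t
|ipT i j v v' - ct/M| ≤ 1/M (ipT is symmetric in v, v'). -/
theorem homSet (M m' : ℕ) (hM : 0 < M) :
    ∃ N : ℕ, ∀ (Γ : Type) [Fintype Γ] (μ : ℕ → ℕ → Γ → ℝ) (W : ℕ → ℕ → ℕ → Γ → Γ → Γ → ℝ) (d ε : ℝ),
      IsRS N μ W d ε → ∃ S : Finset ℕ, (∀ i ∈ S, i < N) ∧ S.card = m' ∧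
        ∃ ρ : Fin 3 → ℝ, (∀ t, 0 ≤ ρ t) ∧ ∀ i ∈ S, ∀ j ∈ S, i < j → ∀ t,
          ∀ v ∈ posSet S i j t, ∀ v' ∈ posSet S i j t, v ≠ v' →
            |ipT μ W i j v v' - ρ t| ≤ 1 / (M : ℝ) := by
  obtain ⟨N, hN⟩ := ramsey4 (Fin (M + 1) × Fin (M + 1) × Fin (M + 1)) m'
  refine ⟨N, fun Γ _ μ W d ε h => ?_⟩
  obtain ⟨H, hH, hcard, c, hc⟩ := hN (range N) (by simp) (fun x y z u =>
    (bx M (ipT μ W x y z u), bx M (ipT μ W x u y z), bx M (ipT μ W z u x y)))
  have hlt : ∀ i ∈ H, i < N := fun i hi => mem_range.1 (hH hi)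
  refine ⟨H, hlt, hcard, ![((c.1 : ℕ) : ℝ) / M, ((c.2.1 : ℕ) : ℝ) / M, ((c.2.2 : ℕ) : ℝ) / M],
    ?_, ?_⟩
  · intro t
    fin_cases t
    · exact div_nonneg (Nat.cast_nonneg _) (Nat.cast_nonneg _)
    · exact div_nonneg (Nat.cast_nonneg _) (Nat.cast_nonneg _)
    · exact div_nonneg (Nat.cast_nonneg _) (Nat.cast_nonneg _)
  · have hc1 : ∀ x ∈ H, ∀ y ∈ H, ∀ z ∈ H, ∀ u ∈ H, x < y → y < z → z < u →
        bx M (ipT μ W x y z u) = c.1 := fun x hx y hy z hz u hu h1 h2 h3 =>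
      congrArg Prod.fst (hc x hx y hy z hz u hu h1 h2 h3)
    have hc2 : ∀ x ∈ H, ∀ y ∈ H, ∀ z ∈ H, ∀ u ∈ H, x < y → y < z → z < u →
        bx M (ipT μ W x u y z) = c.2.1 := fun x hx y hy z hz u hu h1 h2 h3 =>
      congrArg (fun p => p.2.1) (hc x hx y hy z hz u hu h1 h2 h3)
    have hc3 : ∀ x ∈ H, ∀ y ∈ H, ∀ z ∈ H, ∀ u ∈ H, x < y → y < z → z < u →
        bx M (ipT μ W z u x y) = c.2.2 := fun x hx y hy z hz u hu h1 h2 h3 =>
      congrArg (fun p => p.2.2) (hc x hx y hy z hz u hu h1 h2 h3)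
    -- the ordered statement
    have key : ∀ i ∈ H, ∀ j ∈ H, i < j → ∀ t : Fin 3, ∀ v ∈ posSet H i j t,
        ∀ v' ∈ posSet H i j t, v < v' →
        |ipT μ W i j v v' - ![((c.1 : ℕ) : ℝ) / M, ((c.2.1 : ℕ) : ℝ) / M,
          ((c.2.2 : ℕ) : ℝ) / M] t| ≤ 1 / (M : ℝ) := by
      intro i hi j hj hij t v hv v' hv' hvv
      obtain ⟨hvH, hvt⟩ := mem_filter.1 hv
      obtain ⟨hvH', hvt'⟩ := mem_filter.1 hv'
      have hne : v ≠ i ∧ v ≠ j ∧ v' ≠ i ∧ v' ≠ j := by
        rcases hvt with h1 | h1 | h1 <;> rcases hvt' with h2 | h2 | h2 <;> omega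
      have hm := ipT_mem h i j v v' hij (hlt j hj) (hlt v hvH) (hlt v' hvH') hne.1 hne.2.1
        hne.2.2.1 hne.2.2.2
      have hb := bx_spec M hM _ hm.1 hm.2
      fin_cases t
      · have e1 : j < v := by
          rcases hvt with h1 | h1 | h1
          · exact h1.2
          · exact absurd h1.1 (by decide)
          · exact absurd h1.1 (by decide)
        rw [hc1 i hi j hj v hvH v' hvH' hij e1 hvv] at hb
        exact hb
      · have e1 : i < v := by
          rcases hvt with h1 | h1 | h1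
          · exact absurd h1.1 (by decide)
          · exact h1.2.1
          · exact absurd h1.1 (by decide)
        have e2 : v' < j := by
          rcases hvt' with h1 | h1 | h1
          · exact absurd h1.1 (by decide)
          · exact h1.2.2
          · exact absurd h1.1 (by decide)
        rw [hc2 i hi v hvH v' hvH' j hj e1 hvv e2] at hb
        exact hb
      · have e1 : v' < i := by
          rcases hvt' with h1 | h1 | h1
          · exact absurd h1.1 (by decide)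
          · exact absurd h1.1 (by decide)
          · exact h1.2
        rw [hc3 v hvH v' hvH' i hi j hj hvv e1 hij] at hb
        exact hb
    intro i hi j hj hij t v hv v' hv' hvv
    rcases lt_or_gt_of_ne hvv with h1 | h1
    · exact key i hi j hj hij t v hv v' hv' h1
    · rw [ipT_comm]
      exact key i hi j hj hij t v' hv' v hv h1

/-- PROOF. Enumerate S increasingly (orderEmbOfFin) and take the elements number
m + (m+1) k, k < n1. -/
theorem spread (m n1 : ℕ) (S : Finset ℕ) (hS : (n1 + 1) * (m + 1) ≤ S.card) :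
    ∃ I : Finset ℕ, I ⊆ S ∧ I.card = n1 ∧ ∀ i ∈ I, ∀ j ∈ I, i < j → ∀ t,
      m ≤ (posSet S i j t).card := by
  classical
  obtain ⟨g, hg1, hg2⟩ : ∃ g : ℕ → ℕ, (∀ r, r < S.card → g r ∈ S) ∧
      (∀ r s, r < s → s < S.card → g r < g s) := by
    refine ⟨fun r => if h : r < S.card then S.orderEmbOfFin rfl ⟨r, h⟩ else 0, ?_, ?_⟩
    · intro r hr
      simp only [dif_pos hr]
      exact Finset.orderEmbOfFin_mem _ _ _
    · intro r s hrs hs
      simp only [dif_pos hs, dif_pos (lt_trans hrs hs)]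
      exact (S.orderEmbOfFin rfl).strictMono (by simpa using hrs)
  have hinj : ∀ r s, r < S.card → s < S.card → g r = g s → r = s := by
    intro r s hr hs he
    rcases lt_trichotomy r s with h | h | h
    · have := hg2 r s h hs
      omega
    · exact h
    · have := hg2 s r h hr
      omega
  have hidx : ∀ k, k < n1 → m + (m + 1) * k + (m + 1) < S.card := by
    intro k hk
    have h1 : (m + 1) * k + (m + 1) ≤ (m + 1) * n1 := by
      have : (m + 1) * (k + 1) ≤ (m + 1) * n1 := Nat.mul_le_mul_left _ hk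
      nlinarith
    nlinarith
  have hcount : ∀ (lo : ℕ) (i j : ℕ) (t : Fin 3), lo + m ≤ S.card →
      (∀ r, r < m → g (lo + r) ∈ posSet S i j t) → m ≤ (posSet S i j t).card := by
    intro lo i j t hlo h
    have h1 := Finset.card_le_card_of_injOn (s := range m) (t := posSet S i j t)
      (fun r => g (lo + r)) (fun r hr => h r (mem_range.1 hr)) (by
        intro r hr s hs he
        have hr' := mem_range.1 hr
        have hs' := mem_range.1 hs
        have := hinj (lo + r) (lo + s) (by omega) (by omega) he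
        omega)
    simpa using h1
  refine ⟨(range n1).image (fun k => g (m + (m + 1) * k)), ?_, ?_, ?_⟩
  · intro x hx
    obtain ⟨k, hk, rfl⟩ := mem_image.1 hx
    have := hidx k (mem_range.1 hk)
    exact hg1 _ (by omega)
  · rw [Finset.card_image_of_injOn, card_range]
    intro k hk l hl he
    have hk' := hidx k (mem_range.1 hk)
    have hl' := hidx l (mem_range.1 hl)
    have h1 := hinj _ _ (by omega) (by omega) he
    have h2 : (m + 1) * k = (m + 1) * l := by omega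
    exact Nat.eq_of_mul_eq_mul_left (by omega) h2
  · intro i hi j hj hij t
    obtain ⟨k, hk, rfl⟩ := mem_image.1 hi
    obtain ⟨l, hl, rfl⟩ := mem_image.1 hj
    have hk' := hidx k (mem_range.1 hk)
    have hl' := hidx l (mem_range.1 hl)
    have hkl : k < l := by
      by_contra hcon
      have h1 : l ≤ k := not_lt.1 hcon
      rcases Nat.lt_or_eq_of_le h1 with h2 | h2
      · have h3 : (m + 1) * l < (m + 1) * k := Nat.mul_lt_mul_of_pos_left h2 (by omega)
        have := hg2 (m + (m + 1) * l) (m + (m + 1) * k) (by omega) (by omega)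
        omega
      · subst h2
        omega
    have hgap : (m + 1) * k + (m + 1) ≤ (m + 1) * l := by
      have : (m + 1) * (k + 1) ≤ (m + 1) * l := Nat.mul_le_mul_left _ hkl
      nlinarith
    fin_cases t
    · refine hcount (m + (m + 1) * l + 1) _ _ _ (by omega) fun r hr => ?_
      refine mem_filter.2 ⟨hg1 _ (by omega), Or.inl ⟨rfl, ?_⟩⟩
      exact hg2 _ _ (by omega) (by omega)
    · refine hcount (m + (m + 1) * k + 1) _ _ _ (by omega) fun r hr => ?_
      refine mem_filter.2 ⟨hg1 _ (by omega), Or.inr (Or.inl ⟨rfl, ?_, ?_⟩)⟩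
      · exact hg2 _ _ (by omega) (by omega)
      · exact hg2 _ _ (by omega) (by omega)
    · refine hcount 0 _ _ _ (by omega) fun r hr => ?_
      refine mem_filter.2 ⟨hg1 _ (by omega), Or.inr (Or.inr ⟨rfl, ?_⟩)⟩
      exact hg2 _ _ (by omega) (by omega)

end

end Pool.UT
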