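/-
UT Thresh: making the face functions of a reduced system 0/1 valued.

PROOF. W' = 1 if W ≥ θ, 0 otherwise.  W ≤ W' + θ pointwise, so D3gen W ≤ D3gen W' + θ;
W' ≤ W/θ pointwise, so K4gen W' ≤ K4gen W / θ^4.
-/
import Pool.Agent.H95.UT.Defs

set_option autoImplicit false

namespace Pool.UT

open Finset

theorem thresh_d3 {Γ : Type*} [Fintype Γ] (p12 p13 p23 : Γ → ℝ) (h12 : IsProb p12)
    (h13 : IsProb p13) (h23 : IsProb p23) (A A' : Γ → Γ → Γ → ℝ) (θ : ℝ)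
    (h : ∀ a b c, A a b c ≤ A' a b c + θ) :
    D3gen p12 p13 p23 A ≤ D3gen p12 p13 p23 A' + θ := by
  have h1 : D3gen p12 p13 p23 A ≤
      ∑ a12, ∑ a13, ∑ a23, p12 a12 * p13 a13 * p23 a23 * (A' a12 a13 a23 + θ) := by
    unfold D3gen
    refine sum_le_sum fun a _ => sum_le_sum fun b _ => sum_le_sum fun c _ => ?_
    exact mul_le_mul_of_nonneg_left (h a b c)
      (mul_nonneg (mul_nonneg (h12.1 a) (h13.1 b)) (h23.1 c))
  have h2 : ∑ a12, ∑ a13, ∑ a23, p12 a12 * p13 a13 * p23 a23 * (A' a12 a13 a23 + θ) =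
      D3gen p12 p13 p23 A' + θ := by
    unfold D3gen
    have h3 : ∑ a12, ∑ a13, ∑ a23, p12 a12 * p13 a13 * p23 a23 * θ = θ := by
      have e1 : ∀ a12 a13, ∑ a23, p12 a12 * p13 a13 * p23 a23 * θ = p12 a12 * p13 a13 * θ := by
        intro a12 a13
        rw [← sum_mul, ← mul_sum, h23.2, mul_one]
      have e2 : ∀ a12, ∑ a13, p12 a12 * p13 a13 * θ = p12 a12 * θ := by
        intro a12
        rw [← sum_mul, ← mul_sum, h13.2, mul_one]
      simp only [e1, e2]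
      rw [← sum_mul, h12.2, one_mul]
    simp only [mul_add, sum_add_distrib]
    rw [h3]
  linarith

theorem thresh_k4 {Γ : Type*} [Fintype Γ] (p12 p13 p14 p23 p24 p34 : Γ → ℝ)
    (h12 : ∀ a, 0 ≤ p12 a) (h13 : ∀ a, 0 ≤ p13 a) (h14 : ∀ a, 0 ≤ p14 a)
    (h23 : ∀ a, 0 ≤ p23 a) (h24 : ∀ a, 0 ≤ p24 a) (h34 : ∀ a, 0 ≤ p34 a)
    (A B C D A' B' C' D' : Γ → Γ → Γ → ℝ) (θ : ℝ) (hθ : 0 < θ)
    (hA0 : ∀ a b c, 0 ≤ A' a b c) (hB0 : ∀ a b c, 0 ≤ B' a b c)
    (hC0 : ∀ a b c, 0 ≤ C' a b c) (hD0 : ∀ a b c, 0 ≤ D' a b c)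
    (hA : ∀ a b c, θ * A' a b c ≤ A a b c) (hB : ∀ a b c, θ * B' a b c ≤ B a b c)
    (hC : ∀ a b c, θ * C' a b c ≤ C a b c) (hD : ∀ a b c, θ * D' a b c ≤ D a b c) :
    θ ^ 4 * K4gen p12 p13 p14 p23 p24 p34 A' B' C' D' ≤
      K4gen p12 p13 p14 p23 p24 p34 A B C D := by
  unfold K4gen
  simp only [mul_sum]
  refine sum_le_sum fun a12 _ => sum_le_sum fun a13 _ => sum_le_sum fun a14 _ =>
    sum_le_sum fun a23 _ => sum_le_sum fun a24 _ => sum_le_sum fun a34 _ => ?_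
  have hw : 0 ≤ p12 a12 * p13 a13 * p14 a14 * p23 a23 * p24 a24 * p34 a34 :=
    mul_nonneg (mul_nonneg (mul_nonneg (mul_nonneg (mul_nonneg (h12 _) (h13 _)) (h14 _)) (h23 _))
      (h24 _)) (h34 _)
  have e : θ ^ 4 * (p12 a12 * p13 a13 * p14 a14 * p23 a23 * p24 a24 * p34 a34 *
      (A' a12 a13 a23 * B' a12 a14 a24 * C' a13 a14 a34 * D' a23 a24 a34)) =
      (p12 a12 * p13 a13 * p14 a14 * p23 a23 * p24 a24 * p34 a34) *
        ((θ * A' a12 a13 a23) * (θ * B' a12 a14 a24) * (θ * C' a13 a14 a34) *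
          (θ * D' a23 a24 a34)) := by ring
  rw [e]
  refine mul_le_mul_of_nonneg_left ?_ hw
  have a0 := mul_nonneg hθ.le (hA0 a12 a13 a23)
  have b0 := mul_nonneg hθ.le (hB0 a12 a14 a24)
  have c0 := mul_nonneg hθ.le (hC0 a13 a14 a34)
  have d0 := mul_nonneg hθ.le (hD0 a23 a24 a34)
  have hA1 := hA a12 a13 a23
  have hB1 := hB a12 a14 a24
  have hC1 := hC a13 a14 a34
  have hD1 := hD a23 a24 a34
  have hAB := mul_le_mul hA1 hB1 b0 (a0.trans hA1)
  have hABC := mul_le_mul hAB hC1 c0 ((mul_nonneg a0 b0).trans hAB)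
  exact mul_le_mul hABC hD1 d0 ((mul_nonneg (mul_nonneg a0 b0) c0).trans hABC)

open Classical in
theorem thresh (n : ℕ) {Γ : Type} [Fintype Γ] (μ : ℕ → ℕ → Γ → ℝ)
    (W : ℕ → ℕ → ℕ → Γ → Γ → Γ → ℝ) (d ε θ : ℝ) (hθ : 0 < θ) (h : IsRS n μ W d ε) :
    IsRS n μ (fun i j l a b c => if θ ≤ W i j l a b c then (1 : ℝ) else 0) (d - θ)
      (ε / θ ^ 4) := by
  have hlow : ∀ i j l a b c,
      θ * (if θ ≤ W i j l a b c then (1 : ℝ) else 0) ≤ W i j l a b c := by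
    intro i j l a b c
    split_ifs with h1
    · rw [mul_one]; exact h1
    · rw [mul_zero]; exact h.nonneg i j l a b c
  have h0 : ∀ i j l a b c, (0 : ℝ) ≤ (if θ ≤ W i j l a b c then (1 : ℝ) else 0) := by
    intro i j l a b c
    split_ifs <;> norm_num
  refine ⟨h.prob, h0, ?_, ?_, ?_⟩
  · intro i j l a b c
    show (if θ ≤ W i j l a b c then (1 : ℝ) else 0) ≤ 1
    split_ifs <;> norm_num
  · intro i j l hij hjl hln
    have h1 := h.dens i j l hij hjl hln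
    have h2 := thresh_d3 (μ i j) (μ i l) (μ j l) (h.prob i j hij (hjl.trans hln))
      (h.prob i l (hij.trans hjl) hln) (h.prob j l hjl hln) (W i j l)
      (fun a b c => if θ ≤ W i j l a b c then (1 : ℝ) else 0) θ (by
        intro a b c
        show W i j l a b c ≤ (if θ ≤ W i j l a b c then (1 : ℝ) else 0) + θ
        split_ifs with h3
        · have := h.le_one i j l a b c
          linarith
        · push Not at h3
          linarith)
    linarith
  · intro i j l m hij hjl hlm hmn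
    have hln := hlm.trans hmn
    have hjn := hjl.trans hln
    have h1 := h.k4 i j l m hij hjl hlm hmn
    have h2 := thresh_k4 (μ i j) (μ i l) (μ i m) (μ j l) (μ j m) (μ l m)
      (h.prob i j hij hjn).1 (h.prob i l (hij.trans hjl) hln).1
      (h.prob i m (hij.trans (hjl.trans hlm)) hmn).1 (h.prob j l hjl hln).1
      (h.prob j m (hjl.trans hlm) hmn).1 (h.prob l m hlm hmn).1
      (W i j l) (W i j m) (W i l m) (W j l m)
      (fun a b c => if θ ≤ W i j l a b c then (1 : ℝ) else 0)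
      (fun a b c => if θ ≤ W i j m a b c then (1 : ℝ) else 0)
      (fun a b c => if θ ≤ W i l m a b c then (1 : ℝ) else 0)
      (fun a b c => if θ ≤ W j l m a b c then (1 : ℝ) else 0) θ hθ
      (h0 i j l) (h0 i j m) (h0 i l m) (h0 j l m) (hlow i j l) (hlow i j m) (hlow i l m)
      (hlow j l m)
    rw [le_div_iff₀ (pow_pos hθ 4), mul_comm]
    exact h2.trans h1

end Pool.UT
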