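/-
UT MainIII: PL c excludes reduced systems of density > c with many indices.
-/
import Pool.Agent.H95.UT.PairCol
import Pool.Agent.H95.UT.Count
import Pool.Agent.H95.UT.Avoid
import Pool.Agent.H95.UT.CellSum
import Pool.Agent.H95.UT.Close
import Pool.Agent.H95.UT.Thresh
import Pool.Agent.H95.UT.Supersat
import Pool.Agent.H95.UT.Tests

set_option autoImplicit false

namespace Pool.UT

open Finset

noncomputable section

variable {Γ κ : Type} [Fintype Γ] [Fintype κ]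

/-- the error quantity of the pair `i j` for the faces with third vertices `z` and `v` -/
def bt (μ : ℕ → ℕ → Γ → ℝ) (W : ℕ → ℕ → ℕ → Γ → Γ → Γ → ℝ) (c : ℕ → ℕ → Γ → κ)
    (i j z v : ℕ) : ℝ :=
  beta (μ i j) (c i j) (qT μ i j z) (gT W i j z) (qT μ i j v) (gT W i j v)

/-- cell weights of a pair -/
def pwp (μ : ℕ → ℕ → Γ → ℝ) (c : ℕ → ℕ → Γ → κ) (i j : ℕ) : κ → ℝ := pw (μ i j) (c i j)

/-- cell values of a face -/
def cvp (μ : ℕ → ℕ → Γ → ℝ) (W : ℕ → ℕ → ℕ → Γ → Γ → Γ → ℝ) (c : ℕ → ℕ → Γ → κ)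
    (i j l : ℕ) : κ → κ → κ → ℝ :=
  cv (μ i j) (μ i l) (μ j l) (c i j) (c i l) (c j l) (W i j l)

theorem cells_K4 (N : ℕ) (μ : ℕ → ℕ → Γ → ℝ) (W : ℕ → ℕ → ℕ → Γ → Γ → Γ → ℝ) (d' ε' : ℝ)
    (h : IsRS N μ W d' ε') (c : ℕ → ℕ → Γ → κ) (x1 x2 x3 x4 : ℕ) (h12 : x1 < x2) (h23 : x2 < x3)
    (h34 : x3 < x4) (h4 : x4 < N) (t : ℝ)
    (b12 : bt μ W c x1 x2 x3 x4 ≤ t) (b13 : bt μ W c x1 x3 x2 x4 ≤ t)
    (b23 : bt μ W c x2 x3 x1 x4 ≤ t) (b14 : bt μ W c x1 x4 x2 x3 ≤ t)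
    (b24 : bt μ W c x2 x4 x1 x3 ≤ t) (b34 : bt μ W c x3 x4 x1 x2 ≤ t) :
    K4gen (pwp μ c x1 x2) (pwp μ c x1 x3) (pwp μ c x1 x4) (pwp μ c x2 x3) (pwp μ c x2 x4)
      (pwp μ c x3 x4) (cvp μ W c x1 x2 x3) (cvp μ W c x1 x2 x4) (cvp μ W c x1 x3 x4)
      (cvp μ W c x2 x3 x4) ≤ ε' + 6 * Real.sqrt t := by
  have p12 := h.prob x1 x2 h12 (by omega)
  have p13 := h.prob x1 x3 (by omega) (by omega)
  have p14 := h.prob x1 x4 (by omega) (by omega)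
  have p23 := h.prob x2 x3 (by omega) (by omega)
  have p24 := h.prob x2 x4 (by omega) (by omega)
  have p34 := h.prob x3 x4 (by omega) (by omega)
  have hk4 := h.k4 x1 x2 x3 x4 h12 h23 h34 h4
  have hb : ∀ i j l : ℕ, ∀ a b c : Γ, 0 ≤ W i j l a b c ∧ W i j l a b c ≤ 1 :=
    fun i j l a b c => ⟨h.nonneg i j l a b c, h.le_one i j l a b c⟩
  have key := count_replace (μ x1 x2) (μ x1 x3) (μ x1 x4) (μ x2 x3) (μ x2 x4) (μ x3 x4)
    p12 p13 p14 p23 p24 p34 (W x1 x2 x3) (W x1 x2 x4) (W x1 x3 x4) (W x2 x3 x4)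
    (hb _ _ _) (hb _ _ _) (hb _ _ _) (hb _ _ _) (c x1 x2) (c x1 x3) (c x1 x4) (c x2 x3)
    (c x2 x4) (c x3 x4)
  rw [K4gen_cells (μ x1 x2) (μ x1 x3) (μ x1 x4) (μ x2 x3) (μ x2 x4) (μ x3 x4)
    p12 p13 p14 p23 p24 p34 (W x1 x2 x3) (W x1 x2 x4) (W x1 x3 x4) (W x2 x3 x4)
    (c x1 x2) (c x1 x3) (c x1 x4) (c x2 x3) (c x2 x4) (c x3 x4)] at key
  have e12 : bt μ W c x1 x2 x3 x4 = beta (μ x1 x2) (c x1 x2)
      (fun y : Γ × Γ => μ x1 x3 y.1 * μ x2 x3 y.2) (fun y a => W x1 x2 x3 a y.1 y.2)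
      (fun x : Γ × Γ => μ x1 x4 x.1 * μ x2 x4 x.2) (fun x a => W x1 x2 x4 a x.1 x.2) := by
    unfold bt
    congr 1
    · funext y; unfold qT; rw [if_pos (by omega)]
    · funext y a; unfold gT; rw [if_pos (by omega)]
    · funext y; unfold qT; rw [if_pos (by omega)]
    · funext y a; unfold gT; rw [if_pos (by omega)]
  have e13 : bt μ W c x1 x3 x2 x4 = beta (μ x1 x3) (c x1 x3)
      (fun y : Γ × Γ => μ x1 x2 y.1 * μ x2 x3 y.2) (fun y a => W x1 x2 x3 y.1 a y.2)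
      (fun x : Γ × Γ => μ x1 x4 x.1 * μ x3 x4 x.2) (fun x a => W x1 x3 x4 a x.1 x.2) := by
    unfold bt
    congr 1
    · funext y; unfold qT; rw [if_neg (by omega), if_pos (by omega)]
    · funext y a; unfold gT; rw [if_neg (by omega), if_pos (by omega)]
    · funext y; unfold qT; rw [if_pos (by omega)]
    · funext y a; unfold gT; rw [if_pos (by omega)]
  have e23 : bt μ W c x2 x3 x1 x4 = beta (μ x2 x3) (c x2 x3)
      (fun y : Γ × Γ => μ x1 x2 y.1 * μ x1 x3 y.2) (fun y a => W x1 x2 x3 y.1 y.2 a)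
      (fun x : Γ × Γ => μ x2 x4 x.1 * μ x3 x4 x.2) (fun x a => W x2 x3 x4 a x.1 x.2) := by
    unfold bt
    congr 1
    · funext y; unfold qT; rw [if_neg (by omega), if_neg (by omega)]
    · funext y a; unfold gT; rw [if_neg (by omega), if_neg (by omega)]
    · funext y; unfold qT; rw [if_pos (by omega)]
    · funext y a; unfold gT; rw [if_pos (by omega)]
  have e14 : bt μ W c x1 x4 x2 x3 = beta (μ x1 x4) (c x1 x4)
      (fun y : Γ × Γ => μ x1 x2 y.1 * μ x2 x4 y.2) (fun y a => W x1 x2 x4 y.1 a y.2)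
      (fun x : Γ × Γ => μ x1 x3 x.1 * μ x3 x4 x.2) (fun x a => W x1 x3 x4 x.1 a x.2) := by
    unfold bt
    congr 1
    · funext y; unfold qT; rw [if_neg (by omega), if_pos (by omega)]
    · funext y a; unfold gT; rw [if_neg (by omega), if_pos (by omega)]
    · funext y; unfold qT; rw [if_neg (by omega), if_pos (by omega)]
    · funext y a; unfold gT; rw [if_neg (by omega), if_pos (by omega)]
  have e24 : bt μ W c x2 x4 x1 x3 = beta (μ x2 x4) (c x2 x4)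
      (fun y : Γ × Γ => μ x1 x2 y.1 * μ x1 x4 y.2) (fun y a => W x1 x2 x4 y.1 y.2 a)
      (fun x : Γ × Γ => μ x2 x3 x.1 * μ x3 x4 x.2) (fun x a => W x2 x3 x4 x.1 a x.2) := by
    unfold bt
    congr 1
    · funext y; unfold qT; rw [if_neg (by omega), if_neg (by omega)]
    · funext y a; unfold gT; rw [if_neg (by omega), if_neg (by omega)]
    · funext y; unfold qT; rw [if_neg (by omega), if_pos (by omega)]
    · funext y a; unfold gT; rw [if_neg (by omega), if_pos (by omega)]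
  have e34 : bt μ W c x3 x4 x1 x2 = beta (μ x3 x4) (c x3 x4)
      (fun y : Γ × Γ => μ x1 x3 y.1 * μ x1 x4 y.2) (fun y a => W x1 x3 x4 y.1 y.2 a)
      (fun x : Γ × Γ => μ x2 x3 x.1 * μ x2 x4 x.2) (fun x a => W x2 x3 x4 x.1 x.2 a) := by
    unfold bt
    congr 1
    · funext y; unfold qT; rw [if_neg (by omega), if_neg (by omega)]
    · funext y a; unfold gT; rw [if_neg (by omega), if_neg (by omega)]
    · funext y; unfold qT; rw [if_neg (by omega), if_neg (by omega)]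
    · funext y a; unfold gT; rw [if_neg (by omega), if_neg (by omega)]
  rw [← e12, ← e13, ← e23, ← e14, ← e24, ← e34] at key
  have s12 := Real.sqrt_le_sqrt b12
  have s13 := Real.sqrt_le_sqrt b13
  have s23 := Real.sqrt_le_sqrt b23
  have s14 := Real.sqrt_le_sqrt b14
  have s24 := Real.sqrt_le_sqrt b24
  have s34 := Real.sqrt_le_sqrt b34
  have hk := abs_le.1 key
  unfold pwp cvp
  linarith [hk.1, hk.2]

theorem cells_D3 (N : ℕ) (μ : ℕ → ℕ → Γ → ℝ) (W : ℕ → ℕ → ℕ → Γ → Γ → Γ → ℝ) (d' ε' : ℝ)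
    (h : IsRS N μ W d' ε') (c : ℕ → ℕ → Γ → κ) (x1 x2 x3 : ℕ) (h12 : x1 < x2) (h23 : x2 < x3)
    (h3 : x3 < N) :
    d' ≤ D3gen (pwp μ c x1 x2) (pwp μ c x1 x3) (pwp μ c x2 x3) (cvp μ W c x1 x2 x3) := by
  have := h.dens x1 x2 x3 h12 h23 h3
  unfold pwp cvp
  rw [D3gen_cells (μ x1 x2) (μ x1 x3) (μ x2 x3) (h.prob _ _ h12 (by omega))
    (h.prob _ _ (by omega) (by omega)) (h.prob _ _ (by omega) (by omega))]
  exact this

/-- rounding of a number in [0,1] -/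
def code (M : ℕ) (x : ℝ) : Fin (M + 1) :=
  ⟨min ⌊(M : ℝ) * x⌋₊ M, Nat.lt_succ_of_le (min_le_right _ _)⟩

theorem code_close (M : ℕ) (hM : 0 < M) (x y : ℝ) (hx : 0 ≤ x ∧ x ≤ 1) (hy : 0 ≤ y ∧ y ≤ 1)
    (h : code M x = code M y) : |x - y| ≤ 1 / (M : ℝ) := by
  have hM' : (0 : ℝ) < M := by exact_mod_cast hM
  have h1 : min ⌊(M : ℝ) * x⌋₊ M = min ⌊(M : ℝ) * y⌋₊ M := by
    have := congrArg Fin.val h
    simpa [code] using this
  have hfx : ⌊(M : ℝ) * x⌋₊ ≤ M := by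
    apply Nat.floor_le_of_le
    nlinarith [hx.2]
  have hfy : ⌊(M : ℝ) * y⌋₊ ≤ M := by
    apply Nat.floor_le_of_le
    nlinarith [hy.2]
  rw [min_eq_left hfx, min_eq_left hfy] at h1
  have hx0 : 0 ≤ (M : ℝ) * x := mul_nonneg hM'.le hx.1
  have hy0 : 0 ≤ (M : ℝ) * y := mul_nonneg hM'.le hy.1
  have a1 := Nat.floor_le hx0
  have a2 := Nat.lt_floor_add_one ((M : ℝ) * x)
  have a3 := Nat.floor_le hy0
  have a4 := Nat.lt_floor_add_one ((M : ℝ) * y)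
  rw [h1] at a1 a2
  rw [abs_le]
  have hmul : (M : ℝ) * (1 / M) = 1 := by field_simp
  constructor
  · by_contra hc
    push Not at hc
    have : (M : ℝ) * (x - y) < (M : ℝ) * (-(1 / M)) := mul_lt_mul_of_pos_left hc hM'
    nlinarith
  · by_contra hc
    push Not at hc
    have : (M : ℝ) * (1 / M) < (M : ℝ) * (x - y) := mul_lt_mul_of_pos_left hc hM'
    nlinarith

theorem pw_bounds (p : Γ → ℝ) (hp : IsProb p) (c : Γ → κ) (γ : κ) :
    0 ≤ pw p c γ ∧ pw p c γ ≤ 1 := by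
  have h := pw_prob p hp c
  refine ⟨h.1 γ, ?_⟩
  rw [← h.2]
  exact Finset.single_le_sum (fun a _ => h.1 a) (mem_univ γ)

/-- the cell alphabet -/
abbrev Kap (r : ℕ) : Type := Fin 3 → Fin r → Bool

/-- the Ramsey alphabet -/
abbrev Col (r M : ℕ) : Type := (Kap r → Fin (M + 1)) × (Kap r → Fin (M + 1)) ×
  (Kap r → Fin (M + 1)) × (Kap r × Kap r × Kap r → Fin (M + 1))

instance instFintypeCol (r M : ℕ) : Fintype (Col r M) := Fintype.ofFinite _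

theorem noRS_aux (c d δ ζ t : ℝ) (hδ : 0 < δ) (hζ : 0 < ζ) (ht : 0 < t)
    (hd : c + 3 * δ ≤ d)
    (hsat : ∀ (κ : Type) [Fintype κ] (ν : κ → ℝ) (w : κ → κ → κ → ℝ), IsProb ν →
      (∀ a b c, 0 ≤ w a b c ∧ w a b c ≤ 1) → c + δ ≤ D3gen ν ν ν w →
      ζ ≤ K4gen ν ν ν ν ν ν w w w w)
    (ht6 : 6 * Real.sqrt t ≤ ζ / 8) (m M4 r M3 : ℕ) (hm : 0 < m) (hM4 : 0 < M4) (hr : 0 < r)
    (hM3 : 0 < M3)
    (htt : Real.sqrt (4 / (m : ℝ) + 4 * (1 / (M4 : ℝ))) + Real.sqrt (1 / (r : ℝ)) ≤ t)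
    (h3a : (6 * (Fintype.card (Kap r) : ℝ) + 4) * (1 / (M3 : ℝ)) ≤ ζ / 8)
    (h3b : (3 * (Fintype.card (Kap r) : ℝ) + 1) * (1 / (M3 : ℝ)) ≤ δ) :
    ∃ n : ℕ, ∀ (Γ : Type) [Fintype Γ] (μ : ℕ → ℕ → Γ → ℝ)
      (W : ℕ → ℕ → ℕ → Γ → Γ → Γ → ℝ), (∀ i j l a b c, W i j l a b c = 0 ∨ W i j l a b c = 1) →
        ¬ IsRS n μ W (d - δ) (ζ / 8) := by
  classical
  obtain ⟨n2, hn2⟩ := ramsey3 (Col r M3) 4
  set K : ℕ := 3 * m with hK
  set n1 : ℕ := n2 ^ 2 + K * n2 ^ 4 + 1 with hn1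
  obtain ⟨N, hN⟩ := homSet M4 ((n1 + 1) * (m + 1)) hM4
  refine ⟨N, ?_⟩
  intro Γ _ μ W hW h
  obtain ⟨S, hSN, hScard, ρ, hρ, hG⟩ := hN Γ μ W _ _ h
  obtain ⟨I, hIS, hIcard, hIpos⟩ := spread m n1 S (by rw [hScard])
  have hgT : ∀ i j v (x : Γ × Γ) a, gT W i j v x a = 0 ∨ gT W i j v x a = 1 := by
    intro i j v x a
    unfold gT
    split_ifs
    · exact hW _ _ _ _ _ _
    · exact hW _ _ _ _ _ _
    · exact hW _ _ _ _ _ _
  have hgT' : ∀ i j v (x : Γ × Γ) a, 0 ≤ gT W i j v x a ∧ gT W i j v x a ≤ 1 := by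
    intro i j v x a
    rcases hgT i j v x a with h0 | h0 <;> rw [h0] <;> norm_num
  have hposmem : ∀ i j t v, v ∈ posSet S i j t → v ∈ S ∧
      ((t = 0 ∧ j < v) ∨ (t = 1 ∧ i < v ∧ v < j) ∨ (t = 2 ∧ v < i)) := by
    intro i j t v hv
    unfold posSet at hv
    rw [mem_filter] at hv
    exact hv
  have hcol : ∀ i j : ℕ, ∃ c : Γ → (Kap r), i ∈ I → j ∈ I → i < j → ∀ t, ∀ B : Finset ℕ,
      B ⊆ posSet S i j t → m ≤ B.card →
      ∀ (q' : Γ × Γ → ℝ) (g' : Γ × Γ → Γ → ℝ), IsProb q' → (∀ x a, 0 ≤ g' x a ∧ g' x a ≤ 1) →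
        ∑ v ∈ B, beta (μ i j) c q' g' (qT μ i j v) (gT W i j v)
          ≤ (B.card : ℝ) * (Real.sqrt (4 / (m : ℝ) + 4 * (1 / (M4 : ℝ)))
            + Real.sqrt (1 / (r : ℝ))) := by
    intro i j
    by_cases hc : i ∈ I ∧ j ∈ I ∧ i < j
    · obtain ⟨hi, hj, hij⟩ := hc
      have hjN : j < N := hSN j (hIS hj)
      obtain ⟨c0, hc0⟩ := exists_coloring (μ i j) (h.prob i j hij hjN)
        (fun v => qT μ i j v) (fun v => gT W i j v) (posSet S i j) (posSet S i j)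
        (by
          intro t v hv
          obtain ⟨hvS, hpos⟩ := hposmem i j t v hv
          refine qT_prob N μ h.prob i j v hij hjN (hSN v hvS) ?_ ?_
          · rcases hpos with ⟨_, h1⟩ | ⟨_, h1, h2⟩ | ⟨_, h1⟩ <;> omega
          · rcases hpos with ⟨_, h1⟩ | ⟨_, h1, h2⟩ | ⟨_, h1⟩ <;> omega)
        (fun v x a => hgT i j v x a) (fun t => Subset.rfl) m hm
        (fun t => hIpos i hi j hj hij t) ρ hρ (1 / (M4 : ℝ)) (by positivity)
        (by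
          intro t v hv v' hv' hne
          exact hG i (hIS hi) j (hIS hj) hij t v hv v' hv' hne) r hr
      exact ⟨c0, fun _ _ _ => hc0⟩
    · exact ⟨fun _ => fun _ _ => true, fun h1 h2 h3 => absurd ⟨h1, h2, h3⟩ hc⟩
  choose cc hcc using hcol
  -- bad vertices
  let Bad : ℕ → ℕ → ℕ → Finset ℕ := fun i j z =>
    if i < j ∧ i ∈ I ∧ j ∈ I ∧ z ∈ I ∧ z ≠ i ∧ z ≠ j then
      I.filter (fun v => v ≠ i ∧ v ≠ j ∧ t < bt μ W cc i j z v) else ∅
  have hBad : ∀ i j z, (Bad i j z).card ≤ K := by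
    intro i j z
    by_cases hc : i < j ∧ i ∈ I ∧ j ∈ I ∧ z ∈ I ∧ z ≠ i ∧ z ≠ j
    · obtain ⟨hij, hi, hj, hz, hzi, hzj⟩ := hc
      have hjN : j < N := hSN j (hIS hj)
      have hzN : z < N := hSN z (hIS hz)
      have hsub : Bad i j z ⊆ (univ : Finset (Fin 3)).biUnion
          (fun s => (posSet S i j s).filter (fun v => t < bt μ W cc i j z v)) := by
        intro v hv
        have hv' : v ∈ I.filter (fun v => v ≠ i ∧ v ≠ j ∧ t < bt μ W cc i j z v) := by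
          simpa [Bad, hij, hi, hj, hz, hzi, hzj] using hv
        rw [mem_filter] at hv'
        obtain ⟨hvI, hvi, hvj, hvt⟩ := hv'
        rw [mem_biUnion]
        rcases lt_trichotomy j v with h1 | h1 | h1
        · refine ⟨0, mem_univ _, ?_⟩
          rw [mem_filter]
          refine ⟨?_, hvt⟩
          unfold posSet
          rw [mem_filter]
          exact ⟨hIS hvI, Or.inl ⟨rfl, h1⟩⟩
        · exact absurd h1.symm hvj
        · rcases lt_trichotomy i v with h2 | h2 | h2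
          · refine ⟨1, mem_univ _, ?_⟩
            rw [mem_filter]
            refine ⟨?_, hvt⟩
            unfold posSet
            rw [mem_filter]
            exact ⟨hIS hvI, Or.inr (Or.inl ⟨rfl, h2, h1⟩)⟩
          · exact absurd h2.symm hvi
          · refine ⟨2, mem_univ _, ?_⟩
            rw [mem_filter]
            refine ⟨?_, hvt⟩
            unfold posSet
            rw [mem_filter]
            exact ⟨hIS hvI, Or.inr (Or.inr ⟨rfl, h2⟩)⟩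
      have hone : ∀ s : Fin 3, ((posSet S i j s).filter
          (fun v => t < bt μ W cc i j z v)).card ≤ m := by
        intro s
        by_contra hgt
        push Not at hgt
        set B := (posSet S i j s).filter (fun v => t < bt μ W cc i j z v) with hB
        have hqz : IsProb (qT μ i j z) := qT_prob N μ h.prob i j z hij hjN hzN hzi hzj
        have hle := hcc i j hi hj hij s B (filter_subset _ _) hgt.le (qT μ i j z) (gT W i j z)
          hqz (hgT' i j z)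
        have hBpos : 0 < B.card := lt_of_le_of_lt (Nat.zero_le m) hgt
        have hlt : ∑ v ∈ B, t < ∑ v ∈ B, beta (μ i j) (cc i j) (qT μ i j z) (gT W i j z)
            (qT μ i j v) (gT W i j v) := by
          apply Finset.sum_lt_sum_of_nonempty (card_pos.1 hBpos)
          intro v hv
          rw [hB, mem_filter] at hv
          exact hv.2
        rw [sum_const, nsmul_eq_mul] at hlt
        have : (B.card : ℝ) * (Real.sqrt (4 / (m : ℝ) + 4 * (1 / (M4 : ℝ)))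
            + Real.sqrt (1 / (r : ℝ))) ≤ (B.card : ℝ) * t :=
          mul_le_mul_of_nonneg_left htt (Nat.cast_nonneg _)
        linarith
      calc (Bad i j z).card ≤ _ := card_le_card hsub
        _ ≤ ∑ s : Fin 3, ((posSet S i j s).filter
          (fun v => t < bt μ W cc i j z v)).card := card_biUnion_le
        _ ≤ ∑ s : Fin 3, m := Finset.sum_le_sum (fun s _ => hone s)
        _ = K := by simp [hK]
    · have : Bad i j z = ∅ := by simp only [Bad]; rw [if_neg hc]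
      rw [this]
      simp
  obtain ⟨I', hI'I, hI'card, hI'⟩ := avoid n2 K I (by rw [hIcard, hn1]; omega) Bad hBad
  have hbt : ∀ i ∈ I', ∀ j ∈ I', ∀ z ∈ I', ∀ v ∈ I', i < j → i ≠ z → i ≠ v → j ≠ z → j ≠ v →
      z ≠ v → bt μ W cc i j z v ≤ t := by
    intro i hi j hj z hz v hv hij h1 h2 h3 h4 h5
    by_contra hgt
    push Not at hgt
    apply hI' i hi j hj z hz v hv hij.ne h1 h2 h3 h4 h5
    have hc : i < j ∧ i ∈ I ∧ j ∈ I ∧ z ∈ I ∧ z ≠ i ∧ z ≠ j :=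
      ⟨hij, hI'I hi, hI'I hj, hI'I hz, h1.symm, h3.symm⟩
    show v ∈ (if i < j ∧ i ∈ I ∧ j ∈ I ∧ z ∈ I ∧ z ≠ i ∧ z ≠ j then
      I.filter (fun v => v ≠ i ∧ v ≠ j ∧ t < bt μ W cc i j z v) else ∅)
    rw [if_pos hc, mem_filter]
    exact ⟨hI'I hv, h2.symm, h4.symm, hgt⟩
  -- Ramsey for triples
  obtain ⟨H, hHI', hHcard, c0, hc0⟩ := hn2 I' (by rw [hI'card]) (fun x y z =>
    (fun γ => code M3 (pwp μ cc x y γ), fun γ => code M3 (pwp μ cc x z γ),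
      fun γ => code M3 (pwp μ cc y z γ), fun p => code M3 (cvp μ W cc x y z p.1 p.2.1 p.2.2)))
  have hHN : ∀ x ∈ H, x < N := fun x hx => hSN x (hIS (hI'I (hHI' hx)))
  let em := H.orderEmbOfFin hHcard
  have hem : ∀ i, em i ∈ H := fun i => H.orderEmbOfFin_mem hHcard i
  have hlt : ∀ i j : Fin 4, i < j → em i < em j := fun i j hij => em.strictMono hij
  set x1 := em 0
  set x2 := em 1
  set x3 := em 2
  set x4 := em 3
  have h12 : x1 < x2 := hlt 0 1 (by decide)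
  have h13 : x1 < x3 := hlt 0 2 (by decide)
  have h14 : x1 < x4 := hlt 0 3 (by decide)
  have h23 : x2 < x3 := hlt 1 2 (by decide)
  have h24 : x2 < x4 := hlt 1 3 (by decide)
  have h34 : x3 < x4 := hlt 2 3 (by decide)
  have m1 : x1 ∈ H := hem 0
  have m2 : x2 ∈ H := hem 1
  have m3 : x3 ∈ H := hem 2
  have m4 : x4 ∈ H := hem 3
  have n1' := hHN _ m1
  have n2' := hHN _ m2
  have n3' := hHN _ m3
  have n4' := hHN _ m4
  have C123 := hc0 x1 m1 x2 m2 x3 m3 h12 h23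
  have C124 := hc0 x1 m1 x2 m2 x4 m4 h12 h24
  have C134 := hc0 x1 m1 x3 m3 x4 m4 h13 h34
  have C234 := hc0 x2 m2 x3 m3 x4 m4 h23 h34
  -- codes of the pairs
  have A12 : ∀ γ, code M3 (pwp μ cc x1 x2 γ) = c0.1 γ := fun γ => by rw [← C123]
  have A13 : ∀ γ, code M3 (pwp μ cc x1 x3 γ) = c0.1 γ := fun γ => by rw [← C134]
  have A23 : ∀ γ, code M3 (pwp μ cc x2 x3 γ) = c0.1 γ := fun γ => by rw [← C234]
  have A13' : ∀ γ, code M3 (pwp μ cc x1 x3 γ) = c0.2.1 γ := fun γ => by rw [← C123]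
  have A14' : ∀ γ, code M3 (pwp μ cc x1 x4 γ) = c0.2.1 γ := fun γ => by rw [← C124]
  have A24' : ∀ γ, code M3 (pwp μ cc x2 x4 γ) = c0.2.1 γ := fun γ => by rw [← C234]
  have A23'' : ∀ γ, code M3 (pwp μ cc x2 x3 γ) = c0.2.2.1 γ := fun γ => by rw [← C123]
  have A34'' : ∀ γ, code M3 (pwp μ cc x3 x4 γ) = c0.2.2.1 γ := fun γ => by rw [← C134]
  have E1 : ∀ γ, c0.2.1 γ = c0.1 γ := fun γ => by rw [← A13', A13]
  have E2 : ∀ γ, c0.2.2.1 γ = c0.1 γ := fun γ => by rw [← A23'', A23]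
  have W123 : ∀ a b c, code M3 (cvp μ W cc x1 x2 x3 a b c) = c0.2.2.2 (a, b, c) :=
    fun a b c => by rw [← C123]
  have W124 : ∀ a b c, code M3 (cvp μ W cc x1 x2 x4 a b c) = c0.2.2.2 (a, b, c) :=
    fun a b c => by rw [← C124]
  have W134 : ∀ a b c, code M3 (cvp μ W cc x1 x3 x4 a b c) = c0.2.2.2 (a, b, c) :=
    fun a b c => by rw [← C134]
  have W234 : ∀ a b c, code M3 (cvp μ W cc x2 x3 x4 a b c) = c0.2.2.2 (a, b, c) :=
    fun a b c => by rw [← C234]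
  have P12 := h.prob x1 x2 h12 n2'
  have P13 := h.prob x1 x3 h13 n3'
  have P14 := h.prob x1 x4 h14 n4'
  have P23 := h.prob x2 x3 h23 n3'
  have P24 := h.prob x2 x4 h24 n4'
  have P34 := h.prob x3 x4 h34 n4'
  have hWb : ∀ i j l : ℕ, ∀ a b c : Γ, 0 ≤ W i j l a b c ∧ W i j l a b c ≤ 1 :=
    fun i j l a b c => ⟨h.nonneg i j l a b c, h.le_one i j l a b c⟩
  have bv : ∀ i j l, IsProb (μ i j) → IsProb (μ i l) → IsProb (μ j l) → ∀ a b c,
      0 ≤ cvp μ W cc i j l a b c ∧ cvp μ W cc i j l a b c ≤ 1 := by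
    intro i j l hij hil hjl a b c
    exact cv_bounds _ _ _ hij.1 hil.1 hjl.1 _ _ _ _ (hWb i j l) a b c
  have cl : ∀ (p q : (Kap r) → ℝ), (∀ γ, 0 ≤ p γ ∧ p γ ≤ 1) → (∀ γ, 0 ≤ q γ ∧ q γ ≤ 1) →
      (∀ γ, code M3 (p γ) = code M3 (q γ)) → ∀ γ, |p γ - q γ| ≤ 1 / (M3 : ℝ) :=
    fun p q hp hq hpq γ => code_close M3 hM3 _ _ (hp γ) (hq γ) (hpq γ)
  have b12 : ∀ γ, 0 ≤ pwp μ cc x1 x2 γ ∧ pwp μ cc x1 x2 γ ≤ 1 := pw_bounds _ P12 _
  have b13 : ∀ γ, 0 ≤ pwp μ cc x1 x3 γ ∧ pwp μ cc x1 x3 γ ≤ 1 := pw_bounds _ P13 _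
  have b14 : ∀ γ, 0 ≤ pwp μ cc x1 x4 γ ∧ pwp μ cc x1 x4 γ ≤ 1 := pw_bounds _ P14 _
  have b23 : ∀ γ, 0 ≤ pwp μ cc x2 x3 γ ∧ pwp μ cc x2 x3 γ ≤ 1 := pw_bounds _ P23 _
  have b24 : ∀ γ, 0 ≤ pwp μ cc x2 x4 γ ∧ pwp μ cc x2 x4 γ ≤ 1 := pw_bounds _ P24 _
  have b34 : ∀ γ, 0 ≤ pwp μ cc x3 x4 γ ∧ pwp μ cc x3 x4 γ ≤ 1 := pw_bounds _ P34 _
  have clv : ∀ (A w : (Kap r) → (Kap r) → (Kap r) → ℝ), (∀ a b c, 0 ≤ A a b c ∧ A a b c ≤ 1) →
      (∀ a b c, 0 ≤ w a b c ∧ w a b c ≤ 1) → (∀ a b c, code M3 (A a b c) = code M3 (w a b c)) →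
      ∀ a b c, |A a b c - w a b c| ≤ 1 / (M3 : ℝ) :=
    fun A w hA hw hAw a b c => code_close M3 hM3 _ _ (hA a b c) (hw a b c) (hAw a b c)
  have v123 := bv x1 x2 x3 P12 P13 P23
  have v124 := bv x1 x2 x4 P12 P14 P24
  have v134 := bv x1 x3 x4 P13 P14 P34
  have v234 := bv x2 x3 x4 P23 P24 P34
  have prob12 : IsProb (pwp μ cc x1 x2) := pw_prob _ P12 _
  have prob13 : IsProb (pwp μ cc x1 x3) := pw_prob _ P13 _
  have prob14 : IsProb (pwp μ cc x1 x4) := pw_prob _ P14 _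
  have prob23 : IsProb (pwp μ cc x2 x3) := pw_prob _ P23 _
  have prob24 : IsProb (pwp μ cc x2 x4) := pw_prob _ P24 _
  have prob34 : IsProb (pwp μ cc x3 x4) := pw_prob _ P34 _
  have hM3' : (0 : ℝ) ≤ 1 / (M3 : ℝ) := by positivity
  have i1 := hHI' m1
  have i2 := hHI' m2
  have i3 := hHI' m3
  have i4 := hHI' m4
  have K4c := cells_K4 N μ W _ _ h cc x1 x2 x3 x4 h12 h23 h34 n4' t
    (hbt x1 i1 x2 i2 x3 i3 x4 i4 h12 h13.ne h14.ne h23.ne h24.ne h34.ne)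
    (hbt x1 i1 x3 i3 x2 i2 x4 i4 h13 h12.ne h14.ne h23.ne' h34.ne h24.ne)
    (hbt x2 i2 x3 i3 x1 i1 x4 i4 h23 h12.ne' h24.ne h13.ne' h34.ne h14.ne)
    (hbt x1 i1 x4 i4 x2 i2 x3 i3 h14 h12.ne h13.ne h24.ne' h34.ne' h23.ne)
    (hbt x2 i2 x4 i4 x1 i1 x3 i3 h24 h12.ne' h23.ne h14.ne' h34.ne' h13.ne)
    (hbt x3 i3 x4 i4 x1 i1 x2 i2 h34 h13.ne' h23.ne' h14.ne' h24.ne' h12.ne)
  have D3c := cells_D3 N μ W _ _ h cc x1 x2 x3 h12 h23 n3'
  have close4 := close_K4 (pwp μ cc x1 x2) (pwp μ cc x1 x3) (pwp μ cc x1 x4) (pwp μ cc x2 x3)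
    (pwp μ cc x2 x4) (pwp μ cc x3 x4) (pwp μ cc x1 x2) prob12 prob13 prob14 prob23 prob24 prob34
    prob12 (cvp μ W cc x1 x2 x3) (cvp μ W cc x1 x2 x4) (cvp μ W cc x1 x3 x4)
    (cvp μ W cc x2 x3 x4) (cvp μ W cc x1 x2 x3) v123 v124 v134 v234 v123 (1 / (M3 : ℝ)) hM3'
    (cl _ _ b12 b12 (fun γ => rfl))
    (cl _ _ b13 b12 (fun γ => by rw [A13, A12]))
    (cl _ _ b14 b12 (fun γ => by rw [A14', A12, E1]))
    (cl _ _ b23 b12 (fun γ => by rw [A23, A12]))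
    (cl _ _ b24 b12 (fun γ => by rw [A24', A12, E1]))
    (cl _ _ b34 b12 (fun γ => by rw [A34'', A12, E2]))
    (clv _ _ v123 v123 (fun a b c => rfl))
    (clv _ _ v124 v123 (fun a b c => by rw [W124, W123]))
    (clv _ _ v134 v123 (fun a b c => by rw [W134, W123]))
    (clv _ _ v234 v123 (fun a b c => by rw [W234, W123]))
  have close3 := close_D3 (pwp μ cc x1 x2) (pwp μ cc x1 x3) (pwp μ cc x2 x3) (pwp μ cc x1 x2)
    prob12 prob13 prob23 prob12 (cvp μ W cc x1 x2 x3) (cvp μ W cc x1 x2 x3) v123 v123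
    (1 / (M3 : ℝ)) hM3'
    (cl _ _ b12 b12 (fun γ => rfl))
    (cl _ _ b13 b12 (fun γ => by rw [A13, A12]))
    (cl _ _ b23 b12 (fun γ => by rw [A23, A12]))
    (clv _ _ v123 v123 (fun a b c => rfl))
  have hfin := hsat (Kap r) (pwp μ cc x1 x2) (cvp μ W cc x1 x2 x3) prob12 v123 (by linarith)
  linarith

theorem noRS (c : ℝ) (hPL : PL c) (d : ℝ) (hd : c < d) :
    ∃ n : ℕ, ∃ ε : ℝ, 0 < ε ∧ ∀ (Γ : Type) [Fintype Γ] (μ : ℕ → ℕ → Γ → ℝ)
      (W : ℕ → ℕ → ℕ → Γ → Γ → Γ → ℝ), ¬ IsRS n μ W d ε := by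
  classical
  set δ : ℝ := (d - c) / 4 with hδdef
  have hδ : 0 < δ := by rw [hδdef]; linarith
  obtain ⟨ζ, hζ, hsat⟩ := supersat c hPL δ hδ
  set t : ℝ := (ζ / 48) ^ 2 with htdef
  have ht : 0 < t := by rw [htdef]; positivity
  have ht6 : 6 * Real.sqrt t ≤ ζ / 8 := by
    rw [htdef, Real.sqrt_sq (by positivity)]
    linarith
  obtain ⟨m, hm⟩ := exists_nat_gt (32 / t ^ 2)
  obtain ⟨r, hr⟩ := exists_nat_gt (4 / t ^ 2)
  have hmpos : (0 : ℝ) < m := lt_trans (by positivity) hm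
  have hrpos : (0 : ℝ) < r := lt_trans (by positivity) hr
  have ht2 : 0 < t ^ 2 := by positivity
  have hm' : 4 / (m : ℝ) ≤ t ^ 2 / 8 := by
    rw [div_le_div_iff₀ hmpos (by norm_num)]
    have := (div_lt_iff₀ ht2).1 hm
    nlinarith
  have hr' : 1 / (r : ℝ) ≤ (t / 2) ^ 2 := by
    rw [div_le_iff₀ hrpos]
    have := (div_lt_iff₀ ht2).1 hr
    nlinarith
  have htt : Real.sqrt (4 / (m : ℝ) + 4 * (1 / (m : ℝ))) + Real.sqrt (1 / (r : ℝ)) ≤ t := by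
    have s1 : Real.sqrt (4 / (m : ℝ) + 4 * (1 / (m : ℝ))) ≤ t / 2 := by
      apply Real.sqrt_le_iff.2
      refine ⟨by positivity, ?_⟩
      have : 4 * (1 / (m : ℝ)) = 4 / m := by ring
      rw [this]
      nlinarith
    have s2 : Real.sqrt (1 / (r : ℝ)) ≤ t / 2 := by
      apply Real.sqrt_le_iff.2
      exact ⟨by positivity, hr'⟩
    linarith
  set kc : ℝ := (Fintype.card (Kap r) : ℝ) with hkc
  have hkc0 : 0 ≤ kc := Nat.cast_nonneg _
  obtain ⟨M3, hM3⟩ := exists_nat_gt (max ((6 * kc + 4) / (ζ / 8)) ((3 * kc + 1) / δ))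
  have hM3a := lt_of_le_of_lt (le_max_left _ _) hM3
  have hM3b := lt_of_le_of_lt (le_max_right _ _) hM3
  have hM3pos : (0 : ℝ) < M3 := lt_of_le_of_lt (by positivity) hM3a
  have h3a : (6 * kc + 4) * (1 / (M3 : ℝ)) ≤ ζ / 8 := by
    rw [mul_one_div, div_le_iff₀ hM3pos]
    have := (div_lt_iff₀ (by positivity)).1 hM3a
    nlinarith
  have h3b : (3 * kc + 1) * (1 / (M3 : ℝ)) ≤ δ := by
    rw [mul_one_div, div_le_iff₀ hM3pos]
    have := (div_lt_iff₀ (by positivity)).1 hM3b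
    nlinarith
  have hm0 : 0 < m := by exact_mod_cast hmpos
  have hr0 : 0 < r := by exact_mod_cast hrpos
  have hM30 : 0 < M3 := by exact_mod_cast hM3pos
  obtain ⟨n, hn⟩ := noRS_aux c d δ ζ t hδ hζ ht (by rw [hδdef]; linarith) hsat ht6 m m r M3 hm0
    hm0 hr0 hM30 htt h3a h3b
  refine ⟨n, δ ^ 4 * (ζ / 8), by positivity, ?_⟩
  intro Γ _ μ W h
  have h' := thresh n μ W d _ δ hδ h
  have he : δ ^ 4 * (ζ / 8) / δ ^ 4 = ζ / 8 := by
    field_simp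
  rw [he] at h'
  refine hn Γ μ _ ?_ h'
  intro i j l a b c
  split_ifs
  · exact Or.inr rfl
  · exact Or.inl rfl

end

end Pool.UT
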