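/-
UT DensLow: the density hypothesis on type classes.

PROOF. 1_Q(types) * h = ∑ over (t1,t2,t3) with Q t1 t2 t3 of 1[ty x1 = t1] 1[ty x2 = t2] 1[ty x3 = t3] h.
For each (t1,t2,t3) apply the hypothesis to X = {x | ty h s x = t1} etc., divide by |V|^3, and sum over
at most (card Θ)^3 triples, Θ = A ⊕ B → A ⊕ B → Bool.
-/
import Pool.Agent.H95.UT.AvgLemmas

set_option autoImplicit false

namespace Pool.UT

open Finset

variable {V : Type} [Fintype V]

/-- (d,η)-density of a symmetric Boolean function -/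
def IsDense (h : V → V → V → Bool) (d η : ℝ) : Prop :=
  ∀ X Y Z : Finset V, d * (X.card : ℝ) * (Y.card : ℝ) * (Z.card : ℝ)
      - η * (Fintype.card V : ℝ) ^ 3
    ≤ (((X ×ˢ Y ×ˢ Z).filter (fun p => h p.1 p.2.1 p.2.2 = true)).card : ℝ)

private theorem DensLow_avg (F : V × V × V → ℝ) :
    avg F = (1 / ((Fintype.card V : ℝ) ^ 3)) * ∑ x, F x := by
  unfold avg unif
  rw [← Finset.mul_sum]
  have : (Fintype.card (V × V × V) : ℝ) = (Fintype.card V : ℝ) ^ 3 := by
    rw [Fintype.card_prod, Fintype.card_prod]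
    push_cast
    ring
  rw [this]

private theorem DensLow_key {Θ : Type} [DecidableEq Θ] (t : V → Θ)
    (h : V → V → V → Bool) (d η : ℝ) (hη : 0 ≤ η) (hd : IsDense h d η)
    (Q : Θ → Θ → Θ → Prop) [∀ a b c, Decidable (Q a b c)] (τ : Θ × Θ × Θ) :
    d * (∑ x : V × V × V with (t x.1, t x.2.1, t x.2.2) = τ,
        if Q (t x.1) (t x.2.1) (t x.2.2) then (1 : ℝ) else 0)
      - η * (Fintype.card V : ℝ) ^ 3
      ≤ ∑ x : V × V × V with (t x.1, t x.2.1, t x.2.2) = τ,
        if Q (t x.1) (t x.2.1) (t x.2.2) then hR h x.1 x.2.1 x.2.2 else 0 := by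
  have e1 : ∀ (F : V × V × V → ℝ), (∑ x : V × V × V with (t x.1, t x.2.1, t x.2.2) = τ,
      if Q (t x.1) (t x.2.1) (t x.2.2) then F x else 0) =
      ∑ x : V × V × V with (t x.1, t x.2.1, t x.2.2) = τ,
      if Q τ.1 τ.2.1 τ.2.2 then F x else 0 := by
    intro F
    refine Finset.sum_congr rfl (fun x hx => ?_)
    have hx' := (Finset.mem_filter.mp hx).2
    subst hx'
    rfl
  rw [e1 (fun _ => 1), e1 (fun x => hR h x.1 x.2.1 x.2.2)]
  by_cases hQ : Q τ.1 τ.2.1 τ.2.2
  · simp only [if_pos hQ]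
    have hfib : (Finset.univ.filter (fun x : V × V × V => (t x.1, t x.2.1, t x.2.2) = τ)) =
        (Finset.univ.filter (fun x => t x = τ.1)) ×ˢ (Finset.univ.filter (fun x => t x = τ.2.1)) ×ˢ
          (Finset.univ.filter (fun x => t x = τ.2.2)) := by
      ext x
      simp only [Finset.mem_filter, Finset.mem_univ, true_and, Finset.mem_product]
      constructor
      · rintro rfl
        exact ⟨rfl, rfl, rfl⟩
      · rintro ⟨h1, h2, h3⟩
        rw [h1, h2, h3]
    rw [hfib]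
    have h1 := hd (Finset.univ.filter (fun x => t x = τ.1)) (Finset.univ.filter (fun x => t x = τ.2.1))
      (Finset.univ.filter (fun x => t x = τ.2.2))
    generalize (Finset.univ.filter (fun x => t x = τ.1)) = X at *
    generalize (Finset.univ.filter (fun x => t x = τ.2.1)) = Y at *
    generalize (Finset.univ.filter (fun x => t x = τ.2.2)) = Z at *
    have h2 : ∑ x ∈ X ×ˢ Y ×ˢ Z, hR h x.1 x.2.1 x.2.2 =
        (((X ×ˢ Y ×ˢ Z).filter (fun p => h p.1 p.2.1 p.2.2 = true)).card : ℝ) := by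
      unfold hR
      rw [Finset.sum_boole]
    rw [h2, Finset.sum_const, nsmul_eq_mul, mul_one, Finset.card_product, Finset.card_product]
    push_cast
    linarith
  · simp only [if_neg hQ, Finset.sum_const_zero, mul_zero]
    have : 0 ≤ η * (Fintype.card V : ℝ) ^ 3 := by positivity
    linarith

private theorem DensLow_sum {Θ : Type} [Fintype Θ] [DecidableEq Θ] (t : V → Θ)
    (h : V → V → V → Bool) (d η : ℝ) (hη : 0 ≤ η) (hd : IsDense h d η)
    (Q : Θ → Θ → Θ → Prop) [∀ a b c, Decidable (Q a b c)] :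
    d * (∑ x : V × V × V, if Q (t x.1) (t x.2.1) (t x.2.2) then (1 : ℝ) else 0)
      - η * (Fintype.card Θ : ℝ) ^ 3 * (Fintype.card V : ℝ) ^ 3
      ≤ ∑ x : V × V × V, if Q (t x.1) (t x.2.1) (t x.2.2) then hR h x.1 x.2.1 x.2.2 else 0 := by
  have hsum := Finset.sum_le_sum (fun (τ : Θ × Θ × Θ) (_ : τ ∈ Finset.univ) =>
    DensLow_key t h d η hη hd Q τ)
  rw [Finset.sum_sub_distrib, ← Finset.mul_sum, Finset.sum_fiberwise, Finset.sum_fiberwise,
    Finset.sum_const, nsmul_eq_mul, Finset.card_univ, Fintype.card_prod, Fintype.card_prod] at hsum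
  push_cast at hsum
  refine le_trans (le_of_eq ?_) hsum
  ring

open Classical in
theorem dens_low [Nonempty V] {A B : Type} [Fintype A] [Fintype B] [DecidableEq A] [DecidableEq B]
    (h : V → V → V → Bool) (d η : ℝ) (hη : 0 ≤ η) (hd : IsDense h d η) (s : A ⊕ B → V)
    (Q : (A ⊕ B → A ⊕ B → Bool) → (A ⊕ B → A ⊕ B → Bool) → (A ⊕ B → A ⊕ B → Bool) → Prop) :
    d * avg (fun x : V × V × V =>
        if Q (ty h s x.1) (ty h s x.2.1) (ty h s x.2.2) then (1 : ℝ) else 0)
      - η * (Fintype.card (A ⊕ B → A ⊕ B → Bool) : ℝ) ^ 3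
      ≤ avg (fun x : V × V × V =>
        if Q (ty h s x.1) (ty h s x.2.1) (ty h s x.2.2) then hR h x.1 x.2.1 x.2.2 else 0) := by
  have hN : (0 : ℝ) < (Fintype.card V : ℝ) := by exact_mod_cast Fintype.card_pos
  have hN3 : (0 : ℝ) < (Fintype.card V : ℝ) ^ 3 := by positivity
  rw [DensLow_avg, DensLow_avg]
  have h1 := DensLow_sum (ty h s) h d η hη hd Q
  generalize (∑ x : V × V × V,
    if Q (ty h s x.1) (ty h s x.2.1) (ty h s x.2.2) then (1 : ℝ) else 0) = S1 at *
  generalize (∑ x : V × V × V,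
    if Q (ty h s x.1) (ty h s x.2.1) (ty h s x.2.2) then hR h x.1 x.2.1 x.2.2 else 0) = S2 at *
  generalize (Fintype.card (A ⊕ B → A ⊕ B → Bool) : ℝ) = Θc at *
  have h2 : d * (1 / (Fintype.card V : ℝ) ^ 3 * S1) - η * Θc ^ 3 =
      (1 / (Fintype.card V : ℝ) ^ 3) * (d * S1 - η * Θc ^ 3 * (Fintype.card V : ℝ) ^ 3) := by
    field_simp
  rw [h2]
  exact mul_le_mul_of_nonneg_left h1 (by positivity)

end Pool.UT
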