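import Mathlib

set_option autoImplicit false

/-!
Lower bound for the uniform Turan density of the 3-uniform clique on four vertices (explicit Walsh construction).
-/

namespace Pool.Agent.H53.K4Lower

open Finset

section Walsh

variable {k : ℕ}

/-- one coordinate of the Walsh sign -/
noncomputable def eps (x y : Bool) : ℝ := if (x && y) = true then -1 else 1

/-- Walsh sign -/
noncomputable def walsh (u w : Fin k → Bool) : ℝ := ∏ i, eps (u i) (w i)

lemma eps_sq (x y : Bool) : eps x y * eps x y = 1 := by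
  unfold eps; split_ifs <;> norm_num

lemma eps_pm (x y : Bool) : eps x y = 1 ∨ eps x y = -1 := by
  unfold eps; split_ifs <;> simp

lemma walsh_pm (u w : Fin k → Bool) : walsh u w = 1 ∨ walsh u w = -1 := by
  have h : walsh u w * walsh u w = 1 := by
    unfold walsh
    rw [← Finset.prod_mul_distrib]
    exact Finset.prod_eq_one (fun i _ => eps_sq _ _)
  have h2 : (walsh u w - 1) * (walsh u w + 1) = 0 := by ring_nf; rw [pow_two, h]; ring
  rcases mul_eq_zero.mp h2 with h3 | h3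
  · left; linarith
  · right; linarith

lemma walsh_orth (w w' : Fin k → Bool) :
    ∑ u : Fin k → Bool, walsh u w * walsh u w' = if w = w' then (2 : ℝ) ^ k else 0 := by
  have h1 : ∀ u : Fin k → Bool, walsh u w * walsh u w' = ∏ i, (eps (u i) (w i) * eps (u i) (w' i)) := by
    intro u; unfold walsh; rw [← Finset.prod_mul_distrib]
  simp_rw [h1]
  have h2 : (∑ u : Fin k → Bool, ∏ i, (eps (u i) (w i) * eps (u i) (w' i)))
      = ∏ i : Fin k, ∑ b : Bool, (eps b (w i) * eps b (w' i)) := by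
    rw [Finset.prod_univ_sum, Fintype.piFinset_univ]
  rw [h2]
  have h3 : ∀ i : Fin k, ∑ b : Bool, (eps b (w i) * eps b (w' i)) = if w i = w' i then 2 else 0 := by
    intro i
    cases w i <;> cases w' i <;> simp [eps] <;> norm_num
  simp_rw [h3]
  by_cases hw : w = w'
  · subst hw; simp
  · rw [if_neg hw]
    obtain ⟨i, hi⟩ := Function.ne_iff.mp hw
    exact Finset.prod_eq_zero (Finset.mem_univ i) (by simp [hi])

lemma sum_sq_walsh (c : (Fin k → Bool) → ℝ) :
    ∑ u : Fin k → Bool, (∑ w, c w * walsh u w) ^ 2 = 2 ^ k * ∑ w, c w ^ 2 := by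
  have h1 : ∀ u : Fin k → Bool, (∑ w, c w * walsh u w) ^ 2
      = ∑ w, ∑ w', c w * c w' * (walsh u w * walsh u w') := by
    intro u
    rw [pow_two, Finset.sum_mul_sum]
    refine Finset.sum_congr rfl fun w _ => Finset.sum_congr rfl fun w' _ => by ring
  simp_rw [h1]
  rw [Finset.sum_comm]
  have h2 : ∀ w : Fin k → Bool, (∑ u : Fin k → Bool, ∑ w', c w * c w' * (walsh u w * walsh u w'))
      = 2 ^ k * c w ^ 2 := by
    intro w
    rw [Finset.sum_comm]
    have h3 : ∀ w' : Fin k → Bool, (∑ u : Fin k → Bool, c w * c w' * (walsh u w * walsh u w'))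
        = if w = w' then 2 ^ k * c w ^ 2 else 0 := by
      intro w'
      rw [← Finset.mul_sum, walsh_orth]
      by_cases hw : w = w'
      · subst hw; simp; ring
      · simp [hw]
    simp_rw [h3]
    simp
  simp_rw [h2]
  rw [Finset.mul_sum]

end Walsh

section Abstract

variable {V : Type*} [Fintype V] [DecidableEq V]

/-- the edge predicate -/
def isEdge (b : V → ℕ) (σ : V → V → ℝ) (e : Finset V) : Prop :=
  e.card = 3 ∧ ∃ i ∈ e, (∀ j ∈ e, j ≠ i → b i < b j) ∧
    ∀ j ∈ e, ∀ l ∈ e, j ≠ i → l ≠ i → j ≠ l → σ i j ≠ σ i l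

lemma no_K4 (b : V → ℕ) (σ : V → V → ℝ) (hσ : ∀ x y, σ x y = 1 ∨ σ x y = -1) (S : Finset V)
    (hS : S.card = 4) (h : ∀ T ∈ S.powersetCard 3, isEdge b σ T) : False := by
  have hne : S.Nonempty := by rw [← Finset.card_pos]; omega
  obtain ⟨i, hi, hmin⟩ := Finset.exists_min_image S b hne
  have hc : ({1, -1} : Finset ℝ).card < (S.erase i).card := by
    rw [Finset.card_erase_of_mem hi, hS]
    refine lt_of_le_of_lt (Finset.card_insert_le _ _) ?_
    simp
  obtain ⟨j, hj, l, hl, hjl, hs⟩ := Finset.exists_ne_map_eq_of_card_lt_of_maps_to hc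
    (f := fun j => σ i j) (by
      intro j _
      rcases hσ i j with h1 | h1 <;> simp [h1])
  have hji : j ≠ i := Finset.ne_of_mem_erase hj
  have hli : l ≠ i := Finset.ne_of_mem_erase hl
  have hjS := Finset.mem_of_mem_erase hj
  have hlS := Finset.mem_of_mem_erase hl
  have hT : ({i, j, l} : Finset V) ∈ S.powersetCard 3 := by
    rw [Finset.mem_powersetCard]
    refine ⟨?_, ?_⟩
    · intro x hx
      simp only [Finset.mem_insert, Finset.mem_singleton] at hx
      rcases hx with rfl | rfl | rfl <;> assumption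
    · rw [Finset.card_eq_three]
      exact ⟨i, j, l, hji.symm, hli.symm, hjl, rfl⟩
  obtain ⟨-, i', hi', hlt, hne'⟩ := h _ hT
  have hii : i' = i := by
    by_contra hcon
    have h1 := hlt i (by simp) (Ne.symm hcon)
    have h2 : i' ∈ S := by
      simp only [Finset.mem_insert, Finset.mem_singleton] at hi'
      rcases hi' with rfl | rfl | rfl <;> assumption
    have h3 := hmin i' h2
    omega
  subst hii
  exact hne' j (by simp) l (by simp) hji hli hjl hs

open Classical in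
/-- the min-indicator -/
noncomputable def g (b : V → ℕ) (x y z : V) : ℝ := if b x < b y ∧ b x < b z then 1 else 0

open Classical in
noncomputable def hh (b : V → ℕ) (x y : V) : ℝ := if b x = b y then 1 else 0

open Classical in
lemma isEdge_of (b : V → ℕ) (σ : V → V → ℝ) (x y z : V) (h1 : b x < b y) (h2 : b x < b z)
    (h3 : σ x y ≠ σ x z) : isEdge b σ {x, y, z} := by
  have hxy : x ≠ y := by rintro rfl; exact absurd h1 (lt_irrefl _)
  have hxz : x ≠ z := by rintro rfl; exact absurd h2 (lt_irrefl _)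
  have hyz : y ≠ z := by rintro rfl; exact h3 rfl
  refine ⟨Finset.card_eq_three.mpr ⟨x, y, z, hxy, hxz, hyz, rfl⟩, x, by simp, ?_, ?_⟩
  · intro j hj hjx
    simp only [Finset.mem_insert, Finset.mem_singleton] at hj
    rcases hj with rfl | rfl | rfl
    · exact absurd rfl hjx
    · exact h1
    · exact h2
  · intro j hj l hl hjx hlx hjl
    simp only [Finset.mem_insert, Finset.mem_singleton] at hj hl
    rcases hj with rfl | rfl | rfl
    · exact absurd rfl hjx
    · rcases hl with rfl | rfl | rfl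
      · exact absurd rfl hlx
      · exact absurd rfl hjl
      · exact h3
    · rcases hl with rfl | rfl | rfl
      · exact absurd rfl hlx
      · exact h3.symm
      · exact absurd rfl hjl

open Classical in
lemma pointwise (b : V → ℕ) (σ : V → V → ℝ) (hσ : ∀ x y, σ x y = 1 ∨ σ x y = -1) (x y z : V) :
    (1 / 2 : ℝ) * (1 - hh b x y - hh b y z - hh b x z)
      - (1 / 2) * (g b x y z * (σ x y * σ x z) + g b y x z * (σ y x * σ y z)
          + g b z x y * (σ z x * σ z y))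
      ≤ if isEdge b σ {x, y, z} then 1 else 0 := by
  have key : ∀ a c : ℝ, (a = 1 ∨ a = -1) → (c = 1 ∨ c = -1) → (a = c ∧ a * c = 1) ∨ (a ≠ c ∧ a * c = -1) := by
    intro a c ha hc
    rcases ha with rfl | rfl <;> rcases hc with rfl | rfl <;> norm_num
  have hind0 : (0 : ℝ) ≤ if isEdge b σ {x, y, z} then 1 else 0 := by split_ifs <;> norm_num
  have e2 : ({y, x, z} : Finset V) = {x, y, z} := by
    ext t; simp only [Finset.mem_insert, Finset.mem_singleton]; tauto
  have e3 : ({z, x, y} : Finset V) = {x, y, z} := by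
    ext t; simp only [Finset.mem_insert, Finset.mem_singleton]; tauto
  have nn : ∀ u v : V, (0 : ℝ) ≤ hh b u v := by intro u v; unfold hh; split_ifs <;> norm_num
  by_cases hx : b x < b y ∧ b x < b z
  · have g1 : g b x y z = 1 := by simp [g, hx]
    have g2 : g b y x z = 0 := by unfold g; rw [if_neg]; omega
    have g3 : g b z x y = 0 := by unfold g; rw [if_neg]; omega
    rw [g1, g2, g3]
    rcases key _ _ (hσ x y) (hσ x z) with ⟨h1, h2⟩ | ⟨h1, h2⟩
    · rw [h2]; linarith [nn x y, nn y z, nn x z]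
    · rw [h2, if_pos (isEdge_of b σ x y z hx.1 hx.2 h1)]; linarith [nn x y, nn y z, nn x z]
  · have g1 : g b x y z = 0 := by simp only [g]; rw [if_neg hx]
    by_cases hy : b y < b x ∧ b y < b z
    · have g2 : g b y x z = 1 := by simp [g, hy]
      have g3 : g b z x y = 0 := by unfold g; rw [if_neg]; omega
      rw [g1, g2, g3]
      rcases key _ _ (hσ y x) (hσ y z) with ⟨h1, h2⟩ | ⟨h1, h2⟩
      · rw [h2]; linarith [nn x y, nn y z, nn x z]
      · rw [h2, if_pos (e2 ▸ isEdge_of b σ y x z hy.1 hy.2 h1)]; linarith [nn x y, nn y z, nn x z]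
    · have g2 : g b y x z = 0 := by simp only [g]; rw [if_neg hy]
      by_cases hz : b z < b x ∧ b z < b y
      · have g3 : g b z x y = 1 := by simp [g, hz]
        rw [g1, g2, g3]
        rcases key _ _ (hσ z x) (hσ z y) with ⟨h1, h2⟩ | ⟨h1, h2⟩
        · rw [h2]; linarith [nn x y, nn y z, nn x z]
        · rw [h2, if_pos (e3 ▸ isEdge_of b σ z x y hz.1 hz.2 h1)]; linarith [nn x y, nn y z, nn x z]
      · have g3 : g b z x y = 0 := by simp only [g]; rw [if_neg hz]
        rw [g1, g2, g3]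
        have : (1 : ℝ) ≤ hh b x y + hh b y z + hh b x z := by
          by_cases c1 : b x = b y
          · have : hh b x y = 1 := by simp [hh, c1]
            linarith [nn y z, nn x z]
          · by_cases c2 : b y = b z
            · have : hh b y z = 1 := by simp [hh, c2]
              linarith [nn x y, nn x z]
            · by_cases c3 : b x = b z
              · have : hh b x z = 1 := by simp [hh, c3]
                linarith [nn x y, nn y z]
              · exfalso; omega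
        linarith

open Classical in
/-- truncated sign sum -/
noncomputable def U (b : V → ℕ) (σ : V → V → ℝ) (Y : Finset V) (x : V) : ℝ :=
  ∑ y ∈ Y, if b x < b y then σ x y else 0

open Classical in
lemma triple_sum_factor (b : V → ℕ) (σ : V → V → ℝ) (X Y Z : Finset V) :
    ∑ x ∈ X, ∑ y ∈ Y, ∑ z ∈ Z, g b x y z * (σ x y * σ x z)
      = ∑ x ∈ X, U b σ Y x * U b σ Z x := by
  refine Finset.sum_congr rfl fun x _ => ?_
  unfold U
  rw [Finset.sum_mul_sum]
  refine Finset.sum_congr rfl fun y _ => Finset.sum_congr rfl fun z _ => ?_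
  unfold g
  by_cases h1 : b x < b y <;> by_cases h2 : b x < b z <;> simp [h1, h2]

lemma abs_U_le (b : V → ℕ) (σ : V → V → ℝ) (hσ : ∀ x y, σ x y = 1 ∨ σ x y = -1) (Y : Finset V) (x : V) :
    |U b σ Y x| ≤ Fintype.card V := by
  unfold U
  refine (Finset.abs_sum_le_sum_abs _ _).trans ?_
  have : ∀ y ∈ Y, |(if b x < b y then σ x y else 0)| ≤ (1 : ℝ) := by
    intro y _
    split_ifs
    · rcases hσ x y with h | h <;> rw [h] <;> norm_num
    · norm_num
  refine (Finset.sum_le_sum this).trans ?_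
  simp only [Finset.sum_const, nsmul_eq_mul, mul_one]
  exact_mod_cast Finset.card_le_univ Y

lemma factor_bound (b : V → ℕ) (σ : V → V → ℝ) (hσ : ∀ x y, σ x y = 1 ∨ σ x y = -1)
    (e2 : ℝ) (H2 : ∀ Y : Finset V, ∑ x, |U b σ Y x| ≤ e2) (X Y Z : Finset V) :
    ∑ x ∈ X, U b σ Y x * U b σ Z x ≤ e2 * Fintype.card V := by
  calc ∑ x ∈ X, U b σ Y x * U b σ Z x ≤ ∑ x ∈ X, |U b σ Y x| * Fintype.card V := by
        refine Finset.sum_le_sum fun x _ => ?_
        calc U b σ Y x * U b σ Z x ≤ |U b σ Y x * U b σ Z x| := le_abs_self _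
          _ = |U b σ Y x| * |U b σ Z x| := abs_mul _ _
          _ ≤ |U b σ Y x| * Fintype.card V :=
              mul_le_mul_of_nonneg_left (abs_U_le b σ hσ Z x) (abs_nonneg _)
    _ ≤ ∑ x, |U b σ Y x| * Fintype.card V :=
        Finset.sum_le_sum_of_subset_of_nonneg (Finset.subset_univ _) (fun _ _ _ => by positivity)
    _ = (∑ x, |U b σ Y x|) * Fintype.card V := by rw [Finset.sum_mul]
    _ ≤ e2 * Fintype.card V := mul_le_mul_of_nonneg_right (H2 Y) (by positivity)

open Classical in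
lemma hh_bound (b : V → ℕ) (e1 : ℝ) (H1 : ∑ x : V, ∑ y : V, hh b x y ≤ e1) (X Y Z : Finset V) :
    ∑ x ∈ X, ∑ y ∈ Y, ∑ _z ∈ Z, hh b x y ≤ e1 * Fintype.card V := by
  have nn : ∀ u v : V, (0 : ℝ) ≤ hh b u v := by intro u v; unfold hh; split_ifs <;> norm_num
  have h1 : ∀ x ∈ X, (∑ y ∈ Y, ∑ _z ∈ Z, hh b x y) ≤ ∑ y : V, hh b x y * Fintype.card V := by
    intro x _
    refine (Finset.sum_le_sum (g := fun y => hh b x y * Fintype.card V) ?_).trans
      (Finset.sum_le_sum_of_subset_of_nonneg (Finset.subset_univ _) (fun y _ _ => mul_nonneg (nn _ _) (by positivity)))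
    intro y _
    rw [Finset.sum_const, nsmul_eq_mul, mul_comm]
    exact mul_le_mul_of_nonneg_left (by exact_mod_cast Finset.card_le_univ Z) (nn _ _)
  calc ∑ x ∈ X, ∑ y ∈ Y, ∑ _z ∈ Z, hh b x y ≤ ∑ x ∈ X, ∑ y : V, hh b x y * Fintype.card V :=
        Finset.sum_le_sum h1
    _ ≤ ∑ x : V, ∑ y : V, hh b x y * Fintype.card V :=
        Finset.sum_le_sum_of_subset_of_nonneg (Finset.subset_univ _)
          (fun x _ _ => Finset.sum_nonneg fun y _ => mul_nonneg (nn _ _) (by positivity))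
    _ = (∑ x : V, ∑ y : V, hh b x y) * Fintype.card V := by
        rw [Finset.sum_mul]; refine Finset.sum_congr rfl fun x _ => by rw [Finset.sum_mul]
    _ ≤ e1 * Fintype.card V := mul_le_mul_of_nonneg_right H1 (by positivity)

open Classical in
lemma count_ge (b : V → ℕ) (σ : V → V → ℝ) (hσ : ∀ x y, σ x y = 1 ∨ σ x y = -1)
    (e1 e2 : ℝ) (H1 : ∑ x : V, ∑ y : V, hh b x y ≤ e1)
    (H2 : ∀ Y : Finset V, ∑ x, |U b σ Y x| ≤ e2) (X Y Z : Finset V) :
    (1 / 2 : ℝ) * X.card * Y.card * Z.card - (3 / 2) * (e1 + e2) * Fintype.card V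
      ≤ (((X ×ˢ Y ×ˢ Z).filter (fun p => isEdge b σ ({p.1, p.2.1, p.2.2} : Finset V))).card : ℝ) := by
  have hcard : (((X ×ˢ Y ×ˢ Z).filter (fun p => isEdge b σ ({p.1, p.2.1, p.2.2} : Finset V))).card : ℝ)
      = ∑ x ∈ X, ∑ y ∈ Y, ∑ z ∈ Z, if isEdge b σ ({x, y, z} : Finset V) then (1 : ℝ) else 0 := by
    rw [Finset.card_filter]
    push_cast
    rw [Finset.sum_product]
    refine Finset.sum_congr rfl fun x _ => ?_
    rw [Finset.sum_product]
  rw [hcard]
  have hpt := fun x y z => pointwise b σ hσ x y z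
  have hsum : ∑ x ∈ X, ∑ y ∈ Y, ∑ z ∈ Z, ((1 / 2 : ℝ) * (1 - hh b x y - hh b y z - hh b x z)
      - (1 / 2) * (g b x y z * (σ x y * σ x z) + g b y x z * (σ y x * σ y z)
          + g b z x y * (σ z x * σ z y)))
      ≤ ∑ x ∈ X, ∑ y ∈ Y, ∑ z ∈ Z, if isEdge b σ ({x, y, z} : Finset V) then (1 : ℝ) else 0 :=
    Finset.sum_le_sum fun x _ => Finset.sum_le_sum fun y _ => Finset.sum_le_sum fun z _ => hpt x y z
  refine le_trans ?_ hsum
  have hA : ∑ x ∈ X, ∑ y ∈ Y, ∑ z ∈ Z, ((1 / 2 : ℝ) * (1 - hh b x y - hh b y z - hh b x z)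
      - (1 / 2) * (g b x y z * (σ x y * σ x z) + g b y x z * (σ y x * σ y z)
          + g b z x y * (σ z x * σ z y)))
      = (1 / 2) * (X.card * Y.card * Z.card)
        - (1 / 2) * (∑ x ∈ X, ∑ y ∈ Y, ∑ z ∈ Z, hh b x y)
        - (1 / 2) * (∑ x ∈ X, ∑ y ∈ Y, ∑ z ∈ Z, hh b y z)
        - (1 / 2) * (∑ x ∈ X, ∑ y ∈ Y, ∑ z ∈ Z, hh b x z)
        - (1 / 2) * (∑ x ∈ X, ∑ y ∈ Y, ∑ z ∈ Z, g b x y z * (σ x y * σ x z))
        - (1 / 2) * (∑ x ∈ X, ∑ y ∈ Y, ∑ z ∈ Z, g b y x z * (σ y x * σ y z))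
        - (1 / 2) * (∑ x ∈ X, ∑ y ∈ Y, ∑ z ∈ Z, g b z x y * (σ z x * σ z y)) := by
    have hc : ((X.card : ℝ) * Y.card * Z.card) = ∑ x ∈ X, ∑ y ∈ Y, ∑ z ∈ Z, (1 : ℝ) := by
      simp; ring
    rw [hc]
    simp only [Finset.mul_sum, ← Finset.sum_sub_distrib]
    refine Finset.sum_congr rfl fun x _ => Finset.sum_congr rfl fun y _ =>
      Finset.sum_congr rfl fun z _ => by ring
  rw [hA]
  have B1 := hh_bound b e1 H1 X Y Z
  have B2 : ∑ x ∈ X, ∑ y ∈ Y, ∑ z ∈ Z, hh b y z ≤ e1 * Fintype.card V := by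
    have := hh_bound b e1 H1 Y Z X
    calc ∑ x ∈ X, ∑ y ∈ Y, ∑ z ∈ Z, hh b y z = ∑ y ∈ Y, ∑ z ∈ Z, ∑ x ∈ X, hh b y z := by
          rw [Finset.sum_comm]
          refine Finset.sum_congr rfl fun y _ => ?_
          rw [Finset.sum_comm]
      _ ≤ _ := this
  have B3 : ∑ x ∈ X, ∑ y ∈ Y, ∑ z ∈ Z, hh b x z ≤ e1 * Fintype.card V := by
    have := hh_bound b e1 H1 X Z Y
    calc ∑ x ∈ X, ∑ y ∈ Y, ∑ z ∈ Z, hh b x z = ∑ x ∈ X, ∑ z ∈ Z, ∑ y ∈ Y, hh b x z := by
          refine Finset.sum_congr rfl fun x _ => ?_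
          rw [Finset.sum_comm]
      _ ≤ _ := this
  have C1 : ∑ x ∈ X, ∑ y ∈ Y, ∑ z ∈ Z, g b x y z * (σ x y * σ x z) ≤ e2 * Fintype.card V := by
    rw [triple_sum_factor]; exact factor_bound b σ hσ e2 H2 X Y Z
  have C2 : ∑ x ∈ X, ∑ y ∈ Y, ∑ z ∈ Z, g b y x z * (σ y x * σ y z) ≤ e2 * Fintype.card V := by
    rw [Finset.sum_comm, triple_sum_factor]; exact factor_bound b σ hσ e2 H2 Y X Z
  have C3 : ∑ x ∈ X, ∑ y ∈ Y, ∑ z ∈ Z, g b z x y * (σ z x * σ z y) ≤ e2 * Fintype.card V := by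
    have : ∑ x ∈ X, ∑ y ∈ Y, ∑ z ∈ Z, g b z x y * (σ z x * σ z y)
        = ∑ z ∈ Z, ∑ x ∈ X, ∑ y ∈ Y, g b z x y * (σ z x * σ z y) := by
      calc _ = ∑ x ∈ X, ∑ z ∈ Z, ∑ y ∈ Y, g b z x y * (σ z x * σ z y) :=
            Finset.sum_congr rfl fun x _ => Finset.sum_comm
        _ = _ := Finset.sum_comm
    rw [this, triple_sum_factor]; exact factor_bound b σ hσ e2 H2 Z X Y
  linarith

end Abstract

section Instance

variable {N M k : ℕ}

/-- block of a vertex -/
def blk (e : Fin N ≃ Fin M × (Fin k → Bool)) (v : Fin N) : ℕ := ((e v).1 : ℕ)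

/-- sign of a pair -/
noncomputable def sg (e : Fin N ≃ Fin M × (Fin k → Bool)) (v w : Fin N) : ℝ := walsh (e v).2 (e w).2

open Classical in
lemma H1_inst (e : Fin N ≃ Fin M × (Fin k → Bool)) :
    ∑ x : Fin N, ∑ y : Fin N, hh (blk e) x y = M * (2 : ℝ) ^ k * 2 ^ k := by
  have h1 : ∀ x : Fin N, ∑ y : Fin N, hh (blk e) x y = 2 ^ k := by
    intro x
    have : ∑ y : Fin N, hh (blk e) x y = ∑ p : Fin M × (Fin k → Bool), if (e x).1 = p.1 then (1 : ℝ) else 0 := by
      rw [← Equiv.sum_comp e]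
      refine Finset.sum_congr rfl fun y _ => ?_
      unfold hh blk
      simp only [Fin.val_inj]
    rw [this, Fintype.sum_prod_type]
    have h2 : ∀ A : Fin M, (∑ _w : Fin k → Bool, if (e x).1 = A then (1 : ℝ) else 0)
        = if (e x).1 = A then (2 : ℝ) ^ k else 0 := by
      intro A
      by_cases hA : (e x).1 = A <;> simp [hA]
    simp_rw [h2]
    rw [Finset.sum_ite_eq]
    simp
  simp_rw [h1]
  have hN : Fintype.card (Fin N) = M * 2 ^ k := by
    rw [Fintype.card_congr e]; simp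
  rw [Fintype.card_fin] at hN
  simp only [Finset.sum_const, Finset.card_univ, Fintype.card_fin, nsmul_eq_mul]
  rw [hN]; push_cast; ring

open Classical in
lemma U_inst (e : Fin N ≃ Fin M × (Fin k → Bool)) (Y : Finset (Fin N)) (x : Fin N) :
    U (blk e) (sg e) Y x
      = ∑ w : Fin k → Bool,
          ((Y.filter (fun y => (e y).2 = w ∧ ((e x).1 : ℕ) < ((e y).1 : ℕ))).card : ℝ) * walsh (e x).2 w := by
  have h1 : ∀ w : Fin k → Bool,
      ((Y.filter (fun y => (e y).2 = w ∧ ((e x).1 : ℕ) < ((e y).1 : ℕ))).card : ℝ) * walsh (e x).2 w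
      = ∑ y ∈ Y, if (e y).2 = w then (if ((e x).1 : ℕ) < ((e y).1 : ℕ) then walsh (e x).2 w else 0) else 0 := by
    intro w
    rw [Finset.card_filter]
    push_cast
    rw [Finset.sum_mul]
    refine Finset.sum_congr rfl fun y _ => ?_
    by_cases c1 : (e y).2 = w <;> by_cases c2 : ((e x).1 : ℕ) < ((e y).1 : ℕ) <;> simp [c1, c2]
  simp_rw [h1]
  rw [Finset.sum_comm]
  unfold U blk sg
  refine Finset.sum_congr rfl fun y _ => ?_
  rw [Finset.sum_ite_eq]
  simp

open Classical in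
lemma H2_inst (e : Fin N ≃ Fin M × (Fin k → Bool)) (Y : Finset (Fin N)) :
    (∑ x, |U (blk e) (sg e) Y x|) ^ 2 ≤ (M * 2 ^ k : ℝ) * (M * (2 ^ k * (2 ^ k * (M : ℝ) ^ 2))) := by
  have hN : N = M * 2 ^ k := by
    have : Fintype.card (Fin N) = M * 2 ^ k := by
      rw [Fintype.card_congr e]; simp
    rwa [Fintype.card_fin] at this
  have hcs : (∑ x : Fin N, |U (blk e) (sg e) Y x|) ^ 2
      ≤ (M * 2 ^ k : ℝ) * ∑ x : Fin N, (U (blk e) (sg e) Y x) ^ 2 := by
    have := sq_sum_le_card_mul_sum_sq (s := (Finset.univ : Finset (Fin N))) (f := fun x => |U (blk e) (sg e) Y x|)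
    simp only [sq_abs, Finset.card_univ, Fintype.card_fin] at this
    refine this.trans (le_of_eq ?_)
    have hNR : (N : ℝ) = M * 2 ^ k := by
      have := congrArg (fun t : ℕ => (t : ℝ)) hN
      push_cast at this
      exact this
    rw [hNR]
  refine hcs.trans (mul_le_mul_of_nonneg_left ?_ (by positivity))
  have h2 : ∑ x : Fin N, (U (blk e) (sg e) Y x) ^ 2
      = ∑ A : Fin M, ∑ u : Fin k → Bool,
          (∑ w : Fin k → Bool,
            ((Y.filter (fun y => (e y).2 = w ∧ (A : ℕ) < ((e y).1 : ℕ))).card : ℝ) * walsh u w) ^ 2 := by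
    rw [← Fintype.sum_prod_type (f := fun p : Fin M × (Fin k → Bool) =>
      (∑ w : Fin k → Bool,
            ((Y.filter (fun y => (e y).2 = w ∧ (p.1 : ℕ) < ((e y).1 : ℕ))).card : ℝ) * walsh p.2 w) ^ 2)]
    rw [← Equiv.sum_comp e]
    refine Finset.sum_congr rfl fun x _ => ?_
    rw [U_inst]
  rw [h2]
  have h3 : ∀ A : Fin M, ∑ u : Fin k → Bool,
          (∑ w : Fin k → Bool,
            ((Y.filter (fun y => (e y).2 = w ∧ (A : ℕ) < ((e y).1 : ℕ))).card : ℝ) * walsh u w) ^ 2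
      ≤ 2 ^ k * (2 ^ k * (M : ℝ) ^ 2) := by
    intro A
    rw [sum_sq_walsh (fun w => ((Y.filter (fun y => (e y).2 = w ∧ (A : ℕ) < ((e y).1 : ℕ))).card : ℝ))]
    refine mul_le_mul_of_nonneg_left ?_ (by positivity)
    have h4 : ∀ w : Fin k → Bool,
        ((Y.filter (fun y => (e y).2 = w ∧ (A : ℕ) < ((e y).1 : ℕ))).card : ℝ) ^ 2 ≤ (M : ℝ) ^ 2 := by
      intro w
      have h5 : (Y.filter (fun y => (e y).2 = w ∧ (A : ℕ) < ((e y).1 : ℕ))).card ≤ M := by
        calc (Y.filter (fun y => (e y).2 = w ∧ (A : ℕ) < ((e y).1 : ℕ))).card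
            ≤ (Finset.univ : Finset (Fin M)).card := by
              refine Finset.card_le_card_of_injOn (fun y => (e y).1) (fun _ _ => Finset.mem_coe.mpr (Finset.mem_univ _)) ?_
              intro y hy y' hy' hyy
              have hy1 := (Finset.mem_filter.mp (Finset.mem_coe.mp hy)).2.1
              have hy2 := (Finset.mem_filter.mp (Finset.mem_coe.mp hy')).2.1
              apply e.injective
              exact Prod.ext hyy (hy1.trans hy2.symm)
          _ = M := by simp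
      have h6 : ((Y.filter (fun y => (e y).2 = w ∧ (A : ℕ) < ((e y).1 : ℕ))).card : ℝ) ≤ M := by exact_mod_cast h5
      exact pow_le_pow_left₀ (by positivity) h6 2
    calc ∑ w : Fin k → Bool, ((Y.filter (fun y => (e y).2 = w ∧ (A : ℕ) < ((e y).1 : ℕ))).card : ℝ) ^ 2
        ≤ ∑ w : Fin k → Bool, (M : ℝ) ^ 2 := Finset.sum_le_sum fun w _ => h4 w
      _ = 2 ^ k * (M : ℝ) ^ 2 := by simp
  calc _ ≤ ∑ A : Fin M, (2 ^ k * (2 ^ k * (M : ℝ) ^ 2)) := Finset.sum_le_sum fun A _ => h3 A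
    _ = _ := by simp

open Classical in
/-- the lower bound -/
theorem lower_mem (η : ℝ) (hη : 0 < η) (n : ℕ) : ∃ N : ℕ, n ≤ N ∧
    ∃ E : Finset (Finset (Fin N)),
      (∀ e ∈ E, e.card = 3) ∧
      (¬ ∃ S : Finset (Fin N), S.card = 4 ∧ ∀ T ∈ S.powersetCard 3, T ∈ E) ∧
      ∀ X Y Z : Finset (Fin N),
        (1 / 2 : ℝ) * (X.card : ℝ) * (Y.card : ℝ) * (Z.card : ℝ) - η * (N : ℝ) ^ 3 ≤
          (((X ×ˢ Y ×ˢ Z).filter
            (fun p => ({p.1, p.2.1, p.2.2} : Finset (Fin N)) ∈ E)).card : ℝ) := by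
  -- choose q large
  obtain ⟨q, hq⟩ : ∃ q : ℕ, max (3 / η) n ≤ (2 : ℝ) ^ q := by
    obtain ⟨q, hq⟩ := pow_unbounded_of_one_lt (max (3 / η) n) (one_lt_two : (1 : ℝ) < 2)
    exact ⟨q, hq.le⟩
  have hq1 : 3 / η ≤ (2 : ℝ) ^ q := (le_max_left _ _).trans hq
  have hq2 : (n : ℝ) ≤ (2 : ℝ) ^ q := (le_max_right _ _).trans hq
  set M : ℕ := 2 ^ q with hM
  set k : ℕ := 2 * q with hk
  set N : ℕ := M * 2 ^ k with hN
  have hcard : Fintype.card (Fin N) = Fintype.card (Fin M × (Fin k → Bool)) := by simp [hN]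
  obtain ⟨e⟩ : Nonempty (Fin N ≃ Fin M × (Fin k → Bool)) := Fintype.card_eq.mp hcard
  have hMR : (M : ℝ) = 2 ^ q := by rw [hM]; push_cast; ring
  have hkR : (2 : ℝ) ^ k = 2 ^ q * 2 ^ q := by rw [hk, two_mul, pow_add]
  have hNR : (N : ℝ) = 2 ^ q * (2 ^ q * 2 ^ q) := by
    rw [hN]; push_cast; rw [hMR, hkR]
  have hpos : (1 : ℝ) ≤ 2 ^ q := one_le_pow₀ (by norm_num)
  refine ⟨N, ?_, Finset.univ.filter (isEdge (blk e) (sg e)), ?_, ?_, ?_⟩
  · have : (n : ℝ) ≤ N := by
      rw [hNR]; nlinarith [mul_le_mul hpos hpos (by norm_num) (by positivity)]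
    exact_mod_cast this
  · intro f hf
    exact (Finset.mem_filter.mp hf).2.1
  · rintro ⟨S, hS, hT⟩
    exact no_K4 (blk e) (sg e) (fun x y => walsh_pm _ _) S hS (fun T hT' => (Finset.mem_filter.mp (hT T hT')).2)
  · intro X Y Z
    have hσ : ∀ x y, sg e x y = 1 ∨ sg e x y = -1 := fun x y => walsh_pm _ _
    have H1 : ∑ x : Fin N, ∑ y : Fin N, hh (blk e) x y ≤ (2 : ℝ) ^ q * (2 ^ q * 2 ^ q) * (2 ^ q * 2 ^ q) := by
      rw [H1_inst, hMR, hkR]
    have H2 : ∀ Y : Finset (Fin N), ∑ x, |U (blk e) (sg e) Y x| ≤ (2 : ℝ) ^ q * (2 ^ q * 2 ^ q) * (2 ^ q * 2 ^ q) := by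
      intro Y
      have h := H2_inst e Y
      rw [hMR, hkR] at h
      refine abs_le_of_sq_le_sq' ?_ (by positivity) |>.2
      refine h.trans (le_of_eq ?_)
      ring
    have hmain := count_ge (blk e) (sg e) hσ _ _ H1 H2 X Y Z
    have hfil : ((X ×ˢ Y ×ˢ Z).filter
            (fun p => ({p.1, p.2.1, p.2.2} : Finset (Fin N)) ∈ Finset.univ.filter (isEdge (blk e) (sg e))))
        = (X ×ˢ Y ×ˢ Z).filter (fun p => isEdge (blk e) (sg e) ({p.1, p.2.1, p.2.2} : Finset (Fin N))) := by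
      refine Finset.filter_congr fun p _ => ?_
      simp
    rw [hfil]
    refine le_trans ?_ hmain
    rw [Fintype.card_fin]
    have h3 : (3 : ℝ) ≤ η * 2 ^ q := by
      rw [div_le_iff₀ hη] at hq1; linarith
    have : (3 / 2 : ℝ) * ((2 : ℝ) ^ q * (2 ^ q * 2 ^ q) * (2 ^ q * 2 ^ q) + (2 : ℝ) ^ q * (2 ^ q * 2 ^ q) * (2 ^ q * 2 ^ q)) * N
        ≤ η * (N : ℝ) ^ 3 := by
      rw [hNR]
      have h8 : (0 : ℝ) ≤ (2 ^ q) ^ 8 := by positivity
      nlinarith [mul_le_mul_of_nonneg_right h3 h8]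
    linarith

end Instance

end Pool.Agent.H53.K4Lower
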