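/-
UT MainIV: every K4-free (d,η)-dense hypergraph contains a reduced system.

PROOF. Let ε' = ε/(40 (n+1)^4), M from `select ε'`, C = 2^((2M)^2) ≥ card Θ for all r, m ≤ M
(Θ = Fin r ⊕ Fin m → Fin r ⊕ Fin m → Bool, card = 2^((r+m)^2)), and η = ε/(4 (n+1)^3 C^3) > 0.
Given V, h take r, m, s from select.
(1) avg k4v ≤ 4 del1 + 6 del2 ≤ 10 ε' (face_bound, k4_avg_le); k4v ≥ 0, so by Markov
 P_{x ∈ V^4}(k4v > ε) ≤ 10 ε'/ε.
(2) Q t1 t2 t3 := D3gen (kv t1 t2) (kv t1 t3) (kv t2 t3) (fv t1 t2 t3) < d - ε.  By dens_low and d3_avg_ge: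
 d P(Q) - η C^3 ≤ avg (1_Q d3v) + 3 ε' ≤ (d - ε) P(Q) + 3 ε', so P(Q) ≤ (η C^3 + 3 ε')/ε.
(3) For x : Fin n → V uniform, each triple/quadruple of distinct positions is uniform in V^3/V^4
 (sample_marg with ν = unif V), so the union bound over at most n^3 triples and n^4 quadruples gives
 P(bad) ≤ n^3 (η C^3 + 3 ε')/ε + n^4 10 ε'/ε ≤ 1/4 + 3/40 + 1/4 < 1.
(4) For a good x put μ i j = kv h s (ty (x i)) (ty (x j)), W i j l = fv h s (ty (x i)) (ty (x j)) (ty (x l))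
 (x extended to ℕ arbitrarily).
-/
import Pool.Agent.H95.UT.Select
import Pool.Agent.H95.UT.Face
import Pool.Agent.H95.UT.PairInd
import Pool.Agent.H95.UT.DensLow
import Pool.Agent.H95.UT.Super2

set_option autoImplicit false

namespace Pool.UT

open Finset

/-- triples of coordinates -/
private def m4e3 (V : Type) : (Fin 3 → V) ≃ V × V × V where
  toFun y := (y 0, y 1, y 2)
  invFun z := ![z.1, z.2.1, z.2.2]
  left_inv y := by
    funext t
    fin_cases t <;> rfl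
  right_inv z := rfl

/-- quadruples of coordinates -/
private def m4e4 (V : Type) : (Fin 4 → V) ≃ V × V × V × V where
  toFun y := (y 0, y 1, y 2, y 3)
  invFun z := ![z.1, z.2.1, z.2.2.1, z.2.2.2]
  left_inv y := by
    funext t
    fin_cases t <;> rfl
  right_inv z := rfl

private theorem m4_inj3 {n : ℕ} (i j l : Fin n) (hij : i ≠ j) (hil : i ≠ l) (hjl : j ≠ l) :
    Function.Injective ![i, j, l] := by
  intro a b hab
  fin_cases a <;> fin_cases b
  · rfl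
  · exact absurd hab hij
  · exact absurd hab hil
  · exact absurd hab hij.symm
  · rfl
  · exact absurd hab hjl
  · exact absurd hab hil.symm
  · exact absurd hab hjl.symm
  · rfl

private theorem m4_inj4 {n : ℕ} (i j l m : Fin n) (hij : i ≠ j) (hil : i ≠ l) (him : i ≠ m)
    (hjl : j ≠ l) (hjm : j ≠ m) (hlm : l ≠ m) :
    Function.Injective ![i, j, l, m] := by
  intro a b hab
  fin_cases a <;> fin_cases b
  · rfl
  · exact absurd hab hij
  · exact absurd hab hil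
  · exact absurd hab him
  · exact absurd hab hij.symm
  · rfl
  · exact absurd hab hjl
  · exact absurd hab hjm
  · exact absurd hab hil.symm
  · exact absurd hab hjl.symm
  · rfl
  · exact absurd hab hlm
  · exact absurd hab him.symm
  · exact absurd hab hjm.symm
  · exact absurd hab hlm.symm
  · rfl

private theorem m4_marg3 {V : Type} [Fintype V] [Nonempty V] (n : ℕ) (i j l : Fin n)
    (hij : i ≠ j) (hil : i ≠ l) (hjl : j ≠ l) (F : V × V × V → ℝ) :
    ∑ x : Fin n → V, (∏ t, unif V (x t)) * F (x i, x j, x l) = avg F := by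
  have h := sample_marg (unif V) (unif_prob V) n 3 ![i, j, l] (m4_inj3 i j l hij hil hjl)
    (fun y => F (y 0, y 1, y 2))
  have h1 : ∑ x : Fin n → V, (∏ t, unif V (x t)) * F (x i, x j, x l) =
      ∑ y : Fin 3 → V, (∏ t, unif V (y t)) * F (y 0, y 1, y 2) := h
  rw [h1]
  unfold avg
  refine Fintype.sum_equiv (m4e3 V) _ _ (fun y => ?_)
  have h2 : (∏ t, unif V (y t)) = unif (V × V × V) (m4e3 V y) := by
    unfold unif
    rw [Finset.prod_const, Finset.card_univ, Fintype.card_fin, Fintype.card_prod,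
      Fintype.card_prod]
    push_cast
    rw [div_pow, one_pow]
    congr 1
    ring
  rw [h2]
  rfl

private theorem m4_marg4 {V : Type} [Fintype V] [Nonempty V] (n : ℕ) (i j l m : Fin n)
    (hij : i ≠ j) (hil : i ≠ l) (him : i ≠ m) (hjl : j ≠ l) (hjm : j ≠ m) (hlm : l ≠ m)
    (F : V × V × V × V → ℝ) :
    ∑ x : Fin n → V, (∏ t, unif V (x t)) * F (x i, x j, x l, x m) = avg F := by
  have h := sample_marg (unif V) (unif_prob V) n 4 ![i, j, l, m]
    (m4_inj4 i j l m hij hil him hjl hjm hlm) (fun y => F (y 0, y 1, y 2, y 3))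
  have h1 : ∑ x : Fin n → V, (∏ t, unif V (x t)) * F (x i, x j, x l, x m) =
      ∑ y : Fin 4 → V, (∏ t, unif V (y t)) * F (y 0, y 1, y 2, y 3) := h
  rw [h1]
  unfold avg
  refine Fintype.sum_equiv (m4e4 V) _ _ (fun y => ?_)
  have h2 : (∏ t, unif V (y t)) = unif (V × V × V × V) (m4e4 V y) := by
    unfold unif
    rw [Finset.prod_const, Finset.card_univ, Fintype.card_fin, Fintype.card_prod,
      Fintype.card_prod, Fintype.card_prod]
    push_cast
    rw [div_pow, one_pow]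
    congr 1
    ring
  rw [h2]
  rfl

private theorem m4_mass {V : Type} [Fintype V] [Nonempty V] (n : ℕ) :
    ∑ x : Fin n → V, (∏ t, unif V (x t)) = 1 := by
  have h := sample_marg (unif V) (unif_prob V) n 0 (fun t => t.elim0) (fun a => a.elim0)
    (fun _ => 1)
  simpa using h

private theorem m4_avg_nonneg {α : Type} [Fintype α] (F : α → ℝ) (h : ∀ x, 0 ≤ F x) :
    0 ≤ avg F := by
  unfold avg
  apply Finset.sum_nonneg
  intro x _
  apply mul_nonneg _ (h x)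
  unfold unif
  positivity

open Classical in
private theorem m4_exists {V : Type} [Fintype V] [Nonempty V] (n : ℕ) (p3 p4 : ℝ)
    (F3 : V × V × V → ℝ) (F4 : V × V × V × V → ℝ) (h3 : ∀ z, 0 ≤ F3 z) (h4 : ∀ z, 0 ≤ F4 z)
    (hF3 : avg F3 ≤ p3) (hF4 : avg F4 ≤ p4) (hlt : (n : ℝ) ^ 3 * p3 + (n : ℝ) ^ 4 * p4 < 1) :
    ∃ x : Fin n → V, (∀ i j l, i ≠ j → i ≠ l → j ≠ l → F3 (x i, x j, x l) < 1) ∧
      (∀ i j l m, i ≠ j → i ≠ l → i ≠ m → j ≠ l → j ≠ m → l ≠ m →
        F4 (x i, x j, x l, x m) < 1) := by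
  have hp3 : 0 ≤ p3 := (m4_avg_nonneg F3 h3).trans hF3
  have hp4 : 0 ≤ p4 := (m4_avg_nonneg F4 h4).trans hF4
  obtain ⟨w, hw⟩ : ∃ w : (Fin n → V) → ℝ, w = fun x => ∏ t, unif V (x t) := ⟨_, rfl⟩
  have hw0 : ∀ x, 0 ≤ w x := by
    intro x
    rw [hw]
    apply Finset.prod_nonneg
    intro t _
    unfold unif
    positivity
  have hw1 : ∑ x, w x = 1 := by rw [hw]; exact m4_mass n
  obtain ⟨T3, hT3⟩ : ∃ T3 : (Fin n × Fin n × Fin n) → (Fin n → V) → ℝ, T3 = fun t x =>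
    if t.1 ≠ t.2.1 ∧ t.1 ≠ t.2.2 ∧ t.2.1 ≠ t.2.2 then F3 (x t.1, x t.2.1, x t.2.2) else 0 :=
    ⟨_, rfl⟩
  obtain ⟨T4, hT4⟩ : ∃ T4 : (Fin n × Fin n × Fin n × Fin n) → (Fin n → V) → ℝ, T4 = fun t x =>
    if t.1 ≠ t.2.1 ∧ t.1 ≠ t.2.2.1 ∧ t.1 ≠ t.2.2.2 ∧ t.2.1 ≠ t.2.2.1 ∧ t.2.1 ≠ t.2.2.2 ∧
      t.2.2.1 ≠ t.2.2.2 then F4 (x t.1, x t.2.1, x t.2.2.1, x t.2.2.2) else 0 := ⟨_, rfl⟩
  have hT30 : ∀ t x, 0 ≤ T3 t x := by
    intro t x
    rw [hT3]
    simp only
    split_ifs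
    · exact h3 _
    · exact le_refl _
  have hT40 : ∀ t x, 0 ≤ T4 t x := by
    intro t x
    rw [hT4]
    simp only
    split_ifs
    · exact h4 _
    · exact le_refl _
  have hs3 : ∀ t, ∑ x, w x * T3 t x ≤ p3 := by
    intro t
    by_cases ht : t.1 ≠ t.2.1 ∧ t.1 ≠ t.2.2 ∧ t.2.1 ≠ t.2.2
    · have e : ∑ x, w x * T3 t x = avg F3 := by
        rw [← m4_marg3 n t.1 t.2.1 t.2.2 ht.1 ht.2.1 ht.2.2 F3, hw, hT3]
        apply Finset.sum_congr rfl
        intro x _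
        simp only
        rw [if_pos ht]
      rw [e]; exact hF3
    · have e : ∑ x, w x * T3 t x = 0 := by
        apply Finset.sum_eq_zero
        intro x _
        rw [hT3]
        simp only
        rw [if_neg ht, mul_zero]
      rw [e]; exact hp3
  have hs4 : ∀ t, ∑ x, w x * T4 t x ≤ p4 := by
    intro t
    by_cases ht : t.1 ≠ t.2.1 ∧ t.1 ≠ t.2.2.1 ∧ t.1 ≠ t.2.2.2 ∧ t.2.1 ≠ t.2.2.1 ∧
      t.2.1 ≠ t.2.2.2 ∧ t.2.2.1 ≠ t.2.2.2
    · have e : ∑ x, w x * T4 t x = avg F4 := by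
        rw [← m4_marg4 n t.1 t.2.1 t.2.2.1 t.2.2.2 ht.1 ht.2.1 ht.2.2.1 ht.2.2.2.1 ht.2.2.2.2.1
          ht.2.2.2.2.2 F4, hw, hT4]
        apply Finset.sum_congr rfl
        intro x _
        simp only
        rw [if_pos ht]
      rw [e]; exact hF4
    · have e : ∑ x, w x * T4 t x = 0 := by
        apply Finset.sum_eq_zero
        intro x _
        rw [hT4]
        simp only
        rw [if_neg ht, mul_zero]
      rw [e]; exact hp4
  have hex : ∃ x, ∑ t, T3 t x + ∑ t, T4 t x < 1 := by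
    by_contra hcon
    push Not at hcon
    have h5 : (1 : ℝ) ≤ ∑ x, w x * (∑ t, T3 t x + ∑ t, T4 t x) := by
      calc (1 : ℝ) = ∑ x, w x := hw1.symm
        _ = ∑ x, w x * 1 := by simp only [mul_one]
        _ ≤ _ := Finset.sum_le_sum fun x _ => mul_le_mul_of_nonneg_left (hcon x) (hw0 x)
    have h6 : ∑ x, w x * (∑ t, T3 t x + ∑ t, T4 t x) =
        ∑ t, ∑ x, w x * T3 t x + ∑ t, ∑ x, w x * T4 t x := by
      rw [Finset.sum_comm (f := fun t x => w x * T3 t x),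
        Finset.sum_comm (f := fun t x => w x * T4 t x), ← Finset.sum_add_distrib]
      apply Finset.sum_congr rfl
      intro x _
      rw [mul_add, Finset.mul_sum, Finset.mul_sum]
    have h7 : ∑ t, ∑ x, w x * T3 t x ≤ (n : ℝ) ^ 3 * p3 := by
      calc ∑ t, ∑ x, w x * T3 t x ≤ ∑ _t : Fin n × Fin n × Fin n, p3 :=
            Finset.sum_le_sum fun t _ => hs3 t
        _ = (n : ℝ) ^ 3 * p3 := by
            rw [Finset.sum_const, Finset.card_univ, Fintype.card_prod, Fintype.card_prod,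
              Fintype.card_fin, nsmul_eq_mul]
            push_cast
            ring
    have h8 : ∑ t, ∑ x, w x * T4 t x ≤ (n : ℝ) ^ 4 * p4 := by
      calc ∑ t, ∑ x, w x * T4 t x ≤ ∑ _t : Fin n × Fin n × Fin n × Fin n, p4 :=
            Finset.sum_le_sum fun t _ => hs4 t
        _ = (n : ℝ) ^ 4 * p4 := by
            rw [Finset.sum_const, Finset.card_univ, Fintype.card_prod, Fintype.card_prod,
              Fintype.card_prod, Fintype.card_fin, nsmul_eq_mul]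
            push_cast
            ring
    rw [h6] at h5
    linarith
  obtain ⟨x, hx⟩ := hex
  refine ⟨x, ?_, ?_⟩
  · intro i j l hij hil hjl
    have h5 : T3 (i, j, l) x ≤ ∑ t, T3 t x :=
      Finset.single_le_sum (f := fun t => T3 t x) (fun t _ => hT30 t x) (Finset.mem_univ _)
    have h6 : 0 ≤ ∑ t, T4 t x := Finset.sum_nonneg fun t _ => hT40 t x
    have h7 : T3 (i, j, l) x = F3 (x i, x j, x l) := by
      rw [hT3]
      exact if_pos ⟨hij, hil, hjl⟩
    linarith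
  · intro i j l m hij hil him hjl hjm hlm
    have h5 : T4 (i, j, l, m) x ≤ ∑ t, T4 t x :=
      Finset.single_le_sum (f := fun t => T4 t x) (fun t _ => hT40 t x) (Finset.mem_univ _)
    have h6 : 0 ≤ ∑ t, T3 t x := Finset.sum_nonneg fun t _ => hT30 t x
    have h7 : T4 (i, j, l, m) x = F4 (x i, x j, x l, x m) := by
      rw [hT4]
      exact if_pos ⟨hij, hil, him, hjl, hjm, hlm⟩
    linarith

private theorem m4_k4v_nonneg {V : Type} [Fintype V] {A B : Type} [Fintype A] [DecidableEq A]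
    (h : V → V → V → Bool) (s : A ⊕ B → V) (x y z u : V) : 0 ≤ k4v h s x y z u := by
  unfold k4v K4gen
  have hk : ∀ (p q : V) (γ : A → Bool), 0 ≤ kv h s (ty h s p) (ty h s q) γ :=
    fun p q γ => (kv_prob h s p q).1 γ
  have hf : ∀ (t1 t2 t3 : A ⊕ B → A ⊕ B → Bool) (c12 c13 c23 : A → Bool),
      0 ≤ fv h s t1 t2 t3 c12 c13 c23 := fun t1 t2 t3 c12 c13 c23 =>
    (fv_bounds h s t1 t2 t3 c12 c13 c23).1
  refine Finset.sum_nonneg fun _ _ => Finset.sum_nonneg fun _ _ => Finset.sum_nonneg fun _ _ =>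
    Finset.sum_nonneg fun _ _ => Finset.sum_nonneg fun _ _ => Finset.sum_nonneg fun _ _ => ?_
  refine mul_nonneg (mul_nonneg (mul_nonneg (mul_nonneg (mul_nonneg (mul_nonneg ?_ ?_) ?_) ?_) ?_)
    ?_) (mul_nonneg (mul_nonneg (mul_nonneg ?_ ?_) ?_) ?_)
  all_goals first | exact hk _ _ _ | exact hf _ _ _ _ _ _

/-- the arithmetic of the union bound -/
private theorem m4_arith (n : ℕ) (ε C : ℝ) (hε : 0 < ε) (hC : 0 < C) :
    (n : ℝ) ^ 3 * ((ε / (4 * ((n : ℝ) + 1) ^ 3 * C ^ 3) * C ^ 3 +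
      3 * (ε / (40 * ((n : ℝ) + 1) ^ 4))) / ε) +
      (n : ℝ) ^ 4 * (10 * (ε / (40 * ((n : ℝ) + 1) ^ 4)) / ε) < 1 := by
  have hn : (0 : ℝ) ≤ n := Nat.cast_nonneg n
  have hn1 : (0 : ℝ) < (n : ℝ) + 1 := by linarith
  obtain ⟨N, hN⟩ : ∃ N : ℝ, N = (n : ℝ) + 1 := ⟨_, rfl⟩
  rw [← hN]
  rw [← hN] at hn1
  have h3 : (n : ℝ) ^ 3 ≤ N ^ 3 := pow_le_pow_left₀ hn (by linarith) 3
  have h4 : (n : ℝ) ^ 4 ≤ N ^ 4 := pow_le_pow_left₀ hn (by linarith) 4
  have h34 : N ^ 3 ≤ N ^ 4 := pow_le_pow_right₀ (by linarith) (by norm_num)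
  have hN3 : 0 < N ^ 3 := by positivity
  have hN4 : 0 < N ^ 4 := by positivity
  have e1 : (ε / (4 * N ^ 3 * C ^ 3) * C ^ 3 + 3 * (ε / (40 * N ^ 4))) / ε =
      1 / (4 * N ^ 3) + 3 / (40 * N ^ 4) := by
    field_simp
  have e2 : 10 * (ε / (40 * N ^ 4)) / ε = 1 / (4 * N ^ 4) := by
    field_simp
    norm_num
  rw [e1, e2]
  have h5 : (n : ℝ) ^ 3 * (1 / (4 * N ^ 3)) ≤ 1 / 4 := by
    rw [mul_one_div, div_le_div_iff₀ (by positivity) (by norm_num)]
    linarith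
  have h6 : (n : ℝ) ^ 3 * (3 / (40 * N ^ 4)) ≤ 3 / 40 := by
    rw [← mul_div_assoc, div_le_div_iff₀ (by positivity) (by norm_num)]
    linarith
  have h7 : (n : ℝ) ^ 4 * (1 / (4 * N ^ 4)) ≤ 1 / 4 := by
    rw [mul_one_div, div_le_div_iff₀ (by positivity) (by norm_num)]
    linarith
  rw [mul_add]
  linarith

theorem existsRS (n : ℕ) (d ε : ℝ) (hε : 0 < ε) :
    ∃ η : ℝ, 0 < η ∧ ∀ (V : Type) [Fintype V] [Nonempty V] (h : V → V → V → Bool),
      (∀ x y z, h x y z = h y x z) → (∀ x y z, h x y z = h x z y) →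
      (∀ x y z u, ¬ (h x y z = true ∧ h x y u = true ∧ h x z u = true ∧ h y z u = true)) →
      IsDense h d η →
      ∃ (r : ℕ) (μ : ℕ → ℕ → (Fin r → Bool) → ℝ)
        (W : ℕ → ℕ → ℕ → (Fin r → Bool) → (Fin r → Bool) → (Fin r → Bool) → ℝ),
        IsRS n μ W (d - ε) ε := by
  classical
  obtain ⟨ε', hε'⟩ : ∃ ε' : ℝ, ε' = ε / (40 * ((n : ℝ) + 1) ^ 4) := ⟨_, rfl⟩
  have hε'0 : 0 < ε' := by rw [hε']; positivity
  obtain ⟨M, hM⟩ := select ε' hε'0
  obtain ⟨C, hC⟩ : ∃ C : ℝ, C = (2 : ℝ) ^ ((2 * M) * (2 * M)) := ⟨_, rfl⟩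
  have hC0 : 0 < C := by rw [hC]; positivity
  obtain ⟨η, hη⟩ : ∃ η : ℝ, η = ε / (4 * ((n : ℝ) + 1) ^ 3 * C ^ 3) := ⟨_, rfl⟩
  have hη0 : 0 < η := by rw [hη]; positivity
  refine ⟨η, hη0, ?_⟩
  intro V _ _ h hs1 hs2 hK hd
  obtain ⟨r, m, hr, hm, s, hd1, hd2⟩ := hM V h
  -- size of the type space
  have hcard : (Fintype.card (Fin r ⊕ Fin m → Fin r ⊕ Fin m → Bool) : ℝ) ≤ C := by
    rw [Fintype.card_fun, Fintype.card_fun, Fintype.card_bool, Fintype.card_sum, Fintype.card_fin,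
      Fintype.card_fin, hC]
    push_cast
    rw [← pow_mul]
    apply pow_le_pow_right₀ (by norm_num)
    exact Nat.mul_le_mul (by omega) (by omega)
  have hcard3 : (Fintype.card (Fin r ⊕ Fin m → Fin r ⊕ Fin m → Bool) : ℝ) ^ 3 ≤ C ^ 3 :=
    pow_le_pow_left₀ (Nat.cast_nonneg _) hcard 3
  -- tetrahedra
  have hk4 : avg (fun x : V × V × V × V => k4v h s x.1 x.2.1 x.2.2.1 x.2.2.2) ≤ 10 * ε' := by
    have e1 := k4_avg_le h hs1 s
    have e2 := face_bound h hs1 hs2 hK s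
    linarith
  -- densities
  obtain ⟨Q, hQ⟩ : ∃ Q : (Fin r ⊕ Fin m → Fin r ⊕ Fin m → Bool) →
      (Fin r ⊕ Fin m → Fin r ⊕ Fin m → Bool) → (Fin r ⊕ Fin m → Fin r ⊕ Fin m → Bool) → Prop,
      Q = fun t1 t2 t3 => D3gen (kv h s t1 t2) (kv h s t1 t3) (kv h s t2 t3) (fv h s t1 t2 t3) <
        d - ε := ⟨_, rfl⟩
  have hq1 := dens_low h d η hη0.le hd s Q
  have hq2 := d3_avg_ge h hs1 s Q
  obtain ⟨F3, hF3⟩ : ∃ F3 : V × V × V → ℝ, F3 = fun x =>
    if Q (ty h s x.1) (ty h s x.2.1) (ty h s x.2.2) then (1 : ℝ) else 0 := ⟨_, rfl⟩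
  have hq3 : avg (fun x : V × V × V =>
        if Q (ty h s x.1) (ty h s x.2.1) (ty h s x.2.2) then d3v h s x.1 x.2.1 x.2.2 else 0) ≤
      (d - ε) * avg F3 := by
    rw [← avg_mul]
    apply avg_mono
    intro x
    rw [hF3]
    simp only
    split_ifs with hx
    · rw [mul_one]
      rw [hQ] at hx
      exact le_of_lt hx
    · rw [mul_zero]
  have hq4 : avg F3 ≤ (η * C ^ 3 + 3 * ε') / ε := by
    rw [le_div_iff₀ hε]
    have e3 : η * (Fintype.card (Fin r ⊕ Fin m → Fin r ⊕ Fin m → Bool) : ℝ) ^ 3 ≤ η * C ^ 3 :=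
      mul_le_mul_of_nonneg_left hcard3 hη0.le
    have e4 : d * avg F3 - η * (Fintype.card (Fin r ⊕ Fin m → Fin r ⊕ Fin m → Bool) : ℝ) ^ 3 ≤
        (d - ε) * avg F3 + 3 * ε' := by
      rw [← hF3] at hq1
      linarith
    linarith
  obtain ⟨F4, hF4⟩ : ∃ F4 : V × V × V × V → ℝ, F4 = fun x =>
    ε⁻¹ * k4v h s x.1 x.2.1 x.2.2.1 x.2.2.2 := ⟨_, rfl⟩
  have hq5 : avg F4 ≤ 10 * ε' / ε := by
    rw [hF4, avg_mul, div_eq_inv_mul]
    exact mul_le_mul_of_nonneg_left hk4 (by positivity)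
  have harith := m4_arith n ε C hε hC0
  rw [← hη, ← hε'] at harith
  obtain ⟨x, hx3, hx4⟩ := m4_exists n _ _ F3 F4
    (by intro z; rw [hF3]; simp only; split_ifs <;> norm_num)
    (by
      intro z
      rw [hF4]
      exact mul_nonneg (by positivity) (m4_k4v_nonneg h s _ _ _ _)) hq4 hq5 harith
  obtain ⟨xx, hxx⟩ : ∃ xx : ℕ → V, ∀ (i : ℕ) (hi : i < n), xx i = x ⟨i, hi⟩ :=
    ⟨fun i => if hi : i < n then x ⟨i, hi⟩ else Classical.arbitrary V, fun i hi => dif_pos hi⟩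
  refine ⟨r, fun i j => kv h s (ty h s (xx i)) (ty h s (xx j)),
    fun i j l => fv h s (ty h s (xx i)) (ty h s (xx j)) (ty h s (xx l)), ?_⟩
  refine ⟨?_, ?_, ?_, ?_, ?_⟩
  · intro i j _ _
    exact kv_prob h s (xx i) (xx j)
  · intro i j l a b c
    exact (fv_bounds h s _ _ _ a b c).1
  · intro i j l a b c
    exact (fv_bounds h s _ _ _ a b c).2
  · intro i j l hij hjl hl
    have hj : j < n := by omega
    have hi : i < n := by omega
    have e1 := hx3 ⟨i, hi⟩ ⟨j, hj⟩ ⟨l, hl⟩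
      (by intro hh; have := congrArg Fin.val hh; simp only at this; omega)
      (by intro hh; have := congrArg Fin.val hh; simp only at this; omega)
      (by intro hh; have := congrArg Fin.val hh; simp only at this; omega)
    rw [← hxx i hi, ← hxx j hj, ← hxx l hl] at e1
    by_contra hlt
    push Not at hlt
    have e2 : Q (ty h s (xx i)) (ty h s (xx j)) (ty h s (xx l)) := by
      rw [hQ]
      exact hlt
    rw [hF3] at e1
    simp only at e1
    rw [if_pos e2] at e1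
    exact lt_irrefl _ e1
  · intro i j l m' hij hjl hlm hm'
    have hl : l < n := by omega
    have hj : j < n := by omega
    have hi : i < n := by omega
    have e1 := hx4 ⟨i, hi⟩ ⟨j, hj⟩ ⟨l, hl⟩ ⟨m', hm'⟩
      (by intro hh; have := congrArg Fin.val hh; simp only at this; omega)
      (by intro hh; have := congrArg Fin.val hh; simp only at this; omega)
      (by intro hh; have := congrArg Fin.val hh; simp only at this; omega)
      (by intro hh; have := congrArg Fin.val hh; simp only at this; omega)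
      (by intro hh; have := congrArg Fin.val hh; simp only at this; omega)
      (by intro hh; have := congrArg Fin.val hh; simp only at this; omega)
    rw [← hxx i hi, ← hxx j hj, ← hxx l hl, ← hxx m' hm', hF4] at e1
    have e2 : k4v h s (xx i) (xx j) (xx l) (xx m') < ε := by
      have e3 : ε⁻¹ * k4v h s (xx i) (xx j) (xx l) (xx m') < 1 := e1
      rw [inv_mul_lt_iff₀ hε, mul_one] at e3
      exact e3
    exact le_of_lt e2

end Pool.UT
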