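/-
UT Final: from the palette bound PL c to the uniform Turan density of the tetrahedron.
-/
import Pool.Agent.H95.UT.MainIII
import Pool.Agent.H95.UT.MainIV
import Pool.Agent.H95.UT.Lower

set_option autoImplicit false

namespace Pool.UT

open Finset

/-- the set of the frozen statement -/
def dSet : Set ℝ := {d : ℝ | 0 ≤ d ∧ d ≤ 1 ∧
      ∀ η : ℝ, 0 < η → ∀ n : ℕ, ∃ N : ℕ, n ≤ N ∧
        ∃ E : Finset (Finset (Fin N)),
          (∀ e ∈ E, e.card = 3) ∧
          (¬ ∃ S : Finset (Fin N), S.card = 4 ∧ ∀ T ∈ S.powersetCard 3, T ∈ E) ∧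
          ∀ X Y Z : Finset (Fin N),
            d * (X.card : ℝ) * (Y.card : ℝ) * (Z.card : ℝ) - η * (N : ℝ) ^ 3 ≤
              (((X ×ˢ Y ×ˢ Z).filter
                (fun p => ({p.1, p.2.1, p.2.2} : Finset (Fin N)) ∈ E)).card : ℝ)}

/-- the lower bound (helper53's Walsh matrix construction) -/
theorem half_mem : (1 / 2 : ℝ) ∈ dSet :=
  ⟨by norm_num, by norm_num, fun η hη n => Pool.Agent.H53.K4Lower.lower_mem η hη n⟩

/-- three listed vertices forming a set of cardinality 3 are distinct -/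
private theorem tri_ne {N : ℕ} {a b e : Fin N} (h : ({a, b, e} : Finset (Fin N)).card = 3) :
    a ≠ b ∧ a ≠ e ∧ b ≠ e := by
  refine ⟨?_, ?_, ?_⟩
  · rintro rfl
    rw [Finset.insert_eq_of_mem (Finset.mem_insert_self _ _)] at h
    have h2 := Finset.card_le_two (a := a) (b := e)
    omega
  · rintro rfl
    rw [Finset.insert_eq_of_mem (Finset.mem_insert_of_mem (Finset.mem_singleton_self _))] at h
    have h2 := Finset.card_le_two (a := b) (b := a)
    omega
  · rintro rfl
    rw [Finset.insert_eq_of_mem (Finset.mem_singleton_self b)] at h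
    have h2 := Finset.card_le_two (a := a) (b := b)
    omega

/-- a tetrahedron of the indicator function is a tetrahedron of the hypergraph -/
private theorem k4_of {N : ℕ} {E : Finset (Finset (Fin N))} (hE3 : ∀ e ∈ E, e.card = 3)
    {x y z u : Fin N} (h1 : ({x, y, z} : Finset (Fin N)) ∈ E)
    (h2 : ({x, y, u} : Finset (Fin N)) ∈ E) (h3 : ({x, z, u} : Finset (Fin N)) ∈ E)
    (h4 : ({y, z, u} : Finset (Fin N)) ∈ E) :
    ∃ S : Finset (Fin N), S.card = 4 ∧ ∀ T ∈ S.powersetCard 3, T ∈ E := by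
  obtain ⟨hxy, hxz, hyz⟩ := tri_ne (hE3 _ h1)
  obtain ⟨_, hxu, hyu⟩ := tri_ne (hE3 _ h2)
  obtain ⟨_, _, hzu⟩ := tri_ne (hE3 _ h3)
  have hS : ({x, y, z, u} : Finset (Fin N)).card = 4 := by
    rw [Finset.card_insert_of_notMem, Finset.card_insert_of_notMem, Finset.card_pair hzu]
    · simp [hyz, hyu]
    · simp [hxy, hxz, hxu]
  refine ⟨{x, y, z, u}, hS, ?_⟩
  intro T hT
  rw [Finset.mem_powersetCard] at hT
  obtain ⟨hTS, hT3⟩ := hT
  have hne : T ≠ ({x, y, z, u} : Finset (Fin N)) := by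
    intro h
    rw [h, hS] at hT3
    omega
  obtain ⟨v, hvS, hvT⟩ := Finset.exists_of_ssubset (Finset.ssubset_iff_subset_ne.mpr ⟨hTS, hne⟩)
  have hTe : T = ({x, y, z, u} : Finset (Fin N)).erase v := by
    refine Finset.eq_of_subset_of_card_le ?_ ?_
    · intro w hw
      rw [Finset.mem_erase]
      refine ⟨?_, hTS hw⟩
      rintro rfl
      exact hvT hw
    · rw [Finset.card_erase_of_mem hvS, hS, hT3]
  simp only [Finset.mem_insert, Finset.mem_singleton] at hvS
  have key : ∀ F : Finset (Fin N), F ∈ E → (∀ w, w ∈ F ↔ w ∈ T) → T ∈ E := by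
    intro F hF hw
    have : F = T := Finset.ext hw
    rwa [this] at hF
  rcases hvS with rfl | rfl | rfl | rfl
  · refine key _ h4 fun w => ?_
    rw [hTe]
    simp only [Finset.mem_erase, Finset.mem_insert, Finset.mem_singleton]
    constructor
    · rintro (rfl | rfl | rfl)
      · exact ⟨hxy.symm, Or.inr (Or.inl rfl)⟩
      · exact ⟨hxz.symm, Or.inr (Or.inr (Or.inl rfl))⟩
      · exact ⟨hxu.symm, Or.inr (Or.inr (Or.inr rfl))⟩
    · rintro ⟨h, h' | h' | h' | h'⟩
      · exact absurd h' h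
      · exact Or.inl h'
      · exact Or.inr (Or.inl h')
      · exact Or.inr (Or.inr h')
  · refine key _ h3 fun w => ?_
    rw [hTe]
    simp only [Finset.mem_erase, Finset.mem_insert, Finset.mem_singleton]
    constructor
    · rintro (rfl | rfl | rfl)
      · exact ⟨hxy, Or.inl rfl⟩
      · exact ⟨hyz.symm, Or.inr (Or.inr (Or.inl rfl))⟩
      · exact ⟨hyu.symm, Or.inr (Or.inr (Or.inr rfl))⟩
    · rintro ⟨h, h' | h' | h' | h'⟩
      · exact Or.inl h'
      · exact absurd h' h
      · exact Or.inr (Or.inl h')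
      · exact Or.inr (Or.inr h')
  · refine key _ h2 fun w => ?_
    rw [hTe]
    simp only [Finset.mem_erase, Finset.mem_insert, Finset.mem_singleton]
    constructor
    · rintro (rfl | rfl | rfl)
      · exact ⟨hxz, Or.inl rfl⟩
      · exact ⟨hyz, Or.inr (Or.inl rfl)⟩
      · exact ⟨hzu.symm, Or.inr (Or.inr (Or.inr rfl))⟩
    · rintro ⟨h, h' | h' | h' | h'⟩
      · exact Or.inl h'
      · exact Or.inr (Or.inl h')
      · exact absurd h' h
      · exact Or.inr (Or.inr h')
  · refine key _ h1 fun w => ?_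
    rw [hTe]
    simp only [Finset.mem_erase, Finset.mem_insert, Finset.mem_singleton]
    constructor
    · rintro (rfl | rfl | rfl)
      · exact ⟨hxu, Or.inl rfl⟩
      · exact ⟨hyu, Or.inr (Or.inl rfl)⟩
      · exact ⟨hzu, Or.inr (Or.inr (Or.inl rfl))⟩
    · rintro ⟨h, h' | h' | h' | h'⟩
      · exact Or.inl h'
      · exact Or.inr (Or.inl h')
      · exact Or.inr (Or.inr h')
      · exact absurd h' h

/-- PROOF. Suppose d ∈ dSet, c < d.  Let d' = (c+d)/2, take n, ε0 from noRS for d', ε = min ε0 (d-d'),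
η from existsRS n d ε.  The hypothesis for η and n = 1 gives N ≥ 1 and E; let
h x y z = decide ({x,y,z} ∈ E): symmetric, no K4 (four distinct vertices give a 4-set S all of whose
3-subsets are in E; if two of the four vertices coincide some face has < 3 elements), dense.
existsRS gives IsRS n μ W (d-ε) ε, hence IsRS n μ W d' ε0 (monotonicity), contradiction. -/
theorem upper (c : ℝ) (hPL : PL c) (d : ℝ) (hd : d ∈ dSet) : d ≤ c := by
  by_contra hcd
  push Not at hcd
  obtain ⟨_, _, hd⟩ := hd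
  obtain ⟨n, ε0, hε0, hno⟩ := noRS c hPL ((c + d) / 2) (by linarith)
  have hε : 0 < min ε0 (d - (c + d) / 2) := lt_min hε0 (by linarith)
  obtain ⟨η, hη, hex⟩ := existsRS n d (min ε0 (d - (c + d) / 2)) hε
  obtain ⟨N, hN, E, hE3, hK4, hdens⟩ := hd η hη 1
  have : Nonempty (Fin N) := ⟨⟨0, by omega⟩⟩
  have hs1 : ∀ x y z : Fin N, decide (({x, y, z} : Finset (Fin N)) ∈ E) =
      decide (({y, x, z} : Finset (Fin N)) ∈ E) := by
    intro x y z
    have h1 : ({x, y, z} : Finset (Fin N)) = {y, x, z} := Finset.insert_comm x y {z}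
    rw [h1]
  have hs2 : ∀ x y z : Fin N, decide (({x, y, z} : Finset (Fin N)) ∈ E) =
      decide (({x, z, y} : Finset (Fin N)) ∈ E) := by
    intro x y z
    have h1 : ({y, z} : Finset (Fin N)) = {z, y} := Finset.pair_comm y z
    have h2 : ({x, y, z} : Finset (Fin N)) = {x, z, y} := congrArg (insert x) h1
    rw [h2]
  have hk : ∀ x y z u : Fin N, ¬ (decide (({x, y, z} : Finset (Fin N)) ∈ E) = true ∧
      decide (({x, y, u} : Finset (Fin N)) ∈ E) = true ∧
      decide (({x, z, u} : Finset (Fin N)) ∈ E) = true ∧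
      decide (({y, z, u} : Finset (Fin N)) ∈ E) = true) := by
    rintro x y z u ⟨h1, h2, h3, h4⟩
    rw [decide_eq_true_eq] at h1 h2 h3 h4
    exact hK4 (k4_of hE3 h1 h2 h3 h4)
  have hden : IsDense (fun x y z : Fin N => decide (({x, y, z} : Finset (Fin N)) ∈ E)) d η := by
    intro X Y Z
    have h1 := hdens X Y Z
    rw [Fintype.card_fin]
    refine h1.trans (le_of_eq ?_)
    have h2 : ((X ×ˢ Y ×ˢ Z).filter
        (fun p => ({p.1, p.2.1, p.2.2} : Finset (Fin N)) ∈ E)) =
        ((X ×ˢ Y ×ˢ Z).filter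
        (fun p => decide (({p.1, p.2.1, p.2.2} : Finset (Fin N)) ∈ E) = true)) :=
      Finset.filter_congr fun p _ => by rw [decide_eq_true_eq]
    rw [h2]
  obtain ⟨r, μ, W, hRS⟩ := hex (Fin N)
    (fun x y z => decide (({x, y, z} : Finset (Fin N)) ∈ E)) hs1 hs2 hk hden
  refine hno (Fin r → Bool) μ W ⟨hRS.prob, hRS.nonneg, hRS.le_one, ?_, ?_⟩
  · intro i j l hij hjl hln
    have h1 := hRS.dens i j l hij hjl hln
    have h2 := min_le_right ε0 (d - (c + d) / 2)
    linarith
  · intro i j l m hij hjl hlm hmn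
    exact (hRS.k4 i j l m hij hjl hlm hmn).trans (min_le_left _ _)

theorem sSup_le (c : ℝ) (hPL : PL c) : sSup dSet ≤ c :=
  csSup_le ⟨_, half_mem⟩ (fun d hd => upper c hPL d hd)

theorem sSup_eq_half (hPL : PL (1 / 2)) : sSup dSet = 1 / 2 :=
  le_antisymm (sSup_le _ hPL) (le_csSup ⟨1, fun _ hd => hd.2.1⟩ half_mem)

end Pool.UT
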