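/-
UT Glue: the palette bound PL (1/2) from helper19's palette_le_half (uniform weights).
-/
import Pool.Agent.H95.UT.Defs
import Pool.Agent.H19.Pal.Main

set_option autoImplicit false

namespace Pool.UT

open Finset

theorem palette_half : PL (1 / 2) := by
  classical
  intro k T hT
  rcases Nat.eq_zero_or_pos k with hk | hk
  · subst hk
    have h0 : palCount 0 T = 0 := by
      unfold palCount
      rw [Finset.card_eq_zero]
      ext p
      exact Fin.elim0 p.1
    rw [h0]
    norm_num
  · have hkR : (0 : ℝ) < (k : ℝ) := by exact_mod_cast hk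
    have hfree : Pool.Agent.H19.Pal.K4Free T := by
      intro a b c d e f h1 h2 h3 h4
      exact hT ⟨a, b, c, d, e, f, h1, h2, h3, h4⟩
    have hw : Pool.Agent.H19.Pal.IsWt (fun _ : Fin k => (1 : ℝ) / (k : ℝ)) := by
      refine ⟨fun _ => by positivity, ?_⟩
      rw [Finset.sum_const, Finset.card_univ, Fintype.card_fin, nsmul_eq_mul]
      field_simp
    have h := Pool.Agent.H19.Pal.palette_le_half hfree hw
    have hcount : (palCount k T : ℝ) =
        ∑ a : Fin k, ∑ b : Fin k, ∑ c : Fin k, Pool.Agent.H19.Pal.ind (T a b c) := by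
      unfold palCount
      rw [Finset.card_filter]
      push_cast
      rw [Fintype.sum_prod_type]
      refine Finset.sum_congr rfl fun a _ => ?_
      rw [Fintype.sum_prod_type]
      refine Finset.sum_congr rfl fun b _ => ?_
      refine Finset.sum_congr rfl fun c _ => ?_
      unfold Pool.Agent.H19.Pal.ind
      by_cases h : T a b c
      · simp [h]
      · simp [h]
    have hd : Pool.Agent.H19.Pal.dens T (fun _ : Fin k => (1 : ℝ) / (k : ℝ)) =
        (1 / (k : ℝ)) ^ 3 * (palCount k T : ℝ) := by
      rw [hcount]
      unfold Pool.Agent.H19.Pal.dens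
      rw [Finset.mul_sum]
      refine Finset.sum_congr rfl fun a _ => ?_
      rw [Finset.mul_sum]
      refine Finset.sum_congr rfl fun b _ => ?_
      rw [Finset.mul_sum]
      refine Finset.sum_congr rfl fun c _ => ?_
      ring
    rw [hd] at h
    have h3 : (0 : ℝ) < (k : ℝ) ^ 3 := by positivity
    have h4 : (1 / (k : ℝ)) ^ 3 * (palCount k T : ℝ) = (palCount k T : ℝ) / (k : ℝ) ^ 3 := by
      field_simp
    rw [h4, div_le_iff₀ h3] at h
    exact h

end Pool.UT
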