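/-
UT Super1: tetrahedron counts with identified opposite colours (a = 12 and f = 34; b = 13 and
e = 24; c = 23 and d = 14) are bounded by a power of the full count.

PROOF. Let t(S) be the count with the pairs in S ⊆ {af, be, cd} identified.
t(S ∪ {af}) = E_{rest} E_a [u(a) v(a)] where u = product of the two faces containing a in the
role 12 (T(a,b,c), T(a,d,e)), v = product of the two faces containing it in the role 34
(T(b,d,f), T(c,e,f) with f = a), everything with values in [0,1]; t(S) = E_rest (E_a u)(E_f v)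
≥ E_rest (E_a u v)^2 ≥ (t(S ∪ {af}))^2 by Cauchy-Schwarz.  The same for the other two pairs (every
face contains at most one colour of each opposite pair).  Hence t(S) ≤ t(∅)^(1/2^{|S|}) and
t(S)^8 ≤ t(∅) as t ≤ 1.
-/
import Pool.Agent.H95.UT.Defs

set_option autoImplicit false

namespace Pool.UT

open Finset

/-- the tetrahedron count of a palette w with weights ν where opposite colours are identified
according to the three booleans -/
noncomputable def K4id {κ : Type} [Fintype κ] (s1 s2 s3 : Bool) (ν : κ → ℝ)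
    (w : κ → κ → κ → ℝ) : ℝ :=
  ∑ x : Fin 6 → κ, (∏ i, ν (x i)) *
    (w (x 0) (x 1) (x 2) * w (x 0) (if s3 then x 2 else x 3) (if s2 then x 1 else x 4)
      * w (x 1) (if s3 then x 2 else x 3) (if s1 then x 0 else x 5)
      * w (x 2) (if s2 then x 1 else x 4) (if s1 then x 0 else x 5))

private theorem s1_cs {R κ : Type} [Fintype R] [Fintype κ] (p : R → ℝ) (hp : IsProb p) (ν : κ → ℝ)
    (hν : IsProb ν) (u v : R → κ → ℝ) (hu : ∀ r a, 0 ≤ u r a ∧ u r a ≤ 1)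
    (hv : ∀ r a, 0 ≤ v r a ∧ v r a ≤ 1) :
    (∑ r, p r * ∑ a, ν a * (u r a * v r a)) ^ 2 ≤
      ∑ r, p r * ((∑ a, ν a * u r a) * (∑ b, ν b * v r b)) := by
  have hm0 : ∀ r, 0 ≤ ∑ a, ν a * (u r a * v r a) := fun r =>
    Finset.sum_nonneg fun a _ => mul_nonneg (hν.1 a) (mul_nonneg (hu r a).1 (hv r a).1)
  have hmU : ∀ r, ∑ a, ν a * (u r a * v r a) ≤ ∑ a, ν a * u r a := fun r =>
    Finset.sum_le_sum fun a _ => mul_le_mul_of_nonneg_left
      (mul_le_of_le_one_right (hu r a).1 (hv r a).2) (hν.1 a)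
  have hmV : ∀ r, ∑ a, ν a * (u r a * v r a) ≤ ∑ a, ν a * v r a := fun r =>
    Finset.sum_le_sum fun a _ => mul_le_mul_of_nonneg_left
      (mul_le_of_le_one_left (hv r a).1 (hu r a).2) (hν.1 a)
  have hcs : (∑ r, p r * ∑ a, ν a * (u r a * v r a)) ^ 2 ≤
      ∑ r, p r * (∑ a, ν a * (u r a * v r a)) ^ 2 := by
    have h1 := Finset.sum_sq_le_sum_mul_sum_of_sq_eq_mul (Finset.univ : Finset R)
      (r := fun r => p r * ∑ a, ν a * (u r a * v r a)) (f := p)
      (g := fun r => p r * (∑ a, ν a * (u r a * v r a)) ^ 2)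
      (fun r _ => hp.1 r) (fun r _ => mul_nonneg (hp.1 r) (sq_nonneg _))
      (fun r _ => by ring)
    rw [hp.2, one_mul] at h1
    exact h1
  refine hcs.trans (Finset.sum_le_sum fun r _ => mul_le_mul_of_nonneg_left ?_ (hp.1 r))
  rw [sq]
  exact mul_le_mul (hmU r) (hmV r) (hm0 r) ((hm0 r).trans (hmU r))

private noncomputable def s1_p4 {κ : Type} (ν : κ → ℝ) (r : κ × κ × κ × κ) : ℝ :=
  ν r.1 * (ν r.2.1 * (ν r.2.2.1 * ν r.2.2.2))

private theorem s1_p4_prob {κ : Type} [Fintype κ] (ν : κ → ℝ) (hν : IsProb ν) :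
    IsProb (s1_p4 ν) := by
  refine ⟨fun r => mul_nonneg (hν.1 _) (mul_nonneg (hν.1 _) (mul_nonneg (hν.1 _) (hν.1 _))), ?_⟩
  unfold s1_p4
  rw [Fintype.sum_prod_type]
  simp only [Fintype.sum_prod_type, ← Finset.mul_sum, hν.2, mul_one]

/-- the variables `0, 5` separated -/
private def s1_e1 (κ : Type) : (κ × κ × κ × κ) × κ × κ ≃ (Fin 6 → κ) where
  toFun p := ![p.2.1, p.1.1, p.1.2.1, p.1.2.2.1, p.1.2.2.2, p.2.2]
  invFun x := ((x 1, x 2, x 3, x 4), (x 0, x 5))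
  left_inv p := rfl
  right_inv x := by
    funext i
    fin_cases i <;> rfl

/-- the variables `1, 4` separated -/
private def s1_e2 (κ : Type) : (κ × κ × κ × κ) × κ × κ ≃ (Fin 6 → κ) where
  toFun p := ![p.1.1, p.2.1, p.1.2.1, p.1.2.2.1, p.2.2, p.1.2.2.2]
  invFun x := ((x 0, x 2, x 3, x 5), (x 1, x 4))
  left_inv p := rfl
  right_inv x := by
    funext i
    fin_cases i <;> rfl

/-- the variables `2, 3` separated -/
private def s1_e3 (κ : Type) : (κ × κ × κ × κ) × κ × κ ≃ (Fin 6 → κ) where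
  toFun p := ![p.1.1, p.1.2.1, p.2.1, p.2.2, p.1.2.2.1, p.1.2.2.2]
  invFun x := ((x 0, x 1, x 4, x 5), (x 2, x 3))
  left_inv p := rfl
  right_inv x := by
    funext i
    fin_cases i <;> rfl

private theorem s1_sum1 {κ : Type} [Fintype κ] (g : (Fin 6 → κ) → ℝ) :
    ∑ x, g x = ∑ r : κ × κ × κ × κ, ∑ a, ∑ b, g ![a, r.1, r.2.1, r.2.2.1, r.2.2.2, b] := by
  rw [← (s1_e1 κ).sum_comp g, Fintype.sum_prod_type]
  refine Finset.sum_congr rfl fun r _ => ?_
  rw [Fintype.sum_prod_type]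
  rfl

private theorem s1_sum2 {κ : Type} [Fintype κ] (g : (Fin 6 → κ) → ℝ) :
    ∑ x, g x = ∑ r : κ × κ × κ × κ, ∑ a, ∑ b, g ![r.1, a, r.2.1, r.2.2.1, b, r.2.2.2] := by
  rw [← (s1_e2 κ).sum_comp g, Fintype.sum_prod_type]
  refine Finset.sum_congr rfl fun r _ => ?_
  rw [Fintype.sum_prod_type]
  rfl

private theorem s1_sum3 {κ : Type} [Fintype κ] (g : (Fin 6 → κ) → ℝ) :
    ∑ x, g x = ∑ r : κ × κ × κ × κ, ∑ a, ∑ b, g ![r.1, r.2.1, a, b, r.2.2.1, r.2.2.2] := by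
  rw [← (s1_e3 κ).sum_comp g, Fintype.sum_prod_type]
  refine Finset.sum_congr rfl fun r _ => ?_
  rw [Fintype.sum_prod_type]
  rfl

private theorem s1_mul01 {x y : ℝ} (hx : 0 ≤ x ∧ x ≤ 1) (hy : 0 ≤ y ∧ y ≤ 1) :
    0 ≤ x * y ∧ x * y ≤ 1 :=
  ⟨mul_nonneg hx.1 hy.1, mul_le_one₀ hx.2 hy.1 hy.2⟩

private theorem s1_step1 {κ : Type} [Fintype κ] (s2 s3 : Bool) (ν : κ → ℝ) (hν : IsProb ν)
    (w : κ → κ → κ → ℝ) (hw : ∀ a b c, 0 ≤ w a b c ∧ w a b c ≤ 1) :
    (K4id true s2 s3 ν w) ^ 2 ≤ K4id false s2 s3 ν w := by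
  have h := s1_cs (s1_p4 ν) (s1_p4_prob ν hν) ν hν
    (fun r a => w a r.1 r.2.1 * w a (if s3 then r.2.1 else r.2.2.1) (if s2 then r.1 else r.2.2.2))
    (fun r b => w r.1 (if s3 then r.2.1 else r.2.2.1) b * w r.2.1 (if s2 then r.1 else r.2.2.2) b)
    (fun r a => s1_mul01 (hw _ _ _) (hw _ _ _)) (fun r a => s1_mul01 (hw _ _ _) (hw _ _ _))
  have h1 : K4id true s2 s3 ν w = ∑ r : κ × κ × κ × κ, s1_p4 ν r * ∑ a, ν a *
      ((w a r.1 r.2.1 * w a (if s3 then r.2.1 else r.2.2.1) (if s2 then r.1 else r.2.2.2)) *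
        (w r.1 (if s3 then r.2.1 else r.2.2.1) a * w r.2.1 (if s2 then r.1 else r.2.2.2) a)) := by
    unfold K4id
    rw [s1_sum1]
    refine Finset.sum_congr rfl fun r _ => ?_
    rw [Finset.mul_sum]
    refine Finset.sum_congr rfl fun a _ => ?_
    have : ∀ b, (∏ i, ν ((![a, r.1, r.2.1, r.2.2.1, r.2.2.2, b] : Fin 6 → κ) i)) =
        ν b * (ν a * s1_p4 ν r) := by
      intro b
      rw [Fin.prod_univ_six]
      unfold s1_p4
      show ν a * ν r.1 * ν r.2.1 * ν r.2.2.1 * ν r.2.2.2 * ν b = _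
      ring
    simp only [this]
    show ∑ b, ν b * (ν a * s1_p4 ν r) * (w a r.1 r.2.1 *
      w a (if s3 = true then r.2.1 else r.2.2.1) (if s2 = true then r.1 else r.2.2.2) *
      w r.1 (if s3 = true then r.2.1 else r.2.2.1) a *
      w r.2.1 (if s2 = true then r.1 else r.2.2.2) a) = _
    simp only [mul_assoc]
    rw [← Finset.sum_mul, hν.2, one_mul]
    ring
  have h2 : K4id false s2 s3 ν w = ∑ r : κ × κ × κ × κ, s1_p4 ν r *
      ((∑ a, ν a * (w a r.1 r.2.1 * w a (if s3 then r.2.1 else r.2.2.1)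
        (if s2 then r.1 else r.2.2.2))) *
      (∑ b, ν b * (w r.1 (if s3 then r.2.1 else r.2.2.1) b *
        w r.2.1 (if s2 then r.1 else r.2.2.2) b))) := by
    unfold K4id
    rw [s1_sum1]
    refine Finset.sum_congr rfl fun r _ => ?_
    rw [Finset.sum_mul_sum, Finset.mul_sum]
    refine Finset.sum_congr rfl fun a _ => ?_
    rw [Finset.mul_sum]
    refine Finset.sum_congr rfl fun b _ => ?_
    rw [Fin.prod_univ_six]
    unfold s1_p4
    show ν a * ν r.1 * ν r.2.1 * ν r.2.2.1 * ν r.2.2.2 * ν b * (w a r.1 r.2.1 *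
      w a (if s3 = true then r.2.1 else r.2.2.1) (if s2 = true then r.1 else r.2.2.2) *
      w r.1 (if s3 = true then r.2.1 else r.2.2.1) b *
      w r.2.1 (if s2 = true then r.1 else r.2.2.2) b) = _
    ring
  rw [h1, h2]
  exact h

private theorem s1_step2 {κ : Type} [Fintype κ] (s1 s3 : Bool) (ν : κ → ℝ) (hν : IsProb ν)
    (w : κ → κ → κ → ℝ) (hw : ∀ a b c, 0 ≤ w a b c ∧ w a b c ≤ 1) :
    (K4id s1 true s3 ν w) ^ 2 ≤ K4id s1 false s3 ν w := by
  have h := s1_cs (s1_p4 ν) (s1_p4_prob ν hν) ν hν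
    (fun r a => w r.1 a r.2.1 * w a (if s3 then r.2.1 else r.2.2.1) (if s1 then r.1 else r.2.2.2))
    (fun r b => w r.1 (if s3 then r.2.1 else r.2.2.1) b * w r.2.1 b (if s1 then r.1 else r.2.2.2))
    (fun r a => s1_mul01 (hw _ _ _) (hw _ _ _)) (fun r a => s1_mul01 (hw _ _ _) (hw _ _ _))
  have h1 : K4id s1 true s3 ν w = ∑ r : κ × κ × κ × κ, s1_p4 ν r * ∑ a, ν a *
      ((w r.1 a r.2.1 * w a (if s3 then r.2.1 else r.2.2.1) (if s1 then r.1 else r.2.2.2)) *
        (w r.1 (if s3 then r.2.1 else r.2.2.1) a * w r.2.1 a (if s1 then r.1 else r.2.2.2))) := by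
    unfold K4id
    rw [s1_sum2]
    refine Finset.sum_congr rfl fun r _ => ?_
    rw [Finset.mul_sum]
    refine Finset.sum_congr rfl fun a _ => ?_
    have : ∀ b, (∏ i, ν ((![r.1, a, r.2.1, r.2.2.1, b, r.2.2.2] : Fin 6 → κ) i)) =
        ν b * (ν a * s1_p4 ν r) := by
      intro b
      rw [Fin.prod_univ_six]
      unfold s1_p4
      show ν r.1 * ν a * ν r.2.1 * ν r.2.2.1 * ν b * ν r.2.2.2 = _
      ring
    simp only [this]
    show ∑ b, ν b * (ν a * s1_p4 ν r) * (w r.1 a r.2.1 *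
      w r.1 (if s3 = true then r.2.1 else r.2.2.1) a *
      w a (if s3 = true then r.2.1 else r.2.2.1) (if s1 = true then r.1 else r.2.2.2) *
      w r.2.1 a (if s1 = true then r.1 else r.2.2.2)) = _
    simp only [mul_assoc]
    rw [← Finset.sum_mul, hν.2, one_mul]
    ring
  have h2 : K4id s1 false s3 ν w = ∑ r : κ × κ × κ × κ, s1_p4 ν r *
      ((∑ a, ν a * (w r.1 a r.2.1 * w a (if s3 then r.2.1 else r.2.2.1)
        (if s1 then r.1 else r.2.2.2))) *
      (∑ b, ν b * (w r.1 (if s3 then r.2.1 else r.2.2.1) b *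
        w r.2.1 b (if s1 then r.1 else r.2.2.2)))) := by
    unfold K4id
    rw [s1_sum2]
    refine Finset.sum_congr rfl fun r _ => ?_
    rw [Finset.sum_mul_sum, Finset.mul_sum]
    refine Finset.sum_congr rfl fun a _ => ?_
    rw [Finset.mul_sum]
    refine Finset.sum_congr rfl fun b _ => ?_
    rw [Fin.prod_univ_six]
    unfold s1_p4
    show ν r.1 * ν a * ν r.2.1 * ν r.2.2.1 * ν b * ν r.2.2.2 * (w r.1 a r.2.1 *
      w r.1 (if s3 = true then r.2.1 else r.2.2.1) b *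
      w a (if s3 = true then r.2.1 else r.2.2.1) (if s1 = true then r.1 else r.2.2.2) *
      w r.2.1 b (if s1 = true then r.1 else r.2.2.2)) = _
    ring
  rw [h1, h2]
  exact h

private theorem s1_step3 {κ : Type} [Fintype κ] (s1 s2 : Bool) (ν : κ → ℝ) (hν : IsProb ν)
    (w : κ → κ → κ → ℝ) (hw : ∀ a b c, 0 ≤ w a b c ∧ w a b c ≤ 1) :
    (K4id s1 s2 true ν w) ^ 2 ≤ K4id s1 s2 false ν w := by
  have h := s1_cs (s1_p4 ν) (s1_p4_prob ν hν) ν hν
    (fun r a => w r.1 r.2.1 a * w a (if s2 then r.2.1 else r.2.2.1) (if s1 then r.1 else r.2.2.2))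
    (fun r b => w r.1 b (if s2 then r.2.1 else r.2.2.1) * w r.2.1 b (if s1 then r.1 else r.2.2.2))
    (fun r a => s1_mul01 (hw _ _ _) (hw _ _ _)) (fun r a => s1_mul01 (hw _ _ _) (hw _ _ _))
  have h1 : K4id s1 s2 true ν w = ∑ r : κ × κ × κ × κ, s1_p4 ν r * ∑ a, ν a *
      ((w r.1 r.2.1 a * w a (if s2 then r.2.1 else r.2.2.1) (if s1 then r.1 else r.2.2.2)) *
        (w r.1 a (if s2 then r.2.1 else r.2.2.1) * w r.2.1 a (if s1 then r.1 else r.2.2.2))) := by
    unfold K4id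
    rw [s1_sum3]
    refine Finset.sum_congr rfl fun r _ => ?_
    rw [Finset.mul_sum]
    refine Finset.sum_congr rfl fun a _ => ?_
    have : ∀ b, (∏ i, ν ((![r.1, r.2.1, a, b, r.2.2.1, r.2.2.2] : Fin 6 → κ) i)) =
        ν b * (ν a * s1_p4 ν r) := by
      intro b
      rw [Fin.prod_univ_six]
      unfold s1_p4
      show ν r.1 * ν r.2.1 * ν a * ν b * ν r.2.2.1 * ν r.2.2.2 = _
      ring
    simp only [this]
    show ∑ b, ν b * (ν a * s1_p4 ν r) * (w r.1 r.2.1 a *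
      w r.1 a (if s2 = true then r.2.1 else r.2.2.1) *
      w r.2.1 a (if s1 = true then r.1 else r.2.2.2) *
      w a (if s2 = true then r.2.1 else r.2.2.1) (if s1 = true then r.1 else r.2.2.2)) = _
    simp only [mul_assoc]
    rw [← Finset.sum_mul, hν.2, one_mul]
    ring
  have h2 : K4id s1 s2 false ν w = ∑ r : κ × κ × κ × κ, s1_p4 ν r *
      ((∑ a, ν a * (w r.1 r.2.1 a * w a (if s2 then r.2.1 else r.2.2.1)
        (if s1 then r.1 else r.2.2.2))) *
      (∑ b, ν b * (w r.1 b (if s2 then r.2.1 else r.2.2.1) *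
        w r.2.1 b (if s1 then r.1 else r.2.2.2)))) := by
    unfold K4id
    rw [s1_sum3]
    refine Finset.sum_congr rfl fun r _ => ?_
    rw [Finset.sum_mul_sum, Finset.mul_sum]
    refine Finset.sum_congr rfl fun a _ => ?_
    rw [Finset.mul_sum]
    refine Finset.sum_congr rfl fun b _ => ?_
    rw [Fin.prod_univ_six]
    unfold s1_p4
    show ν r.1 * ν r.2.1 * ν a * ν b * ν r.2.2.1 * ν r.2.2.2 * (w r.1 r.2.1 a *
      w r.1 b (if s2 = true then r.2.1 else r.2.2.1) *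
      w r.2.1 b (if s1 = true then r.1 else r.2.2.2) *
      w a (if s2 = true then r.2.1 else r.2.2.1) (if s1 = true then r.1 else r.2.2.2)) = _
    ring
  rw [h1, h2]
  exact h

theorem K4id_nonneg {κ : Type} [Fintype κ] (s1 s2 s3 : Bool) (ν : κ → ℝ) (hν : IsProb ν)
    (w : κ → κ → κ → ℝ) (hw : ∀ a b c, 0 ≤ w a b c ∧ w a b c ≤ 1) :
    0 ≤ K4id s1 s2 s3 ν w := by
  unfold K4id
  refine Finset.sum_nonneg fun x _ => mul_nonneg (Finset.prod_nonneg fun i _ => hν.1 _) ?_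
  exact mul_nonneg (mul_nonneg (mul_nonneg (hw _ _ _).1 (hw _ _ _).1) (hw _ _ _).1) (hw _ _ _).1

private theorem s1_le_one {κ : Type} [Fintype κ] (s1 s2 s3 : Bool) (ν : κ → ℝ) (hν : IsProb ν)
    (w : κ → κ → κ → ℝ) (hw : ∀ a b c, 0 ≤ w a b c ∧ w a b c ≤ 1) :
    K4id s1 s2 s3 ν w ≤ 1 := by
  unfold K4id
  have h1 : ∀ x : Fin 6 → κ, (∏ i, ν (x i)) *
    (w (x 0) (x 1) (x 2) * w (x 0) (if s3 then x 2 else x 3) (if s2 then x 1 else x 4)
      * w (x 1) (if s3 then x 2 else x 3) (if s1 then x 0 else x 5)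
      * w (x 2) (if s2 then x 1 else x 4) (if s1 then x 0 else x 5)) ≤ ∏ i, ν (x i) := by
    intro x
    refine mul_le_of_le_one_right (Finset.prod_nonneg fun i _ => hν.1 _) ?_
    exact (s1_mul01 (s1_mul01 (s1_mul01 (hw _ _ _) (hw _ _ _)) (hw _ _ _)) (hw _ _ _)).2
  refine (Finset.sum_le_sum fun x _ => h1 x).trans ?_
  have h2 : ∑ x : Fin 6 → κ, ∏ i, ν (x i) = (∑ a, ν a) ^ 6 := by
    rw [s1_sum1]
    have : ∀ (r : κ × κ × κ × κ) (a b : κ),
        (∏ i, ν ((![a, r.1, r.2.1, r.2.2.1, r.2.2.2, b] : Fin 6 → κ) i)) =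
        s1_p4 ν r * (ν a * ν b) := by
      intro r a b
      rw [Fin.prod_univ_six]
      unfold s1_p4
      show ν a * ν r.1 * ν r.2.1 * ν r.2.2.1 * ν r.2.2.2 * ν b = _
      ring
    simp only [this, ← Finset.mul_sum, hν.2, mul_one, one_pow]
    exact (s1_p4_prob ν hν).2
  rw [h2, hν.2, one_pow]

private theorem s1_K4gen {κ : Type} [Fintype κ] (ν : κ → ℝ) (w : κ → κ → κ → ℝ) :
    K4id false false false ν w = K4gen ν ν ν ν ν ν w w w w := by
  unfold K4id K4gen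
  rw [s1_sum1, Fintype.sum_prod_type]
  simp only [Fintype.sum_prod_type]
  -- left: `∑ a13 ∑ a23 ∑ a14 ∑ a24 ∑ a12 ∑ a34`
  have hL : ∀ a13 a23 a14 a24 a12 a34 : κ,
      (∏ i, ν ((![a12, a13, a23, a14, a24, a34] : Fin 6 → κ) i)) *
      (w ((![a12, a13, a23, a14, a24, a34] : Fin 6 → κ) 0)
          ((![a12, a13, a23, a14, a24, a34] : Fin 6 → κ) 1)
          ((![a12, a13, a23, a14, a24, a34] : Fin 6 → κ) 2) *
        w ((![a12, a13, a23, a14, a24, a34] : Fin 6 → κ) 0)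
          (if false = true then (![a12, a13, a23, a14, a24, a34] : Fin 6 → κ) 2
            else (![a12, a13, a23, a14, a24, a34] : Fin 6 → κ) 3)
          (if false = true then (![a12, a13, a23, a14, a24, a34] : Fin 6 → κ) 1
            else (![a12, a13, a23, a14, a24, a34] : Fin 6 → κ) 4) *
        w ((![a12, a13, a23, a14, a24, a34] : Fin 6 → κ) 1)
          (if false = true then (![a12, a13, a23, a14, a24, a34] : Fin 6 → κ) 2
            else (![a12, a13, a23, a14, a24, a34] : Fin 6 → κ) 3)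
          (if false = true then (![a12, a13, a23, a14, a24, a34] : Fin 6 → κ) 0
            else (![a12, a13, a23, a14, a24, a34] : Fin 6 → κ) 5) *
        w ((![a12, a13, a23, a14, a24, a34] : Fin 6 → κ) 2)
          (if false = true then (![a12, a13, a23, a14, a24, a34] : Fin 6 → κ) 1
            else (![a12, a13, a23, a14, a24, a34] : Fin 6 → κ) 4)
          (if false = true then (![a12, a13, a23, a14, a24, a34] : Fin 6 → κ) 0
            else (![a12, a13, a23, a14, a24, a34] : Fin 6 → κ) 5)) =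
      ν a12 * ν a13 * ν a14 * ν a23 * ν a24 * ν a34 *
        (w a12 a13 a23 * w a12 a14 a24 * w a13 a14 a34 * w a23 a24 a34) := by
    intro a13 a23 a14 a24 a12 a34
    rw [Fin.prod_univ_six]
    show ν a12 * ν a13 * ν a23 * ν a14 * ν a24 * ν a34 *
      (w a12 a13 a23 * w a12 a14 a24 * w a13 a14 a34 * w a23 a24 a34) = _
    ring
  calc _ = ∑ a13, ∑ a23, ∑ a14, ∑ a24, ∑ a12, ∑ a34,
        ν a12 * ν a13 * ν a14 * ν a23 * ν a24 * ν a34 *
        (w a12 a13 a23 * w a12 a14 a24 * w a13 a14 a34 * w a23 a24 a34) := by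
        refine Finset.sum_congr rfl fun a13 _ => Finset.sum_congr rfl fun a23 _ =>
          Finset.sum_congr rfl fun a14 _ => Finset.sum_congr rfl fun a24 _ =>
          Finset.sum_congr rfl fun a12 _ => Finset.sum_congr rfl fun a34 _ => ?_
        exact hL a13 a23 a14 a24 a12 a34
    _ = ∑ a13, ∑ a23, ∑ a14, ∑ a12, ∑ a24, ∑ a34,
        ν a12 * ν a13 * ν a14 * ν a23 * ν a24 * ν a34 *
        (w a12 a13 a23 * w a12 a14 a24 * w a13 a14 a34 * w a23 a24 a34) := by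
        refine Finset.sum_congr rfl fun a13 _ => Finset.sum_congr rfl fun a23 _ =>
          Finset.sum_congr rfl fun a14 _ => Finset.sum_comm
    _ = ∑ a13, ∑ a23, ∑ a12, ∑ a14, ∑ a24, ∑ a34,
        ν a12 * ν a13 * ν a14 * ν a23 * ν a24 * ν a34 *
        (w a12 a13 a23 * w a12 a14 a24 * w a13 a14 a34 * w a23 a24 a34) := by
        refine Finset.sum_congr rfl fun a13 _ => Finset.sum_congr rfl fun a23 _ =>
          Finset.sum_comm
    _ = ∑ a13, ∑ a12, ∑ a23, ∑ a14, ∑ a24, ∑ a34,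
        ν a12 * ν a13 * ν a14 * ν a23 * ν a24 * ν a34 *
        (w a12 a13 a23 * w a12 a14 a24 * w a13 a14 a34 * w a23 a24 a34) := by
        refine Finset.sum_congr rfl fun a13 _ => Finset.sum_comm
    _ = ∑ a12, ∑ a13, ∑ a23, ∑ a14, ∑ a24, ∑ a34,
        ν a12 * ν a13 * ν a14 * ν a23 * ν a24 * ν a34 *
        (w a12 a13 a23 * w a12 a14 a24 * w a13 a14 a34 * w a23 a24 a34) := Finset.sum_comm
    _ = ∑ a12, ∑ a13, ∑ a14, ∑ a23, ∑ a24, ∑ a34,
        ν a12 * ν a13 * ν a14 * ν a23 * ν a24 * ν a34 *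
        (w a12 a13 a23 * w a12 a14 a24 * w a13 a14 a34 * w a23 a24 a34) := by
        refine Finset.sum_congr rfl fun a12 _ => Finset.sum_congr rfl fun a13 _ =>
          Finset.sum_comm

private theorem s1_sq {t t' : ℝ} (h0 : 0 ≤ t) (h1 : t ≤ 1) : t ^ 2 ≤ t := by
  nlinarith

theorem K4id_pow_le {κ : Type} [Fintype κ] (s1 s2 s3 : Bool) (ν : κ → ℝ) (hν : IsProb ν)
    (w : κ → κ → κ → ℝ) (hw : ∀ a b c, 0 ≤ w a b c ∧ w a b c ≤ 1) :
    (K4id s1 s2 s3 ν w) ^ 8 ≤ K4gen ν ν ν ν ν ν w w w w := by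
  have h0 := fun a b c => K4id_nonneg (κ := κ) a b c ν hν w hw
  have hle := fun a b c => s1_le_one (κ := κ) a b c ν hν w hw
  have a1 : ∀ b c, (K4id s1 b c ν w) ^ 2 ≤ K4id false b c ν w := by
    intro b c
    cases s1
    · exact s1_sq (t' := 0) (h0 _ _ _) (hle _ _ _)
    · exact s1_step1 b c ν hν w hw
  have a2 : ∀ c, (K4id false s2 c ν w) ^ 2 ≤ K4id false false c ν w := by
    intro c
    cases s2
    · exact s1_sq (t' := 0) (h0 _ _ _) (hle _ _ _)
    · exact s1_step2 false c ν hν w hw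
  have a3 : (K4id false false s3 ν w) ^ 2 ≤ K4id false false false ν w := by
    cases s3
    · exact s1_sq (t' := 0) (h0 _ _ _) (hle _ _ _)
    · exact s1_step3 false false ν hν w hw
  rw [← s1_K4gen]
  calc (K4id s1 s2 s3 ν w) ^ 8 = (((K4id s1 s2 s3 ν w) ^ 2) ^ 2) ^ 2 := by ring
    _ ≤ ((K4id false s2 s3 ν w) ^ 2) ^ 2 := by
        refine pow_le_pow_left₀ (by positivity) ?_ 2
        exact pow_le_pow_left₀ (by positivity) (a1 s2 s3) 2
    _ ≤ (K4id false false s3 ν w) ^ 2 := pow_le_pow_left₀ (by positivity) (a2 s3) 2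
    _ ≤ _ := a3

end Pool.UT
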